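import Pool.Agent.Lib.ED.Blue

/-! Project ed43, rows ARC1 and ARC2: paths along a level and across levels. -/

open Set Metric MeasureTheory
open scoped ENNReal NNReal Classical RealInnerProductSpace

namespace Pool.Agent.Lib.ED

open Pool.Agent.Lib.MP_523900_gt

namespace ARC57

variable {X : Type} [MetricSpace X] [MeasurableSpace X] [BorelSpace X] {C : Cx X}

theorem lv_nonneg (h : C.Ok) {r : ℝ} (hr : C.Lv r) : 0 ≤ r := by
  have h1 := (abs_le.1 hr).1
  have h2 := h.far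
  have h3 := h.Rpos
  linarith

theorem abs_mid {R y₁ y₂ y : ℝ} (h₁ : |y₁| ≤ R) (h₂ : |y₂| ≤ R) (a : y₁ ≤ y) (b : y ≤ y₂) :
    |y| ≤ R :=
  abs_le.2 ⟨(abs_le.1 h₁).1.trans a, b.trans (abs_le.1 h₂).2⟩

theorem gam_lip (h : C.Ok) (g : C.GamF) {r y y' : ℝ} (hr : C.Lv r) (hy : |y| ≤ 2 * C.R)
    (hy' : |y'| ≤ 2 * C.R) : dist (C.gam r y) (C.gam r y') ≤ 10 * |y - y'| := by
  have h1 := h.up (C.gam r y) (C.gam r y')
  have h2 := g.lip r y r y' hr hy hr hy'
  rw [sub_self, abs_zero] at h2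
  linarith

theorem gam_cont (h : C.Ok) (g : C.GamF) {r y₁ y₂ : ℝ} (hr : C.Lv r) (h₁ : |y₁| ≤ 2 * C.R)
    (h₂ : |y₂| ≤ 2 * C.R) : ContinuousOn (C.gam r) (Icc y₁ y₂) :=
  (LipschitzOnWith.of_dist_le' (K := 10) fun u hu v hv => by
    rw [Real.dist_eq]
    exact gam_lip h g hr (abs_mid h₁ h₂ hu.1 hu.2) (abs_mid h₁ h₂ hv.1 hv.2)).continuousOn

theorem vol_ne_top {Z : Set ℝ} (hZ : Z ⊆ Ioc (-Real.pi) Real.pi) : volume Z ≠ ⊤ :=
  ne_top_of_le_ne_top (by rw [Real.volume_Ioc]; exact ENNReal.ofReal_ne_top) (measure_mono hZ)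

omit [MeasurableSpace X] [BorelSpace X] in
theorem strip_meas (C : Cx X) (u v : ℝ) : MeasurableSet (C.strip u v) := by
  have h1 : MeasurableSet {z : ℂ | |z.re| ≤ 14 * C.R} :=
    measurableSet_le (by fun_prop) measurable_const
  have h2 : MeasurableSet {z : ℂ | u ≤ z.im} := measurableSet_le measurable_const (by fun_prop)
  have h3 : MeasurableSet {z : ℂ | z.im < v} := measurableSet_lt (by fun_prop) measurable_const
  exact h1.inter (h2.inter h3)

omit [MeasurableSpace X] [BorelSpace X] in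
theorem arc_add (g : C.GamF) (r : ℝ) {a u v : ℝ} (h1 : a ≤ u) (h2 : u ≤ v) :
    C.arc r (C.strip a v) = C.arc r (C.strip a u) + C.arc r (C.strip u v) := by
  have hU : C.th r (C.strip a v) = C.th r (C.strip a u) ∪ C.th r (C.strip u v) := by
    ext θ
    constructor
    · rintro ⟨p1, p2, p3, p4, p5⟩
      rcases lt_or_ge (C.pr (C.E (pol r θ))).im u with q | q
      · exact Or.inl ⟨p1, p2, p3, p4, q⟩
      · exact Or.inr ⟨p1, p2, p3, q, p5⟩
    · rintro (⟨p1, p2, p3, p4, p5⟩ | ⟨p1, p2, p3, p4, p5⟩)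
      · exact ⟨p1, p2, p3, p4, p5.trans_le h2⟩
      · exact ⟨p1, p2, p3, h1.trans p4, p5⟩
  have hD : Disjoint (C.th r (C.strip a u)) (C.th r (C.strip u v)) := by
    rw [Set.disjoint_left]
    rintro θ ⟨_, _, _, _, p5⟩ ⟨_, _, _, p4, _⟩
    exact absurd p5 (not_lt.2 p4)
  unfold Cx.arc
  rw [hU, measure_union hD (g.meas r _ (strip_meas C u v)),
    ENNReal.toReal_add (vol_ne_top fun _ hθ => hθ.1) (vol_ne_top fun _ hθ => hθ.1), mul_add]

omit [MeasurableSpace X] [BorelSpace X] in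
theorem arc_self (C : Cx X) (r a : ℝ) : C.arc r (C.strip a a) = 0 := by
  have hU : C.th r (C.strip a a) = ∅ := by
    rw [eq_empty_iff_forall_notMem]
    rintro θ ⟨_, _, _, p4, p5⟩
    exact absurd p5 (not_lt.2 p4)
  unfold Cx.arc
  rw [hU, measure_empty, ENNReal.toReal_zero, mul_zero]

end ARC57

open ARC57

theorem r_ARC1 : R_ARC1 := by
  intro hG X _ _ _ C h r y₁ y₂ Z hr hy h₁ h₂ hZ hcov
  have g := hG X C h
  have hr0 := lv_nonneg h hr
  let Φ : ℝ → ℝ := fun θ => dist (C.gam r y₁) (C.E (pol r θ))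
  let Z' : Set ℝ := {θ | θ ∈ Z ∧ pol r θ ∈ C.D}
  have hL : LipschitzOnWith r.toNNReal Φ Z' := LipschitzOnWith.of_dist_le' fun u hu v hv => by
    have h3 := g.ang r u v hr0 hu.2 hv.2
    rw [Real.dist_eq u v]
    exact (dist_dist_dist_le_right _ _ _).trans h3
  have hc : ContinuousOn (fun y => dist (C.gam r y₁) (C.gam r y)) (Icc y₁ y₂) :=
    continuous_dist.comp_continuousOn (continuousOn_const.prodMk (gam_cont h g hr h₁ h₂))
  have hsub : Ioo 0 (dist (C.gam r y₁) (C.gam r y₂)) ⊆ Φ '' Z' := by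
    intro d hd
    have := intermediate_value_Ioo hy hc (show d ∈ Ioo (dist (C.gam r y₁) (C.gam r y₁))
      (dist (C.gam r y₁) (C.gam r y₂)) by rwa [dist_self])
    obtain ⟨y, hy', rfl⟩ := this
    obtain ⟨θ, hθ, hD, hE⟩ := hcov y hy'
    exact ⟨θ, ⟨hθ, hD⟩, by simp only [Φ, hE]⟩
  have h4 := hL.hausdorffMeasure_image_le (d := 1) zero_le_one
  rw [hausdorffMeasure_real, ENNReal.rpow_one] at h4
  have h5 : ENNReal.ofReal (dist (C.gam r y₁) (C.gam r y₂)) ≤ ENNReal.ofReal r * volume Z := by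
    calc ENNReal.ofReal (dist (C.gam r y₁) (C.gam r y₂))
        = volume (Ioo 0 (dist (C.gam r y₁) (C.gam r y₂))) := by rw [Real.volume_Ioo, sub_zero]
      _ ≤ volume (Φ '' Z') := measure_mono hsub
      _ ≤ ENNReal.ofReal r * volume Z' := h4
      _ ≤ ENNReal.ofReal r * volume Z :=
        mul_le_mul_right (measure_mono fun _ hθ => hθ.1) _
  have h6 := ENNReal.toReal_mono (ENNReal.mul_ne_top ENNReal.ofReal_ne_top (vol_ne_top hZ)) h5
  rwa [ENNReal.toReal_ofReal dist_nonneg, ENNReal.toReal_mul, ENNReal.toReal_ofReal hr0] at h6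

theorem r_ARC2 : R_ARC2 := by
  intro hG hA X _ _ _ C h
  have g := hG X C h
  refine ⟨fun r y₁ y₂ hr hy h₁ h₂ => ⟨?_, ?_⟩, fun r r' y hr hr' hy => ?_⟩
  · have := pth_of_dom (γ := C.gam r) (G := fun y => C.arc r (C.strip y₁ y)) hy
      (gam_cont h g hr h₁ h₂) fun u v p1 p2 p3 => by
        have hu := abs_mid h₁ h₂ p1 (p2.trans p3)
        have hv := abs_mid h₁ h₂ (p1.trans p2) p3
        have key := hA X C h r u v (C.th r (C.strip u v)) hr p2 hu hv (fun _ hθ => hθ.1)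
          fun y hy' => by
            have hy2 := abs_mid hu hv hy'.1.le hy'.2.le
            obtain ⟨θ, q1, q2, q3⟩ := g.polar (C.gam r y)
            rw [g.lev r y hr hy2] at q2 q3
            refine ⟨θ, ⟨q1, q2, ?_⟩, q2, q3⟩
            rw [q3]
            exact ⟨g.re r y hr hy2, by rw [g.im]; exact hy'.1.le, by rw [g.im]; exact hy'.2⟩
        have e := arc_add g r p1 p2
        show _ ≤ C.arc r (C.strip y₁ v) - C.arc r (C.strip y₁ u)
        rw [e, add_sub_cancel_left]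
        exact key
    simpa only [arc_self, sub_zero] using this
  · refine pth_of_lip (γ := C.gam r) hy fun u v p1 p2 p3 => ?_
    have := gam_lip h g hr (abs_mid h₁ h₂ p1 (p2.trans p3)) (abs_mid h₁ h₂ (p1.trans p2) p3)
    rwa [abs_sub_comm, abs_of_nonneg (sub_nonneg.2 p2)] at this
  · have key : ∀ s s' : ℝ, C.Lv s → C.Lv s' → s ≤ s' →
        Pth (C.gam s y) (C.gam s' y) (4 * |s - s'|) ∅ := by
      intro s s' hs hs' hss
      have lv : ∀ u, s ≤ u → u ≤ s' → C.Lv u := fun u a b =>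
        abs_mid hs hs' (sub_le_sub_right a _) (sub_le_sub_right b _)
      have := pth_of_lip (γ := fun u => C.gam u y) (K := 4) hss fun u v p1 p2 p3 => by
        have h1 := h.up (C.gam u y) (C.gam v y)
        have h2 := g.lip u y v y (lv u p1 (p2.trans p3)) hy (lv v (p1.trans p2) p3) hy
        rw [sub_self, abs_zero, abs_sub_comm, abs_of_nonneg (sub_nonneg.2 p2)] at h2
        linarith
      rw [abs_sub_comm, abs_of_nonneg (sub_nonneg.2 hss)]
      exact this.mono le_rfl (empty_subset _)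
    rcases le_total r r' with q | q
    · exact key r r' hr hr' q
    · rw [abs_sub_comm]
      exact (key r' r hr' hr q).symm

end Pool.Agent.Lib.ED
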