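import Pool.Agent.Lib.ED.Blue

/-! Project ed43, row ARE: the exponential map does not increase area. -/

open Set Metric MeasureTheory
open scoped ENNReal NNReal Classical RealInnerProductSpace

noncomputable section

namespace Pool.Agent.Lib.ED.ARE54

open Pool.Agent.Lib.MP_523900_gt

/-- The points of `D` that can be pushed a little further out. -/
def inn (D : Set ℂ) : Set ℂ := ⋃ n : ℕ, (fun a : ℂ => (1 + 1 / ((n : ℝ) + 1)) • a) ⁻¹' D

theorem inn_meas {D : Set ℂ} (hD : MeasurableSet D) : MeasurableSet (inn D) :=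
  MeasurableSet.iUnion fun n => (measurable_const_smul (1 + 1 / ((n : ℝ) + 1))) hD

theorem inn_spec {D : Set ℂ} {a : ℂ} (ha : a ∈ inn D) :
    ∃ b ∈ D, ∃ t ∈ Ioo (0 : ℝ) 1, a = t • b := by
  obtain ⟨n, hn⟩ := mem_iUnion.1 ha
  have h0 : (0 : ℝ) < 1 / ((n : ℝ) + 1) := by positivity
  have h1 : (1 : ℝ) < 1 + 1 / ((n : ℝ) + 1) := by linarith
  refine ⟨_, hn, (1 + 1 / ((n : ℝ) + 1))⁻¹, ⟨by positivity, inv_lt_one_of_one_lt₀ h1⟩, ?_⟩
  rw [smul_smul, inv_mul_cancel₀ (by linarith), one_smul]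

theorem null_bdd {D : Set ℂ} (hD : MeasurableSet D) (hfin : volume D ≠ ⊤)
    (hstar : ∀ a ∈ D, ∀ t ∈ Icc (0 : ℝ) 1, t • a ∈ D) : volume (D \ inn D) = 0 := by
  have hsub : inn D ⊆ D := by
    intro a ha
    obtain ⟨b, hb, t, ht, rfl⟩ := inn_spec ha
    exact hstar b hb t ⟨ht.1.le, ht.2.le⟩
  have hle : ∀ n : ℕ, ENNReal.ofReal (((1 + 1 / ((n : ℝ) + 1)) ^ 2)⁻¹) * volume D ≤
      volume (inn D) := by
    intro n
    have h0 : (0 : ℝ) < 1 + 1 / ((n : ℝ) + 1) := by positivity
    have := Measure.addHaar_preimage_smul (volume : Measure ℂ) h0.ne' D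
    rw [Complex.finrank_real_complex, abs_of_pos (by positivity)] at this
    rw [← this]
    exact measure_mono (subset_iUnion
      (fun n : ℕ => (fun a : ℂ => (1 + 1 / ((n : ℝ) + 1)) • a) ⁻¹' D) n)
  have hlim : Filter.Tendsto (fun n : ℕ =>
      ENNReal.ofReal (((1 + 1 / ((n : ℝ) + 1)) ^ 2)⁻¹) * volume D) Filter.atTop
      (nhds (1 * volume D)) := by
    refine ENNReal.Tendsto.mul_const ?_ (Or.inl one_ne_zero)
    have h1 : Filter.Tendsto (fun n : ℕ => ((1 + 1 / ((n : ℝ) + 1)) ^ 2)⁻¹) Filter.atTop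
        (nhds (((1 + 0 : ℝ) ^ 2)⁻¹)) :=
      ((tendsto_const_nhds.add tendsto_one_div_add_atTop_nhds_zero_nat).pow 2).inv₀ (by norm_num)
    have h2 := ENNReal.tendsto_ofReal h1
    simpa using h2
  have hge : volume D ≤ volume (inn D) := by
    have := le_of_tendsto' hlim hle
    rwa [one_mul] at this
  rw [measure_sdiff hsub (inn_meas hD).nullMeasurableSet
    (ne_top_of_le_ne_top hfin (measure_mono hsub))]
  exact tsub_eq_zero_of_le hge

theorem null_diff {D : Set ℂ} (hD : MeasurableSet D)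
    (hstar : ∀ a ∈ D, ∀ t ∈ Icc (0 : ℝ) 1, t • a ∈ D) : volume (D \ inn D) = 0 := by
  have hsub : D \ inn D ⊆ ⋃ M : ℕ, ((D ∩ ball 0 M) \ inn (D ∩ ball 0 M)) := by
    intro a ha
    obtain ⟨M, hM⟩ := exists_nat_gt ‖a‖
    refine mem_iUnion.2 ⟨M, ⟨ha.1, by simpa using hM⟩, fun h => ha.2 ?_⟩
    obtain ⟨n, hn⟩ := mem_iUnion.1 h
    exact mem_iUnion.2 ⟨n, hn.1⟩
  refine measure_mono_null hsub (measure_iUnion_null fun M => null_bdd
    (hD.inter measurableSet_ball)
    (ne_top_of_le_ne_top measure_ball_lt_top.ne (measure_mono inter_subset_right)) ?_)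
  intro a ha t ht
  refine ⟨hstar a ha.1 t ht, ?_⟩
  have h1 : ‖a‖ < M := by simpa using ha.2
  rw [mem_ball_zero_iff, norm_smul, Real.norm_of_nonneg ht.1]
  exact lt_of_le_of_lt (mul_le_of_le_one_left (norm_nonneg _) ht.2) h1

variable {X : Type} [MetricSpace X] [MeasurableSpace X] [BorelSpace X]

/-- An isometric piece. -/
theorem vol_le_image {E : ℂ → X} {W : Set ℂ}
    (h : ∀ b ∈ W, ∀ c ∈ W, dist (E b) (E c) = ‖b - c‖) : volume W ≤ μHE[2] (E '' W) := by
  have hinj : InjOn E W := by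
    intro b hb c hc hbc
    have := h b hb c hc
    rw [hbc, dist_self] at this
    exact sub_eq_zero.1 (norm_eq_zero.1 this.symm)
  have hL : LipschitzOnWith 1 (Function.invFunOn E W) (E '' W) := by
    refine LipschitzOnWith.of_dist_le_mul ?_
    rintro _ ⟨b, hb, rfl⟩ _ ⟨c, hc, rfl⟩
    rw [hinj.leftInvOn_invFunOn hb, hinj.leftInvOn_invFunOn hc, h b hb c hc, dist_eq_norm]
    simp
  have := muHE_image_le hL
  rw [hinj.leftInvOn_invFunOn.image_image, muHE_complex] at this
  simpa using this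

/-- An injective local isometry does not decrease area. -/
theorem vol_le_of_loc {E : ℂ → X} {W : Set ℂ} {U : Set X} (hW : MeasurableSet W)
    (hc : ContinuousOn E W) (hinj : InjOn E W) (hU : E '' W ⊆ U)
    (hloc : ∀ a ∈ W, ∃ η : ℝ, 0 < η ∧ ∀ b ∈ W ∩ ball a η, ∀ c ∈ W ∩ ball a η,
      dist (E b) (E c) = ‖b - c‖) : volume W ≤ μHE[2] U := by
  choose! η hη hiso using hloc
  obtain ⟨s, hsW, hsc, hcov⟩ := TopologicalSpace.countable_cover_nhdsWithin
    (f := fun a => ball a (η a)) (s := W)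
    (fun a ha => mem_nhdsWithin_of_mem_nhds (ball_mem_nhds a (hη a ha)))
  rcases s.eq_empty_or_nonempty with rfl | hne
  · have : W = ∅ := by simpa using hcov
    simp [this]
  obtain ⟨u, hu⟩ := hsc.exists_eq_range hne
  have huW : ∀ n, u n ∈ W := fun n => hsW (hu ▸ mem_range_self n)
  let B : ℕ → Set ℂ := fun n => ball (u n) (η (u n))
  let P : ℕ → Set ℂ := fun n => W ∩ disjointed B n
  have hPm : ∀ n, MeasurableSet (P n) := fun n =>
    hW.inter (MeasurableSet.disjointed (fun _ => measurableSet_ball) n)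
  have hPW : ∀ n, P n ⊆ W := fun n => inter_subset_left
  have hPB : ∀ n, P n ⊆ W ∩ B n := fun n => inter_subset_inter_right _ (disjointed_subset B n)
  have hcov' : W ⊆ ⋃ n, P n := by
    intro a ha
    have h1 := hcov ha
    rw [hu, biUnion_range] at h1
    have h2 : a ∈ ⋃ n, disjointed B n := by rw [iUnion_disjointed]; exact h1
    obtain ⟨n, hn⟩ := mem_iUnion.1 h2
    exact mem_iUnion.2 ⟨n, ha, hn⟩
  have hdis : Pairwise (Function.onFun Disjoint fun n => E '' P n) := by
    intro i j hij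
    have h1 : Disjoint (P i) (P j) :=
      (disjoint_disjointed B hij).mono inter_subset_right inter_subset_right
    refine Set.disjoint_left.2 ?_
    rintro _ ⟨b, hb, rfl⟩ ⟨c, hc', hcb⟩
    have hcb' : c = b := hinj (hPW j hc') (hPW i hb) hcb
    exact Set.disjoint_left.1 h1 hb (hcb' ▸ hc')
  have hIm : ∀ n, MeasurableSet (E '' P n) := fun n =>
    (hPm n).image_of_continuousOn_injOn (hc.mono (hPW n)) (hinj.mono (hPW n))
  calc volume W ≤ ∑' n, volume (P n) := (measure_mono hcov').trans (measure_iUnion_le _)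
    _ ≤ ∑' n, μHE[2] (E '' P n) := ENNReal.tsum_le_tsum fun n =>
        vol_le_image fun b hb c hc => hiso (u n) (huW n) b (hPB n hb) c (hPB n hc)
    _ = μHE[2] (⋃ n, E '' P n) := (measure_iUnion hdis hIm).symm
    _ ≤ μHE[2] U := measure_mono (iUnion_subset fun n => (image_mono (hPW n)).trans hU)

end Pool.Agent.Lib.ED.ARE54

namespace Pool.Agent.Lib.ED

open ARE54

theorem r_ARE : R_ARE := by
  intro hRAY hDEV hHIN hCLO X _ _ _ V hV φ δ hφ U hU
  have R := hRAY X V hV φ δ hφ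
  obtain ⟨hcl, hinj⟩ := hCLO X V hV φ δ hφ
  have hlip := hHIN X V hV φ δ hφ
  set D := dom φ δ with hD
  set E := ex φ δ with hE
  have hDm : MeasurableSet D := hcl.measurableSet
  have hcont : ContinuousOn E D := by
    have : LipschitzOnWith 1 E D := by
      refine LipschitzOnWith.of_dist_le_mul fun a ha b hb => ?_
      rw [dist_eq_norm a b]
      simpa using hlip a ha b hb
    exact this.continuousOn
  have hsub : inn D ⊆ D := by
    intro a ha
    obtain ⟨b, hb, t, ht, rfl⟩ := inn_spec ha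
    exact R.star b hb t ⟨ht.1.le, ht.2.le⟩
  have hDU : MeasurableSet (D ∩ E ⁻¹' U) := by
    have h1 : Measurable (D.domRestrict E) := hcont.domRestrict.measurable
    have h2 := hDm.subtype_image (h1 hU)
    convert h2 using 1
    ext a
    constructor
    · rintro ⟨ha, hb⟩
      exact ⟨⟨a, ha⟩, hb, rfl⟩
    · rintro ⟨⟨b, hb⟩, hc, rfl⟩
      exact ⟨hb, hc⟩
  let W : Set ℂ := (D ∩ E ⁻¹' U) ∩ inn D
  have hWD : W ⊆ D := fun a ha => ha.1.1
  have hW : volume W ≤ μHE[2] U := by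
    refine vol_le_of_loc (E := E) (hDU.inter (inn_meas hDm)) (hcont.mono hWD) ?_ ?_ ?_
    · intro a ha b hb hab
      obtain ⟨c, hc, t, ht, rfl⟩ := inn_spec hb.2
      exact hinj c hc a (hWD ha) t ⟨ht.1.le, ht.2⟩ hab
    · rintro _ ⟨a, ha, rfl⟩
      exact ha.1.2
    · intro a ha
      rcases eq_or_ne a 0 with rfl | ha0
      · refine ⟨δ, hφ.pos, fun b hb c hc => ?_⟩
        rw [hE, (R.small b (by simpa using hb.2)).2, (R.small c (by simpa using hc.2)).2]
        exact hφ.iso b hb.2 c hc.2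
      · obtain ⟨c, hc, t, ht, hact⟩ := inn_spec ha.2
        have hc0 : c ≠ 0 := by
          rintro rfl
          exact ha0 (by simpa using hact)
        have hoff : E a ∉ V := by
          rw [hact]
          exact R.off c hc hc0 t ht
        obtain ⟨ψ, η, -, hψ, -, -, heq⟩ := hDEV X V hV φ δ hφ a (hWD ha) hoff
        refine ⟨η, hψ.pos, fun b hb c hc => ?_⟩
        rw [hE, heq b (hWD hb.1) hb.2, heq c (hWD hc.1) hc.2]
        exact hψ.iso b hb.2 c hc.2
  have hcov : D ∩ E ⁻¹' U ⊆ W ∪ (D \ inn D) := by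
    intro a ha
    by_cases h : a ∈ inn D
    · exact Or.inl ⟨ha, h⟩
    · exact Or.inr ⟨ha.1, h⟩
  calc volume (D ∩ E ⁻¹' U) ≤ volume W + volume (D \ inn D) :=
        (measure_mono hcov).trans (measure_union_le _ _)
    _ ≤ μHE[2] U := by rw [null_diff hDm R.star, add_zero]; exact hW

end Pool.Agent.Lib.ED
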