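import Pool.Agent.Lib.ED.Blue

/-! Row AVG: averaging over the position of the levels. -/

open Set Metric MeasureTheory
open scoped ENNReal NNReal Classical RealInnerProductSpace

namespace Pool.Agent.Lib.ED

open Pool.Agent.Lib.MP_523900_gt

namespace AVG62

lemma pol_cont : Continuous fun p : ℝ × ℝ => pol p.1 p.2 := by
  unfold pol; fun_prop

/-- the length of the part of a circle in `W` -/
noncomputable def clen (W : Set ℂ) (r : ℝ) : ℝ≥0∞ :=
  ENNReal.ofReal r * (volume.restrict (Ioc (-Real.pi) Real.pi)) {θ | pol r θ ∈ W}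

lemma clen_meas {W : Set ℂ} (hW : MeasurableSet W) : Measurable (clen W) :=
  ENNReal.measurable_ofReal.mul (measurable_measure_prodMk_left (pol_cont.measurable hW))

lemma clen_int {W : Set ℂ} (hW : MeasurableSet W) : ∫⁻ r in Ioi 0, clen W r = volume W := by
  have hm : Measurable fun p : ℝ × ℝ => ENNReal.ofReal p.1 * W.indicator 1 (pol p.1 p.2) :=
    (ENNReal.measurable_ofReal.comp measurable_fst).mul
      ((measurable_one.indicator hW).comp pol_cont.measurable)
  have e : ∀ p : ℝ × ℝ, Complex.polarCoord.symm p = pol p.1 p.2 := fun p => by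
    rw [Complex.polarCoord_symm_apply, pol, Complex.exp_mul_I]; push_cast; rfl
  rw [← lintegral_indicator_one hW, ← Complex.lintegral_comp_polarCoord_symm]
  simp only [e, smul_eq_mul]
  rw [polarCoord_target, Measure.volume_eq_prod, setLIntegral_prod _ hm.aemeasurable]
  refine lintegral_congr fun r => ?_
  have hr : MeasurableSet {θ | pol r θ ∈ W} :=
    (pol_cont.measurable.comp measurable_prodMk_left) hW
  rw [lintegral_const_mul' _ _ ENNReal.ofReal_ne_top, clen, ← restrict_Ioo_eq_restrict_Ioc,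
    ← lintegral_indicator_one hr]
  rfl

lemma sum_le {f : ℝ → ℝ≥0∞} (t h : ℝ) (hh : 0 ≤ h) (M : ℕ) :
    ∑ j ∈ Finset.range M, ∫⁻ τ in Ioc 0 h, f (t + τ + h * j) =
      ∫⁻ r in Ioc t (t + h * M), f r := by
  induction M with
  | zero => simp
  | succ M ih =>
    have h0 : 0 ≤ h * M := by positivity
    have e := (measurePreserving_add_right volume (t + h * M)).setLIntegral_comp_preimage_emb
      (measurableEmbedding_addRight _) f (Ioc (t + h * M) (t + h * (M + 1 : ℕ)))
    rw [preimage_add_const_Ioc, sub_self,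
      show t + h * (M + 1 : ℕ) - (t + h * M) = h by push_cast; ring] at e
    rw [Finset.sum_range_succ, ih, ← Ioc_union_Ioc_eq_Ioc (b := t + h * M)
      (c := t + h * (M + 1 : ℕ)) (by linarith)
      (by push_cast; linarith), lintegral_union measurableSet_Ioc (Ioc_disjoint_Ioc_of_le le_rfl),
      ← e]
    congr 2
    funext τ
    congr 1; ring

end AVG62

open AVG62 in
theorem r_AVG : R_AVG := by
  intro _ X _ _ _ C h t₀ ε M U ht hε hU hfin
  have hpr : Continuous C.pr :=
    (LipschitzWith.of_dist_le_mul (K := 1) fun a b => by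
      simpa [dist_eq_norm] using h.lo a b).continuous
  have hE : ContinuousOn C.E C.D :=
    (LipschitzOnWith.of_dist_le_mul (K := 1) fun a ha b hb => by
      simpa [dist_eq_norm] using h.lip a ha b hb).continuousOn
  set W := C.D ∩ C.E ⁻¹' (C.pr ⁻¹' U) with hWd
  have hW : MeasurableSet W := by
    have h1 : MeasurableSet (C.D.domRestrict C.E ⁻¹' (C.pr ⁻¹' U)) :=
      hE.domRestrict.measurable (hpr.measurable hU)
    have h2 := (MeasurableEmbedding.subtype_coe h.closed.measurableSet).measurableSet_image.2 h1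
    rwa [domRestrict_eq, preimage_comp, Subtype.image_preimage_coe] at h2
  have hm : ∀ j : ℕ, Measurable fun τ => clen W (t₀ + τ + 2 * ε * j) := fun j =>
    (clen_meas hW).comp (by fun_prop)
  have hv : volume (Ioc 0 (2 * ε)) = ENNReal.ofReal (2 * ε) := by simp
  have h2 : 0 < 2 * ε := by positivity
  obtain ⟨τ, hτ, hle⟩ := exists_le_setLAverage (μ := volume) (s := Ioc 0 (2 * ε))
    (f := fun τ => ∑ j ∈ Finset.range M, clen W (t₀ + τ + 2 * ε * j))
    (by rw [hv]; simpa using hε) (by rw [hv]; exact ENNReal.ofReal_ne_top)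
    (Finset.measurable_sum _ fun j _ => hm j).aemeasurable
  rw [setLAverage_eq, lintegral_finsetSum _ fun j _ => hm j, sum_le _ _ h2.le, hv] at hle
  have h3 : ∫⁻ r in Ioc t₀ (t₀ + 2 * ε * M), clen W r ≤ μHE[2] (C.pr ⁻¹' U) :=
    (lintegral_mono_set fun r hr => ht.trans_lt hr.1).trans
      ((clen_int hW).le.trans (h.area _ (hpr.measurable hU)))
  have h4 := hle.trans (ENNReal.div_le_div_right h3 _)
  have h5 : μHE[2] (C.pr ⁻¹' U) / ENNReal.ofReal (2 * ε) ≠ ⊤ :=
    ENNReal.div_ne_top hfin (by simpa using hε)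
  refine ⟨τ, Ioc_subset_Icc_self hτ, ?_⟩
  have h6 := ENNReal.toReal_mono h5 h4
  rw [ENNReal.toReal_div, ENNReal.toReal_ofReal h2.le, ENNReal.toReal_sum fun j hj =>
    ne_top_of_le_ne_top h5 ((Finset.single_le_sum (fun _ _ => zero_le) hj).trans h4)] at h6
  refine le_trans (le_of_eq (Finset.sum_congr rfl fun j _ => ?_)) h6
  have h7 : 0 ≤ t₀ + τ + 2 * ε * j := by have := hτ.1; positivity
  rw [clen, ENNReal.toReal_mul, ENNReal.toReal_ofReal h7, Measure.restrict_apply' measurableSet_Ioc,
    inter_comm]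
  rfl

end Pool.Agent.Lib.ED
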