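import Pool.Agent.Lib.ED.Blue

/-! Project ed43: the rows CEL1 and CEL3. -/

open Set Metric MeasureTheory
open scoped ENNReal NNReal Classical RealInnerProductSpace

noncomputable section

namespace Pool.Agent.Lib.ED

open Pool.Agent.Lib.MP_523900_gt

namespace CEL130

/-- The positive root of `‖w + t • v‖ = r`. -/
def lam (r : ℝ) (w v : E3) : ℝ :=
  (-⟪w, v⟫ + √(⟪w, v⟫ ^ 2 + ‖v‖ ^ 2 * (r ^ 2 - ‖w‖ ^ 2))) / ‖v‖ ^ 2

theorem norm_sq_add (w v : E3) (t : ℝ) :
    ‖w + t • v‖ ^ 2 = ‖w‖ ^ 2 + 2 * t * ⟪w, v⟫ + t ^ 2 * ‖v‖ ^ 2 := by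
  rw [norm_add_sq_real, inner_smul_right, norm_smul, mul_pow, Real.norm_eq_abs, sq_abs]
  ring

theorem lam_spec {r : ℝ} {w v : E3} (hw : ‖w‖ < r) (hv : v ≠ 0) :
    0 < lam r w v ∧ ‖w + lam r w v • v‖ = r := by
  have h0 : 0 ≤ ‖w‖ := norm_nonneg w
  have ha : 0 < ‖v‖ ^ 2 := pow_pos (norm_pos_iff.2 hv) 2
  have hc : 0 < r ^ 2 - ‖w‖ ^ 2 := by nlinarith only [h0, hw]
  have hp : 0 < ‖v‖ ^ 2 * (r ^ 2 - ‖w‖ ^ 2) := mul_pos ha hc
  have hd : 0 ≤ ⟪w, v⟫ ^ 2 + ‖v‖ ^ 2 * (r ^ 2 - ‖w‖ ^ 2) := by positivity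
  have hs := Real.sq_sqrt hd
  have hs0 := Real.sqrt_nonneg (⟪w, v⟫ ^ 2 + ‖v‖ ^ 2 * (r ^ 2 - ‖w‖ ^ 2))
  have hl : ⟪w, v⟫ < √(⟪w, v⟫ ^ 2 + ‖v‖ ^ 2 * (r ^ 2 - ‖w‖ ^ 2)) :=
    Real.lt_sqrt_of_sq_lt (by linarith only [hp])
  refine ⟨div_pos (by linarith only [hl]) ha, ?_⟩
  have h1 : ‖w + lam r w v • v‖ ^ 2 = r ^ 2 := by
    rw [norm_sq_add, lam]
    generalize √(⟪w, v⟫ ^ 2 + ‖v‖ ^ 2 * (r ^ 2 - ‖w‖ ^ 2)) = S at hs
    generalize ⟪w, v⟫ = b at hs
    generalize ‖v‖ ^ 2 = a at hs ha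
    field_simp
    linear_combination hs
  exact (pow_left_inj₀ (norm_nonneg _) (by linarith only [h0, hw]) two_ne_zero).1 h1

theorem lam_one {r : ℝ} {w v : E3} (hw : ‖w‖ < r) (h : ‖w + v‖ = r) : lam r w v = 1 := by
  have hv : v ≠ 0 := by
    rintro rfl
    rw [add_zero] at h
    exact hw.ne h
  have h0 : 0 ≤ ‖w‖ := norm_nonneg w
  obtain ⟨hp, he⟩ := lam_spec hw hv
  have h1 := norm_sq_add w v (lam r w v)
  have h2 := norm_sq_add w v 1
  rw [he] at h1
  rw [one_smul, h] at h2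
  have hc : 0 < r ^ 2 - ‖w‖ ^ 2 := by nlinarith only [h0, hw]
  have ha : 0 < ‖v‖ ^ 2 := pow_pos (norm_pos_iff.2 hv) 2
  generalize lam r w v = t at *
  generalize ⟪w, v⟫ = b at *
  generalize ‖v‖ ^ 2 = a at *
  have h3 : (t - 1) * (t * a + (r ^ 2 - ‖w‖ ^ 2)) = 0 := by
    linear_combination (-1 : ℝ) * h1 + t * h2
  rcases mul_eq_zero.1 h3 with h4 | h4
  · linarith only [h4]
  · have := mul_pos hp ha
    linarith only [this, h4, hc]

theorem part1 {x o v : E3} {D : ℝ} (hD : 0 < D) (hx : ‖x - o‖ ≤ D) (hv : ‖v‖ = 1) :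
    ∃ s : ℝ, D ≤ s ∧ ‖x + s • v - o‖ = 2 * D := by
  have hv0 : v ≠ 0 := by
    rintro rfl
    simp at hv
  obtain ⟨hp, he⟩ := lam_spec (r := 2 * D) (w := x - o) (by linarith only [hD, hx]) hv0
  refine ⟨lam (2 * D) (x - o) v, ?_, ?_⟩
  · have h1 := norm_add_le (x - o) (lam (2 * D) (x - o) v • v)
    rw [he, norm_smul, hv, Real.norm_eq_abs, abs_of_pos hp] at h1
    linarith only [h1, hx]
  · rw [add_sub_right_comm]
    exact he

/-- A boundary point is the nearest point of some point of the sphere. -/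
theorem exists_sphere {K : Set E3} {o : E3} {D : ℝ} (hP : PrjF K) (hc : IsClosed K) (hD : 0 < D)
    (hK : K ⊆ closedBall o D) {x : E3} (hx : x ∈ frontier K) :
    ∃ y, ‖y - o‖ = 2 * D ∧ prj K y = x := by
  have hxK : x ∈ K := hc.frontier_subset hx
  obtain ⟨n, hn, hn'⟩ := hP.normal x hx
  obtain ⟨s, hs, he⟩ := part1 hD (mem_closedBall_iff_norm.1 (hK hxK)) hn
  refine ⟨x + s • n, he, hP.uniq _ x hxK fun w hw => ?_⟩
  rw [add_sub_cancel_left, inner_smul_left]
  exact mul_nonpos_of_nonneg_of_nonpos (by simpa using (hD.le.trans hs)) (hn' w hw)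

/-- Two points of the sphere with the same nearest point are joined by such points. -/
theorem exists_path {K : Set E3} {o : E3} {D : ℝ} (hP : PrjF K) (hi : (interior K).Nonempty)
    (hD : 0 < D) (hK : K ⊆ closedBall o D) {x y₁ y₂ : E3} (h₁ : ‖y₁ - o‖ = 2 * D)
    (h₂ : ‖y₂ - o‖ = 2 * D) (p₁ : prj K y₁ = x) (p₂ : prj K y₂ = x) :
    ∃ g : ℝ → E3, ContinuousOn g (Icc 0 1) ∧ g 0 = y₁ ∧ g 1 = y₂ ∧
      ∀ t ∈ Icc (0 : ℝ) 1, ‖g t - o‖ = 2 * D ∧ prj K (g t) = x := by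
  have hxK : x ∈ K := p₁ ▸ hP.mem y₁
  have hx : ‖x - o‖ < 2 * D := by
    have := mem_closedBall_iff_norm.1 (hK hxK)
    linarith only [this, hD]
  obtain ⟨z, hz⟩ := hi
  have key : ∀ y : E3, ‖y - o‖ = 2 * D → prj K y = x →
      (∀ w ∈ K, ⟪y - x, w - x⟫ ≤ 0) ∧ ⟪y - x, z - x⟫ < 0 := by
    intro y hy py
    have a1 : ∀ w ∈ K, ⟪y - x, w - x⟫ ≤ 0 := fun w hw => py ▸ hP.inner y w hw
    refine ⟨a1, ?_⟩
    by_contra hcon
    have hne : y - x ≠ 0 := by
      intro h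
      rw [sub_eq_zero] at h
      rw [h] at hy
      exact hx.ne hy
    refine hP.notin z (y - x) ⟪y - x, x⟫ hne (fun w hw => ?_) ?_ hz
    · have := a1 w hw
      rw [inner_sub_right] at this
      linarith only [this]
    · rw [inner_sub_right] at hcon
      linarith only [not_lt.1 hcon]
  obtain ⟨a1, b1⟩ := key y₁ h₁ p₁
  obtain ⟨a2, b2⟩ := key y₂ h₂ p₂
  set v : ℝ → E3 := fun t => (1 - t) • (y₁ - x) + t • (y₂ - x) with hv
  have hvi : ∀ t (u : E3), ⟪v t, u⟫ = (1 - t) * ⟪y₁ - x, u⟫ + t * ⟪y₂ - x, u⟫ := by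
    intro t u
    simp only [hv, inner_add_left, real_inner_smul_left]
  have hv0 : ∀ t ∈ Icc (0 : ℝ) 1, v t ≠ 0 := by
    intro t ht h
    have := hvi t (z - x)
    rw [h, inner_zero_left] at this
    rcases eq_or_lt_of_le ht.1 with h0 | h0
    · rw [← h0] at this
      linarith only [this, b1]
    · have c1 := mul_nonneg (sub_nonneg.2 ht.2) (neg_nonneg.2 b1.le)
      have c2 := mul_pos h0 (neg_pos.2 b2)
      linarith only [this, c1, c2]
  have hvc : Continuous v := by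
    simp only [hv]
    fun_prop
  refine ⟨fun t => x + lam (2 * D) (x - o) (v t) • v t, ?_, ?_, ?_, fun t ht => ⟨?_, ?_⟩⟩
  · have hl : ContinuousOn (fun t => lam (2 * D) (x - o) (v t)) (Icc 0 1) := by
      unfold lam
      refine ContinuousOn.div (Continuous.continuousOn ?_) (Continuous.continuousOn ?_)
        fun t ht => pow_ne_zero 2 (norm_ne_zero_iff.2 (hv0 t ht))
      · fun_prop
      · fun_prop
    exact continuousOn_const.add (hl.smul hvc.continuousOn)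
  · have e : v 0 = y₁ - x := by simp [hv]
    simp only [e]
    rw [lam_one hx (by rw [← h₁]; congr 1; abel), one_smul, add_sub_cancel]
  · have e : v 1 = y₂ - x := by simp [hv]
    simp only [e]
    rw [lam_one hx (by rw [← h₂]; congr 1; abel), one_smul, add_sub_cancel]
  · rw [add_sub_right_comm]
    exact (lam_spec hx (hv0 t ht)).2
  · refine hP.uniq _ x hxK fun w hw => ?_
    rw [add_sub_cancel_left, real_inner_smul_left, hvi]
    refine mul_nonpos_of_nonneg_of_nonpos (lam_spec hx (hv0 t ht)).1.le ?_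
    have c1 := mul_nonneg (sub_nonneg.2 ht.2) (neg_nonneg.2 (a1 w hw))
    have c2 := mul_nonneg ht.1 (neg_nonneg.2 (a2 w hw))
    linarith only [c1, c2]

theorem coord_le (u : E3) (a : Fin 3) : |u a| ≤ ‖u‖ := by
  simpa using PiLp.norm_apply_le u a

theorem isOpen_cube (o : E3) (D : ℝ) (q : Fin 3 → ℤ) : IsOpen (cube o D q) := by
  have : cube o D q = ⋂ a, ({y : E3 | D / 1000 * q a < y a - o a} ∩
      {y : E3 | y a - o a < D / 1000 * (q a + 1)}) := by
    ext y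
    simp [cube]
  rw [this]
  refine isOpen_iInter_of_finite fun a => IsOpen.inter ?_ ?_
  · exact isOpen_lt continuous_const (by fun_prop)
  · exact isOpen_lt (by fun_prop) continuous_const

end CEL130

open CEL130

theorem r_CEL1 : R_CEL1 := by
  intro hPRJ K o D hB hD hK
  have hc : IsClosed K := hB.compact.isClosed
  have hP := hPRJ K hc hB.convex hB.int
  refine ⟨fun x hx v hv => part1 hD (mem_closedBall_iff_norm.1 (hK hx)) hv, fun x hx => ?_⟩
  by_contra hcon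
  rw [not_or] at hcon
  obtain ⟨hA, hG⟩ := hcon
  have hg : ∀ y : E3, ‖y - o‖ = 2 * D → prj K y = x → ∀ (a : Fin 3) (k : ℤ),
      y a - o a ≠ D / 1000 * k := fun y hy py a k h => hG ⟨y, ⟨hy, a, k, h⟩, py⟩
  obtain ⟨y₁, h₁, p₁⟩ := exists_sphere hP hc hD hK hx
  have hδ : 0 < D / 1000 := by positivity
  set q : Fin 3 → ℤ := fun a => ⌊(y₁ a - o a) / (D / 1000)⌋ with hq
  have hq1 : ∀ a, D / 1000 * q a < y₁ a - o a := by
    intro a
    have h := Int.floor_le ((y₁ a - o a) / (D / 1000))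
    rw [le_div_iff₀ hδ, mul_comm] at h
    exact lt_of_le_of_ne h (hg y₁ h₁ p₁ a _).symm
  have hq2 : ∀ a, y₁ a - o a < D / 1000 * (q a + 1) := by
    intro a
    have h := Int.lt_floor_add_one ((y₁ a - o a) / (D / 1000))
    rw [div_lt_iff₀ hδ, mul_comm] at h
    exact h
  refine hA ⟨q, ?_, hx, fun y₂ h₂ p₂ a => ?_⟩
  · unfold cubes
    rw [Fintype.mem_piFinset]
    intro a
    rw [Finset.mem_Icc]
    have h := coord_le (y₁ - o) a
    rw [h₁, PiLp.sub_apply, abs_le] at h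
    have b1 := hq1 a
    have b2 := hq2 a
    constructor
    · have : (-2001 : ℝ) < q a := by
        by_contra hh
        have := mul_le_mul_of_nonneg_left (not_lt.1 hh) hδ.le
        linarith only [this, b2, h.1, hD]
      exact_mod_cast this.le
    · have : (q a : ℝ) < 2001 := by
        by_contra hh
        have := mul_le_mul_of_nonneg_left (not_lt.1 hh) hδ.le
        linarith only [this, b1, h.2, hD]
      exact_mod_cast this.le
  · obtain ⟨g, gc, g0, g1, gs⟩ := exists_path hP hB.int hD hK h₁ h₂ p₁ p₂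
    have fc : ContinuousOn (fun t => g t a - o a) (Icc 0 1) :=
      ((by fun_prop : Continuous fun y : E3 => y a - o a).comp_continuousOn gc)
    constructor
    · by_contra hh
      obtain ⟨t, ht, he⟩ := intermediate_value_Icc' zero_le_one fc
        (⟨by simpa only [g1] using not_lt.1 hh, by simpa only [g0] using (hq1 a).le⟩ :
          D / 1000 * q a ∈ Icc (g 1 a - o a) (g 0 a - o a))
      exact hg (g t) (gs t ht).1 (gs t ht).2 a _ he
    · by_contra hh
      obtain ⟨t, ht, he⟩ := intermediate_value_Icc zero_le_one fc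
        (⟨by simpa only [g0] using (hq2 a).le, by simpa only [g1] using not_lt.1 hh⟩ :
          D / 1000 * (q a + 1) ∈ Icc (g 0 a - o a) (g 1 a - o a))
      refine hg (g t) (gs t ht).1 (gs t ht).2 a (q a + 1) ?_
      push_cast
      exact he

theorem r_CEL3 : R_CEL3 := by
  intro hPRJ _ K o D hB hD hK
  have hc : IsClosed K := hB.compact.isClosed
  have hP := hPRJ K hc hB.convex hB.int
  have pc : Continuous (prj K) := by
    refine (LipschitzWith.of_dist_le_mul (K := 1) fun x y => ?_).continuous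
    simpa [dist_eq_norm] using hP.lip x y
  refine ⟨fun q => ⟨(prj K '' (sphere o (2 * D) \ cube o D q))ᶜ, ?_, ?_⟩, fun q q' hq => ?_⟩
  · exact (((isCompact_sphere o (2 * D)).diff (isOpen_cube o D q)).image pc).isClosed.isOpen_compl
  · ext x
    constructor
    · rintro ⟨h1, h2⟩
      refine ⟨?_, h1⟩
      rintro ⟨y, ⟨hy, hy'⟩, py⟩
      exact hy' (h2 y (mem_sphere_iff_norm.1 hy) py)
    · rintro ⟨h1, h2⟩
      refine ⟨h2, fun y hy py => ?_⟩
      by_contra hh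
      exact h1 ⟨y, ⟨mem_sphere_iff_norm.2 hy, hh⟩, py⟩
  · rw [Set.disjoint_left]
    rintro x ⟨hx, h1⟩ ⟨-, h2⟩
    obtain ⟨y, hy, py⟩ := exists_sphere hP hc hD hK hx
    refine hq (funext fun a => ?_)
    obtain ⟨a1, a2⟩ := h1 y hy py a
    obtain ⟨b1, b2⟩ := h2 y hy py a
    have hδ : 0 < D / 1000 := by positivity
    have c1 : (q a : ℝ) < q' a + 1 := lt_of_mul_lt_mul_left (a1.trans b2) hδ.le
    have c2 : (q' a : ℝ) < q a + 1 := lt_of_mul_lt_mul_left (b1.trans a2) hδ.le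
    have d1 : q a < q' a + 1 := by exact_mod_cast c1
    have d2 : q' a < q a + 1 := by exact_mod_cast c2
    omega

end Pool.Agent.Lib.ED
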