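import Pool.Agent.Lib.ED.Blue

/-! Project ed43: the faces of a cell. -/

open Set Metric MeasureTheory
open scoped ENNReal NNReal Classical RealInnerProductSpace

noncomputable section

namespace Pool.Agent.Lib.ED

open Pool.Agent.Lib.MP_523900_gt

namespace CEL2h23

theorem prj_ray {κ : Type} {J : Finset κ} {n : κ → E3} {c : κ → ℝ} (hP : PrjF (poly J n c))
    {x : E3} (hx : x ∈ poly J n c) {j : κ} (hj : j ∈ J) (he : ⟪n j, x⟫ = c j) {s : ℝ}
    (hs : 0 ≤ s) : prj (poly J n c) (x + s • n j) = x := by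
  refine hP.uniq _ x hx fun w hw => ?_
  rw [add_sub_cancel_left, real_inner_smul_left, inner_sub_right, he]
  exact mul_nonpos_of_nonneg_of_nonpos hs (sub_nonpos.mpr (hw j hj))

theorem cube_dist {o y y' : E3} {D : ℝ} {q : Fin 3 → ℤ} (hD : 0 < D) (h : y ∈ cube o D q)
    (h' : y' ∈ cube o D q) : ‖y - y'‖ ≤ 2 * D / 1000 := by
  have h1 : ∀ a, ‖(y - y') a‖ ^ 2 ≤ (D / 1000) ^ 2 := fun a => by
    rw [Real.norm_eq_abs, sq_abs, PiLp.sub_apply]
    refine sq_le_sq' ?_ ?_ <;> linarith [(h a).1, (h a).2, (h' a).1, (h' a).2]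
  refine le_of_pow_le_pow_left₀ two_ne_zero (by positivity) ?_
  rw [EuclideanSpace.norm_sq_eq, Fin.sum_univ_three]
  nlinarith [h1 0, h1 1, h1 2]

theorem unit_dist {u v : E3} {s t : ℝ} (hu : ‖u‖ = 1) (hv : ‖v‖ = 1) (hs : 0 ≤ s) (ht : 0 ≤ t) :
    s * ‖u - v‖ ≤ 2 * ‖s • u - t • v‖ := by
  have h1 := abs_norm_sub_norm_le (s • u) (t • v)
  rw [norm_smul, norm_smul, hu, hv, mul_one, mul_one, Real.norm_of_nonneg hs,
    Real.norm_of_nonneg ht] at h1
  have h2 : s • (u - v) = (s • u - t • v) - (s - t) • v := by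
    rw [smul_sub, sub_smul]; abel
  have h3 := norm_sub_le (s • u - t • v) ((s - t) • v)
  rw [← h2, norm_smul, norm_smul, hv, mul_one, Real.norm_of_nonneg hs, Real.norm_eq_abs] at h3
  linarith

end CEL2h23

open CEL2h23

theorem r_CEL2 : R_CEL2 := by
  intro hPRJ hSTAR hC1 hC3 κ J n c hok hB o D hD hsub q
  have hS := hSTAR κ J n c hok
  have hP := hPRJ _ hS.closed hS.convex hok.int
  obtain ⟨c1, c2⟩ := hC1 _ o D hB hD hsub
  obtain ⟨c3, c4⟩ := hC3 _ o D hB hD hsub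
  have hJ : faces J n c o D q ⊆ J := Finset.filter_subset _ _
  have hb : ∀ x ∈ cell (poly J n c) o D q, ∀ j ∈ J, ⟪n j, x⟫ = c j → j ∈ faces J n c o D q :=
    fun x hx j hj he => by
      have hxP := ((hS.fro x).1 hx.1).1
      obtain ⟨s, h1, h2⟩ := c1 x hxP (n j) (hok.unit j hj)
      have h3 : 0 ≤ s := hD.le.trans h1
      exact Finset.mem_filter.mpr ⟨hj, x, hxP, he, s, h3, h2,
        hx.2 _ h2 (prj_ray hP hxP hj he h3)⟩
  refine ⟨fun i hi j hj => ?_, hb, fun γ hγ hfr h0 h1 => ?_⟩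
  · obtain ⟨hi, x, a1, a2, s, a3, a4, a5⟩ := Finset.mem_filter.mp hi
    obtain ⟨hj, x', b1, b2, s', b3, -, b5⟩ := Finset.mem_filter.mp hj
    have h1 := cube_dist hD a5 b5
    have h2 := hP.lip (x + s • n i) (x' + s' • n j)
    rw [prj_ray hP a1 hi a2 a3, prj_ray hP b1 hj b2 b3] at h2
    have h3 := norm_sub_le (x + s • n i - (x' + s' • n j)) (x - x')
    rw [show x + s • n i - (x' + s' • n j) - (x - x') = s • n i - s' • n j by abel] at h3
    have h4 := unit_dist (hok.unit i hi) (hok.unit j hj) a3 b3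
    have h5 := norm_add_le (x - o) (s • n i)
    rw [show x - o + s • n i = x + s • n i - o by abel, a4, norm_smul, hok.unit i hi, mul_one,
      Real.norm_of_nonneg a3] at h5
    have h6 : ‖x - o‖ ≤ D := mem_closedBall_iff_norm.mp (hsub a1)
    have h7 : D * ‖n i - n j‖ ≤ s * ‖n i - n j‖ :=
      mul_le_mul_of_nonneg_right (by linarith) (norm_nonneg _)
    exact le_of_mul_le_mul_left (a := D) (by linarith) hD
  · by_contra hno
    have hle : poly J n c ⊆ poly (faces J n c o D q) n c := fun x hx j hj => hx j (hJ hj)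
    have hS' := hSTAR κ (faces J n c o D q) n c ⟨fun j hj => hok.unit j (hJ hj),
      hok.int.mono (interior_mono hle)⟩
    obtain ⟨O, hO, hOe⟩ := c3 q
    have hop : IsOpen (γ ⁻¹' cell (poly J n c) o D q) := by
      refine isOpen_iff_mem_nhds.mpr fun t ht => ?_
      obtain ⟨r, hr, hn⟩ := hS.near (γ t) ((hS.fro _).1 ht.1).1
      have e1 : ∀ᶠ u in nhds t, γ u ∈ O :=
        hγ.continuousAt.preimage_mem_nhds (hO.mem_nhds (hOe ▸ ht : γ t ∈ O ∩ _).1)
      have e2 : ∀ᶠ u in nhds t, γ u ∈ ball (γ t) r :=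
        hγ.continuousAt.preimage_mem_nhds (ball_mem_nhds _ hr)
      filter_upwards [e1, e2] with u h2 h3
      obtain ⟨h4, j, h5, h6⟩ := (hS'.fro _).1 (hfr u)
      rw [mem_preimage, hOe]
      refine ⟨h2, (hS.fro _).2 ⟨fun i hi => ?_, j, hJ h5, h6⟩⟩
      by_cases he : ⟪n i, γ t⟫ = c i
      · exact h4 i (hb _ ht i hi he)
      · exact (hn _ (mem_ball_iff_norm'.mp h3) i hi he).le
    refine h1 (isPreconnected_Icc.subset_of_closure_inter_subset hop
      ⟨0, left_mem_Icc.mpr zero_le_one, h0⟩ (fun t ⟨h2, h3⟩ => ?_)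
      (right_mem_Icc.mpr zero_le_one))
    have h4 : γ t ∈ frontier (poly J n c) :=
      closure_minimal (fun u hu => hu.1) (isClosed_frontier.preimage hγ) h2
    rcases c2 _ h4 with ⟨q', -, h5⟩ | ⟨y, h5, h6⟩
    · obtain ⟨O', hO', hOe'⟩ := c3 q'
      obtain ⟨u, h6, h7⟩ := mem_closure_iff.mp h2 _ (hO'.preimage hγ)
        (hOe' ▸ h5 : γ t ∈ O' ∩ _).1
      by_cases hq : q = q'
      · exact hq ▸ h5
      · exact absurd (hOe' ▸ ⟨h6, h7.1⟩) (Set.disjoint_left.mp (c4 q q' hq) h7)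
    · exact absurd ⟨t, h3, y, h5, h6⟩ hno

end Pool.Agent.Lib.ED
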