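import Pool.Agent.Lib.ED.Blue

/-! Project ed43, block CELL: the loops of one cell. -/

open Set Metric MeasureTheory
open scoped ENNReal NNReal Classical RealInnerProductSpace

noncomputable section

namespace Pool.Agent.Lib.ED

open Pool.Agent.Lib.MP_523900_gt

namespace CELL9

theorem gpr_self (o e₁ e₂ : E3) : gpr o e₁ e₂ o = 0 := by
  apply Complex.ext <;> simp [gpr]

theorem poly_sub {κ : Type} {J J' : Finset κ} (n : κ → E3) (c : κ → ℝ) (h : J' ⊆ J) :
    poly J n c ⊆ poly J' n c := fun _ hx j hj => hx j (h hj)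

theorem conn_sub {S S' : Set E3} {x y : E3} {l : ℝ} {T : Set E3} (h : Conn S x y l T)
    (hS : S ⊆ S') : Conn S' x y l T := by
  obtain ⟨h0, γ, hc, hm, hx, hy, hlen, hT⟩ := h
  exact ⟨h0, γ, hc, fun t ht => hS (hm ht), hx, hy, hlen, hT⟩

theorem glf_cont {Q : Set E3} {o e₁ e₂ e : E3} {f : ℂ → ℝ} (h : Gr Q o e₁ e₂ e f) :
    Continuous (glf o e₁ e₂ e f) :=
  (LipschitzWith.of_dist_le' (K := 51 / 50) fun z w => by
    rw [dist_eq_norm, dist_eq_norm]; exact h.up z w).continuous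

/-- The nearest point map carries loops on a larger surface to loops on a smaller one. -/
theorem loops_down {P Q W : Set E3} (hP : PrjF P) (hPQ : P ⊆ Q)
    (hWP : W ⊆ P) (hWQ : W ⊆ frontier Q) {X Y : Type} [MetricSpace X] [MetricSpace Y]
    {ι : X → E3} {ι' : Y → E3} (hι : Model (frontier P) ι) (hι' : Model (frontier Q) ι')
    {N L ρ : ℝ} (h : Loops N L ρ (ι' ⁻¹' W)) : Loops N L ρ (ι ⁻¹' W) := by
  have hsub : frontier Q ⊆ (interior P)ᶜ := fun x hx hx' => hx.2 (interior_mono hPQ hx')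
  have hex : ∀ a : Y, ∃ b : X, ι b = prj P (ι' a) := fun a =>
    hι.surj (hP.fro _ (hsub (hι'.mem a)))
  choose F hF using hex
  have hlip : ∀ a b, dist (F a) (F b) ≤ dist a b := fun a b => by
    refine le_of_forall_gt_imp_ge_of_dense fun l hl => ?_
    have h1 := hP.out _ _ _ _ (conn_sub (hι'.conn hl) hsub)
    rw [← hF a, ← hF b] at h1
    exact hι.dist_le h1
  refine (h.map hlip).mono le_rfl le_rfl le_rfl fun x hx => ?_
  obtain ⟨a, ha⟩ := hι'.surj (hWQ hx)
  refine ⟨a, by simpa [ha] using hx, hι.inj ?_⟩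
  rw [hF a, ha, hP.self _ (hWP hx)]

end CELL9

open CELL9 in
theorem r_CELL : R_CELL := by
  intro hPRJ hSTAR hMOD hSURF hGRA hGFIN hCTX hCORE hCEL2 hCEL3 κ J n c hok hB o D hD hball X _ ι
    hι ε ρ N hε hεD hερ hN q
  have hS := hSTAR κ J n c hok
  have hP := hPRJ _ hS.closed hS.convex hok.int
  obtain ⟨h21, h22, h23⟩ := hCEL2 κ J n c hok hB o D hD hball q
  obtain ⟨O, hO, hcell⟩ := (hCEL3 _ o D hB hD hball).1 q
  set W := cell (poly J n c) o D q with hW
  have hWf : W ⊆ frontier (poly J n c) := fun x hx => hx.1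
  have hWP : W ⊆ poly J n c := fun x hx => ((hS.fro x).1 (hWf hx)).1
  rcases W.eq_empty_or_nonempty with hE | ⟨x₀, hx₀⟩
  · rw [hE, preimage_empty]
    exact (Loops.empty ρ).mono (by positivity) (by positivity) le_rfl le_rfl
  obtain ⟨j₀, hj₀, hj₀e⟩ := ((hS.fro x₀).1 (hWf hx₀)).2
  have hj₀f := h22 x₀ hx₀ j₀ hj₀ hj₀e
  have hsubJ : faces J n c o D q ⊆ J := Finset.filter_subset _ _
  obtain ⟨hokq, e₁, e₂, f, hG⟩ := hGRA κ (faces J n c o D q) n c o (n j₀) ⟨j₀, hj₀f⟩
    (hok.unit j₀ hj₀) fun j hj => ⟨hok.unit j (hsubJ hj), h21 j hj j₀ hj₀f⟩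
  have hSq := hSTAR κ _ n c hokq
  have hPQ : poly J n c ⊆ poly (faces J n c o D q) n c := poly_sub n c hsubJ
  have hWQ : W ⊆ frontier (poly (faces J n c o D q) n c) := fun x hx => by
    obtain ⟨j, hj, hje⟩ := ((hS.fro x).1 (hWf hx)).2
    exact (hSq.fro x).2 ⟨hPQ (hWP hx), j, h22 x hx j hj hje, hje⟩
  obtain ⟨Y, _, ι', hι'⟩ := hMOD (frontier (poly (faces J n c o D q) n c)) fun x hx y hy => by
    rw [hG.fro] at hx hy
    obtain ⟨z, rfl⟩ := hx
    obtain ⟨w, rfl⟩ := hy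
    exact ⟨_, (hGFIN _ o e₁ e₂ _ f hG).2 z w⟩
  borelize Y
  have hSu := hSURF κ _ n c hokq Y ι' hι'
  obtain ⟨C, hC, hCR, hpr, hlf⟩ := hCTX _ o e₁ e₂ _ f hG Y ι' hSu (100 * D) (by positivity)
  have hWm : MeasurableSet W := by
    rw [hcell]
    exact hO.measurableSet.inter isClosed_frontier.measurableSet
  have hmea : μHE[2] (ι' ⁻¹' W) = μHE[2] W := by
    rw [hSu.mea W hWm, inter_eq_left.2 hWQ]
  have hfin : μHE[2] W ≠ ⊤ := ne_top_of_le_ne_top hB.area (measure_mono hWf)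
  have hglf : ∀ a, glf o e₁ e₂ (n j₀) f (C.pr a) = ι' a := fun a => by
    rw [← hlf, hC.lf_pr]
  have key := hCORE Y C hC (ι' ⁻¹' W) (N.image fun y => gpr o e₁ e₂ (prj (poly J n c) y)) ε ρ hε
    (by rw [hCR]; linarith) hερ (hι'.continuous.measurable hWm) (by rw [hmea]; exact hfin)
    (fun x hx => by
      have h1 := hG.lo (ι' x) o
      have h2 := hball (hWP hx)
      rw [gpr_self, sub_zero, ← hpr] at h1
      rw [mem_closedBall, dist_eq_norm] at h2
      rw [hCR]; linarith)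
    (fun a ha b hb hab => by
      obtain ⟨t, ht, y, hy, hyt⟩ := h23
        (fun t : ℝ => glf o e₁ e₂ (n j₀) f (C.pr a + t • (C.pr b - C.pr a)))
        ((glf_cont hG).comp (by fun_prop))
        (fun t => by rw [hG.fro]; exact mem_range_self _)
        (by simpa [hglf] using ha) (by simpa [hglf] using hb)
      obtain ⟨y', hy', hyy⟩ := hN y hy
      refine ⟨_, Finset.mem_image_of_mem _ hy', ?_⟩
      have h1 := hG.lo (prj (poly J n c) y) (prj (poly J n c) y')
      have h2 := hP.lip y y'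
      rw [hyt, hG.sec] at h1
      have h3 : ‖t • (C.pr b - C.pr a)‖ ≤ 200 * ε := by
        rw [norm_smul, Real.norm_eq_abs, abs_of_nonneg ht.1, norm_sub_rev]
        nlinarith [ht.1, ht.2, norm_nonneg (C.pr a - C.pr b)]
      have h4 := norm_sub_le (C.pr a + t • (C.pr b - C.pr a) -
        gpr o e₁ e₂ (prj (poly J n c) y')) (t • (C.pr b - C.pr a))
      rw [show C.pr a + t • (C.pr b - C.pr a) - gpr o e₁ e₂ (prj (poly J n c) y') -
        t • (C.pr b - C.pr a) = C.pr a - gpr o e₁ e₂ (prj (poly J n c) y') by abel] at h4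
      rw [hyt] at h2
      linarith)
  rw [hmea, hCR] at key
  have hcard : ((N.image fun y => gpr o e₁ e₂ (prj (poly J n c) y)).card : ℝ) ≤ N.card := by
    exact_mod_cast Finset.card_image_le
  refine loops_down hP hPQ hWP hWQ hι hι' (key.mono (by linarith) ?_ le_rfl le_rfl)
  have := mul_le_mul_of_nonneg_right hcard hε.le
  linarith

end Pool.Agent.Lib.ED
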