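import Pool.Agent.Lib.ED.Blue

/-! Project ed43, row CHA1: the boundary of a polyhedron near a point that is not a vertex. -/

open Set Metric MeasureTheory
open scoped ENNReal NNReal Classical RealInnerProductSpace

namespace Pool.Agent.Lib.ED.CHA163

open Pool.Agent.Lib.MP_523900_gt

theorem basis3 {e v : E3} (he : ‖e‖ = 1) (hv : ‖v‖ = 1) (hev : ⟪e, v⟫ = 0) :
    ∃ u : E3, ‖u‖ = 1 ∧ ⟪e, u⟫ = 0 ∧ ⟪v, u⟫ = 0 ∧
      ∀ y : E3, y = ⟪e, y⟫ • e + ⟪v, y⟫ • v + ⟪u, y⟫ • u := by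
  have hve : ⟪v, e⟫ = 0 := by rw [real_inner_comm]; exact hev
  have ho : Orthonormal ℝ (({0, 1} : Set (Fin 3)).domRestrict ![e, v, 0]) := by
    constructor
    · rintro ⟨i, rfl | rfl⟩
      · exact he
      · exact hv
    · rintro ⟨i, rfl | rfl⟩ ⟨j, rfl | rfl⟩ hij
      · exact absurd rfl hij
      · exact hev
      · exact hve
      · exact absurd rfl hij
  obtain ⟨b, hb⟩ := ho.exists_orthonormalBasis_extension_of_card_eq (by simp)
  have h0 : b 0 = e := hb 0 (Or.inl rfl)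
  have h1 : b 1 = v := hb 1 (Or.inr rfl)
  refine ⟨b 2, b.orthonormal.1 2, ?_, ?_, fun y => ?_⟩
  · rw [← h0]; exact b.orthonormal.2 (by decide)
  · rw [← h1]; exact b.orthonormal.2 (by decide)
  · have := b.sum_repr' y
    rw [Fin.sum_univ_three, h0, h1] at this
    exact this.symm

variable {κ : Type}

/-- The boundary of the cone given by the normals in `A`. -/
def Bd (A : Finset κ) (n : κ → E3) (d : E3) : Prop :=
  (∀ j ∈ A, ⟪n j, d⟫ ≤ 0) ∧ ∃ j ∈ A, ⟪n j, d⟫ = 0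

theorem side {A : Finset κ} {n : κ → E3} {v : E3} (hA : A.Nonempty) (hv : ∀ j ∈ A, ⟪n j, v⟫ < 0)
    (u : E3) : ∃ M : ℝ, Bd A n (M • v + u) := by
  obtain ⟨k, hk, hmax⟩ := A.exists_max_image (fun j => ⟪n j, u⟫ / (-⟪n j, v⟫)) hA
  refine ⟨⟪n k, u⟫ / (-⟪n k, v⟫), fun j hj => ?_, k, hk, ?_⟩
  · have h1 := hmax j hj
    have h2 : 0 < -⟪n j, v⟫ := neg_pos.2 (hv j hj)
    rw [div_le_iff₀ h2] at h1
    rw [inner_add_right, real_inner_smul_right]
    linarith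
  · have h2 : -⟪n k, v⟫ ≠ 0 := (neg_pos.2 (hv k hk)).ne'
    have h3 := div_mul_cancel₀ ⟪n k, u⟫ h2
    rw [inner_add_right, real_inner_smul_right]
    linarith

theorem fwd {A : Finset κ} {n : κ → E3} {e g : E3} (he : ∀ j ∈ A, ⟪n j, e⟫ = 0) (hg : Bd A n g)
    (s : ℝ) {t : ℝ} (ht : 0 ≤ t) : Bd A n (s • e + t • g) := by
  obtain ⟨h1, k, hk, h2⟩ := hg
  refine ⟨fun j hj => ?_, k, hk, ?_⟩
  · rw [inner_add_right, real_inner_smul_right, real_inner_smul_right, he j hj]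
    have := mul_nonpos_of_nonneg_of_nonpos ht (h1 j hj)
    linarith
  · rw [inner_add_right, real_inner_smul_right, real_inner_smul_right, he k hk, h2]
    ring

theorem back {A : Finset κ} {n : κ → E3} {e v g : E3} (he : ∀ j ∈ A, ⟪n j, e⟫ = 0)
    (hv : ∀ j ∈ A, ⟪n j, v⟫ < 0) (hg : Bd A n g) {s t l : ℝ} (ht : 0 ≤ t)
    (hd : Bd A n (s • e + t • g + l • v)) : l = 0 := by
  obtain ⟨h1, k, hk, h2⟩ := hg
  obtain ⟨h3, i, hi, h4⟩ := hd
  have h5 := h3 k hk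
  simp only [inner_add_right, real_inner_smul_right] at h4 h5
  rw [he k hk, h2] at h5
  rw [he i hi] at h4
  have h6 := mul_nonpos_of_nonneg_of_nonpos ht (h1 i hi)
  have h7 := hv k hk
  have h8 := hv i hi
  rcases lt_trichotomy l 0 with h | h | h
  · have := mul_pos_of_neg_of_neg h h7
    linarith
  · exact h
  · have := mul_neg_of_pos_of_neg h h8
    linarith

theorem unit {g : E3} (hg : g ≠ 0) : ∃ (N : ℝ) (w : E3), 0 < N ∧ ‖w‖ = 1 ∧ g = N • w ∧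
    w = N⁻¹ • g := by
  have h : 0 < ‖g‖ := norm_pos_iff.2 hg
  refine ⟨‖g‖, ‖g‖⁻¹ • g, h, ?_, ?_, rfl⟩
  · rw [norm_smul, norm_inv, norm_norm, inv_mul_cancel₀ h.ne']
  · rw [smul_smul, mul_inv_cancel₀ h.ne', one_smul]

/-- The cone statement. -/
theorem cone {A : Finset κ} {n : κ → E3} {e v : E3} (hA : A.Nonempty) (he1 : ‖e‖ = 1)
    (hv1 : ‖v‖ = 1) (hev : ⟪e, v⟫ = 0) (he : ∀ j ∈ A, ⟪n j, e⟫ = 0)
    (hv : ∀ j ∈ A, ⟪n j, v⟫ < 0) :
    ∃ w₁ w₂ : E3, ‖w₁‖ = 1 ∧ ‖w₂‖ = 1 ∧ ⟪e, w₁⟫ = 0 ∧ ⟪e, w₂⟫ = 0 ∧ w₁ ≠ w₂ ∧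
      ∀ d, Bd A n d ↔ ∃ b : ℂ, b.re • e + max b.im 0 • w₁ + max (-b.im) 0 • w₂ = d := by
  obtain ⟨u, hu1, heu, hvu, hdec⟩ := basis3 he1 hv1 hev
  have huv : ⟪u, v⟫ = 0 := by rw [real_inner_comm]; exact hvu
  have huu : ⟪u, u⟫ = 1 := by rw [real_inner_self_eq_norm_sq, hu1]; norm_num
  obtain ⟨M₁, h₁⟩ := side hA hv u
  obtain ⟨M₂, h₂⟩ := side hA hv (-u)
  have i₁ : ⟪u, M₁ • v + u⟫ = 1 := by
    rw [inner_add_right, real_inner_smul_right, huv, huu]; ring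
  have i₂ : ⟪u, M₂ • v + -u⟫ = -1 := by
    rw [inner_add_right, real_inner_smul_right, inner_neg_right, huv, huu]; ring
  have n₁ : M₁ • v + u ≠ 0 := fun h => by rw [h, inner_zero_right] at i₁; norm_num at i₁
  have n₂ : M₂ • v + -u ≠ 0 := fun h => by rw [h, inner_zero_right] at i₂; norm_num at i₂
  obtain ⟨N₁, w₁, hN₁, hw₁, g₁, k₁⟩ := unit n₁
  obtain ⟨N₂, w₂, hN₂, hw₂, g₂, k₂⟩ := unit n₂
  refine ⟨w₁, w₂, hw₁, hw₂, ?_, ?_, ?_, fun d => ⟨fun hd => ?_, ?_⟩⟩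
  · rw [k₁, real_inner_smul_right, inner_add_right, real_inner_smul_right, hev, heu]; ring
  · rw [k₂, real_inner_smul_right, inner_add_right, real_inner_smul_right, inner_neg_right, hev,
      heu]; ring
  · intro h
    have a₁ : ⟪u, w₁⟫ = N₁⁻¹ := by rw [k₁, real_inner_smul_right, i₁, mul_one]
    have a₂ : ⟪u, w₂⟫ = -N₂⁻¹ := by rw [k₂, real_inner_smul_right, i₂]; ring
    rw [h, a₂] at a₁
    have := inv_pos.2 hN₁
    have := inv_pos.2 hN₂
    linarith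
  · have hd' := hdec d
    set s := ⟪e, d⟫
    set x := ⟪v, d⟫
    set h := ⟪u, d⟫
    rcases le_total 0 h with hh | hh
    · have e1 : d = s • e + h • (M₁ • v + u) + (x - h * M₁) • v := by
        rw [hd']; module
      have e2 : x - h * M₁ = 0 := back he hv h₁ hh (e1 ▸ hd)
      have e3 : 0 ≤ h * N₁ := mul_nonneg hh hN₁.le
      refine ⟨⟨s, h * N₁⟩, ?_⟩
      rw [e1, e2, g₁]
      simp only [max_eq_left e3, max_eq_right (neg_nonpos.2 e3)]
      module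
    · have e1 : d = s • e + (-h) • (M₂ • v + -u) + (x + h * M₂) • v := by
        rw [hd']; module
      have e2 : x + h * M₂ = 0 := back he hv h₂ (neg_nonneg.2 hh) (e1 ▸ hd)
      have e3 : h * N₂ ≤ 0 := mul_nonpos_of_nonpos_of_nonneg hh hN₂.le
      refine ⟨⟨s, h * N₂⟩, ?_⟩
      rw [e1, e2, g₂]
      simp only [max_eq_right e3, max_eq_left (neg_nonneg.2 e3)]
      module
  · rintro ⟨b, rfl⟩
    rcases le_total 0 b.im with hh | hh
    · have := fwd he h₁ b.re (mul_nonneg hh (inv_pos.2 hN₁).le)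
      rw [max_eq_left hh, max_eq_right (neg_nonpos.2 hh), zero_smul, add_zero, k₁, smul_smul]
      exact this
    · have := fwd he h₂ b.re (mul_nonneg (neg_nonneg.2 hh) (inv_pos.2 hN₂).le)
      rw [max_eq_right hh, max_eq_left (neg_nonneg.2 hh), zero_smul, add_zero, k₂, smul_smul]
      exact this

end Pool.Agent.Lib.ED.CHA163

namespace Pool.Agent.Lib.ED

open Pool.Agent.Lib.MP_523900_gt CHA163

theorem r_CHA1 : R_CHA1 := by
  intro hS κ J n c hP z hz hv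
  have S := hS κ J n c hP
  obtain ⟨hzP, j₀, hj₀, hj₀'⟩ := (S.fro z).1 hz
  obtain ⟨r, hr, hnear⟩ := S.near z hzP
  set A := J.filter fun j => ⟪n j, z⟫ = c j with hA
  have memA : ∀ j, j ∈ A ↔ j ∈ J ∧ ⟪n j, z⟫ = c j := fun j => Finset.mem_filter
  have hAne : A.Nonempty := ⟨j₀, (memA j₀).2 ⟨hj₀, hj₀'⟩⟩
  obtain ⟨e₀, he₀, hne⟩ : ∃ e₀ : E3, (∀ j ∈ J, ⟪n j, z⟫ = c j → ⟪n j, e₀⟫ = 0) ∧ e₀ ≠ 0 := by
    by_contra hcon
    refine hv fun e₀ he₀ => ?_
    by_contra h0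
    exact hcon ⟨e₀, he₀, h0⟩
  obtain ⟨N, e, hN, he1, -, ke⟩ := unit hne
  have he : ∀ j ∈ A, ⟪n j, e⟫ = 0 := fun j hj => by
    rw [ke, real_inner_smul_right, he₀ j ((memA j).1 hj).1 ((memA j).1 hj).2, mul_zero]
  have hee : ⟪e, e⟫ = 1 := by rw [real_inner_self_eq_norm_sq, he1]; norm_num
  obtain ⟨p, hp⟩ := hP.int
  have hp' := (S.int p).1 hp
  have hv₀ : ∀ j ∈ A, ⟪n j, p - z - ⟪e, p - z⟫ • e⟫ < 0 := fun j hj => by
    rw [inner_sub_right, real_inner_smul_right, he j hj, inner_sub_right (n j), ((memA j).1 hj).2]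
    have := hp' j ((memA j).1 hj).1
    linarith
  have hv₁ : p - z - ⟪e, p - z⟫ • e ≠ 0 := fun h => by
    have := hv₀ j₀ ((memA j₀).2 ⟨hj₀, hj₀'⟩)
    rw [h, inner_zero_right] at this
    exact lt_irrefl _ this
  obtain ⟨L, v, hL, hv1, -, kv⟩ := unit hv₁
  have hv2 : ∀ j ∈ A, ⟪n j, v⟫ < 0 := fun j hj => by
    rw [kv, real_inner_smul_right]
    exact mul_neg_of_pos_of_neg (inv_pos.2 hL) (hv₀ j hj)
  have hev : ⟪e, v⟫ = 0 := by
    rw [kv, real_inner_smul_right, inner_sub_right e (p - z), real_inner_smul_right, hee]; ring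
  obtain ⟨w₁, w₂, a₁, a₂, a₃, a₄, a₅, hc⟩ := cone hAne he1 hv1 hev he hv2
  refine ⟨e, w₁, w₂, r, hr, he1, a₁, a₂, a₃, a₄, a₅, fun y hy => ?_⟩
  have hy' := hnear y (by rwa [norm_sub_rev])
  have h1 : y ∈ frontier (poly J n c) ↔ Bd A n (y - z) := by
    rw [S.fro]
    constructor
    · rintro ⟨hyP, j, hj, hj'⟩
      refine ⟨fun i hi => ?_, j, ?_, ?_⟩
      · rw [inner_sub_right, ((memA i).1 hi).2]
        exact sub_nonpos.2 (hyP i ((memA i).1 hi).1)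
      · refine (memA j).2 ⟨hj, ?_⟩
        by_contra hne'
        exact (hy' j hj hne').ne hj'
      · have : ⟪n j, z⟫ = c j := by
          by_contra hne'
          exact (hy' j hj hne').ne hj'
        rw [inner_sub_right, this, hj', sub_self]
    · rintro ⟨h2, j, hj, hj'⟩
      refine ⟨fun i hi => ?_, j, ((memA j).1 hj).1, ?_⟩
      · by_cases hi' : ⟪n i, z⟫ = c i
        · have := h2 i ((memA i).2 ⟨hi, hi'⟩)
          rw [inner_sub_right, hi'] at this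
          linarith
        · exact (hy' i hi hi').le
      · rw [inner_sub_right, ((memA j).1 hj).2] at hj'
        linarith
  rw [h1, hc]
  refine exists_congr fun b => ?_
  rw [wedge, eq_sub_iff_add_eq']
  simp only [add_assoc]

end Pool.Agent.Lib.ED
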