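import Pool.Agent.Lib.ED.Blue

/-! Block CHA2: a wedge is flat for its intrinsic metric. -/

open Set Metric MeasureTheory
open scoped ENNReal NNReal Classical RealInnerProductSpace

noncomputable section

namespace Pool.Agent.Lib.ED

open Pool.Agent.Lib.MP_523900_gt

namespace CHA282

variable {z e w₁ w₂ : E3}

theorem nsq (he : ‖e‖ = 1) (h1 : ‖w₁‖ = 1) (h2 : ‖w₂‖ = 1) (o1 : ⟪e, w₁⟫ = 0) (o2 : ⟪e, w₂⟫ = 0)
    (x p n : ℝ) :
    ‖x • e + p • w₁ + n • w₂‖ ^ 2 = x ^ 2 + p ^ 2 + n ^ 2 + 2 * p * n * ⟪w₁, w₂⟫ := by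
  rw [norm_add_sq_real, norm_add_sq_real]
  simp only [norm_smul, inner_add_left, real_inner_smul_left, real_inner_smul_right, he, h1, h2,
    o1, o2, Real.norm_eq_abs, mul_one, sq_abs]
  ring

theorem wsq (he : ‖e‖ = 1) (h1 : ‖w₁‖ = 1) (h2 : ‖w₂‖ = 1) (o1 : ⟪e, w₁⟫ = 0) (o2 : ⟪e, w₂⟫ = 0)
    (b c : ℂ) : ‖wedge z e w₁ w₂ b - wedge z e w₁ w₂ c‖ ^ 2 = ‖b - c‖ ^ 2 +
      2 * ((max b.im 0 - max c.im 0) * (max (-b.im) 0 - max (-c.im) 0)) * (1 + ⟪w₁, w₂⟫) := by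
  have e1 : wedge z e w₁ w₂ b - wedge z e w₁ w₂ c = (b.re - c.re) • e +
      (max b.im 0 - max c.im 0) • w₁ + (max (-b.im) 0 - max (-c.im) 0) • w₂ := by
    simp only [wedge]
    module
  have hb : max (-b.im) 0 = max b.im 0 - b.im := by
    rcases le_total b.im 0 with h | h <;> simp [h]
  have hc : max (-c.im) 0 = max c.im 0 - c.im := by
    rcases le_total c.im 0 with h | h <;> simp [h]
  rw [e1, nsq he h1 h2 o1 o2, Complex.sq_norm, Complex.normSq_apply, hb, hc]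
  simp only [Complex.sub_re, Complex.sub_im]
  ring

theorem wle (he : ‖e‖ = 1) (h1 : ‖w₁‖ = 1) (h2 : ‖w₂‖ = 1) (o1 : ⟪e, w₁⟫ = 0) (o2 : ⟪e, w₂⟫ = 0)
    (b c : ℂ) : ‖wedge z e w₁ w₂ b - wedge z e w₁ w₂ c‖ ≤ ‖b - c‖ := by
  have hk : 0 ≤ 1 + ⟪w₁, w₂⟫ := by
    have := abs_real_inner_le_norm w₁ w₂
    rw [h1, h2] at this
    linarith [(abs_le.1 this).1]
  have hp : (max b.im 0 - max c.im 0) * (max (-b.im) 0 - max (-c.im) 0) ≤ 0 := by
    rcases le_total b.im c.im with h | h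
    · exact mul_nonpos_of_nonpos_of_nonneg (sub_nonpos.2 (max_le_max h le_rfl))
        (sub_nonneg.2 (max_le_max (neg_le_neg h) le_rfl))
    · exact mul_nonpos_of_nonneg_of_nonpos (sub_nonneg.2 (max_le_max h le_rfl))
        (sub_nonpos.2 (max_le_max (neg_le_neg h) le_rfl))
  refine (sq_le_sq₀ (norm_nonneg _) (norm_nonneg _)).1 ?_
  rw [wsq he h1 h2 o1 o2]
  nlinarith [mul_nonneg (neg_nonneg.2 hp) hk]

theorem weq (he : ‖e‖ = 1) (h1 : ‖w₁‖ = 1) (h2 : ‖w₂‖ = 1) (o1 : ⟪e, w₁⟫ = 0) (o2 : ⟪e, w₂⟫ = 0)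
    {b c : ℂ} (h : 0 ≤ b.im * c.im) : ‖wedge z e w₁ w₂ b - wedge z e w₁ w₂ c‖ = ‖b - c‖ := by
  have hp : (max b.im 0 - max c.im 0) * (max (-b.im) 0 - max (-c.im) 0) = 0 := by
    rcases mul_nonneg_iff.1 h with h | h <;> simp [h.1, h.2]
  refine (sq_eq_sq₀ (norm_nonneg _) (norm_nonneg _)).1 ?_
  rw [wsq he h1 h2 o1 o2, hp]
  ring

theorem w0 : wedge z e w₁ w₂ 0 = z := by simp [wedge]

theorem winner (h1 : ‖w₁‖ = 1) (h2 : ‖w₂‖ = 1) (o1 : ⟪e, w₁⟫ = 0) (o2 : ⟪e, w₂⟫ = 0) (b : ℂ) :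
    ⟪wedge z e w₁ w₂ b - z, w₁ - w₂⟫ = b.im * (1 - ⟪w₁, w₂⟫) := by
  have e1 : wedge z e w₁ w₂ b - z = b.re • e + max b.im 0 • w₁ + max (-b.im) 0 • w₂ := by
    simp only [wedge]
    module
  have hb : max (-b.im) 0 = max b.im 0 - b.im := by
    rcases le_total b.im 0 with h | h <;> simp [h]
  rw [e1, hb]
  simp only [inner_add_left, inner_sub_right, real_inner_smul_left, o1, o2,
    real_inner_self_eq_norm_sq, h1, h2, real_inner_comm w₁ w₂]
  ring

end CHA282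

open CHA282 in
theorem r_CHA2 : R_CHA2 := by
  rintro X _ S ι hM x ⟨e, w₁, w₂, r, hr, he, h1, h2, o1, o2, hne, hS⟩
  set W := wedge (ι x) e w₁ w₂ with hW
  have hk : 0 < 1 - ⟪w₁, w₂⟫ := by
    have := norm_sub_sq_real w₁ w₂
    have h3 : 0 < ‖w₁ - w₂‖ := norm_pos_iff.2 (sub_ne_zero.2 hne)
    rw [h1, h2] at this
    nlinarith
  have hn : ∀ b, ‖W b - ι x‖ = ‖b‖ := fun b => by
    have := weq (z := ι x) he h1 h2 o1 o2 (b := b) (c := 0) (by simp)
    rwa [w0, sub_zero] at this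
  have hmem : ∀ b : ℂ, ‖b‖ < r → W b ∈ S := fun b hb => (hS _ (by rwa [hn])).2 ⟨b, rfl⟩
  let φ : ℂ → X := fun b => if h : ∃ a, ι a = W b then h.choose else x
  have hφ : ∀ b : ℂ, ‖b‖ < r → ι (φ b) = W b := fun b hb => by
    have h := hM.surj (hmem b hb)
    simp only [φ, dif_pos h]
    exact h.choose_spec
  have h0 : φ 0 = x := hM.inj ((hφ 0 (by simpa using hr)).trans w0)
  have hWc : Continuous W := (LipschitzWith.of_dist_le' (K := 1) fun a b => by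
    rw [one_mul, dist_eq_norm, dist_eq_norm]
    exact wle he h1 h2 o1 o2 a b).continuous
  refine ⟨φ, r / 4, h0, by positivity, fun b hb c hc => le_antisymm ?_ ?_, fun y hy => ?_⟩
  · have hb' := mem_ball_zero_iff.1 hb
    have hc' := mem_ball_zero_iff.1 hc
    refine hM.dist_le (T := W '' segment ℝ b c) ?_
    rw [hφ b (by linarith), hφ c (by linarith)]
    refine conn_segment hWc (fun u hu => hmem u ?_) (norm_nonneg _) fun s _ t _ => ?_
    · have := mem_ball_zero_iff.1 ((convex_ball (0 : ℂ) (r / 4)).segment_subset hb hc hu)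
      linarith
    · refine (wle he h1 h2 o1 o2 _ _).trans (le_of_eq ?_)
      rw [show b + s • (c - b) - (b + t • (c - b)) = (s - t) • (c - b) by module, norm_smul,
        Real.norm_eq_abs, norm_sub_rev, mul_comm]
  · have hb' := mem_ball_zero_iff.1 hb
    have hc' := mem_ball_zero_iff.1 hc
    rcases le_or_gt 0 (b.im * c.im) with hs | hs
    · have := hM.norm_le (φ b) (φ c)
      rwa [hφ b (by linarith), hφ c (by linarith), weq he h1 h2 o1 o2 hs] at this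
    by_contra hlt
    obtain ⟨l, l1, l2⟩ := exists_between (not_le.1 hlt)
    obtain ⟨hl, γ, hγ, hm, g0, g1, hlen, -⟩ := hM.conn l1
    rw [hφ b (by linarith)] at g0
    rw [hφ c (by linarith)] at g1
    let f : ℝ → ℝ := fun t => ⟪γ t - ι x, w₁ - w₂⟫
    have hf : Continuous f := by fun_prop
    have f0 : f 0 = b.im * (1 - ⟪w₁, w₂⟫) := by simp only [f, g0]; exact winner h1 h2 o1 o2 b
    have f1 : f 1 = c.im * (1 - ⟪w₁, w₂⟫) := by simp only [f, g1]; exact winner h1 h2 o1 o2 c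
    obtain ⟨t, ht, hft⟩ : ∃ t ∈ Icc (0 : ℝ) 1, f t = 0 := by
      have := intermediate_value_uIcc (a := (0 : ℝ)) (b := 1) hf.continuousOn
      rw [uIcc_of_le zero_le_one] at this
      refine this (mem_uIcc.2 ?_)
      rw [f0, f1]
      rcases mul_neg_iff.1 hs with h | h
      · exact Or.inr ⟨by nlinarith [h.2], by nlinarith [h.1]⟩
      · exact Or.inl ⟨by nlinarith [h.1], by nlinarith [h.2]⟩
    have hP : Pth (W b) (W c) l (γ '' Icc 0 1) := ⟨hl, γ, hγ, g0, g1, hlen, subset_rfl⟩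
    have hd := hP.dist_add_le ⟨t, ht, rfl⟩
    have hbc := norm_sub_le b c
    have hz : ‖γ t - ι x‖ < r := by
      have h3 := norm_sub_le_norm_sub_add_norm_sub (γ t) (W b) (ι x)
      rw [hn, ← dist_eq_norm (γ t) (W b), dist_comm] at h3
      linarith [dist_nonneg (x := γ t) (y := W c)]
    obtain ⟨m, hm'⟩ := (hS _ hz).1 (hm ht)
    have hm0 : m.im = 0 := by
      have h3 := winner (z := ι x) h1 h2 o1 o2 m
      rw [← hW, hm'] at h3
      exact (mul_eq_zero.1 (h3.symm.trans hft)).resolve_right hk.ne'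
    rw [← hm', dist_eq_norm, dist_eq_norm, weq he h1 h2 o1 o2 (by simp [hm0]),
      weq he h1 h2 o1 o2 (by simp [hm0])] at hd
    linarith [norm_sub_le_norm_sub_add_norm_sub b m c]
  · rw [h0, mem_ball] at hy
    have h3 := hM.norm_le y x
    obtain ⟨b, hb⟩ := (hS (ι y) (by linarith)).1 (hM.mem y)
    have h4 : ‖b‖ < r / 4 := by
      rw [← hn b, hb]
      linarith
    exact ⟨b, mem_ball_zero_iff.2 h4, hM.inj ((hφ b (by linarith)).trans hb)⟩

end Pool.Agent.Lib.ED
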