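import Pool.Agent.Lib.ED.Blue

/-! Project ed43: the domain of the exponential map is closed; injectivity before the end. -/

open Set Metric MeasureTheory Filter
open scoped ENNReal NNReal Classical RealInnerProductSpace Topology

noncomputable section

namespace Pool.Agent.Lib.ED

open Pool.Agent.Lib.MP_523900_gt

namespace CLO28

variable {X : Type} [MetricSpace X] {V : Set X} {φ : ℂ → X} {δ : ℝ}

theorem closed (hF : Flat V) (R : RayF V φ δ)
    (H : ∀ a ∈ dom φ δ, ∀ b ∈ dom φ δ, dist (ex φ δ a) (ex φ δ b) ≤ ‖a - b‖) :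
    IsClosed (dom φ δ) := by
  have := hF.complete
  have : Nonempty X := ⟨φ 0⟩
  refine IsSeqClosed.isClosed fun u a hu hua => ?_
  have h1 : ∀ s : ℝ, Tendsto (fun n => s • u n) atTop (𝓝 (s • a)) := fun s => hua.const_smul s
  have h2 : ∀ s ∈ Icc (0 : ℝ) 1, ∃ y, Tendsto (fun n => ex φ δ (s • u n)) atTop (𝓝 y) :=
    fun s hs => cauchySeq_tendsto_of_complete (Metric.cauchySeq_iff.2 fun ε hε => by
      obtain ⟨N, hN⟩ := Metric.cauchySeq_iff.1 (h1 s).cauchySeq ε hε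
      refine ⟨N, fun m hm n hn => (H _ (R.star _ (hu m) s hs) _ (R.star _ (hu n) s hs)).trans_lt ?_⟩
      rw [← dist_eq_norm]
      exact hN m hm n hn)
  choose! g hg using h2
  refine ⟨g, fun s hs t ht => ?_, fun s hs h => ?_⟩
  · refine tendsto_nhds_unique ((hg s hs).dist (hg t ht)) ?_
    simp only [fun n => (R.ray _ (hu n)).1 s hs t ht]
    exact hua.norm.const_mul _
  · obtain ⟨h3, h4⟩ := R.small (s • a) (by rwa [norm_smul, Real.norm_of_nonneg hs.1])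
    refine tendsto_nhds_unique (hg s hs) ?_
    rw [← h4, tendsto_iff_dist_tendsto_zero]
    exact squeeze_zero (fun _ => dist_nonneg) (fun n => H _ (R.star _ (hu n) s hs) _ h3)
      (tendsto_iff_norm_sub_tendsto_zero.1 (h1 s))

theorem inj (hU : St_UNI) (hF : Flat V) (hc : Chart φ 0 δ) (R : RayF V φ δ) {a b : ℂ}
    (ha : a ∈ dom φ δ) (hb : b ∈ dom φ δ) {t : ℝ} (ht : t ∈ Ico (0 : ℝ) 1)
    (h : ex φ δ b = ex φ δ (t • a)) : b = t • a := by
  have ht' : t ∈ Icc (0 : ℝ) 1 := Ico_subset_Icc_self ht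
  have n1 : ‖t • a‖ = t * ‖a‖ := by rw [norm_smul, Real.norm_of_nonneg ht.1]
  have n2 : ‖b‖ = t * ‖a‖ := by rw [← R.norm b hb, h, R.norm _ (R.star a ha t ht'), n1]
  rcases eq_or_ne (t * ‖a‖) 0 with h0 | h0
  · rw [norm_eq_zero.1 (n2.trans h0), norm_eq_zero.1 (n1.trans h0)]
  have t0 : 0 < t := ht.1.lt_of_ne' (left_ne_zero_of_mul h0)
  have a0 : 0 < ‖a‖ := (norm_nonneg a).lt_of_ne' (right_ne_zero_of_mul h0)
  have dv : ∀ s ∈ Icc (0 : ℝ) 1, s ≤ t → s / t ∈ Icc (0 : ℝ) 1 := fun s hs h =>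
    ⟨div_nonneg hs.1 t0.le, (div_le_one t0).2 h⟩
  let k : ℝ → X := fun s => if s ≤ t then ex φ δ ((s / t) • b) else ex φ δ (s • a)
  have k1 : ∀ s, s ≤ t → k s = ex φ δ ((s / t) • b) := fun s hs => if_pos hs
  have k2 : ∀ s, t ≤ s → k s = ex φ δ (s • a) := fun s hs => by
    rcases hs.eq_or_lt with rfl | hs
    · rw [k1 _ le_rfl, div_self t0.ne', one_smul, h]
    · exact if_neg hs.not_ge
  have k3 : ∀ s ∈ Icc (0 : ℝ) 1, dist (φ 0) (k s) = s * ‖a‖ := fun s hs => by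
    rcases le_total s t with h1 | h1
    · rw [k1 s h1, R.norm _ (R.star b hb _ (dv s hs h1)), norm_smul,
        Real.norm_of_nonneg (dv s hs h1).1, n2]
      field_simp
    · rw [k2 s h1, R.norm _ (R.star a ha s hs), norm_smul, Real.norm_of_nonneg hs.1]
  have k4 : ∀ s ∈ Icc (0 : ℝ) 1, ∀ r ∈ Icc (0 : ℝ) 1, s ≤ t → r ≤ t →
      dist (k s) (k r) = |s - r| * ‖a‖ := fun s hs r hr h1 h2 => by
    rw [k1 s h1, k1 r h2, (R.ray b hb).1 _ (dv s hs h1) _ (dv r hr h2), n2, ← sub_div, abs_div,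
      abs_of_pos t0]
    field_simp
  have k5 : ∀ s ∈ Icc (0 : ℝ) 1, ∀ r ∈ Icc (0 : ℝ) 1, t ≤ s → t ≤ r →
      dist (k s) (k r) = |s - r| * ‖a‖ := fun s hs r hr h1 h2 => by
    rw [k2 s h1, k2 r h2, (R.ray a ha).1 _ hs _ hr]
  have k6 : ∀ s ∈ Icc (0 : ℝ) 1, ∀ r ∈ Icc (0 : ℝ) 1, s ≤ t → t ≤ r →
      dist (k s) (k r) = |s - r| * ‖a‖ := fun s hs r hr h1 h2 => by
    have c1 := dist_triangle (φ 0) (k s) (k r)
    have c2 := dist_triangle (k s) (k t) (k r)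
    rw [k3 s hs, k3 r hr] at c1
    rw [k4 s hs t ht' h1 le_rfl, k5 t ht' r hr le_rfl h2, abs_of_nonpos (by linarith),
      abs_of_nonpos (by linarith)] at c2
    rw [abs_of_nonpos (by linarith)]
    linarith
  have k7 : Seg k ‖a‖ := fun s hs r hr => by
    rcases le_total s t with h1 | h1 <;> rcases le_total r t with h2 | h2
    · exact k4 s hs r hr h1 h2
    · exact k6 s hs r hr h1 h2
    · rw [dist_comm, abs_sub_comm]
      exact k6 r hr s hs h2 h1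
    · exact k5 s hs r hr h1 h2
  have rv : ∀ g : ℝ → X, Seg g ‖a‖ → Seg (fun s => g (1 - s)) ‖a‖ := fun g hg s hs r hr => by
    rw [hg _ ⟨by linarith [hs.2], by linarith [hs.1]⟩ _ ⟨by linarith [hr.2], by linarith [hr.1]⟩,
      abs_sub_comm, sub_sub_sub_cancel_left]
  have u := hU X V hF _ _ _ (1 - t) a0.le (rv k k7) (rv _ (R.ray a ha).1) (by linarith [ht.2])
    fun s _ hs => k2 _ (by linarith)
  obtain ⟨s, s0, s1, s2⟩ : ∃ s : ℝ, 0 < s ∧ s ≤ t ∧ s * ‖a‖ < δ :=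
    ⟨min t (δ / 2 / ‖a‖), lt_min t0 (by have := hc.pos; positivity), min_le_left _ _, by
      have := (le_div_iff₀ a0).1 (min_le_right t (δ / 2 / ‖a‖))
      linarith [hc.pos]⟩
  have u1 := u (1 - s) ⟨by linarith [ht.2], by linarith⟩
  have m1 : ‖(s / t) • b‖ < δ := by
    rwa [norm_smul, Real.norm_of_nonneg (by positivity), n2, ← mul_assoc, div_mul_cancel₀ _ t0.ne']
  have m2 : ‖s • a‖ < δ := by rwa [norm_smul, Real.norm_of_nonneg s0.le]
  simp only [sub_sub_cancel] at u1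
  rw [k1 s s1, (R.small _ m1).2, (R.small _ m2).2] at u1
  have u2 := hc.iso _ (mem_ball_zero_iff.2 m1) _ (mem_ball_zero_iff.2 m2)
  rw [u1, dist_self, eq_comm, norm_eq_zero, sub_eq_zero] at u2
  refine smul_right_injective ℂ (div_pos s0 t0).ne' ?_
  simp only [u2, smul_smul, div_mul_cancel₀ _ t0.ne']

end CLO28

theorem r_CLO : R_CLO := fun hU hR hH X _ V hF φ δ hc =>
  ⟨CLO28.closed hF (hR X V hF φ δ hc) (hH X V hF φ δ hc),
    fun _ ha _ hb _ ht h => CLO28.inj hU hF hc (hR X V hF φ δ hc) ha hb ht h⟩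

end Pool.Agent.Lib.ED
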