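import Pool.Agent.Lib.ED.Blue

/-! Project ed43: the number of runs of boxes. -/

open Set Metric MeasureTheory
open scoped ENNReal NNReal Classical RealInnerProductSpace

noncomputable section

namespace Pool.Agent.Lib.ED

namespace CNT89

variable {X : Type} [MetricSpace X] [MeasurableSpace X] [BorelSpace X]

theorem exists_bad (C : Cx X) (hC : C.Ok) (hG : C.GamF) (Ω : Set X) (B : Finset ℂ) (t ε : ℝ)
    (hε : 0 < ε) (hεR : ε ≤ C.R / 100) (hΩ : ∀ x ∈ Ω, ‖C.pr x‖ ≤ C.R) (hB : C.Bad Ω B ε)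
    (i : ℤ) (hi : i ∈ starts (C.act Ω t ε)) :
    ∃ β ∈ B, |t - dist C.p (C.lf β)| ≤ 603 * ε ∧ |i * ε - β.im| ≤ 311 * ε := by
  have hR := hC.Rpos
  simp only [starts, Cx.act, Finset.mem_filter, Finset.mem_Icc, not_and, not_exists] at hi
  obtain ⟨⟨⟨hi1, hi2⟩, x, hx, ⟨hd1, hd2⟩, hy1, hy2⟩, hno⟩ := hi
  have hn := hΩ x hx
  have him : |(C.pr x).im| ≤ C.R := (Complex.abs_im_le_norm _).trans hn
  have hre : |(C.pr x).re| ≤ C.R := (Complex.abs_re_le_norm _).trans hn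
  obtain ⟨him1, him2⟩ := abs_le.1 him
  have hlow : -⌈C.R / ε⌉ - 12 ≤ i - 1 := by
    by_contra hcon
    have h1 : i + 11 ≤ -⌈C.R / ε⌉ - 1 := by omega
    have h2 : (i : ℝ) + 11 ≤ -(⌈C.R / ε⌉ : ℝ) - 1 := by exact_mod_cast h1
    have h3 : C.R / ε ≤ (⌈C.R / ε⌉ : ℝ) := Int.le_ceil _
    have h4 : C.R ≤ (⌈C.R / ε⌉ : ℝ) * ε := (div_le_iff₀ hε).1 h3
    have h5 : ((i : ℝ) + 11) * ε ≤ (-(⌈C.R / ε⌉ : ℝ) - 1) * ε :=
      mul_le_mul_of_nonneg_right h2 hε.le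
    nlinarith
  have hno' := hno ⟨hlow, by omega⟩
  have hLv : C.Lv (dist C.p x) := by
    have h1 : |dist C.p x - dist C.p (C.lf 0)| ≤ dist x (C.lf 0) := by
      rw [dist_comm C.p x, dist_comm C.p (C.lf 0)]
      exact abs_dist_sub_le _ _ _
    have h2 := hC.up x (C.lf 0)
    rw [hC.pr_lf, sub_zero] at h2
    unfold Cx.Lv
    linarith
  have hy0 : |((i : ℝ) - 11) * ε| ≤ 2 * C.R := by
    rw [abs_le]
    constructor <;> nlinarith
  have hy0' : |(C.pr x).im| ≤ 2 * C.R := by linarith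
  have hb : C.gam (dist C.p x) (((i : ℝ) - 11) * ε) ∉ Ω := by
    intro hmem
    refine hno' _ hmem ?_ ?_
    · rw [hG.lev _ _ hLv hy0]
      exact ⟨hd1, hd2⟩
    · rw [hG.im]
      push_cast
      constructor <;> nlinarith
  have hxx := hG.uniq x (by linarith) hy0' hLv
  have hl := hG.lip _ _ _ _ hLv hy0' hLv hy0
  rw [hxx, sub_self, abs_zero] at hl
  have h22 : |(C.pr x).im - ((i : ℝ) - 11) * ε| ≤ 22 * ε := by
    rw [abs_le]
    constructor <;> nlinarith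
  obtain ⟨β, hβ, hβx⟩ := hB x hx _ hb (by linarith)
  refine ⟨β, hβ, ?_, ?_⟩
  · have h1 : |dist C.p x - dist C.p (C.lf β)| ≤ dist x (C.lf β) := by
      rw [dist_comm C.p x, dist_comm C.p (C.lf β)]
      exact abs_dist_sub_le _ _ _
    have h2 := hC.up x (C.lf β)
    rw [hC.pr_lf] at h2
    obtain ⟨h3, h4⟩ := abs_le.1 h1
    rw [abs_le]
    constructor <;> linarith
  · have h1 : |(C.pr x - β).im| ≤ 300 * ε := (Complex.abs_im_le_norm _).trans hβx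
    rw [Complex.sub_im] at h1
    obtain ⟨h3, h4⟩ := abs_le.1 h1
    rw [abs_le]
    constructor <;> nlinarith

theorem mem_window (a ε : ℝ) (hε : 0 < ε) (k : ℤ) (n : ℕ) (h : |k * ε - a| ≤ n * ε) :
    k ∈ Finset.Icc (⌊a / ε⌋ - n) (⌊a / ε⌋ + n + 1) := by
  obtain ⟨h1, h2⟩ := abs_le.1 h
  have h3 : (⌊a / ε⌋ : ℝ) ≤ a / ε := Int.floor_le _
  have h4 : a / ε < (⌊a / ε⌋ : ℝ) + 1 := Int.lt_floor_add_one _
  have h5 : (⌊a / ε⌋ : ℝ) * ε ≤ a := (le_div_iff₀ hε).1 h3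
  have h6 : a < ((⌊a / ε⌋ : ℝ) + 1) * ε := (div_lt_iff₀ hε).1 h4
  rw [Finset.mem_Icc]
  constructor
  · have h7 : ((⌊a / ε⌋ : ℝ) - n) * ε ≤ k * ε := by nlinarith
    have h8 : (⌊a / ε⌋ : ℝ) - n ≤ k := le_of_mul_le_mul_right h7 hε
    exact_mod_cast h8
  · have h7 : (k : ℝ) * ε ≤ ((⌊a / ε⌋ : ℝ) + n + 1) * ε := by nlinarith
    have h8 : (k : ℝ) ≤ (⌊a / ε⌋ : ℝ) + n + 1 := le_of_mul_le_mul_right h7 hε
    exact_mod_cast h8

theorem card_window (c : ℤ) (n : ℕ) : (Finset.Icc (c - n) (c + n + 1)).card = 2 * n + 2 := by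
  rw [Int.card_Icc]
  omega

end CNT89

theorem r_CNT : R_CNT := by
  intro hGAM X _ _ _ C hC Ω B t₀ ε M hε hεR hΩ hB
  have hG := hGAM X C hC
  let W : ℂ → Finset (ℤ × ℤ) := fun β =>
    Finset.Icc (⌊(dist C.p (C.lf β) - t₀) / (4 * ε)⌋ - (151 : ℕ))
        (⌊(dist C.p (C.lf β) - t₀) / (4 * ε)⌋ + (151 : ℕ) + 1) ×ˢ
      Finset.Icc (⌊β.im / ε⌋ - (311 : ℕ)) (⌊β.im / ε⌋ + (311 : ℕ) + 1)
  have hW : ∀ β, (W β).card ≤ 10 ^ 6 := by
    intro β
    simp only [W]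
    rw [Finset.card_product, CNT89.card_window, CNT89.card_window]
    norm_num
  have hmap : ((Finset.range M).sigma fun m : ℕ => starts (C.act Ω (t₀ + 4 * ε * m) ε)).card ≤
      (B.biUnion W).card := by
    refine Finset.card_le_card_of_injOn (fun q => ((q.1 : ℤ), q.2)) ?_ ?_
    · intro q hq
      obtain ⟨_, hq2⟩ := Finset.mem_sigma.1 (Finset.mem_coe.1 hq)
      obtain ⟨β, hβ, h1, h2⟩ := CNT89.exists_bad C hC hG Ω B _ ε hε hεR hΩ hB _ hq2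
      refine Finset.mem_coe.2 (Finset.mem_biUnion.2 ⟨β, hβ, Finset.mem_product.2 ⟨?_, ?_⟩⟩)
      · refine CNT89.mem_window _ _ (by linarith) _ 151 ?_
        obtain ⟨h3, h4⟩ := abs_le.1 h1
        rw [abs_le]
        push_cast
        constructor <;> linarith
      · refine CNT89.mem_window _ _ hε _ 311 ?_
        exact_mod_cast h2
    · rintro ⟨a, b⟩ _ ⟨c, d⟩ _ h
      simp only [Prod.mk.injEq, Nat.cast_inj] at h
      obtain ⟨rfl, rfl⟩ := h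
      rfl
  have h2 : (B.biUnion W).card ≤ 10 ^ 6 * B.card := by
    refine Finset.card_biUnion_le.trans ?_
    calc ∑ β ∈ B, (W β).card ≤ ∑ _β ∈ B, 10 ^ 6 := Finset.sum_le_sum fun β _ => hW β
      _ = 10 ^ 6 * B.card := by rw [Finset.sum_const, smul_eq_mul, mul_comm]
  rw [Finset.card_sigma] at hmap
  exact_mod_cast hmap.trans h2

end Pool.Agent.Lib.ED
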