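import Pool.Agent.Lib.ED.Blue

/-! Project ed43: the data of a graph. -/

open Set Metric MeasureTheory
open scoped ENNReal NNReal Classical RealInnerProductSpace

namespace Pool.Agent.Lib.ED

open Pool.Agent.Lib.MP_523900_gt

theorem r_GFIN : R_GFIN := by
  intro Q o e₁ e₂ e f h
  have ho := orthonormal_iff_ite.1 h.orth
  have h02 : ⟪e₁, e⟫ = 0 := by simpa using ho 0 2
  have h12 : ⟪e₂, e⟫ = 0 := by simpa using ho 1 2
  have h22 : ⟪e, e⟫ = 1 := by simpa using ho 2 2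
  have h20 : ⟪e, e₁⟫ = 0 := by rw [real_inner_comm]; exact h02
  have h21 : ⟪e, e₂⟫ = 0 := by rw [real_inner_comm]; exact h12
  constructor
  · refine ⟨o + (f 0 - 1) • e, ?_⟩
    by_contra hn
    have := (h.out _).1 hn
    have e0 : gpr o e₁ e₂ (o + (f 0 - 1) • e) = 0 := by
      apply Complex.ext <;> simp [gpr, inner_smul_left, h20, h21]
    rw [e0, add_sub_cancel_left, real_inner_smul_left, h22] at this
    linarith
  · intro z w
    have hc : Continuous (glf o e₁ e₂ e f) :=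
      (LipschitzWith.of_dist_le' (K := 51 / 50) fun a b => by
        rw [dist_eq_norm, dist_eq_norm]; exact h.up a b).continuous
    refine (conn_segment (S := frontier Q) hc (p := z) (q := w) (l := 51 / 50 * ‖z - w‖)
      (fun u _ => h.fro ▸ mem_range_self u) (by positivity) fun s _ t _ => ?_).mono le_rfl
      (empty_subset _)
    refine (h.up _ _).trans (le_of_eq ?_)
    rw [show z + s • (w - z) - (z + t • (w - z)) = (s - t) • (w - z) by module, norm_smul,
      Real.norm_eq_abs, norm_sub_rev]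
    ring

theorem r_CTX : R_CTX := by
  intro hF hM Q o e₁ e₂ e f h X _ _ _ ι hS R hR
  have hm := hS.toModel
  have hlf : ∀ z : ℂ, ∃ x, ι x = glf o e₁ e₂ e f z := fun z =>
    hm.surj (h.fro ▸ mem_range_self z)
  choose lf hlf using hlf
  have h1 : ∀ z, gpr o e₁ e₂ (ι (lf z)) = z := fun z => by rw [hlf, h.sec]
  have h2 : ∀ x, lf (gpr o e₁ e₂ (ι x)) = x := fun x => by
    have hx := hm.mem x
    rw [h.fro] at hx
    obtain ⟨z, hz⟩ := hx
    apply hm.inj
    rw [hlf, ← hz, h.sec]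
  have lo : ∀ a b, ‖gpr o e₁ e₂ (ι a) - gpr o e₁ e₂ (ι b)‖ ≤ dist a b := fun a b =>
    (h.lo _ _).trans (hm.norm_le a b)
  have up : ∀ a b, dist a b ≤ 2 * ‖gpr o e₁ e₂ (ι a) - gpr o e₁ e₂ (ι b)‖ := fun a b => by
    have := (hF Q o e₁ e₂ e f h).2 (gpr o e₁ e₂ (ι a)) (gpr o e₁ e₂ (ι b))
    rw [← hlf, ← hlf, h2, h2] at this
    linarith [hm.dist_le this, norm_nonneg (gpr o e₁ e₂ (ι a) - gpr o e₁ e₂ (ι b))]
  obtain ⟨p, ⟨D, E, hE⟩, hp⟩ := hS.good.exists_dist_lt (lf (-(1000 * R : ℝ) : ℂ)) hR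
  have hp1 : ‖gpr o e₁ e₂ (ι p) + (1000 * R : ℝ)‖ ≤ R := by
    have := lo p (lf (-(1000 * R : ℝ) : ℂ))
    rw [h1, sub_neg_eq_add, dist_comm] at this
    linarith
  have hn : ‖((1000 * R : ℝ) : ℂ)‖ = 1000 * R := by
    rw [Complex.norm_real, Real.norm_of_nonneg (by positivity)]
  refine ⟨⟨p, D, E, fun x => gpr o e₁ e₂ (ι x), lf, R⟩,
    { toExp := hE, Rpos := hR, pr_lf := h1, lf_pr := h2, lo := lo, up := up, mono := ?_,
      far := ?_, near := ?_ }, rfl, fun _ => rfl, hlf⟩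
  · intro z s hs a1 a2 a3
    exact hM Q o e₁ e₂ e f h X ι hm hS.geo R p _ _ z s hR hp1 hs a1 a2 a3 (hlf _) (hlf _)
  · have := lo p (lf 0)
    rw [h1, sub_zero] at this
    have e := norm_sub_le (gpr o e₁ e₂ (ι p) + (1000 * R : ℝ)) (gpr o e₁ e₂ (ι p))
    rw [add_sub_cancel_left, hn] at e
    change 100 * R ≤ dist p (lf 0)
    linarith
  · have := up p (lf 0)
    rw [h1, sub_zero] at this
    have e := norm_sub_le (gpr o e₁ e₂ (ι p) + (1000 * R : ℝ)) ((1000 * R : ℝ) : ℂ)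
    rw [add_sub_cancel_right, hn] at e
    change dist p (lf 0) ≤ 2500 * R
    linarith

end Pool.Agent.Lib.ED
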