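import Pool.Agent.Lib.ED.Blue

/-! Project ed43: local isometries of the plane are affine; the barrier lemma. -/

open Set Metric

noncomputable section

namespace Pool.Agent.Lib.ED

theorem r_EXT : R_EXT := by
  intro f a δ hδ h
  have h0 : ∀ v : ℂ, ‖v‖ < δ → a + v ∈ ball a δ := fun v hv => by simpa using hv
  have h1 : ∀ v w : ℂ, ‖v‖ < δ → ‖w‖ < δ →
      (f (a + v) - f a).re * (f (a + w) - f a).re + (f (a + v) - f a).im * (f (a + w) - f a).im =
        v.re * w.re + v.im * w.im := fun v w hv hw => by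
    have e1 := congrArg (· ^ 2) (h _ (h0 v hv) _ (h0 w hw))
    have e2 := congrArg (· ^ 2) (h _ (h0 v hv) _ (mem_ball_self hδ))
    have e3 := congrArg (· ^ 2) (h _ (h0 w hw) _ (mem_ball_self hδ))
    simp only [Complex.sq_norm, Complex.normSq_apply, Complex.sub_re, Complex.sub_im,
      Complex.add_re, Complex.add_im] at e1 e2 e3 ⊢
    linear_combination (e2 + e3 - e1) / 2
  obtain ⟨t, ht, ht0⟩ : ∃ t : ℝ, t < δ ∧ 0 < t := ⟨δ / 2, by linarith, by linarith⟩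
  have n1 : ‖(t : ℂ)‖ < δ := by simpa [abs_of_pos ht0] using ht
  have n2 : ‖(t : ℂ) * Complex.I‖ < δ := by simpa [abs_of_pos ht0] using ht
  set p := f (a + t) - f a with hp
  set q := f (a + t * Complex.I) - f a with hq
  have pp := h1 _ _ n1 n1
  have pq := h1 _ _ n1 n2
  have qq := h1 _ _ n2 n2
  rw [← hp] at pp pq
  rw [← hq] at pq qq
  simp at pp pq qq
  have hi : t⁻¹ * t = 1 := inv_mul_cancel₀ ht0.ne'
  let L : ℂ →ₗ[ℝ] ℂ := Complex.reLm.smulRight (t⁻¹ • p) + Complex.imLm.smulRight (t⁻¹ • q)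
  have L1 : ∀ v, (L v).re = t⁻¹ * (v.re * p.re + v.im * q.re) := fun v => by simp [L]; ring
  have L2 : ∀ v, (L v).im = t⁻¹ * (v.re * p.im + v.im * q.im) := fun v => by simp [L]; ring
  have L3 : ∀ v, (L v).re * (L v).re + (L v).im * (L v).im = v.re * v.re + v.im * v.im :=
    fun v => by
      rw [L1, L2]
      linear_combination t⁻¹ ^ 2 * (v.re ^ 2 * pp + 2 * v.re * v.im * pq + v.im ^ 2 * qq) +
        (v.re ^ 2 + v.im ^ 2) * (t⁻¹ * t + 1) * hi
  let L' : ℂ →ₗᵢ[ℝ] ℂ := ⟨L, fun v => by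
    rw [← sq_eq_sq₀ (norm_nonneg _) (norm_nonneg _), Complex.sq_norm, Complex.sq_norm,
      Complex.normSq_apply, Complex.normSq_apply, L3]⟩
  refine ⟨L'.toLinearIsometryEquiv rfl, fun b hb => ?_⟩
  have hv : ‖b - a‖ < δ := mem_ball_iff_norm.mp hb
  have a1 := h1 _ _ hv hv
  have a2 := h1 _ _ hv n1
  have a3 := h1 _ _ hv n2
  rw [← hp] at a2
  rw [← hq] at a3
  rw [add_sub_cancel] at a1 a2 a3
  generalize b - a = v at a1 a2 a3 ⊢
  rw [← sub_eq_iff_eq_add']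
  generalize f b - f a = g at a1 a2 a3 ⊢
  simp at a2 a3
  change g = L v
  rw [← sub_eq_zero, ← Complex.normSq_eq_zero, Complex.normSq_apply, Complex.sub_re, Complex.sub_im]
  have a4 : g.re * (L v).re + g.im * (L v).im = v.re * v.re + v.im * v.im := by
    rw [L1, L2]
    linear_combination t⁻¹ * (v.re * a2 + v.im * a3) + (v.re ^ 2 + v.im ^ 2) * hi
  linear_combination a1 - 2 * a4 + L3 v

theorem r_BAR : R_BAR := by
  intro f k₀ hf hb ⟨η, hη, h0⟩
  by_contra hc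
  obtain ⟨c, hc1⟩ : ∃ c, c = f 1 - f 0 - k₀ := ⟨_, rfl⟩
  have hc0 : 0 < c := by linarith [not_le.mp hc]
  obtain ⟨s, hs, hm⟩ := isCompact_Icc.exists_isMinOn (nonempty_Icc.mpr zero_le_one)
    (f := fun t => f t - k₀ * t - c * t ^ 2) ((hf.sub (by fun_prop)).sub (by fun_prop))
  have hm' : ∀ t ∈ Icc (0 : ℝ) 1, f s - k₀ * s - c * s ^ 2 ≤ f t - k₀ * t - c * t ^ 2 :=
    fun t ht => hm ht
  obtain ⟨t, t0, t1, t2⟩ : ∃ t : ℝ, 0 < t ∧ t ≤ 1 ∧ t < η :=
    ⟨min 1 (η / 2), by positivity, min_le_left _ _, (min_le_right _ _).trans_lt (by linarith)⟩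
  have h1 : f s - k₀ * s - c * s ^ 2 < f 0 := by
    have : 0 < c * t ^ 2 := by positivity
    linarith [hm' t ⟨t0.le, t1⟩, h0 t ⟨t0.le, t1⟩ t2]
  have s0 : 0 < s := hs.1.lt_of_ne fun e => by rw [← e] at h1; simp at h1
  have s1 : s < 1 := hs.2.lt_of_ne fun e => by rw [e] at h1; linarith
  obtain ⟨k, θ, hθ, h2⟩ := hb s ⟨s0, s1⟩
  obtain ⟨d, d0, d1, d2, d3⟩ : ∃ d : ℝ, 0 < d ∧ d ≤ s ∧ d ≤ 1 - s ∧ d < θ :=
    ⟨min s (min (1 - s) (θ / 2)), lt_min s0 (lt_min (by linarith) (by linarith)), min_le_left _ _,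
      (min_le_right _ _).trans (min_le_left _ _),
      ((min_le_right _ _).trans (min_le_right _ _)).trans_lt (by linarith)⟩
  have m1 : s + d ∈ Icc (0 : ℝ) 1 := ⟨by linarith, by linarith⟩
  have m2 : s - d ∈ Icc (0 : ℝ) 1 := ⟨by linarith, by linarith⟩
  have b1 := h2 _ m1 (by rw [abs_lt]; constructor <;> linarith)
  have b2 := h2 _ m2 (by rw [abs_lt]; constructor <;> linarith)
  have : 0 < c * d ^ 2 := by positivity
  nlinarith [hm' _ m1, hm' _ m2]

end Pool.Agent.Lib.ED
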