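import Pool.Agent.Lib.ED.Blue

/-! Project ed43, row GAM: first properties of the levels. -/

open Set Metric MeasureTheory
open scoped ENNReal NNReal Classical RealInnerProductSpace

noncomputable section

namespace Pool.Agent.Lib.ED

open Pool.Agent.Lib.MP_523900_gt

namespace GAM53

theorem norm_pol {r : ℝ} (θ : ℝ) (hr : 0 ≤ r) : ‖pol r θ‖ = r := by
  unfold pol
  rw [norm_mul, Complex.norm_exp_ofReal_mul_I, mul_one, Complex.norm_real, Real.norm_eq_abs,
    abs_of_nonneg hr]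

theorem smul_pol (t r θ : ℝ) : t • pol r θ = pol (t * r) θ := by
  unfold pol
  rw [Complex.real_smul, Complex.ofReal_mul, mul_assoc]

theorem norm_pol_sub (r r' θ : ℝ) : ‖pol r θ - pol r' θ‖ = |r - r'| := by
  unfold pol
  rw [← sub_mul, norm_mul, Complex.norm_exp_ofReal_mul_I, mul_one, ← Complex.ofReal_sub,
    Complex.norm_real, Real.norm_eq_abs]

theorem norm_pol_ang {r : ℝ} (θ θ' : ℝ) (hr : 0 ≤ r) : ‖pol r θ - pol r θ'‖ ≤ r * |θ - θ'| := by
  have h : pol r θ - pol r θ' = (r : ℂ) * Complex.exp ((θ' : ℂ) * Complex.I) *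
      (Complex.exp (Complex.I * ((θ - θ' : ℝ) : ℂ)) - 1) := by
    unfold pol
    have e : Complex.exp ((θ : ℂ) * Complex.I) =
        Complex.exp ((θ' : ℂ) * Complex.I) * Complex.exp (Complex.I * ((θ - θ' : ℝ) : ℂ)) := by
      rw [← Complex.exp_add]
      congr 1
      push_cast
      ring
    rw [e]
    ring
  rw [h, norm_mul, norm_mul, Complex.norm_exp_ofReal_mul_I, mul_one, Complex.norm_real,
    Real.norm_eq_abs, abs_of_nonneg hr]
  exact mul_le_mul_of_nonneg_left Real.norm_exp_I_mul_ofReal_sub_one_le hr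

theorem continuous_pol (r : ℝ) : Continuous (pol r) := by
  unfold pol
  fun_prop

theorem pol_inj {r θ θ' : ℝ} (hr : 0 < r) (h1 : θ ∈ Ioc (-Real.pi) Real.pi)
    (h2 : θ' ∈ Ioc (-Real.pi) Real.pi) (h : pol r θ = pol r θ') : θ = θ' := by
  unfold pol at h
  have hr' : (r : ℂ) ≠ 0 := Complex.ofReal_ne_zero.2 hr.ne'
  have h3 := mul_left_cancel₀ hr' h
  have h4 := Complex.exp_inj_of_neg_pi_lt_of_le_pi (x := (θ : ℂ) * Complex.I)
    (y := (θ' : ℂ) * Complex.I) (by simpa using h1.1) (by simpa using h1.2)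
    (by simpa using h2.1) (by simpa using h2.2) h3
  have h5 := mul_right_cancel₀ Complex.I_ne_zero h4
  exact Complex.ofReal_injective h5

variable {X : Type} [MetricSpace X] [MeasurableSpace X] [BorelSpace X] {C : Cx X}

theorem lf_lip (h : C.Ok) (z w : ℂ) : dist (C.lf z) (C.lf w) ≤ 2 * ‖z - w‖ := by
  have := h.up (C.lf z) (C.lf w)
  rwa [h.pr_lf, h.pr_lf] at this

theorem u_lip (h : C.Ok) (z w : ℂ) :
    |dist C.p (C.lf z) - dist C.p (C.lf w)| ≤ 2 * ‖z - w‖ := by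
  have h1 := lf_lip h z w
  have h2 := abs_dist_sub_le (C.lf z) (C.lf w) C.p
  rw [dist_comm (C.lf z) C.p, dist_comm (C.lf w) C.p] at h2
  exact h2.trans h1

theorem u_vert (h : C.Ok) (x y y' : ℝ) :
    |dist C.p (C.lf ⟨x, y⟩) - dist C.p (C.lf ⟨x, y'⟩)| ≤ 2 * |y - y'| := by
  refine (u_lip h _ _).trans ?_
  have h1 := Complex.norm_le_abs_re_add_abs_im ((⟨x, y⟩ : ℂ) - ⟨x, y'⟩)
  simp only [Complex.sub_re, Complex.sub_im, sub_self, abs_zero, zero_add] at h1
  linarith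

theorem u_mono (h : C.Ok) {x x' y : ℝ} (hx : x ≤ x') (h1 : |x| ≤ 20 * C.R) (h2 : |x'| ≤ 20 * C.R)
    (hy : |y| ≤ 20 * C.R) :
    dist C.p (C.lf ⟨x, y⟩) + (x' - x) / 2 ≤ dist C.p (C.lf ⟨x', y⟩) := by
  have h3 := h.mono ⟨x, y⟩ (x' - x) (sub_nonneg.2 hx) h1 (by simpa using h2) hy
  have e : (⟨x, y⟩ : ℂ) + ((x' - x : ℝ) : ℂ) = ⟨x', y⟩ := by
    apply Complex.ext <;> simp
  rwa [e] at h3

theorem u_cont (h : C.Ok) (y : ℝ) : Continuous fun x : ℝ => dist C.p (C.lf ⟨x, y⟩) := by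
  have hl : LipschitzWith 2 fun x : ℝ => dist C.p (C.lf ⟨x, y⟩) := by
    refine LipschitzWith.of_dist_le_mul fun a b => ?_
    rw [Real.dist_eq, Real.dist_eq]
    refine (u_lip h _ _).trans ?_
    have h1 := Complex.norm_le_abs_re_add_abs_im ((⟨a, y⟩ : ℂ) - ⟨b, y⟩)
    simp only [Complex.sub_re, Complex.sub_im, sub_self, abs_zero, add_zero] at h1
    push_cast
    linarith
  exact hl.continuous

theorem ex_lev (h : C.Ok) {r y : ℝ} (hr : C.Lv r) (hy : |y| ≤ 2 * C.R) :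
    ∃ x : ℝ, |x| ≤ 14 * C.R ∧ dist C.p (C.lf ⟨x, y⟩) = r := by
  have hR := h.Rpos
  have h0 := u_vert h 0 y 0
  have e0 : (⟨0, 0⟩ : ℂ) = 0 := rfl
  rw [e0, sub_zero] at h0
  have hy' : |y| ≤ 20 * C.R := by linarith
  have z0 : |(0 : ℝ)| ≤ 20 * C.R := by rw [abs_zero]; linarith
  have z1 : |14 * C.R| ≤ 20 * C.R := by rw [abs_of_nonneg (by linarith)]; linarith
  have z2 : |-(14 * C.R)| ≤ 20 * C.R := by rw [abs_neg]; exact z1
  have h1 := u_mono h (x := 0) (x' := 14 * C.R) (by linarith) z0 z1 hy'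
  have h2 := u_mono h (x := -(14 * C.R)) (x' := 0) (by linarith) z2 z0 hy'
  unfold Cx.Lv at hr
  rw [abs_le] at hr h0
  obtain ⟨x, hx, hxe⟩ := intermediate_value_Icc (a := -(14 * C.R)) (b := 14 * C.R) (by linarith)
    (u_cont h y).continuousOn (show r ∈ Icc _ _ from ⟨by linarith, by linarith⟩)
  exact ⟨x, abs_le.2 hx, hxe⟩

/-- The abscissa of the point of level `r` and height `y`. -/
def ab (C : Cx X) (r y : ℝ) : ℝ :=
  Classical.epsilon fun x : ℝ => |x| ≤ 14 * C.R ∧ dist C.p (C.lf ⟨x, y⟩) = r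

omit [MeasurableSpace X] [BorelSpace X] in
theorem gam_eq (r y : ℝ) : C.gam r y = C.lf ⟨ab C r y, y⟩ := rfl

theorem ab_spec (h : C.Ok) {r y : ℝ} (hr : C.Lv r) (hy : |y| ≤ 2 * C.R) :
    |ab C r y| ≤ 14 * C.R ∧ dist C.p (C.lf ⟨ab C r y, y⟩) = r :=
  Classical.epsilon_spec (ex_lev h hr hy)

theorem ab_half (h : C.Ok) {r y r' y' : ℝ} (hr : C.Lv r) (hy : |y| ≤ 2 * C.R) (hr' : C.Lv r')
    (hy' : |y'| ≤ 2 * C.R) (hle : ab C r y ≤ ab C r' y') :
    ab C r' y' - ab C r y ≤ 2 * |r - r'| + 4 * |y - y'| := by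
  have hR := h.Rpos
  obtain ⟨a1, a2⟩ := ab_spec h hr hy
  obtain ⟨b1, b2⟩ := ab_spec h hr' hy'
  have h1 := u_mono h (y := y) hle (by linarith) (by linarith) (by linarith)
  have h2 := u_vert h (ab C r' y') y y'
  rw [a2] at h1
  rw [b2, abs_le] at h2
  have h3 := neg_abs_le (r - r')
  linarith [h2.2]

theorem E_contOn (h : C.Ok) : ContinuousOn C.E C.D := by
  have hl : LipschitzOnWith 1 C.E C.D := by
    refine LipschitzOnWith.of_dist_le_mul fun a ha b hb => ?_
    rw [NNReal.coe_one, one_mul, dist_eq_norm]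
    exact h.lip a ha b hb
  exact hl.continuousOn

theorem pr_cont (h : C.Ok) : Continuous C.pr := by
  have hl : LipschitzWith 1 C.pr := by
    refine LipschitzWith.of_dist_le_mul fun a b => ?_
    rw [NNReal.coe_one, one_mul, dist_eq_norm]
    exact h.lo a b
  exact hl.continuous

theorem th_meas (h : C.Ok) (r : ℝ) (U : Set ℂ) (hU : MeasurableSet U) :
    MeasurableSet (C.th r U) := by
  have hS : MeasurableSet (pol r ⁻¹' C.D) :=
    (h.closed.preimage (continuous_pol r)).measurableSet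
  have hf : ContinuousOn (fun θ => C.pr (C.E (pol r θ))) (pol r ⁻¹' C.D) :=
    (pr_cont h).comp_continuousOn
      ((E_contOn h).comp (continuous_pol r).continuousOn fun _ hθ => hθ)
  have hm := hS.subtype_image ((continuousOn_iff_continuous_domRestrict.1 hf).measurable hU)
  have e : C.th r U = Ioc (-Real.pi) Real.pi ∩
      (Subtype.val '' ((pol r ⁻¹' C.D).domRestrict (fun θ => C.pr (C.E (pol r θ))) ⁻¹' U)) := by
    ext θ
    constructor
    · rintro ⟨a, b, c⟩
      exact ⟨a, ⟨θ, b⟩, c, rfl⟩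
    · rintro ⟨a, ⟨θ', b⟩, c, rfl⟩
      exact ⟨a, b, c⟩
  rw [e]
  exact measurableSet_Ioc.inter hm

end GAM53

open GAM53 in
theorem r_GAM : R_GAM := by
  intro X _ _ _ C h
  have hR := h.Rpos
  have levE : ∀ r θ, 0 ≤ r → pol r θ ∈ C.D → dist C.p (C.E (pol r θ)) = r := fun r θ hr hD => by
    rw [h.norm _ hD, norm_pol θ hr]
  refine ⟨fun r y hr hy => (ab_spec h hr hy).2, fun r y => ?_, fun r y hr hy => ?_,
    fun x h1 h2 h3 => ?_, fun r y r' y' hr hy hr' hy' => ?_, th_meas h, fun r r' θ hr hle hD => ?_,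
    fun x => ?_, fun r r' θ hr hr' hD hD' => ?_, fun r θ θ' hr hD hD' => ?_, levE,
    fun r r' θ θ' hr hlt h1 h2 hD hD' hE => ?_⟩
  · rw [gam_eq, h.pr_lf]
  · rw [gam_eq, h.pr_lf]
    exact (ab_spec h hr hy).1
  · obtain ⟨a1, a2⟩ := ab_spec h h3 h2
    have ex : C.lf ⟨(C.pr x).re, (C.pr x).im⟩ = x := h.lf_pr x
    have e : ab C (dist C.p x) (C.pr x).im = (C.pr x).re := by
      rcases le_total (ab C (dist C.p x) (C.pr x).im) (C.pr x).re with hle | hle
      · have h4 := u_mono h (y := (C.pr x).im) hle (by linarith) h1 (by linarith)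
        rw [a2, ex] at h4
        linarith
      · have h4 := u_mono h (y := (C.pr x).im) hle h1 (by linarith) (by linarith)
        rw [a2, ex] at h4
        linarith
    rw [gam_eq, e, ex]
  · rw [gam_eq, gam_eq, h.pr_lf, h.pr_lf]
    have h1 := Complex.norm_le_abs_re_add_abs_im
      ((⟨ab C r y, y⟩ : ℂ) - ⟨ab C r' y', y'⟩)
    simp only [Complex.sub_re, Complex.sub_im] at h1
    have h2 : |ab C r y - ab C r' y'| ≤ 2 * |r - r'| + 4 * |y - y'| := by
      rcases le_total (ab C r y) (ab C r' y') with hle | hle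
      · have h3 := ab_half h hr hy hr' hy' hle
        rw [abs_sub_comm, abs_of_nonneg (sub_nonneg.2 hle)]
        exact h3
      · have h3 := ab_half h hr' hy' hr hy hle
        rw [abs_sub_comm r' r, abs_sub_comm y' y] at h3
        rw [abs_of_nonneg (sub_nonneg.2 hle)]
        exact h3
    linarith
  · rcases eq_or_lt_of_le (hr.trans hle) with h0 | h0
    · have e : r = r' := by linarith
      rw [e]
      exact hD
    · have h1 := h.star _ hD (r / r') ⟨div_nonneg hr h0.le, (div_le_one h0).2 hle⟩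
      rwa [smul_pol, div_mul_cancel₀ _ h0.ne'] at h1
  · obtain ⟨a, ha, hx⟩ := h.onto x
    have h1 : dist C.p x = ‖a‖ := by rw [← hx]; exact h.norm a ha
    have h2 : pol (dist C.p x) a.arg = a := by
      rw [h1]
      exact Complex.norm_mul_exp_arg_mul_I a
    exact ⟨a.arg, Complex.arg_mem_Ioc a, by rw [h2]; exact ha, by rw [h2]; exact hx⟩
  · refine le_antisymm ?_ ?_
    · rw [← norm_pol_sub r r' θ]
      exact h.lip _ hD _ hD'
    · have h2 := abs_dist_sub_le (C.E (pol r θ)) (C.E (pol r' θ)) C.p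
      rwa [dist_comm _ C.p, dist_comm _ C.p, levE r θ hr hD, levE r' θ hr' hD'] at h2
  · exact (h.lip _ hD _ hD').trans (norm_pol_ang θ θ' hr)
  · have h0 : 0 < r' := hr.trans hlt
    have e : (r / r') • pol r' θ' = pol r θ' := by
      rw [smul_pol, div_mul_cancel₀ _ h0.ne']
    have h3 := h.inj _ hD' _ hD (r / r') ⟨div_nonneg hr.le h0.le, (div_lt_one h0).2 hlt⟩
      (by rw [e]; exact hE)
    rw [e] at h3
    exact pol_inj hr h1 h2 h3

end Pool.Agent.Lib.ED
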