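import Pool.Agent.Lib.ED.Blue

/-! Project ed43: midpoints give shortest paths; locally Euclidean models are geodesic. -/

open Set Metric Filter Topology

namespace Pool.Agent.Lib.ED

open Pool.Agent.Lib.MP_523900_gt

theorem r_MID : R_MID := by
  intro X _ _ hm a b
  set d := dist a b
  have hd : 0 ≤ d := dist_nonneg
  let P : Set (Set (ℝ × X)) := {G | ∀ p ∈ G, ∀ q ∈ G, dist p.2 q.2 = |p.1 - q.1| * d}
  obtain ⟨G, h0, hG⟩ := zorn_subset_nonempty P (fun c hc hch _ => ⟨⋃₀ c, fun p ⟨s, hs, hp⟩ q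
    ⟨t, ht, hq⟩ => (hch.total hs ht).elim (fun h => hc ht p (h hp) q hq)
      fun h => hc hs p hp q (h hq), fun _ => subset_sUnion_of_mem⟩) {(0, a), (1, b)} (by
    rintro p (rfl | rfl) q (rfl | rfl) <;> simp [d, dist_comm])
  have hP : ∀ p ∈ G, ∀ q ∈ G, dist p.2 q.2 = |p.1 - q.1| * d := hG.prop
  have key : ∀ p : ℝ × X, (∀ q ∈ G, dist p.2 q.2 = |p.1 - q.1| * d) → p.1 ∈ Prod.fst '' G := by
    refine fun p hp => ⟨p, hG.le_of_ge (y := insert p G) ?_ (subset_insert _ _)
      (mem_insert _ _), rfl⟩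
    rintro q (rfl | hq) r (rfl | hr)
    · simp
    · exact hp r hr
    · rw [dist_comm, abs_sub_comm]; exact hp q hq
    · exact hP q hq r hr
  have hcl : IsClosed (Prod.fst '' G) := by
    refine isClosed_of_closure_subset fun t ht => ?_
    obtain ⟨u, hu, hl⟩ := mem_closure_iff_seq_limit.1 ht
    choose p hp e using hu
    have hc : CauchySeq fun n => (p n).2 := by
      refine cauchySeq_iff_tendsto_dist_atTop_0.2 ?_
      have := (cauchySeq_iff_tendsto_dist_atTop_0.1 hl.cauchySeq).mul_const d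
      rw [zero_mul] at this
      exact this.congr fun n => by rw [hP _ (hp _) _ (hp _), e, e, Real.dist_eq]
    obtain ⟨x, hx⟩ := cauchySeq_tendsto_of_complete hc
    refine key (t, x) fun q hq => tendsto_nhds_unique (hx.dist tendsto_const_nhds) ?_
    exact (((hl.sub_const q.1).abs).mul_const d).congr fun n => by rw [hP _ (hp _) _ hq, e]
  have ha : (0, a) ∈ G := h0 (by simp)
  have hb : (1, b) ∈ G := h0 (by simp)
  have all : ∀ t ∈ Icc (0 : ℝ) 1, t ∈ Prod.fst '' G := by
    intro t ht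
    by_contra hn
    have b1 : BddAbove (Prod.fst '' G ∩ Iic t) := ⟨t, fun _ h => h.2⟩
    have b2 : BddBelow (Prod.fst '' G ∩ Ici t) := ⟨t, fun _ h => h.2⟩
    obtain ⟨⟨p, hp, e1⟩, h1⟩ := (hcl.inter isClosed_Iic).csSup_mem ⟨0, ⟨_, ha, rfl⟩, ht.1⟩ b1
    obtain ⟨⟨q, hq, e2⟩, h2⟩ := (hcl.inter isClosed_Ici).csInf_mem ⟨1, ⟨_, hb, rfl⟩, ht.2⟩ b2
    have gap : ∀ r ∈ Prod.fst '' G, r ≤ p.1 ∨ q.1 ≤ r := fun r hr => (le_total r t).imp
      (fun h => e1 ▸ le_csSup b1 ⟨hr, h⟩) fun h => e2 ▸ csInf_le b2 ⟨hr, h⟩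
    rw [← e1] at h1
    rw [← e2] at h2
    have l1 : p.1 < t := lt_of_le_of_ne h1 fun h => hn ⟨p, hp, h⟩
    have l2 : t < q.1 := lt_of_le_of_ne h2 fun h => hn ⟨q, hq, h.symm⟩
    obtain ⟨m, m1, m2⟩ := hm p.2 q.2
    rw [hP p hp q hq, abs_of_nonpos (by linarith)] at m1 m2
    have := gap _ (key ((p.1 + q.1) / 2, m) fun r hr => by
      have c1 := hP p hp r hr
      have c2 := hP q hq r hr
      have t1 := dist_triangle m p.2 r.2
      have t2 := dist_triangle m q.2 r.2
      have t3 := dist_triangle p.2 m r.2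
      have t4 := dist_triangle q.2 m r.2
      rw [dist_comm m p.2] at t1
      rw [dist_comm q.2 m] at t4
      dsimp only
      rcases gap _ ⟨r, hr, rfl⟩ with h | h
      · rw [abs_of_nonneg (by linarith)] at c1 c2 ⊢
        linarith
      · rw [abs_of_nonpos (by linarith)] at c1 c2 ⊢
        linarith)
    dsimp only at this
    rcases this with h | h <;> linarith
  have : Nonempty X := ⟨a⟩
  choose! g hg e using all
  have uq : ∀ p ∈ G, p.1 ∈ Icc (0 : ℝ) 1 → (g p.1).2 = p.2 := fun p hp h =>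
    dist_eq_zero.1 (by rw [hP _ (hg _ h) p hp, e _ h]; simp)
  refine ⟨fun t => (g t).2, uq _ ha ⟨le_rfl, zero_le_one⟩, uq _ hb ⟨zero_le_one, le_rfl⟩,
    fun s hs t ht => ?_⟩
  rw [hP _ (hg s hs) _ (hg t ht), e s hs, e t ht]

theorem r_GEO : R_GEO := by
  intro hMID X _ S ι hS hM hL
  have hI : IsInducing ι := by
    refine isInducing_iff_nhds.2 fun a => le_antisymm (hM.continuous.tendsto a).le_comap
      fun U hU => ?_
    obtain ⟨r, hr, h⟩ := hL a
    obtain ⟨ε, hε, h'⟩ := Metric.mem_nhds_iff.1 hU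
    refine ⟨_, ball_mem_nhds (ι a) (lt_min hr hε), fun b hb => h' ?_⟩
    rw [mem_preimage, mem_ball', dist_eq_norm, lt_min_iff] at hb
    rw [mem_ball', h b hb.1]
    exact hb.2
  have hE : IsClosedEmbedding ι := ⟨⟨hI, hM.inj⟩, hM.range ▸ hS⟩
  have : ProperSpace X := ⟨fun x R => (hE.isCompact_preimage
    (isCompact_closedBall (ι x) R)).of_isClosed_subset isClosed_closedBall fun y hy => by
      rw [mem_preimage, mem_closedBall, dist_eq_norm]
      exact (hM.norm_le y x).trans hy⟩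
  refine ⟨inferInstance, hMID X fun a b => ?_⟩
  have apx : ∀ κ, 0 < κ → ∃ m ∈ sphere a (dist a b / 2), dist m b ≤ dist a b / 2 + κ := by
    intro κ hκ
    obtain ⟨h0, γ, hc, hm, hx, hy, hl, -⟩ := hM.conn (lt_add_of_pos_right (dist a b) hκ)
    have : Nonempty X := ⟨a⟩
    have hg : ∀ t ∈ Icc (0 : ℝ) 1, ι (Function.invFun ι (γ t)) = γ t := fun t ht =>
      Function.invFun_eq (hM.surj (hm ht))
    have hgc : ContinuousOn (fun t => Function.invFun ι (γ t)) (Icc 0 1) :=
      hI.continuousOn_iff.2 (hc.continuousOn.congr hg)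
    obtain ⟨t, ht, e⟩ := intermediate_value_Icc zero_le_one
      (show ContinuousOn (fun t => dist a (Function.invFun ι (γ t))) _ by fun_prop)
      (show dist a b / 2 ∈ _ by
        rw [hx, hy, Function.leftInverse_invFun hM.inj, Function.leftInverse_invFun hM.inj,
          dist_self]
        constructor <;> linarith [dist_nonneg (x := a) (y := b)])
    have e3 := eVariationOn.Icc_add_Icc γ (s := univ) ht.1 ht.2 (mem_univ _)
    simp only [univ_inter] at e3
    rw [len, ← e3] at hl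
    have f := ENNReal.add_ne_top.1 (ne_top_of_le_ne_top ENNReal.ofReal_ne_top hl)
    have c1 := conn_of_var ht.1 hc.continuousOn (hm.mono_left (Icc_subset_Icc_right ht.2))
      ENNReal.toReal_nonneg (ENNReal.ofReal_toReal f.1).ge
    have c2 := conn_of_var ht.2 hc.continuousOn (hm.mono_left (Icc_subset_Icc_left ht.1))
      ENNReal.toReal_nonneg (ENNReal.ofReal_toReal f.2).ge
    rw [hx, ← hg t ht] at c1
    rw [hy, ← hg t ht] at c2
    have s := ENNReal.toReal_le_of_le_ofReal h0 hl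
    rw [ENNReal.toReal_add f.1 f.2] at s
    refine ⟨_, mem_sphere'.2 e, ?_⟩
    dsimp only at e
    linarith [hM.dist_le c1, hM.dist_le c2]
  obtain ⟨m, hm, h⟩ := (isCompact_sphere a (dist a b / 2)).exists_isMinOn
    (let ⟨m, hm, _⟩ := apx 1 one_pos; ⟨m, hm⟩) (f := fun m => dist m b) (by fun_prop)
  have e := mem_sphere'.1 hm
  refine ⟨m, e, le_antisymm (le_of_forall_pos_le_add fun κ hκ => ?_) ?_⟩
  · obtain ⟨m', h1, h2⟩ := apx κ hκ
    exact (h h1).trans h2
  · linarith [dist_triangle a m b]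

end Pool.Agent.Lib.ED
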