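import Pool.Agent.Lib.ED.Blue

/-! Project ed43: joining closed paths. -/

open Set Metric

namespace Pool.Agent.Lib.ED

namespace GLUE90

theorem step {X : Type} [MetricSpace X] (hG : Geo X) {ρ : ℝ} (hρ : 0 < ρ) (n : ℕ) :
    ∀ (m : List (X × ℝ × Set X)) (a : X) (l : ℝ) (T : Set X), m.length = n → Pth a a l T →
      T.Nonempty → (∀ q ∈ m, Pth q.1 q.1 q.2.1 q.2.2) →
      (∀ x, (∃ w ∈ T, dist x w ≤ ρ) ∨ ∃ q ∈ m, ∃ w ∈ q.2.2, dist x w ≤ ρ) →
      ∃ T' : Set X, Pth a a (l + (m.map fun q => q.2.1).sum + 5 * ρ * n) T' ∧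
        ∀ x, ∃ w ∈ T', dist x w ≤ ρ := by
  have hc : IsPreconnected (univ : Set X) := isPreconnected_of_forall_pair fun x _ y _ => by
    obtain ⟨-, γ, hγ, h0, h1, -⟩ := hG.pth x y
    exact ⟨range γ, subset_univ _, ⟨0, h0⟩, ⟨1, h1⟩, isPreconnected_range hγ⟩
  induction n with
  | zero =>
    intro m a l T hm h _ _ hx
    obtain rfl := List.length_eq_zero_iff.1 hm
    exact ⟨T, by simpa using h, fun x => by simpa using hx x⟩
  | succ n ih =>
    intro m a l T hm h hT hq hx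
    by_cases hne : ∃ q ∈ m, (q.2.2).Nonempty
    · obtain ⟨x, -, h0, h1⟩ := hc (⋃ w ∈ T, ball w (5 * ρ / 4))
        (⋃ q ∈ m, ⋃ w ∈ q.2.2, ball w (5 * ρ / 4)) (isOpen_biUnion fun _ _ => isOpen_ball)
        (isOpen_iUnion fun _ => isOpen_iUnion fun _ => isOpen_biUnion fun _ _ => isOpen_ball)
        (fun x _ => (hx x).imp
          (fun ⟨w, hw, hd⟩ => mem_iUnion₂.2 ⟨w, hw, mem_ball.2 (by linarith)⟩)
          fun ⟨q, hq, w, hw, hd⟩ =>
            mem_iUnion₂.2 ⟨q, hq, mem_iUnion₂.2 ⟨w, hw, mem_ball.2 (by linarith)⟩⟩)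
        (hT.elim fun w hw => ⟨w, trivial, mem_iUnion₂.2 ⟨w, hw, mem_ball_self (by linarith)⟩⟩)
        (hne.elim fun q ⟨hq, w, hw⟩ => ⟨w, trivial,
          mem_iUnion₂.2 ⟨q, hq, mem_iUnion₂.2 ⟨w, hw, mem_ball_self (by linarith)⟩⟩⟩)
      obtain ⟨w₀, hw₀, d₀⟩ := mem_iUnion₂.1 h0
      obtain ⟨q, hqm, h1⟩ := mem_iUnion₂.1 h1
      obtain ⟨w₁, hw₁, d₁⟩ := mem_iUnion₂.1 h1
      have hd := dist_triangle_left w₀ w₁ x
      rw [mem_ball] at d₀ d₁
      have h2 := h.ins hw₀ (((hG.pth w₀ w₁).trans ((hq q hqm).rebase hw₁)).trans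
        (hG.pth w₀ w₁).symm)
      obtain ⟨s, t, rfl⟩ := List.append_of_mem hqm
      obtain ⟨T', h3, h4⟩ := ih (s ++ t) a _ _ (by simp at hm ⊢; omega) h2 hT.inl
        (fun q' hq' => hq q' (by simp at hq' ⊢; tauto)) fun x => by
          rcases hx x with ⟨w, hw, hd⟩ | ⟨q', hq', w, hw, hd⟩
          · exact Or.inl ⟨w, Or.inl hw, hd⟩
          · by_cases e : q' = q
            · exact Or.inl ⟨w, Or.inr (Or.inl (Or.inr (e ▸ hw))), hd⟩
            · exact Or.inr ⟨q', by simp at hq' ⊢; tauto, w, hw, hd⟩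
      refine ⟨T', h3.mono ?_ subset_rfl, h4⟩
      simp only [List.map_append, List.map_cons, List.sum_append, List.sum_cons]
      push_cast
      linarith
    · refine ⟨T, h.mono ?_ subset_rfl, fun x => (hx x).resolve_right
        fun ⟨q, hq, w, hw, _⟩ => hne ⟨q, hq, w, hw⟩⟩
      have h1 : 0 ≤ (m.map fun q => q.2.1).sum := List.sum_nonneg fun y hy => by
        obtain ⟨q, hq', rfl⟩ := List.mem_map.1 hy
        exact (hq q hq').nonneg
      have h2 : 0 ≤ 5 * ρ * ((n + 1 : ℕ) : ℝ) := by positivity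
      linarith

end GLUE90

theorem r_GLUE : R_GLUE := by
  rintro X _ ⟨a⟩ hG N L ρ hρ ⟨m, h1, h2, h3, h4⟩
  obtain ⟨T, h5, h6⟩ := GLUE90.step hG hρ _ m a 0 {a} rfl (Pth.refl a) (singleton_nonempty a) h1
    fun x => Or.inr (h4 x trivial)
  refine ⟨a, T, h5.mono ?_ subset_rfl, h6⟩
  have := mul_le_mul_of_nonneg_left h2 (by positivity : 0 ≤ 5 * ρ)
  linarith

end Pool.Agent.Lib.ED
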