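import Pool.Agent.Lib.ED.Blue

/-! Project ed43: a polyhedron with almost parallel normals is the region below a graph. -/

open Set Metric MeasureTheory
open scoped ENNReal NNReal Classical RealInnerProductSpace

noncomputable section

namespace Pool.Agent.Lib.ED

open Pool.Agent.Lib.MP_523900_gt

namespace GRA18

variable {e₁ e₂ e : E3}

theorem frame (he : ‖e‖ = 1) : ∃ e₁ e₂ : E3, Orthonormal ℝ ![e₁, e₂, e] ∧
    ∀ x : E3, x = ⟪x, e₁⟫ • e₁ + ⟪x, e₂⟫ • e₂ + ⟪x, e⟫ • e := by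
  have h : Orthonormal ℝ (({2} : Set (Fin 3)).domRestrict fun _ => e) :=
    ⟨fun _ => he, fun i j hij => absurd (Subsingleton.elim i j) hij⟩
  obtain ⟨b, hb⟩ := h.exists_orthonormalBasis_extension_of_card_eq (by simp)
  have h2 : b 2 = e := hb 2 rfl
  refine ⟨b 0, b 1, ?_, fun x => ?_⟩
  · have : ![b 0, b 1, e] = b := by
      funext i
      fin_cases i <;> simp [h2]
    rw [this]
    exact b.orthonormal
  · have := b.sum_repr' x
    rw [Fin.sum_univ_three, h2, real_inner_comm, real_inner_comm x (b 1), real_inner_comm x e]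
      at this
    exact this.symm

theorem co (h : Orthonormal ℝ ![e₁, e₂, e]) (a b t : ℝ) :
    ⟪a • e₁ + b • e₂ + t • e, e₁⟫ = a ∧ ⟪a • e₁ + b • e₂ + t • e, e₂⟫ = b ∧
      ⟪a • e₁ + b • e₂ + t • e, e⟫ = t ∧ ‖a • e₁ + b • e₂ + t • e‖ ^ 2 = a ^ 2 + b ^ 2 + t ^ 2 := by
  have q := orthonormal_iff_ite.1 h
  have h00 : ⟪e₁, e₁⟫ = 1 := q 0 0
  have h01 : ⟪e₁, e₂⟫ = 0 := q 0 1
  have h02 : ⟪e₁, e⟫ = 0 := q 0 2
  have h10 : ⟪e₂, e₁⟫ = 0 := q 1 0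
  have h11 : ⟪e₂, e₂⟫ = 1 := q 1 1
  have h12 : ⟪e₂, e⟫ = 0 := q 1 2
  have h20 : ⟪e, e₁⟫ = 0 := q 2 0
  have h21 : ⟪e, e₂⟫ = 0 := q 2 1
  have h22 : ⟪e, e⟫ = 1 := q 2 2
  rw [← real_inner_self_eq_norm_sq]
  simp only [inner_add_left, inner_add_right, real_inner_smul_left, real_inner_smul_right, h00, h01,
    h02, h10, h11, h12, h20, h21, h22]
  refine ⟨by ring, by ring, by ring, by ring⟩

theorem nsq (z : ℂ) : ‖z‖ ^ 2 = z.re ^ 2 + z.im ^ 2 := by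
  rw [Complex.sq_norm, Complex.normSq_apply]
  ring

end GRA18

open GRA18 in
theorem r_GRA : R_GRA := by
  intro hS κ J n c o e hJ he hn
  obtain ⟨e₁, e₂, ho, dec⟩ := frame he
  have nrm : ∀ x : E3, ‖x‖ ^ 2 = ⟪x, e₁⟫ ^ 2 + ⟪x, e₂⟫ ^ 2 + ⟪x, e⟫ ^ 2 := fun x =>
    (congrArg (fun y : E3 => ‖y‖ ^ 2) (dec x)).trans (co ho _ _ _).2.2.2
  have ab : ∀ j ∈ J, ⟪n j, e₁⟫ ^ 2 + ⟪n j, e₂⟫ ^ 2 ≤ (1 / 100) ^ 2 ∧ 99 / 100 ≤ ⟪n j, e⟫ :=
    fun j hj => by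
      have h1 := pow_le_pow_left₀ (norm_nonneg _) (hn j hj).2 2
      have h2 := co ho 0 0 1
      simp only [zero_smul, zero_add, one_smul] at h2
      rw [nrm, inner_sub_left, inner_sub_left, inner_sub_left, h2.1, h2.2.1, h2.2.2.1, sub_zero,
        sub_zero] at h1
      refine ⟨by nlinarith [sq_nonneg (⟪n j, e⟫ - 1)], ?_⟩
      have h3 := abs_le_of_sq_le_sq' (a := ⟪n j, e⟫ - 1) (b := 1 / 100)
        (by nlinarith [sq_nonneg ⟪n j, e₁⟫, sq_nonneg ⟪n j, e₂⟫]) (by norm_num)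
      linarith [h3.1]
  have g0 : ∀ j ∈ J, 0 < ⟪n j, e⟫ := fun j hj => lt_of_lt_of_le (by norm_num) (ab j hj).2
  let g : κ → ℂ → ℝ := fun j z =>
    (c j - ⟪n j, o⟫ - z.re * ⟪n j, e₁⟫ - z.im * ⟪n j, e₂⟫) / ⟪n j, e⟫
  let f : ℂ → ℝ := fun z => J.inf' hJ fun j => g j z
  have key : ∀ j (x : E3), ⟪n j, x⟫ = ⟪n j, o⟫ + (gpr o e₁ e₂ x).re * ⟪n j, e₁⟫ +
      (gpr o e₁ e₂ x).im * ⟪n j, e₂⟫ + ⟪x - o, e⟫ * ⟪n j, e⟫ := fun j x => by
    have := congrArg (fun y : E3 => ⟪n j, y⟫) (dec (x - o))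
    simp only [inner_add_right, real_inner_smul_right, inner_sub_right] at this
    simp only [gpr]
    linarith
  have kle : ∀ x, x ∈ poly J n c ↔ ⟪x - o, e⟫ ≤ f (gpr o e₁ e₂ x) := fun x => by
    rw [Finset.le_inf'_iff]
    refine forall₂_congr fun j hj => ?_
    rw [le_div_iff₀ (g0 j hj), key j x]
    constructor <;> intro <;> linarith
  have klt : ∀ x, (∀ j ∈ J, ⟪n j, x⟫ < c j) ↔ ⟪x - o, e⟫ < f (gpr o e₁ e₂ x) := fun x => by
    rw [Finset.lt_inf'_iff]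
    refine forall₂_congr fun j hj => ?_
    rw [lt_div_iff₀ (g0 j hj), key j x]
    constructor <;> intro <;> linarith
  have cg : ∀ (u : ℂ → ℝ) z, glf o e₁ e₂ e u z - o = z.re • e₁ + z.im • e₂ + u z • e :=
    fun u z => by
      rw [glf]
      abel
  have sec : ∀ (u : ℂ → ℝ) z, gpr o e₁ e₂ (glf o e₁ e₂ e u z) = z ∧
      ⟪glf o e₁ e₂ e u z - o, e⟫ = u z := fun u z => by
    rw [gpr, cg, (co ho _ _ _).1, (co ho _ _ _).2.1, (co ho _ _ _).2.2.1]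
    exact ⟨rfl, rfl⟩
  have ok : PolyOk J n c := by
    refine ⟨fun j hj => (hn j hj).1, glf o e₁ e₂ e (fun z => f z - 1) 0, mem_interior.2
      ⟨⋂ j ∈ J, {x | ⟪n j, x⟫ < c j}, fun x hx j hj => (mem_iInter₂.1 hx j hj).le,
        isOpen_biInter_finset fun j _ => isOpen_lt (by fun_prop) continuous_const,
        mem_iInter₂.2 ((klt _).2 ?_)⟩⟩
    rw [(sec _ _).1, (sec _ _).2]
    exact sub_one_lt _
  have st := hS κ J n c ok
  have l1 : ∀ z w, f z - f w ≤ ‖z - w‖ / 50 := fun z w => by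
    obtain ⟨j, hj, h1⟩ := Finset.exists_mem_eq_inf' hJ fun j => g j w
    refine (sub_le_sub (Finset.inf'_le _ hj) h1.ge).trans ?_
    rw [← sub_div, div_le_iff₀ (g0 j hj)]
    obtain ⟨h2, h3⟩ := ab j hj
    have h4 := abs_le_of_sq_le_sq' (a := (z - w).re * ⟪n j, e₁⟫ + (z - w).im * ⟪n j, e₂⟫)
      (b := ‖z - w‖ * (1 / 100)) (by
        have h5 := mul_le_mul_of_nonneg_left h2 (sq_nonneg ‖z - w‖)
        rw [mul_pow]
        rw [nsq] at h5 ⊢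
        nlinarith [sq_nonneg ((z - w).re * ⟪n j, e₂⟫ - (z - w).im * ⟪n j, e₁⟫)]) (by positivity)
    have h6 := mul_le_mul_of_nonneg_left h3 (norm_nonneg (z - w))
    have h7 := h4.1
    rw [Complex.sub_re, Complex.sub_im] at h7
    linarith [norm_nonneg (z - w)]
  have lip : ∀ z w, |f z - f w| ≤ ‖z - w‖ / 50 := fun z w =>
    abs_sub_le_iff.2 ⟨l1 z w, (l1 w z).trans_eq (by rw [norm_sub_rev])⟩
  have out : ∀ x, x ∉ interior (poly J n c) ↔ f (gpr o e₁ e₂ x) ≤ ⟪x - o, e⟫ := fun x => by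
    rw [st.int, klt, not_lt]
  refine ⟨ok, e₁, e₂, f, st.closed, st.convex, ho, lip, out, ?_, fun z => (sec f z).1,
    fun x y => ?_, fun z w => ?_⟩
  · ext x
    rw [st.closed.frontier_eq, mem_sdiff, kle, out]
    constructor
    · rintro ⟨h1, h2⟩
      refine ⟨gpr o e₁ e₂ x, sub_left_injective (b := o) ?_⟩
      beta_reduce
      rw [cg, le_antisymm h2 h1]
      exact (dec (x - o)).symm
    · rintro ⟨z, rfl⟩
      rw [(sec f z).1, (sec f z).2]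
      exact ⟨le_rfl, le_rfl⟩
  · refine (abs_le_of_sq_le_sq' ?_ (norm_nonneg _)).2
    rw [nsq, nrm, Complex.sub_re, Complex.sub_im]
    simp only [gpr, inner_sub_left]
    nlinarith [sq_nonneg (⟪x, e⟫ - ⟪y, e⟫)]
  · refine (abs_le_of_sq_le_sq' ?_ (by positivity)).2
    have h1 : glf o e₁ e₂ e f z - glf o e₁ e₂ e f w =
        (z - w).re • e₁ + (z - w).im • e₂ + (f z - f w) • e := by
      simp only [glf, Complex.sub_re, Complex.sub_im, sub_smul]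
      abel
    have h2 := pow_le_pow_left₀ (abs_nonneg _) (lip z w) 2
    rw [h1, (co ho _ _ _).2.2.2, ← nsq]
    rw [sq_abs] at h2
    nlinarith [sq_nonneg ‖z - w‖]

end Pool.Agent.Lib.ED
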