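import Pool.Agent.Lib.ED.Blue

/-! Project ed43, row HIN: the hinge comparison for the exponential map. -/

open Set Metric MeasureTheory
open scoped ENNReal NNReal Classical RealInnerProductSpace

noncomputable section

namespace Pool.Agent.Lib.ED

open Pool.Agent.Lib.MP_523900_gt

namespace HIN75

variable {X : Type} [MetricSpace X] {V : Set X}

/-- Near the centre of a chart the distance to the end of a ray is at most the flat one. -/
theorem near (hDEV : St_DEV) (hF : Flat V) {χ : ℂ → X} {r : ℝ} (hχ : Chart χ 0 r) {w : ℂ}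
    (hw : w ∈ dom χ r) (hV : ex χ r w ∉ V) :
    ∃ η : ℝ, 0 < η ∧ η ≤ r ∧ ∀ u : ℂ, ‖u‖ < η → dist (χ u) (ex χ r w) ≤ ‖u - w‖ := by
  obtain ⟨ψ, η, hη, hψ, he, hd, -⟩ := hDEV X V hF χ r hχ w hw hV
  refine ⟨η, hψ.pos, hη, fun u hu => ?_⟩
  have := hd u (by simpa using hu) w (mem_ball_self hψ.pos)
  rwa [he] at this

theorem seg_cont {g : ℝ → X} {l : ℝ} (hg : Seg g l) : ContinuousOn g (Icc 0 1) := by
  refine (LipschitzOnWith.of_dist_le' (K := l) fun s hs t ht => ?_).continuousOn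
  rw [hg s hs t ht, Real.dist_eq, mul_comm]

theorem sq_bound {d : ℝ} (hd : 0 ≤ d) {τ : ℝ} {v w : ℂ} (h : d ≤ ‖τ • v - w‖) :
    d ^ 2 ≤ τ ^ 2 * ‖v‖ ^ 2 - 2 * τ * ⟪v, w⟫ + ‖w‖ ^ 2 := by
  have h1 : d ^ 2 ≤ ‖τ • v - w‖ ^ 2 := pow_le_pow_left₀ hd h 2
  rw [norm_sub_sq_real, real_inner_smul_left, norm_smul, mul_pow, Real.norm_eq_abs, sq_abs] at h1
  linarith

theorem small_norm {A η τ : ℝ} (hA : 0 < A) (h : |τ| < η / A) : |τ| * A < η := by
  rwa [lt_div_iff₀ hA] at h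

/-- The comparison when the second end point is not a vertex. -/
theorem main (hSTR : St_STR) (hRAY : St_RAY) (hDEV : St_DEV) (hBAR : St_BAR) (hF : Flat V)
    {φ : ℂ → X} {δ : ℝ} (hφ : Chart φ 0 δ) {a b : ℂ} (ha : a ∈ dom φ δ) (hb : b ∈ dom φ δ)
    (hV : ex φ δ b ∉ V) : dist (ex φ δ a) (ex φ δ b) ≤ ‖a - b‖ := by
  have R := hRAY X V hF φ δ hφ
  have h00 : ex φ δ 0 = φ 0 := (R.small 0 (by simpa using hφ.pos)).2
  rcases eq_or_ne a 0 with rfl | ha0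
  · rw [h00, R.norm b hb, zero_sub, norm_neg]
  have hA : 0 < ‖a‖ := norm_pos_iff.2 ha0
  obtain ⟨hseg, hray⟩ := R.ray a ha
  set g : ℝ → X := fun s => ex φ δ (s • a) with hg
  set y := ex φ δ b with hy
  have hg0 : g 0 = φ 0 := by simp only [hg, zero_smul, h00]
  have hg1 : g 1 = ex φ δ a := by simp only [hg, one_smul]
  have key := hBAR (fun s => dist (g s) y ^ 2 - s ^ 2 * ‖a‖ ^ 2) (-2 * ⟪a, b⟫) ?_ ?_ ?_
  · simp only [hg0, hg1] at key
    rw [R.norm b hb] at key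
    have h2 : dist (ex φ δ a) y ^ 2 ≤ ‖a - b‖ ^ 2 := by
      rw [norm_sub_sq_real]; linarith
    exact (pow_le_pow_iff_left₀ dist_nonneg (norm_nonneg _) two_ne_zero).1 h2
  · have hc := seg_cont hseg
    have hd : ContinuousOn (fun s => dist (g s) y) (Icc 0 1) :=
      (continuous_id.dist continuous_const).comp_continuousOn hc
    exact (hd.pow 2).sub (by fun_prop)
  · intro s hs
    obtain ⟨χ, r, h0, hχ⟩ := hF.chart (g s) (R.off a ha ha0 s hs)
    have R' := hRAY X V hF χ r hχ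
    obtain ⟨w, hw, hwy⟩ := R'.onto y
    obtain ⟨η, hη, hηr, hd⟩ := near hDEV hF hχ hw (by rw [hwy]; exact hV)
    obtain ⟨v, hv, hgv⟩ := hSTR X χ 0 r hχ g ‖a‖ hA.le hseg s ⟨hs.1.le, hs.2.le⟩ h0.symm
    have hn : dist (g s) y = ‖w‖ := by rw [← h0, ← hwy]; exact R'.norm w hw
    refine ⟨-2 * s * ‖a‖ ^ 2 - 2 * ⟪v, w⟫, η / ‖a‖, div_pos hη hA, fun t ht hts => ?_⟩
    have h1 := small_norm hA hts
    have h2 : g t = χ ((t - s) • v) := by rw [hgv t ht (h1.trans_le hηr), zero_add]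
    have h3 := hd ((t - s) • v) (by rw [norm_smul, Real.norm_eq_abs, hv]; exact h1)
    rw [← h2, hwy] at h3
    have h4 := sq_bound dist_nonneg h3
    rw [hv] at h4
    rw [hn]
    linarith
  · obtain ⟨η, hη, hηr, hd⟩ := near hDEV hF hφ hb hV
    refine ⟨η / ‖a‖, div_pos hη hA, fun t ht hts => ?_⟩
    have h1 : t * ‖a‖ < η := by rwa [lt_div_iff₀ hA] at hts
    have h2 : g t = φ (t • a) := hray t ht (h1.trans_le hηr)
    have h3 := hd (t • a) (by rw [norm_smul, Real.norm_eq_abs, abs_of_nonneg ht.1]; exact h1)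
    rw [← h2] at h3
    have h4 := sq_bound dist_nonneg h3
    rw [hg0, R.norm b hb]
    linarith

end HIN75

theorem r_HIN : R_HIN := by
  intro hSTR hRAY hDEV hBAR X _ V hF φ δ hφ a ha b hb
  have R := hRAY X V hF φ δ hφ
  rcases eq_or_ne b 0 with rfl | hb0
  · rw [(R.small 0 (by simpa using hφ.pos)).2, dist_comm, R.norm a ha, sub_zero]
  have hB : 0 < ‖b‖ := norm_pos_iff.2 hb0
  refine le_of_forall_pos_le_add fun ε hε => ?_
  obtain ⟨σ, hσ0, hσ1, hσ⟩ : ∃ σ : ℝ, 0 < σ ∧ σ < 1 ∧ σ * ‖b‖ ≤ ε / 2 := by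
    refine ⟨min (1 / 2) (ε / 2 / ‖b‖), lt_min (by norm_num) (by positivity),
      (min_le_left _ _).trans_lt (by norm_num), ?_⟩
    rw [← le_div_iff₀ hB]
    exact min_le_right _ _
  have hτ : (1 - σ) ∈ Ioo (0 : ℝ) 1 := ⟨by linarith, by linarith⟩
  have hτ' : (1 - σ) ∈ Icc (0 : ℝ) 1 := ⟨hτ.1.le, hτ.2.le⟩
  have h1 := HIN75.main hSTR hRAY hDEV hBAR hF hφ ha (R.star b hb _ hτ') (R.off b hb hb0 _ hτ)
  have h2 := (R.ray b hb).1 (1 - σ) hτ' 1 ⟨zero_le_one, le_rfl⟩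
  simp only [one_smul] at h2
  rw [show 1 - σ - 1 = -σ by ring, abs_neg, abs_of_pos hσ0] at h2
  have h3 : ‖a - (1 - σ) • b‖ ≤ ‖a - b‖ + σ * ‖b‖ := by
    have : a - (1 - σ) • b = (a - b) + σ • b := by rw [sub_smul, one_smul]; abel
    rw [this]
    refine (norm_add_le _ _).trans ?_
    rw [norm_smul, Real.norm_eq_abs, abs_of_pos hσ0]
  have h4 := dist_triangle (ex φ δ a) (ex φ δ ((1 - σ) • b)) (ex φ δ b)
  linarith

end Pool.Agent.Lib.ED
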