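import Pool.Agent.Lib.ED.Blue

/-! Row LEV: a level with spikes and small loops comes close to the band round it. -/

open Set Metric MeasureTheory
open scoped Classical

noncomputable section

namespace Pool.Agent.Lib.ED

namespace LEV68

variable {X : Type} [MetricSpace X] [MeasurableSpace X] [BorelSpace X] {C : Cx X}

theorem mv (hC : C.Ok) (G : C.GamF) {r r' θ : ℝ} (h : 0 ≤ r) (h' : 0 ≤ r') (a : pol r θ ∈ C.D)
    (a' : pol r' θ ∈ C.D) :
    |(C.pr (C.E (pol r θ))).re - (C.pr (C.E (pol r' θ))).re| ≤ |r - r'| ∧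
      |C.ht θ r - C.ht θ r'| ≤ |r - r'| := by
  have h1 := (hC.lo _ _).trans (G.radial r r' θ h h' a a').le
  exact ⟨(Complex.abs_re_le_norm (_ - _)).trans h1, (Complex.abs_im_le_norm (_ - _)).trans h1⟩

omit [MeasurableSpace X] [BorelSpace X] in
theorem eqg (G : C.GamF) {r θ : ℝ} (h : 0 ≤ r) (a : pol r θ ∈ C.D) (l : C.Lv r)
    (h1 : |(C.pr (C.E (pol r θ))).re| ≤ 20 * C.R) (h2 : |C.ht θ r| ≤ 2 * C.R) :
    C.gam r (C.ht θ r) = C.E (pol r θ) := by
  have e := G.levE r θ h a
  have := G.uniq _ h1 h2 (by rwa [e])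
  rwa [e] at this

omit [MeasurableSpace X] [BorelSpace X] in
theorem ray (G : C.GamF) {s t θ : ℝ} (h : 0 ≤ s) (hst : s ≤ t) (a : pol t θ ∈ C.D) :
    Pth (C.E (pol t θ)) (C.E (pol s θ)) (t - s) ((fun r => C.E (pol r θ)) '' Icc s t) := by
  have := pth_of_lip (γ := fun r => C.E (pol r θ)) (K := 1) hst fun u v h1 h2 h3 => by
    rw [G.radial u v θ (by linarith) (by linarith) (G.anti _ _ _ (by linarith) (by linarith) a)
      (G.anti _ _ _ (by linarith) h3 a), abs_sub_comm, abs_of_nonneg (by linarith), one_mul]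
  rw [one_mul] at this
  exact this.symm

end LEV68

open LEV68

theorem r_LEV : R_LEV := by
  intro hG hA hN X _ _ _ C hC t ε κ hε hR hκ l1 l2
  have G := hG X C hC
  obtain ⟨F, σ, hF, hS, hc⟩ := hN X C hC t ε κ hε hR hκ l1 l2
  have R0 := hC.Rpos
  have far := hC.far
  have l1' := abs_le.1 l1
  have l2' := abs_le.1 l2
  have l0 : C.Lv t := abs_le.2 ⟨by linarith, by linarith⟩
  have t1 : 0 ≤ t - ε := by linarith
  have t0 : 0 ≤ t := by linarith
  have ae : |t - (t - ε)| = ε := by rw [sub_sub_cancel, abs_of_pos hε]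
  have al : ∀ k ∈ F, pol t k ∈ C.D := fun k hk => G.anti _ _ _ t0 (by linarith) (hF k hk).1
  have al' : ∀ k ∈ F, pol (t - ε) k ∈ C.D := fun k hk => G.anti _ _ _ t1 (by linarith) (hF k hk).1
  refine ⟨F, fun k => C.ht k t, fun k => 200 * σ k, fun k => if σ k ≤ ε then
    (fun r => C.E (pol r k)) '' Icc (t - σ k) t else
    C.gam (t - ε) '' Icc (C.ht k (t - ε)) (C.ht k (t - ε) + 6 * ε), fun k hk => ?_, ?_,
    fun x hx hr => ?_⟩
  · obtain ⟨-, h2, h3, h4⟩ := hF k hk
    obtain ⟨m1, m2⟩ := mv hC G t0 t1 (al k hk) (al' k hk)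
    rw [ae] at m1 m2
    have h2' := abs_le.1 h2
    have h3' := abs_le.1 h3
    have m1' := abs_le.1 m1
    have m2' := abs_le.1 m2
    simp only []
    rw [eqg G t0 (al k hk) l0 (abs_le.2 ⟨by linarith, by linarith⟩)
      (abs_le.2 ⟨by linarith, by linarith⟩)]
    split_ifs with h
    · exact (ray G (by linarith) (by linarith) (al k hk)).back.mono (by linarith) Subset.rfl
    · have p1 := ray G t1 (by linarith) (al k hk)
      rw [← eqg G t1 (al' k hk) l1 (by linarith) (by linarith)] at p1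
      have p2 := ((hA X C hC).1 (t - ε) (C.ht k (t - ε)) (C.ht k (t - ε) + 6 * ε) l1 (by linarith)
        (by linarith) (abs_le.2 ⟨by linarith, by linarith⟩)).2
      exact (p1.trans p2).back.mono (by linarith) subset_union_right
  · rw [← Finset.mul_sum]
    linarith
  · obtain ⟨θ, hθ, a, e⟩ := G.polar x
    set r := dist C.p x
    have r0 : 0 ≤ r := dist_nonneg
    have hre := abs_le.1 ((Complex.abs_re_le_norm _).trans hx)
    have him := abs_le.1 ((Complex.abs_im_le_norm _).trans hx)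
    have e2 : C.ht θ r = (C.pr x).im := by rw [Cx.ht, e]
    by_cases b : pol t θ ∈ C.D
    · obtain ⟨m1, m2⟩ := mv hC G t0 r0 b a
      have h1 : |t - r| ≤ ε := abs_le.2 ⟨by linarith [hr.2], by linarith [hr.1]⟩
      rw [e] at m1
      rw [e2] at m2
      have m1' := abs_le.1 (m1.trans h1)
      have m2' := abs_le.1 (m2.trans h1)
      refine Or.inl ⟨C.ht θ t, by linarith, ?_⟩
      rw [eqg G t0 b l0 (abs_le.2 ⟨by linarith, by linarith⟩) (abs_le.2 ⟨by linarith, by linarith⟩),
        ← e, dist_comm, G.radial _ _ _ t0 r0 b a]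
      linarith
    · have rt : r ≤ t := by
        by_contra hn
        exact b (G.anti _ _ _ t0 (not_le.1 hn).le a)
      obtain ⟨k, hk, k1, k2, k3⟩ := hc r ⟨hr.1, rt⟩ θ hθ a
        (fun hn => b (G.anti _ _ _ t0 (by linarith) hn)) (by rwa [e])
      have a' : pol (t - ε) θ ∈ C.D := G.anti _ _ _ t1 hr.1 a
      obtain ⟨m1, m2⟩ := mv hC G t1 r0 a' a
      have h1 : |t - ε - r| ≤ ε := abs_le.2 ⟨by linarith, by linarith [hr.1]⟩
      have m3 := (mv hC G t0 t1 (al k hk) (al' k hk)).2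
      rw [e] at m1 k3
      rw [e2] at m2
      rw [ae] at m3
      have m1' := abs_le.1 (m1.trans h1)
      have m2' := abs_le.1 (m2.trans h1)
      have m3' := abs_le.1 m3
      refine Or.inr ⟨k, hk, abs_le.2 ⟨by linarith, by linarith⟩, ?_⟩
      simp only []
      split_ifs with h
      · by_cases c : t - σ k ≤ r
        · exact ⟨_, ⟨r, ⟨c, rt⟩, rfl⟩, by linarith⟩
        · have s0 := (hF k hk).2.2.2
          refine ⟨_, ⟨t - σ k, ⟨le_rfl, by linarith⟩, rfl⟩, ?_⟩
          have h2 := G.radial r (t - σ k) k r0 (by linarith) (G.anti _ _ _ r0 rt (al k hk))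
            (G.anti _ _ _ (by linarith) (by linarith) (al k hk))
          rw [abs_of_nonpos (by linarith)] at h2
          have h3 := dist_triangle x (C.E (pol r k)) (C.E (pol (t - σ k) k))
          linarith [hr.1]
      · refine ⟨_, ⟨C.ht θ (t - ε), ⟨k1, k2⟩, rfl⟩, ?_⟩
        rw [eqg G t1 a' l1 (abs_le.2 ⟨by linarith, by linarith⟩)
          (abs_le.2 ⟨by linarith, by linarith⟩), ← e, dist_comm, G.radial _ _ _ t1 r0 a' a]
        linarith

end Pool.Agent.Lib.ED
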