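import Pool.Agent.Lib.ED.Blue

open Set Metric MeasureTheory
open scoped ENNReal NNReal Classical RealInnerProductSpace

noncomputable section

namespace Pool.Agent.Lib.ED

open Pool.Agent.Lib.MP_523900_gt

namespace LOW41

variable {X : Type} [MetricSpace X] [MeasurableSpace X] [BorelSpace X]

theorem img_le {p : X} {D : Set ℂ} {E : ℂ → X} (h : Exp p D E) (S : Set ℂ) :
    μHE[2] (E '' (D ∩ S)) ≤ volume S := by
  have l : LipschitzOnWith 1 E (D ∩ S) := LipschitzOnWith.of_dist_le_mul fun a ha b hb => by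
    simpa [dist_eq_norm] using h.lip a ha.1 b hb.1
  refine (muHE_image_le l).trans ?_
  rw [muHE_complex]
  simpa using measure_mono inter_subset_right

theorem ball_le {p : X} (hp : p ∈ good X) {ρ : ℝ} (hρ : 0 ≤ ρ) :
    μHE[2] (closedBall p ρ) ≤ ENNReal.ofReal (Real.pi * ρ ^ 2) := by
  obtain ⟨D, E, h⟩ := hp
  refine (measure_mono (t := E '' (D ∩ closedBall 0 ρ)) fun x hx => ?_).trans
    ((img_le h _).trans (le_of_eq ?_))
  · obtain ⟨a, ha, rfl⟩ := h.onto x
    exact ⟨a, ⟨ha, by rwa [mem_closedBall_zero_iff, ← h.norm a ha, dist_comm]⟩, rfl⟩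
  · rw [Complex.volume_closedBall, mul_comm, ENNReal.ofReal_mul Real.pi_pos.le,
      ENNReal.ofReal_pow hρ, ← NNReal.coe_real_pi, ENNReal.ofReal_coe_nnreal]

theorem diff_le {p : X} (hp : p ∈ good X) (q : X) {ρ : ℝ} (hρ : 0 ≤ ρ) :
    μHE[2] (closedBall p ρ \ closedBall q ρ) ≤ ENNReal.ofReal (2 * ρ * dist q p) := by
  obtain ⟨D, E, h⟩ := hp
  obtain ⟨b, hb, rfl⟩ := h.onto q
  refine (measure_mono (t := E '' (D ∩ (closedBall 0 ρ \ closedBall b ρ))) fun x hx => ?_).trans
    ((img_le h _).trans ((disc_diff b 0 hρ).trans (le_of_eq ?_)))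
  · obtain ⟨a, ha, rfl⟩ := h.onto x
    refine ⟨a, ⟨ha, ?_, fun hc => hx.2 ?_⟩, rfl⟩
    · rw [mem_closedBall_zero_iff, ← h.norm a ha, dist_comm]
      exact hx.1
    · exact (h.lip a ha b hb).trans (by rwa [mem_closedBall, dist_eq_norm] at hc)
  · rw [zero_sub, norm_neg, dist_comm, h.norm b hb]

theorem chain_le {q : ℕ → X} (hq : ∀ i, q i ∈ good X) {ρ : ℝ} (hρ : 0 ≤ ρ) (m : ℕ) :
    μHE[2] {x | ∃ i ≤ m, dist x (q i) ≤ ρ} ≤
      ENNReal.ofReal (2 * ρ * ∑ i ∈ Finset.range m, dist (q i) (q (i + 1)) + Real.pi * ρ ^ 2) := by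
  induction m with
  | zero =>
    refine (measure_mono (t := closedBall (q 0) ρ) ?_).trans (by simpa using ball_le (hq 0) hρ)
    rintro x ⟨i, hi, h⟩
    rwa [Nat.le_zero.1 hi] at h
  | succ m ih =>
    refine (measure_mono (t := {x | ∃ i ≤ m, dist x (q i) ≤ ρ} ∪
      closedBall (q (m + 1)) ρ \ closedBall (q m) ρ) ?_).trans ((measure_union_le _ _).trans
        ((add_le_add ih (diff_le (hq _) _ hρ)).trans (le_of_eq ?_)))
    · rintro x ⟨i, hi, h⟩
      by_cases hm : dist x (q m) ≤ ρ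
      · exact Or.inl ⟨m, le_rfl, hm⟩
      · rcases hi.eq_or_lt with rfl | hi
        · exact Or.inr ⟨h, hm⟩
        · exact Or.inl ⟨i, Nat.lt_succ_iff.1 hi, h⟩
    · have : 0 ≤ ∑ i ∈ Finset.range m, dist (q i) (q (i + 1)) :=
        Finset.sum_nonneg fun _ _ => dist_nonneg
      rw [← ENNReal.ofReal_add (by positivity) (by positivity), Finset.sum_range_succ]
      congr 1
      ring

end LOW41

open LOW41 in
theorem r_LOW : R_LOW := by
  intro X _ _ _ hd q m ρ l hρ hl hc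
  have key : ∀ κ : ℝ, 0 < κ → μHE[2] (univ : Set X) ≤
      ENNReal.ofReal (2 * (ρ + κ) * (l + m * (2 * κ)) + Real.pi * (ρ + κ) ^ 2) := by
    intro κ hκ
    choose q' h1 h2 using fun i => hd.exists_dist_lt (q i) hκ
    refine (measure_mono fun x _ => ?_).trans ((chain_le h1 (ρ := ρ + κ) (by positivity) m).trans
      (ENNReal.ofReal_le_ofReal ?_))
    · obtain ⟨i, hi, h⟩ := hc x
      exact ⟨i, hi, by linarith [dist_triangle x (q i) (q' i), h2 i]⟩
    · have : ∑ i ∈ Finset.range m, dist (q' i) (q' (i + 1)) ≤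
          ∑ i ∈ Finset.range m, (dist (q i) (q (i + 1)) + 2 * κ) :=
        Finset.sum_le_sum fun i _ => by
          linarith [dist_triangle4 (q' i) (q i) (q (i + 1)) (q' (i + 1)), dist_comm (q' i) (q i),
            h2 i, h2 (i + 1)]
      rw [Finset.sum_add_distrib, Finset.sum_const, Finset.card_range, nsmul_eq_mul] at this
      gcongr
      linarith
  have ct : Continuous fun κ : ℝ =>
      ENNReal.ofReal (2 * (ρ + κ) * (l + m * (2 * κ)) + Real.pi * (ρ + κ) ^ 2) :=
    ENNReal.continuous_ofReal.comp (by fun_prop)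
  have lim := (ct.tendsto 0).mono_left (nhdsWithin_le_nhds (s := Ioi 0))
  simp only [add_zero, mul_zero] at lim
  exact ge_of_tendsto lim (eventually_nhdsWithin_of_forall key)

end Pool.Agent.Lib.ED
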