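import Pool.Agent.Lib.ED.Blue

/-! The area of a polyhedral surface in its intrinsic metric is the area in space. -/

open Set Metric MeasureTheory
open scoped ENNReal NNReal Classical RealInnerProductSpace

noncomputable section

namespace Pool.Agent.Lib.ED

open Pool.Agent.Lib.MP_523900_gt

namespace MEA49

variable {κ : Type} {J : Finset κ} {n : κ → E3} {c : κ → ℝ}
  {X : Type} [MetricSpace X] [MeasurableSpace X] [BorelSpace X] {ι : X → E3}

theorem face_le (hs : StarF J n c) (hm : Model (frontier (poly J n c)) ι) {j : κ} (hj : j ∈ J)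
    (W : Set E3) :
    μHE[2] (ι ⁻¹' (W ∩ {x | ⟪n j, x⟫ = c j})) ≤
      μHE[2] (W ∩ frontier (poly J n c) ∩ {x | ⟪n j, x⟫ = c j}) := by
  rcases isEmpty_or_nonempty X with hX | hX
  · rw [Subsingleton.elim (ι ⁻¹' _) ∅]; simp
  have hinv : ∀ x ∈ frontier (poly J n c), ι (Function.invFun ι x) = x := fun x hx =>
    Function.invFun_eq (hm.surj hx)
  have hL : LipschitzOnWith 1 (Function.invFun ι)
      (W ∩ frontier (poly J n c) ∩ {x | ⟪n j, x⟫ = c j}) := by
    refine LipschitzOnWith.of_dist_le_mul fun x hx y hy => ?_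
    have h1 := hs.chord j hj x ((hs.fro x).1 hx.1.2).1 y ((hs.fro y).1 hy.1.2).1 hx.2 hy.2
    rw [← hinv x hx.1.2, ← hinv y hy.1.2] at h1
    have h2 := hm.dist_le h1
    rw [hinv x hx.1.2, hinv y hy.1.2] at h2
    simpa [dist_eq_norm] using h2
  refine le_trans (measure_mono ?_) ((muHE_image_le hL).trans (by simp))
  intro a ha
  exact ⟨ι a, ⟨⟨ha.1, hm.mem a⟩, ha.2⟩, Function.leftInverse_invFun hm.inj a⟩

theorem faces_le (hs : StarF J n c) (hm : Model (frontier (poly J n c)) ι) (J' : Finset κ) :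
    J' ⊆ J → ∀ W : Set E3,
      μHE[2] (ι ⁻¹' (W ∩ {x | ∃ j ∈ J', ⟪n j, x⟫ = c j})) ≤
        μHE[2] (W ∩ frontier (poly J n c)) := by
  induction J' using Finset.induction_on with
  | empty => intro _ W; simp
  | insert i s _ ih =>
    intro hJ W
    have hi : i ∈ J := hJ (Finset.mem_insert_self i s)
    have hF : MeasurableSet {x : E3 | ⟪n i, x⟫ = c i} :=
      (isClosed_eq (by fun_prop) continuous_const).measurableSet
    have h1 := face_le hs hm hi W
    have h2 := ih (fun j hj => hJ (Finset.mem_insert_of_mem hj)) (W \ {x | ⟪n i, x⟫ = c i})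
    have h3 : (W \ {x | ⟪n i, x⟫ = c i}) ∩ frontier (poly J n c) =
        (W ∩ frontier (poly J n c)) \ {x | ⟪n i, x⟫ = c i} := by
      ext x; simp only [mem_inter_iff, mem_sdiff]; tauto
    rw [h3] at h2
    rw [← measure_inter_add_sdiff (W ∩ frontier (poly J n c)) hF]
    refine le_trans (measure_mono ?_) ((measure_union_le _ _).trans (add_le_add h1 h2))
    rintro a ⟨ha, j, hj, hj'⟩
    by_cases h : ⟪n i, ι a⟫ = c i
    · exact Or.inl ⟨ha, h⟩
    · rcases Finset.mem_insert.1 hj with rfl | hj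
      · exact absurd hj' h
      · exact Or.inr ⟨⟨ha, h⟩, j, hj, hj'⟩

end MEA49

open MEA49

theorem r_MEA : R_MEA := by
  intro hS κ J n c hP X _ _ _ ι hm W _
  have hs := hS κ J n c hP
  refine le_antisymm ?_ ?_
  · refine le_trans (measure_mono ?_) (faces_le hs hm J Finset.Subset.rfl W)
    intro a ha
    exact ⟨ha, ((hs.fro _).1 (hm.mem a)).2⟩
  · have hL : LipschitzOnWith 1 ι (ι ⁻¹' W) := by
      refine LipschitzOnWith.of_dist_le_mul fun x _ y _ => ?_
      simpa [dist_eq_norm] using hm.norm_le x y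
    refine le_trans (measure_mono ?_) ((muHE_image_le hL).trans (by simp))
    rintro x ⟨hx, hx'⟩
    obtain ⟨a, rfl⟩ := hm.surj hx'
    exact ⟨a, hx, rfl⟩

end Pool.Agent.Lib.ED
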