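import Pool.Agent.Lib.ED.Blue

/-! Project ed43: the intrinsic model of a set, and the boundary of a polyhedron. -/

open Set Metric MeasureTheory
open scoped ENNReal NNReal Classical RealInnerProductSpace

noncomputable section

namespace Pool.Agent.Lib.ED

open Pool.Agent.Lib.MP_523900_gt

namespace MOD50

/-- A point of `S`. -/
structure W (S : Set E3) where
  p : E3
  h : p ∈ S

variable {S : Set E3}

theorem conn_add {x y : E3} (h : intrinsicDist S x y ≠ ⊤) {ε : ℝ} (hε : 0 < ε) :
    Conn S x y ((intrinsicDist S x y).toReal + ε) ∅ := by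
  refine conn_of_lt ?_
  rw [ENNReal.ofReal_add ENNReal.toReal_nonneg hε.le, ENNReal.ofReal_toReal h]
  exact ENNReal.lt_add_right h (ENNReal.ofReal_pos.2 hε).ne'

theorem toReal_le {x y : E3} {l : ℝ} {T : Set E3} (h : Conn S x y l T) :
    (intrinsicDist S x y).toReal ≤ l :=
  ENNReal.toReal_le_of_le_ofReal h.1 h.intrinsicDist_le

/-- The intrinsic metric. -/
@[reducible] def ms (h : ∀ a b : W S, intrinsicDist S a.p b.p ≠ ⊤) : MetricSpace (W S) where
  dist a b := (intrinsicDist S a.p b.p).toReal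
  dist_self a := le_antisymm
    (by simpa using toReal_le (conn_line (S := S) (x := a.p) (y := a.p) (by simp [a.h])))
    ENNReal.toReal_nonneg
  dist_comm a b := le_antisymm
    (le_of_forall_pos_le_add fun _ hε => toReal_le (conn_symm (conn_add (h b a) hε)))
    (le_of_forall_pos_le_add fun _ hε => toReal_le (conn_symm (conn_add (h a b) hε)))
  dist_triangle a b c := le_of_forall_pos_le_add fun ε hε => by
    have := toReal_le ((conn_add (h a b) (half_pos hε)).trans (conn_add (h b c) (half_pos hε)))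
    linarith
  eq_of_dist_eq_zero := by
    rintro ⟨a, ha⟩ ⟨b, hb⟩ hab
    have h1 := edist_le_intrinsicDist S a b
    rw [((ENNReal.toReal_eq_zero_iff _).1 hab).resolve_right (h ⟨a, ha⟩ ⟨b, hb⟩),
      nonpos_iff_eq_zero, edist_eq_zero] at h1
    subst h1
    rfl

end MOD50

open MOD50 in
theorem r_MOD : R_MOD := by
  intro S hS
  have h : ∀ a b : W S, intrinsicDist S a.p b.p ≠ ⊤ := fun a b => by
    obtain ⟨l, hl⟩ := hS _ a.h _ b.h
    exact ne_top_of_le_ne_top ENNReal.ofReal_ne_top hl.intrinsicDist_le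
  refine ⟨W S, ms h, W.p, @Model.mk _ (ms h) _ _ ?_ ?_ fun a b => ENNReal.ofReal_toReal (h a b)⟩
  · rintro ⟨a, ha⟩ ⟨b, hb⟩ hab
    obtain rfl : a = b := hab
    rfl
  · exact Subset.antisymm (range_subset_iff.2 fun a => a.h) fun x hx => ⟨⟨x, hx⟩, rfl⟩

theorem r_STAR : R_STAR := by
  intro κ J n c h
  have hc : ∀ j, Continuous fun x : E3 => ⟪n j, x⟫ := fun j => by fun_prop
  have e : poly J n c = ⋂ j ∈ J, {x | ⟪n j, x⟫ ≤ c j} := by ext x; simp [poly]
  have hcl : IsClosed (poly J n c) :=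
    e ▸ isClosed_biInter fun j _ => isClosed_le (hc j) continuous_const
  have hcv : Convex ℝ (poly J n c) :=
    e ▸ convex_iInter₂ fun j _ => convex_halfSpace_le (innerₛₗ ℝ (n j)).isLinear _
  have hi : ∀ x, x ∈ interior (poly J n c) ↔ ∀ j ∈ J, ⟪n j, x⟫ < c j := by
    intro x
    rw [mem_interior_iff_mem_nhds]
    refine ⟨fun hx j hj => ?_, fun hx => ?_⟩
    · obtain ⟨r, hr, hb⟩ := Metric.mem_nhds_iff.1 hx
      have h1 := hb (a := x + (r / 2) • n j) (by
        rw [mem_ball, dist_self_add_left, norm_smul, h.unit j hj, Real.norm_of_nonneg (by positivity)]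
        linarith) j hj
      rw [inner_add_right, inner_smul_right, real_inner_self_eq_norm_sq, h.unit j hj] at h1
      linarith
    · exact ((Filter.eventually_all_finset J).2 fun j hj =>
        (hc j).continuousAt.eventually_lt continuousAt_const (hx j hj)).mono
          fun y hy j hj => (hy j hj).le
  have hf : ∀ x, x ∈ frontier (poly J n c) ↔ x ∈ poly J n c ∧ ∃ j ∈ J, ⟪n j, x⟫ = c j := by
    intro x
    rw [hcl.frontier_eq, mem_sdiff, hi]
    refine and_congr_right fun hx => ⟨fun h1 => ?_, fun ⟨j, hj, h1⟩ h2 => (h2 j hj).ne h1⟩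
    by_contra h2
    exact h1 fun j hj => lt_of_le_of_ne (hx j hj) fun h3 => h2 ⟨j, hj, h3⟩
  refine ⟨hcl, hcv, hi, hf, fun z hz => ?_, fun j hj y hy z hz h1 h2 => conn_line fun t ht => ?_⟩
  · have h1 : ∀ᶠ y in nhds z, ∀ j ∈ J, ⟪n j, z⟫ ≠ c j → ⟪n j, y⟫ < c j :=
      (Filter.eventually_all_finset J).2 fun j hj => by
        by_cases h2 : ⟪n j, z⟫ = c j
        · exact Filter.Eventually.of_forall fun _ h3 => absurd h2 h3
        · exact ((hc j).continuousAt.eventually_lt continuousAt_const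
            (lt_of_le_of_ne (hz j hj) h2)).mono fun _ h3 _ => h3
    obtain ⟨r, hr, h2⟩ := Metric.eventually_nhds_iff.1 h1
    exact ⟨r, hr, fun y hy => h2 (by rwa [dist_comm, dist_eq_norm])⟩
  · refine (hf _).2 ⟨hcv.add_smul_sub_mem hy hz ht, j, hj, ?_⟩
    rw [inner_add_right, inner_smul_right, inner_sub_right, h1, h2, sub_self, mul_zero, add_zero]

end Pool.Agent.Lib.ED
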