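import Pool.Agent.Lib.ED.Blue

/-! Project ed43, block MON: the distance from a far point increases in the direction `e₁`. -/

open Set Metric MeasureTheory
open scoped ENNReal NNReal Classical RealInnerProductSpace

noncomputable section

namespace Pool.Agent.Lib.ED

open Pool.Agent.Lib.MP_523900_gt

namespace MON19

theorem orth_facts {e₁ e₂ e : E3} (h : Orthonormal ℝ ![e₁, e₂, e]) :
    ⟪e₁, e₁⟫ = (1 : ℝ) ∧ ⟪e, e⟫ = (1 : ℝ) ∧ ⟪e₁, e₂⟫ = (0 : ℝ) ∧ ⟪e₁, e⟫ = (0 : ℝ) ∧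
      ⟪e₂, e⟫ = (0 : ℝ) := by
  rw [orthonormal_iff_ite] at h
  refine ⟨?_, ?_, ?_, ?_, ?_⟩
  · simpa using h 0 0
  · simpa using h 2 2
  · simpa using h 0 1
  · simpa using h 0 2
  · simpa using h 1 2

theorem gpr_shift {o e₁ e₂ e : E3} (h : Orthonormal ℝ ![e₁, e₂, e]) (y : E3) (a b : ℝ) :
    gpr o e₁ e₂ (y + a • e₁ + b • e) = gpr o e₁ e₂ y + (a : ℂ) := by
  obtain ⟨h1, -, h3, h4, h5⟩ := orth_facts h
  have h4' : ⟪e, e₁⟫ = (0 : ℝ) := by rw [real_inner_comm]; exact h4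
  have h5' : ⟪e, e₂⟫ = (0 : ℝ) := by rw [real_inner_comm]; exact h5
  have e0 : y + a • e₁ + b • e - o = (y - o) + a • e₁ + b • e := by abel
  apply Complex.ext
  · simp only [gpr, e0, inner_add_left, real_inner_smul_left, h1, h4', Complex.add_re,
      Complex.ofReal_re]
    ring
  · simp only [gpr, e0, inner_add_left, real_inner_smul_left, h3, h5', Complex.add_im,
      Complex.ofReal_im]
    ring

theorem ht_shift {o e₁ e₂ e : E3} (h : Orthonormal ℝ ![e₁, e₂, e]) (y : E3) (a b : ℝ) :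
    ⟪y + a • e₁ + b • e - o, e⟫ = ⟪y - o, e⟫ + b := by
  obtain ⟨-, h2, -, h4, -⟩ := orth_facts h
  have e0 : y + a • e₁ + b • e - o = (y - o) + a • e₁ + b • e := by abel
  simp only [e0, inner_add_left, real_inner_smul_left, h2, h4]
  ring

theorem out_shift {Q : Set E3} {o e₁ e₂ e : E3} {f : ℂ → ℝ} (h : Gr Q o e₁ e₂ e f) {y : E3}
    (hy : y ∉ interior Q) {a b : ℝ} (hab : |a| / 50 ≤ b) :
    y + a • e₁ + b • e ∉ interior Q := by
  rw [h.out] at hy ⊢
  rw [gpr_shift h.orth, ht_shift h.orth]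
  have h1 := h.lip (gpr o e₁ e₂ y + (a : ℂ)) (gpr o e₁ e₂ y)
  rw [add_sub_cancel_left, Complex.norm_real, Real.norm_eq_abs] at h1
  linarith [(abs_le.1 h1).2]

theorem ht_glf {o e₁ e₂ e : E3} (h : Orthonormal ℝ ![e₁, e₂, e]) (f : ℂ → ℝ) (z : ℂ) :
    ⟪glf o e₁ e₂ e f z - o, e⟫ = f z := by
  obtain ⟨-, h2, -, h4, h5⟩ := orth_facts h
  have e0 : glf o e₁ e₂ e f z - o = z.re • e₁ + z.im • e₂ + f z • e := by
    unfold glf; abel
  simp only [e0, inner_add_left, real_inner_smul_left, h2, h4, h5]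
  ring

theorem norm_step (D w : E3) {l k : ℝ} (s : ℝ) (hl : 0 < l) (hk : 0 ≤ k) (hD : ‖D‖ ≤ l * k) :
    ‖D + (k * s) • w‖ ≤ l * k + s / l * ⟪D, w⟫ + k * (s ^ 2 * ‖w‖ ^ 2 / (2 * l)) := by
  rcases hk.eq_or_lt with h0 | h0
  · subst h0
    have : D = 0 := by
      rw [← norm_le_zero_iff]; simpa using hD
    simp [this]
  · have hM : 0 < l * k := mul_pos hl h0
    have h1 : ‖D + (k * s) • w‖ ^ 2 =
        ‖D‖ ^ 2 + 2 * (k * s * ⟪D, w⟫) + (k * s) ^ 2 * ‖w‖ ^ 2 := by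
      rw [norm_add_sq_real, real_inner_smul_right, norm_smul, mul_pow, Real.norm_eq_abs, sq_abs]
    have h2 : ‖D‖ ^ 2 ≤ (l * k) ^ 2 := pow_le_pow_left₀ (norm_nonneg _) hD 2
    have h3 : 2 * (l * k) * (l * k + s / l * ⟪D, w⟫ + k * (s ^ 2 * ‖w‖ ^ 2 / (2 * l))) =
        2 * (l * k) ^ 2 + 2 * (k * s * ⟪D, w⟫) + (k * s) ^ 2 * ‖w‖ ^ 2 := by
      field_simp
    refine le_of_mul_le_mul_left ?_ (mul_pos two_pos hM)
    rw [h3]
    nlinarith [sq_nonneg (‖D + (k * s) • w‖ - l * k)]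

end MON19

open MON19 in
theorem r_MON : R_MON := by
  intro hPRJ hGFIN Q o e₁ e₂ e f hQ X _ ι hι hgeo R p x x' z s hR hp hs hz1 hz2 hz3 hx hx'
  obtain ⟨hint, hfin⟩ := hGFIN Q o e₁ e₂ e f hQ
  have hP := hPRJ Q hQ.closed hQ.convex hint
  obtain ⟨o1, o2, o3, o4, o5⟩ := orth_facts hQ.orth
  have hout : ∀ a : X, ι a ∉ interior Q := fun a => (hι.mem a).2
  have hin : ∀ a : X, ι a ∈ Q := fun a => hQ.closed.frontier_subset (hι.mem a)
  obtain ⟨q, hq⟩ : ∃ q, glf o e₁ e₂ e f q = ι p := by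
    have := hι.mem p
    rw [hQ.fro] at this
    exact this
  have hq' : gpr o e₁ e₂ (ι p) = q := by rw [← hq, hQ.sec]
  rw [hq'] at hp
  obtain ⟨g, g0, g1, hg⟩ := hgeo p x'
  set l := dist p x' with hl
  -- the numbers
  have hre : 979 * R ≤ z.re + s - q.re := by
    have h1 := (Complex.abs_re_le_norm (q + ((1000 * R : ℝ) : ℂ))).trans hp
    rw [Complex.add_re, Complex.ofReal_re] at h1
    linarith [(abs_le.1 h1).2, (abs_le.1 hz2).1]
  have hnorm : ‖q - (z + s)‖ ≤ 1041 * R := by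
    have h1 : ‖z + (s : ℂ)‖ ≤ 40 * R := by
      have := Complex.norm_le_abs_re_add_abs_im (z + (s : ℂ))
      rw [Complex.add_re, Complex.add_im, Complex.ofReal_re, Complex.ofReal_im, add_zero] at this
      linarith
    have h2 : ‖((1000 * R : ℝ) : ℂ)‖ = 1000 * R := by
      rw [Complex.norm_real, Real.norm_eq_abs, abs_of_nonneg (by linarith)]
    have e0 : q - (z + s) = (q + ((1000 * R : ℝ) : ℂ)) - ((1000 * R : ℝ) : ℂ) - (z + s) := by ring
    rw [e0]
    have h3 := norm_sub_le ((q + ((1000 * R : ℝ) : ℂ)) - ((1000 * R : ℝ) : ℂ)) (z + (s : ℂ))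
    have h4 := norm_sub_le (q + ((1000 * R : ℝ) : ℂ)) ((1000 * R : ℝ) : ℂ)
    linarith
  have hlup : l ≤ 1063 * R := by
    have h1 := hfin q (z + s)
    rw [hq, ← hx'] at h1
    have := hι.dist_le h1
    linarith
  have hllo : 979 * R ≤ l := by
    have h1 := hι.norm_le x' p
    have h2 := hQ.lo (ι x') (ι p)
    rw [hq', hx', hQ.sec, ← hx'] at h2
    have h3 := Complex.re_le_norm (z + (s : ℂ) - q)
    rw [Complex.sub_re, Complex.add_re, Complex.ofReal_re] at h3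
    rw [dist_comm] at h1
    linarith
  have hl0 : 0 < l := by linarith
  have hs40 : s ≤ 40 * R := by linarith [(abs_le.1 hz1).1, (abs_le.1 hz2).2]
  set w : E3 := (-1 : ℝ) • e₁ + (1 / 50 : ℝ) • e with hw
  have hw2 : ‖w‖ ^ 2 = 2501 / 2500 := by
    have o4' : ⟪e, e₁⟫ = (0 : ℝ) := by rw [real_inner_comm]; exact o4
    rw [← real_inner_self_eq_norm_sq, hw]
    simp only [inner_add_left, inner_add_right, real_inner_smul_left, real_inner_smul_right, o1,
      o2, o4, o4']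
    norm_num
  have hinner : ⟪ι x', w⟫ - ⟪ι p, w⟫ ≤ -(978 * R) := by
    have a1 : ⟪ι x' - o, e₁⟫ = z.re + s := by
      have := congrArg Complex.re (hQ.sec (z + s))
      rw [← hx'] at this
      simpa [gpr] using this
    have a2 : ⟪ι p - o, e₁⟫ = q.re := congrArg Complex.re hq'
    have a3 : ⟪ι x' - o, e⟫ = f (z + s) := by rw [hx', ht_glf hQ.orth]
    have a4 : ⟪ι p - o, e⟫ = f q := by rw [← hq, ht_glf hQ.orth]
    have a5 := (abs_le.1 (hQ.lip q (z + s))).1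
    rw [inner_sub_left] at a1 a2 a3 a4
    simp only [hw, inner_add_right, real_inner_smul_right]
    linarith
  -- the shifted path
  have hga : ∀ u ∈ Icc (0 : ℝ) 1, ∀ v ∈ Icc (0 : ℝ) 1, ‖ι (g u) - ι (g v)‖ ≤ |u - v| * l :=
    fun u hu v hv => (hι.norm_le _ _).trans (hg u hu v hv).le
  have hgc : ContinuousOn (fun t => ι (g t)) (Icc 0 1) := by
    refine (LipschitzOnWith.of_dist_le' (K := l) fun u hu v hv => ?_).continuousOn
    rw [dist_eq_norm, Real.dist_eq, mul_comm]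
    exact hga u hu v hv
  let gb : ℝ → E3 := fun t => ι (g t) + (t * s) • w
  let G : ℝ → ℝ := fun t => l * t + s / l * ⟪ι (g t), w⟫ + t * (s ^ 2 * ‖w‖ ^ 2 / (2 * l))
  have hdom : ∀ u v, 0 ≤ u → u ≤ v → v ≤ 1 → dist (gb u) (gb v) ≤ G v - G u := by
    intro u v h1 h2 h3
    have h4 := hga v ⟨h1.trans h2, h3⟩ u ⟨h1, h2.trans h3⟩
    rw [abs_of_nonneg (by linarith), mul_comm] at h4
    have h5 := norm_step (ι (g v) - ι (g u)) w s hl0 (sub_nonneg.2 h2) h4
    have e0 : gb v - gb u = ι (g v) - ι (g u) + ((v - u) * s) • w := by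
      simp only [gb, sub_mul, sub_smul]; abel
    rw [dist_comm, dist_eq_norm, e0]
    refine h5.trans (le_of_eq ?_)
    simp only [G, inner_sub_left]
    ring
  have hc1 : Conn (interior Q)ᶜ (gb 0) (gb 1) (G 1 - G 0) (gb '' Icc 0 1) := by
    refine conn_of_var zero_le_one ?_ ?_ (dist_nonneg.trans (hdom 0 1 le_rfl zero_le_one le_rfl))
      (var_le_of_dom hdom)
    · exact hgc.add (by fun_prop)
    · intro t ht
      have e0 : gb t = ι (g t) + (-(t * s)) • e₁ + (t * s / 50) • e := by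
        simp only [gb, hw, smul_add, smul_smul]
        rw [add_assoc]
        congr 2
        · congr 1; ring
        · congr 1; ring
      rw [mem_compl_iff, e0]
      refine out_shift hQ (hout _) ?_
      rw [abs_neg, abs_of_nonneg (mul_nonneg ht.1 hs)]
  set d : ℝ := f (z + s) + s / 50 - f z with hd
  have hd1 : 0 ≤ d ∧ d ≤ s / 25 := by
    have h1 := hQ.lip (z + s) z
    rw [add_sub_cancel_left, Complex.norm_real, Real.norm_eq_abs, abs_of_nonneg hs] at h1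
    constructor <;> linarith [(abs_le.1 h1).1, (abs_le.1 h1).2]
  have e0 : gb 0 = ι p := by simp [gb, g0]
  have e1 : gb 1 = ι x + d • e := by
    simp only [gb, g1, hx, hx', hw, hd, glf, Complex.add_re, Complex.add_im, Complex.ofReal_re,
      Complex.ofReal_im]
    module
  have hc2 : Conn (interior Q)ᶜ (gb 1) (ι x) ‖gb 1 - ι x‖ ∅ := by
    refine conn_line fun t ht => ?_
    have e2 : gb 1 + t • (ι x - gb 1) = ι x + (0 : ℝ) • e₁ + ((1 - t) * d) • e := by
      rw [e1]; module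
    rw [mem_compl_iff, e2]
    refine out_shift hQ (hout _) ?_
    rw [abs_zero, zero_div]
    exact mul_nonneg (by linarith [ht.2]) hd1.1
  have hne : ‖e‖ = 1 := by
    have := hQ.orth.1 2
    simpa using this
  have e3 : ‖gb 1 - ι x‖ = d := by
    rw [e1, add_sub_cancel_left, norm_smul, hne, mul_one, Real.norm_eq_abs, abs_of_nonneg hd1.1]
  have hc3 := hP.out _ _ _ _ (hc1.trans hc2)
  rw [e0, hP.self _ (hin p), hP.self _ (hin x), e3] at hc3
  have hfinal := hι.dist_le hc3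
  have e4 : G 1 - G 0 = l + s / l * (⟪ι x', w⟫ - ⟪ι p, w⟫ + s * (2501 / 5000)) := by
    simp only [G, g0, g1, hw2]
    field_simp
    ring
  have h6 : s / l * (⟪ι x', w⟫ - ⟪ι p, w⟫ + s * (2501 / 5000)) ≤ s / l * (-(9 / 10 * l)) :=
    mul_le_mul_of_nonneg_left (by linarith) (div_nonneg hs hl0.le)
  have h7 : s / l * (-(9 / 10 * l)) = -(9 / 10 * s) := by field_simp
  linarith [hd1.2]

end Pool.Agent.Lib.ED
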