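import Pool.Agent.Lib.ED.Blue

/-! Project ed43: rays do not cross, and a direction dies once. -/

open Set Metric MeasureTheory
open scoped ENNReal NNReal Classical RealInnerProductSpace

noncomputable section

namespace Pool.Agent.Lib.ED

open Pool.Agent.Lib.MP_523900_gt

namespace NCD73

lemma sign_iff {f : ℝ → ℝ} {a b : ℝ} (hab : a ≤ b) (hf : ContinuousOn f (Icc a b))
    (h0 : ∀ r ∈ Icc a b, f r ≠ 0) : f a < 0 ↔ f b < 0 := by
  constructor
  · intro h
    by_contra hc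
    obtain ⟨r, hr, e⟩ := intermediate_value_Icc hab hf ⟨h.le, not_lt.mp hc⟩
    exact h0 r hr e
  · intro h
    by_contra hc
    obtain ⟨r, hr, e⟩ := intermediate_value_Icc' hab hf ⟨h.le, not_lt.mp hc⟩
    exact h0 r hr e

lemma ht_cont {X : Type} [MetricSpace X] [MeasurableSpace X] [BorelSpace X] {C : Cx X}
    (ok : C.Ok) (G : C.GamF) {a b θ : ℝ} (ha : 0 ≤ a) (hb : pol b θ ∈ C.D) :
    ContinuousOn (C.ht θ) (Icc a b) := by
  refine (LipschitzOnWith.mk_one fun r hr r' hr' => ?_).continuousOn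
  have h1 := ha.trans hr.1
  have h2 := ha.trans hr'.1
  have h3 := G.radial r r' θ h1 h2 (G.anti r b θ h1 hr.2 hb) (G.anti r' b θ h2 hr'.2 hb)
  rw [Real.dist_eq, Real.dist_eq, ← h3]
  refine le_trans ?_ (ok.lo _ _)
  exact Complex.abs_im_le_norm (C.pr (C.E (pol r θ)) - C.pr (C.E (pol r' θ)))

end NCD73

theorem r_NC : R_NC := by
  intro hG X _ _ _ C ok r₁ r₂ r₃ θ θ' l1 l2 h12 h23 hθ hθ' d d' hin
  have G := hG X C ok
  have h0 : 0 < r₁ := by
    have := (abs_le.mp l1).1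
    linarith [ok.far, ok.Rpos]
  have d2 := G.anti r₂ r₃ θ' (by linarith) h23.le d'
  have key : ∀ r ∈ Icc r₁ r₂, C.ht θ r = C.ht θ' r → θ = θ' := by
    intro r hr e
    have hr0 : 0 < r := h0.trans_le hr.1
    have a1 := G.anti r r₂ θ hr0.le hr.2 d
    have a2 := G.anti r r₂ θ' hr0.le hr.2 d2
    have lv : C.Lv r := abs_le.mpr ⟨by linarith [(abs_le.mp l1).1, hr.1],
      by linarith [(abs_le.mp l2).2, hr.2]⟩
    have b1 := G.levE r θ hr0.le a1
    have b2 := G.levE r θ' hr0.le a2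
    have c1 := G.uniq _ (hin r hr).1.1 (hin r hr).1.2 (b1.symm ▸ lv)
    have c2 := G.uniq _ (hin r hr).2.1 (hin r hr).2.2 (b2.symm ▸ lv)
    rw [b1] at c1
    rw [b2] at c2
    refine G.injE r r₃ θ θ' hr0 (hr.2.trans_lt h23) hθ hθ' a1 d' ?_
    rw [← c1, ← c2]
    exact congrArg _ e
  have c := NCD73.ht_cont ok G h0.le d
  have c' := NCD73.ht_cont ok G h0.le d2
  refine ⟨?_, ?_, key r₁ ⟨le_rfl, h12⟩⟩
  · by_cases e : θ = θ'
    · simp [e]
    · simpa only [Pi.sub_apply, sub_neg] using NCD73.sign_iff h12 (c.sub c')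
        fun r hr h => e (key r hr (sub_eq_zero.mp h))
  · by_cases e : θ = θ'
    · simp [e]
    · simpa only [Pi.sub_apply, sub_neg] using NCD73.sign_iff h12 (c'.sub c)
        fun r hr h => e (key r hr (sub_eq_zero.mp h).symm)

theorem r_DED : R_DED := by
  intro hG X _ _ _ C ok t₀ ε b M hε ht hb hM
  have G := hG X C ok
  have hpos : ∀ j : ℕ, 0 ≤ 2 * ε * j := fun j => by positivity
  refine ⟨fun j _ => mul_nonneg (by linarith [hpos j]) ENNReal.toReal_nonneg, ?_⟩
  set A : ℕ → Set ℝ := fun j => C.th (t₀ + 2 * ε * j - ε) univ with hA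
  have hsub : ∀ j, A j ⊆ Ioc (-Real.pi) Real.pi := fun j θ h => h.1
  have hfin : ∀ j, volume (A j) ≠ ⊤ := fun j =>
    ne_top_of_le_ne_top measure_Ioc_lt_top.ne (measure_mono (hsub j))
  have hd : ∀ j ∈ Finset.range M, C.dead (t₀ + 2 * ε * j) ε
      ≤ b * (volume.real (A j) - volume.real (A (j + 1))) := by
    intro j hj
    have e : t₀ + 2 * ε * j + ε = t₀ + 2 * ε * ((j + 1 : ℕ) : ℝ) - ε := by push_cast; ring
    have hs : A (j + 1) ⊆ A j := fun θ h => ⟨h.1, G.anti _ _ θ (by linarith [hpos j])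
      (by rw [← e]; linarith) h.2.1, mem_univ _⟩
    rw [← measureReal_sdiff hs (G.meas _ _ MeasurableSet.univ) (hfin j), Cx.dead, e]
    exact mul_le_mul_of_nonneg_right (hM j (Finset.mem_range.mp hj)) ENNReal.toReal_nonneg
  refine (Finset.sum_le_sum hd).trans ?_
  rw [← Finset.mul_sum, Finset.sum_range_sub' fun j => volume.real (A j), mul_comm]
  refine mul_le_mul_of_nonneg_right ?_ hb
  have h1 : volume.real (A 0) ≤ volume.real (Ioc (-Real.pi) Real.pi) :=
    measureReal_mono (hsub 0) measure_Ioc_lt_top.ne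
  rw [Real.volume_real_Ioc_of_le (by linarith [Real.pi_pos])] at h1
  linarith [measureReal_nonneg (μ := volume) (s := A M)]

end Pool.Agent.Lib.ED
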