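import Pool.Agent.Lib.ED.Blue

/-! Project ed43, row NET: a finite family of surviving rays. -/

open Set Metric MeasureTheory
open scoped ENNReal NNReal Classical RealInnerProductSpace

noncomputable section

namespace Pool.Agent.Lib.ED

open Pool.Agent.Lib.MP_523900_gt

namespace NET46

variable {X : Type} [MetricSpace X] [MeasurableSpace X] [BorelSpace X] {C : Cx X}

/-- A ray moves at unit speed. -/
theorem move (hC : C.Ok) (G : C.GamF) {r r' θ : ℝ} (hr : 0 ≤ r) (hr' : r ≤ r')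
    (h : pol r' θ ∈ C.D) :
    |(C.pr (C.E (pol r θ))).re - (C.pr (C.E (pol r' θ))).re| ≤ r' - r ∧
      |C.ht θ r - C.ht θ r'| ≤ r' - r := by
  have h0 := G.anti r r' θ hr hr' h
  have h1 := G.radial r r' θ hr (hr.trans hr') h0 h
  have h2 := hC.lo (C.E (pol r θ)) (C.E (pol r' θ))
  rw [h1, abs_sub_comm, abs_of_nonneg (sub_nonneg.2 hr')] at h2
  constructor
  · rw [← Complex.sub_re]
    exact (Complex.abs_re_le_norm _).trans h2
  · unfold Cx.ht
    rw [← Complex.sub_im]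
    exact (Complex.abs_im_le_norm _).trans h2

/-- Close directions have close heights. -/
theorem turn (hC : C.Ok) (G : C.GamF) {r θ θ' : ℝ} (hr : 0 ≤ r) (h : pol r θ ∈ C.D)
    (h' : pol r θ' ∈ C.D) : |C.ht θ r - C.ht θ' r| ≤ r * |θ - θ'| := by
  have h1 := G.ang r θ θ' hr h h'
  have h2 := hC.lo (C.E (pol r θ)) (C.E (pol r θ'))
  unfold Cx.ht
  rw [← Complex.sub_im]
  exact (Complex.abs_im_le_norm _).trans (h2.trans h1)

omit [MeasurableSpace X] [BorelSpace X] in
/-- A ray inside the window is on the level curve. -/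
theorem onlev (G : C.GamF) {r θ : ℝ} (hr : 0 ≤ r) (hL : C.Lv r) (h : pol r θ ∈ C.D)
    (hin : C.In θ r) : C.gam r (C.ht θ r) = C.E (pol r θ) := by
  have h1 := G.levE r θ hr h
  have h2 := G.uniq (C.E (pol r θ)) hin.1 hin.2 (by rw [h1]; exact hL)
  rw [h1] at h2
  exact h2

/-- Points of a level curve are close when their heights are close. -/
theorem levd (hC : C.Ok) (G : C.GamF) {r y y' : ℝ} (hL : C.Lv r) (hy : |y| ≤ 2 * C.R)
    (hy' : |y'| ≤ 2 * C.R) : dist (C.gam r y) (C.gam r y') ≤ 10 * |y - y'| := by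
  have h1 := G.lip r y r y' hL hy hL hy'
  have h2 := hC.up (C.gam r y) (C.gam r y')
  rw [sub_self, abs_zero] at h1
  linarith

/-- The heights just above `h k` and not above another `h k'`. -/
def gap (F : Finset ℝ) (h : ℝ → ℝ) (k : ℝ) : Set ℂ :=
  {z | h k < z.im ∧ ∀ k' ∈ F, h k' < z.im → h k' ≤ h k}

theorem gap_meas (F : Finset ℝ) (h : ℝ → ℝ) (k : ℝ) : MeasurableSet (gap F h k) := by
  have e : gap F h k = {z : ℂ | h k < z.im} ∩
      ⋂ k' ∈ F, ({z : ℂ | h k' < z.im}ᶜ ∪ {_z : ℂ | h k' ≤ h k}) := by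
    ext z
    simp only [gap, mem_ofPred_eq, mem_inter_iff, mem_iInter, mem_union, mem_compl_iff]
    refine and_congr_right fun _ => forall₂_congr fun k' _ => ?_
    exact imp_iff_not_or
  have m : ∀ c : ℝ, MeasurableSet {z : ℂ | c < z.im} := fun c =>
    measurableSet_lt measurable_const Complex.continuous_im.measurable
  rw [e]
  exact (m _).inter (Finset.measurableSet_biInter F fun k' _ =>
    (m _).compl.union (MeasurableSet.const _))

end NET46

open NET46 in
theorem r_NET : R_NET := by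
  intro hGAM hARC hNC X _ _ _ C hC t ε κ hε hεR hκ hLa hLb
  have G := hGAM X C hC
  have hR := hC.Rpos
  have hfar := hC.far
  have hLa' := abs_le.1 hLa
  have hLb' := abs_le.1 hLb
  have ha0 : 0 < t - ε := by linarith [hLa'.1]
  have hb0 : 0 < t + ε := by linarith
  have hLr : ∀ r ∈ Icc (t - ε) t, C.Lv r := fun r hr =>
    abs_le.2 ⟨by linarith [hr.1, hLa'.1], by linarith [hr.2, hLb'.2]⟩
  obtain ⟨k1, hk1, hk1κ, hk1ε⟩ : ∃ k1 : ℝ, 0 < k1 ∧ k1 ≤ κ / 20 ∧ k1 ≤ ε / 2 :=
    ⟨min (κ / 20) (ε / 2), lt_min (by positivity) (by positivity), min_le_left _ _,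
      min_le_right _ _⟩
  set S : Set ℝ := {θ | θ ∈ Ioc (-Real.pi) Real.pi ∧ pol (t + ε) θ ∈ C.D ∧
    |(C.pr (C.E (pol (t - ε) θ))).re| ≤ 15 * C.R ∧ |C.ht θ (t - ε)| ≤ 3 / 2 * C.R} with hS
  have htb : TotallyBounded S :=
    (isCompact_Icc (a := -Real.pi) (b := Real.pi)).totallyBounded.subset
      fun θ hθ => Ioc_subset_Icc_self hθ.1
  obtain ⟨F0, hF0S, hF0fin, hF0⟩ :=
    Metric.finite_approx_of_totallyBounded htb (k1 / (t + ε)) (by positivity)
  set F : Finset ℝ := hF0fin.toFinset with hF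
  have hFS : ∀ k ∈ F, k ∈ S := fun k hk => hF0S (hF0fin.mem_toFinset.1 hk)
  -- the net property, for heights
  have net : ∀ θ ∈ S, ∃ k ∈ F, ∀ r ∈ Icc (t - ε) t, |C.ht θ r - C.ht k r| ≤ k1 := by
    intro θ hθ
    obtain ⟨k, hk, hd⟩ := mem_iUnion₂.1 (hF0 hθ)
    refine ⟨k, hF0fin.mem_toFinset.2 hk, fun r hr => ?_⟩
    have hr0 : 0 ≤ r := by linarith [hr.1]
    have hrb : r ≤ t + ε := by linarith [hr.2]
    have h1 := turn hC G hr0 (G.anti r _ θ hr0 hrb hθ.2.1) (G.anti r _ k hr0 hrb (hF0S hk).2.1)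
    rw [mem_ball, Real.dist_eq, lt_div_iff₀ hb0] at hd
    have h2 : r * |θ - k| ≤ (t + ε) * |θ - k| :=
      mul_le_mul_of_nonneg_right hrb (abs_nonneg _)
    linarith
  -- rays that start well inside the window stay in the window
  have inw : ∀ θ r, r ∈ Icc (t - ε) t → pol r θ ∈ C.D →
      |(C.pr (C.E (pol (t - ε) θ))).re| ≤ 15 * C.R → |C.ht θ (t - ε)| ≤ 3 / 2 * C.R →
      ∀ s ∈ Icc (t - ε) r, C.In θ s := by
    intro θ r hr hD h1 h2 s hs
    have hs0 : 0 ≤ s := by linarith [hs.1]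
    have hm := move hC G ha0.le hs.1 (G.anti s r θ hs0 hs.2 hD)
    have m1 := abs_le.1 hm.1
    have m2 := abs_le.1 hm.2
    have n1 := abs_le.1 h1
    have n2 := abs_le.1 h2
    have := hs.2
    have := hr.2
    exact ⟨abs_le.2 ⟨by linarith, by linarith⟩, abs_le.2 ⟨by linarith, by linarith⟩⟩
  have aliveS : ∀ k ∈ S, ∀ r ∈ Icc (t - ε) t, pol r k ∈ C.D := fun k hk r hr =>
    G.anti r _ k (by linarith [hr.1]) (by linarith [hr.2]) hk.2.1
  -- non-crossing with a ray of the family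
  have nc : ∀ θ r, r ∈ Icc (t - ε) t → θ ∈ Ioc (-Real.pi) Real.pi → pol r θ ∈ C.D →
      |(C.pr (C.E (pol (t - ε) θ))).re| ≤ 15 * C.R → |C.ht θ (t - ε)| ≤ 3 / 2 * C.R →
      ∀ k ∈ S, (C.ht k (t - ε) < C.ht θ (t - ε) ↔ C.ht k r < C.ht θ r) ∧
        (C.ht θ (t - ε) = C.ht k (t - ε) → θ = k) := by
    intro θ r hr hθ hD h1 h2 k hk
    have := hNC X C hC (t - ε) r (t + ε) θ k hLa (hLr r hr) hr.1 (by linarith [hr.2]) hθ hk.1 hD
      hk.2.1 fun s hs => ⟨inw θ r hr hD h1 h2 s hs,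
        inw k r hr (aliveS k hk r hr) hk.2.2.1 hk.2.2.2 s hs⟩
    exact ⟨this.2.1, this.2.2⟩
  set Z : ℝ → Set ℝ := fun k =>
    C.th (t - ε) (gap F (fun k => C.ht k (t - ε)) k) \ C.th (t + ε) univ with hZ
  have hZsub : ∀ k, Z k ⊆ C.th (t - ε) univ \ C.th (t + ε) univ := fun k θ hθ =>
    ⟨⟨hθ.1.1, hθ.1.2.1, mem_univ _⟩, hθ.2⟩
  have ht0 : 0 ≤ t := by linarith
  have haI : t - ε ∈ Icc (t - ε) t := ⟨le_rfl, by linarith⟩
  refine ⟨F, fun k => t * (volume (Z k)).toReal, fun k hk => ?_, ?_, ?_⟩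
  · exact ⟨(hFS k hk).2.1, (hFS k hk).2.2.1, (hFS k hk).2.2.2,
      mul_nonneg ht0 ENNReal.toReal_nonneg⟩
  · rw [← Finset.mul_sum]
    unfold Cx.dead
    refine mul_le_mul_of_nonneg_left ?_ ht0
    have hfin : volume (C.th (t - ε) univ \ C.th (t + ε) univ) ≠ ∞ := by
      refine ne_top_of_le_ne_top (b := volume (Ioc (-Real.pi) Real.pi)) ?_
        (measure_mono fun θ hθ => hθ.1.1)
      rw [Real.volume_Ioc]
      exact ENNReal.ofReal_ne_top
    have hdis : (F : Set ℝ).PairwiseDisjoint Z := by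
      intro k hk k' hk' hne
      rw [Function.onFun, Set.disjoint_left]
      intro θ h1 h2
      have e1 := h1.1.2.2.2 k' hk' h2.1.2.2.1
      have e2 := h2.1.2.2.2 k hk h1.1.2.2.1
      have hkS := hFS k hk
      exact hne ((nc k (t - ε) haI hkS.1 (aliveS k hkS _ haI) hkS.2.2.1 hkS.2.2.2 k'
        (hFS k' hk')).2 (le_antisymm e2 e1))
    have hmeas : ∀ k ∈ F, MeasurableSet (Z k) := fun k _ =>
      (G.meas _ _ (gap_meas _ _ _)).diff (G.meas _ _ MeasurableSet.univ)
    rw [← ENNReal.toReal_sum fun k _ => ne_top_of_le_ne_top hfin (measure_mono (hZsub k)),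
      ← measure_biUnion_finset hdis hmeas]
    exact ENNReal.toReal_mono hfin (measure_mono (iUnion₂_subset fun k _ => hZsub k))
  · intro r hr θ hθ hD hdead hnorm
    have hr0 : 0 ≤ r := by linarith [hr.1]
    have hr1 := hr.1
    have hr2 := hr.2
    have hre : |(C.pr (C.E (pol r θ))).re| ≤ C.R := (Complex.abs_re_le_norm _).trans hnorm
    have him : |C.ht θ r| ≤ C.R := (Complex.abs_im_le_norm _).trans hnorm
    have hm := move hC G ha0.le hr.1 hD
    have m1 := abs_le.1 hm.1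
    have m2 := abs_le.1 hm.2
    have n1 := abs_le.1 hre
    have n2 := abs_le.1 him
    have hθre : |(C.pr (C.E (pol (t - ε) θ))).re| ≤ 15 * C.R :=
      abs_le.2 ⟨by linarith, by linarith⟩
    have hθim : |C.ht θ (t - ε)| ≤ 3 / 2 * C.R := abs_le.2 ⟨by linarith, by linarith⟩
    have ncθ := nc θ r hr hθ hD hθre hθim
    -- a surviving ray a little below
    obtain ⟨k0, hk0, hk0a, hk0b⟩ : ∃ k0 ∈ F, C.ht k0 (t - ε) < C.ht θ (t - ε) ∧
        C.ht θ (t - ε) ≤ C.ht k0 (t - ε) + 6 * ε := by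
      have hy : |C.ht θ (t - ε) - 3 * ε| ≤ 2 * C.R := abs_le.2 ⟨by linarith, by linarith⟩
      obtain ⟨θ', hθ', hD', hE'⟩ := G.polar (C.gam (t + ε) (C.ht θ (t - ε) - 3 * ε))
      rw [G.lev _ _ hLb hy] at hD' hE'
      have q1 := abs_le.1 (G.re _ _ hLb hy)
      have q2 : C.ht θ' (t + ε) = C.ht θ (t - ε) - 3 * ε := by
        unfold Cx.ht
        rw [hE', G.im]
        rfl
      rw [← hE'] at q1
      have hm' := move hC G ha0.le (show t - ε ≤ t + ε by linarith) hD'
      have p1 := abs_le.1 hm'.1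
      have p2 := abs_le.1 hm'.2
      rw [q2] at p2
      have hS' : θ' ∈ S := ⟨hθ', hD', abs_le.2 ⟨by linarith, by linarith⟩,
        abs_le.2 ⟨by linarith, by linarith⟩⟩
      obtain ⟨k0, hk0, hn⟩ := net θ' hS'
      have p3 := abs_le.1 (hn _ haI)
      exact ⟨k0, hk0, by linarith, by linarith⟩
    obtain ⟨k, hkm, hmax⟩ := Finset.exists_max_image
      (F.filter fun k => C.ht k (t - ε) < C.ht θ (t - ε)) (fun k => C.ht k (t - ε))
      ⟨k0, Finset.mem_filter.2 ⟨hk0, hk0a⟩⟩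
    obtain ⟨hkF, hklt⟩ := Finset.mem_filter.1 hkm
    have hmax' : ∀ k' ∈ F, C.ht k' r < C.ht θ r → C.ht k' (t - ε) ≤ C.ht k (t - ε) :=
      fun k' hk' h => hmax k' (Finset.mem_filter.2 ⟨hk', (ncθ k' (hFS k' hk')).1.2 h⟩)
    have hk06 : C.ht k0 (t - ε) ≤ C.ht k (t - ε) := hmax k0 (Finset.mem_filter.2 ⟨hk0, hk0a⟩)
    have hkS := hFS k hkF
    have hkD := aliveS k hkS r hr
    refine ⟨k, hkF, hklt.le, by linarith, ?_⟩
    have h12 : C.ht k r < C.ht θ r := (ncθ k hkS).1.1 hklt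
    have hmk := abs_le.1 (move hC G ha0.le hr.1 hkD).2
    have hrI : r ∈ Icc (t - ε) r := ⟨hr.1, le_rfl⟩
    have e2 := onlev G hr0 (hLr r hr) hD (inw θ r hr hD hθre hθim r hrI)
    have e1 := onlev G hr0 (hLr r hr) hkD (inw k r hr hkD hkS.2.2.1 hkS.2.2.2 r hrI)
    rw [← e1, ← e2]
    have b1 : |C.ht k r| ≤ 2 * C.R := abs_le.2 ⟨by linarith, by linarith⟩
    have b2 : |C.ht θ r| ≤ 2 * C.R := abs_le.2 ⟨by linarith, by linarith⟩
    have hσ : 0 ≤ t * (volume (Z k)).toReal := mul_nonneg ht0 ENNReal.toReal_nonneg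
    by_cases hc : C.ht θ r - k1 < C.ht k r + k1
    · have d1 := levd hC G (hLr r hr) b2 b1
      rw [abs_of_nonneg (by linarith)] at d1
      show _ ≤ t * (volume (Z k)).toReal + κ
      linarith
    · rw [not_lt] at hc
      have b3 : |C.ht k r + k1| ≤ 2 * C.R := abs_le.2 ⟨by linarith, by linarith⟩
      have b4 : |C.ht θ r - k1| ≤ 2 * C.R := abs_le.2 ⟨by linarith, by linarith⟩
      have harc := hARC X C hC r (C.ht k r + k1) (C.ht θ r - k1) (Z k) (hLr r hr) hc b3 b4
        (fun x hx => hx.1.1) (by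
          intro y hy
          have hy1 := hy.1
          have hy2 := hy.2
          have by' : |y| ≤ 2 * C.R := abs_le.2 ⟨by linarith, by linarith⟩
          obtain ⟨η, hη, hηD, hηE⟩ := G.polar (C.gam r y)
          rw [G.lev _ _ (hLr r hr) by'] at hηD hηE
          have q1 := abs_le.1 (G.re _ _ (hLr r hr) by')
          have q2 : C.ht η r = y := by
            unfold Cx.ht
            rw [hηE, G.im]
          rw [← hηE] at q1
          have hm' := move hC G ha0.le hr.1 hηD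
          have p1 := abs_le.1 hm'.1
          have p2 := abs_le.1 hm'.2
          rw [q2] at p2
          have hηre : |(C.pr (C.E (pol (t - ε) η))).re| ≤ 15 * C.R :=
            abs_le.2 ⟨by linarith, by linarith⟩
          have hηim : |C.ht η (t - ε)| ≤ 3 / 2 * C.R := abs_le.2 ⟨by linarith, by linarith⟩
          have ncη := nc η r hr hη hηD hηre hηim
          refine ⟨η, ⟨⟨hη, G.anti _ _ η ha0.le hr.1 hηD, ?_, ?_⟩, ?_⟩, hηD, hηE⟩
          · exact (ncη k hkS).1.2 (by rw [q2]; linarith)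
          · intro k' hk' hlt
            have := (ncη k' (hFS k' hk')).1.1 hlt
            rw [q2] at this
            exact hmax' k' hk' (by linarith)
          · intro hsurv
            obtain ⟨k', hk', hn⟩ := net η ⟨hη, hsurv.2.1, hηre, hηim⟩
            have p3 := abs_le.1 (hn r hr)
            rw [q2] at p3
            have hk'S := hFS k' hk'
            have u1 := hmax' k' hk' (by linarith)
            have u2 := (nc k' r hr hk'S.1 (aliveS k' hk'S r hr) hk'S.2.2.1 hk'S.2.2.2 k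
              hkS).1.2 (by linarith)
            linarith)
      have d1 := levd hC G (hLr r hr) b2 b4
      have d2 := levd hC G (hLr r hr) b3 b1
      rw [sub_sub_cancel, abs_of_pos hk1] at d1
      rw [add_sub_cancel_left, abs_of_pos hk1] at d2
      have d3 := dist_triangle4 (C.gam r (C.ht θ r)) (C.gam r (C.ht θ r - k1))
        (C.gam r (C.ht k r + k1)) (C.gam r (C.ht k r))
      rw [dist_comm] at harc
      have d4 : r * (volume (Z k)).toReal ≤ t * (volume (Z k)).toReal :=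
        mul_le_mul_of_nonneg_right hr.2 ENNReal.toReal_nonneg
      show _ ≤ t * (volume (Z k)).toReal + κ
      linarith

end Pool.Agent.Lib.ED
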