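import Pool.Agent.Lib.ED.Blue

/-! Row NETY: a net of the grid circles. -/

open Set Metric MeasureTheory
open scoped ENNReal NNReal Classical RealInnerProductSpace

noncomputable section

namespace Pool.Agent.Lib.ED

open Pool.Agent.Lib.MP_523900_gt

namespace NETY84

theorem nsq (x : E3) (a : Fin 3) : ‖x‖ ^ 2 = x a ^ 2 + x (a + 1) ^ 2 + x (a + 2) ^ 2 := by
  rw [EuclideanSpace.real_norm_sq_eq, Fin.sum_univ_three]
  fin_cases a
  · rfl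
  · show _ = x 1 ^ 2 + x 2 ^ 2 + x 0 ^ 2
    ring
  · show _ = x 2 ^ 2 + x 0 ^ 2 + x 1 ^ 2
    ring

theorem sq_abs_sub {u u' : ℝ} (h : 0 ≤ u ↔ 0 ≤ u') : (u - u') ^ 2 = (|u| - |u'|) ^ 2 := by
  by_cases h0 : 0 ≤ u
  · rw [abs_of_nonneg h0, abs_of_nonneg (h.1 h0)]
  · rw [abs_of_neg (not_le.1 h0), abs_of_neg (not_le.1 fun h' => h0 (h.2 h'))]
    ring

theorem quad {p q p' q' e : ℝ} (hp : 0 ≤ p) (hq : 0 ≤ q) (hp' : 0 ≤ p') (hq' : 0 ≤ q')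
    (h : p ^ 2 + q ^ 2 = p' ^ 2 + q' ^ 2) (he : |p - q - (p' - q')| ≤ e) :
    (p - p') ^ 2 + (q - q') ^ 2 ≤ e ^ 2 := by
  have h1 : (p - p') * (q - q') ≤ 0 := by
    by_contra hh
    rcases mul_pos_iff.1 (not_le.1 hh) with ⟨a, b⟩ | ⟨a, b⟩ <;> nlinarith
  have h2 : (p - q - (p' - q')) ^ 2 ≤ e ^ 2 := sq_le_sq' (abs_le.1 he).1 (abs_le.1 he).2
  nlinarith

/-- the point `x` of the sphere has the key `κ` -/
def Has (D ε : ℝ) (x : E3) (κ : Fin 3 × ℤ × Prop × Prop × ℤ) : Prop :=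
  ‖x‖ = 2 * D ∧ x κ.1 = D / 1000 * κ.2.1 ∧ (0 ≤ x (κ.1 + 1) ↔ κ.2.2.1) ∧
    (0 ≤ x (κ.1 + 2) ↔ κ.2.2.2.1) ∧ ⌊(|x (κ.1 + 1)| - |x (κ.1 + 2)|) / ε⌋ = κ.2.2.2.2

theorem close {D ε : ℝ} (hε : 0 < ε) {x x' : E3} {κ : Fin 3 × ℤ × Prop × Prop × ℤ}
    (h : Has D ε x κ) (h' : Has D ε x' κ) : ‖x - x'‖ ≤ ε := by
  obtain ⟨a1, a2, a3, a4, a5⟩ := h
  obtain ⟨b1, b2, b3, b4, b5⟩ := h'
  have c1 := nsq x κ.1
  have c2 := nsq x' κ.1
  have c3 := Int.abs_sub_lt_one_of_floor_eq_floor (a5.trans b5.symm)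
  rw [← sub_div, abs_div, abs_of_pos hε, div_lt_one hε] at c3
  refine (pow_le_pow_iff_left₀ (norm_nonneg _) hε.le two_ne_zero).1 ?_
  rw [nsq _ κ.1, PiLp.sub_apply, PiLp.sub_apply, PiLp.sub_apply, a2, b2, sub_self,
    sq_abs_sub (a3.trans b3.symm), sq_abs_sub (a4.trans b4.symm)]
  have c4 := quad (abs_nonneg _) (abs_nonneg _) (abs_nonneg _) (abs_nonneg _) (by
    simp only [sq_abs]
    rw [a1, a2] at c1
    rw [b1, b2] at c2
    linarith) c3.le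
  linarith

end NETY84
open NETY84

theorem r_NETY : R_NETY := by
  intro o D ε hε hD
  have D0 : 0 < D := hε.trans_le hD
  have r1 : 1 ≤ D / ε := (one_le_div hε).2 hD
  let M : ℕ := ⌈2 * D / ε⌉₊
  have hM : (M : ℝ) < 2 * D / ε + 1 := Nat.ceil_lt_add_one (by positivity)
  have hM' : 2 * D / ε ≤ M := Nat.le_ceil _
  let rep : Fin 3 × ℤ × Prop × Prop × ℤ → E3 := fun κ =>
    if h : ∃ x, Has D ε x κ then o + h.choose else o
  obtain ⟨S, hS, hS'⟩ : ∃ S : Finset ℤ, S.card = 4001 ∧ ∀ k, k ∈ S ↔ -2000 ≤ k ∧ k ≤ 2000 :=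
    ⟨Finset.Icc (-2000) 2000, by rw [Int.card_Icc]; rfl, fun _ => Finset.mem_Icc⟩
  refine ⟨(Finset.univ ×ˢ S ×ˢ Finset.univ ×ˢ Finset.univ ×ˢ
    Finset.Icc (-(M : ℤ)) M).image rep, ?_, ?_⟩
  · refine (Nat.cast_le.2 Finset.card_image_le).trans ?_
    have e : ((M : ℤ) + 1 - -(M : ℤ)).toNat = 2 * M + 1 := by omega
    simp only [Finset.card_product, Finset.card_univ, Fintype.card_fin, Fintype.card_prop,
      Int.card_Icc, e, hS]
    push_cast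
    rw [mul_div_assoc] at hM
    linarith
  · rintro y ⟨h1, a, k, h2⟩
    have c : ∀ b, |(y - o) b| ≤ 2 * D := fun b => h1 ▸ PiLp.norm_apply_le (y - o) b
    have hH : Has D ε (y - o) (a, k, 0 ≤ (y - o) (a + 1), 0 ≤ (y - o) (a + 2),
        ⌊(|(y - o) (a + 1)| - |(y - o) (a + 2)|) / ε⌋) := ⟨h1, h2, Iff.rfl, Iff.rfl, rfl⟩
    refine ⟨_, Finset.mem_image.2 ⟨(a, k, 0 ≤ (y - o) (a + 1), 0 ≤ (y - o) (a + 2),
      ⌊(|(y - o) (a + 1)| - |(y - o) (a + 2)|) / ε⌋), ?_, rfl⟩, ?_⟩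
    · simp only [Finset.mem_product, Finset.mem_univ, true_and, Finset.mem_Icc, hS']
      have c0 := abs_le.1 (c a)
      rw [PiLp.sub_apply, h2] at c0
      have c1 := c (a + 1)
      have c2 := c (a + 2)
      have c3 := abs_nonneg ((y - o) (a + 1))
      have c4 := abs_nonneg ((y - o) (a + 2))
      rw [div_le_iff₀ hε] at hM'
      refine ⟨⟨?_, ?_⟩, ?_, ?_⟩
      · have : (-2000 : ℝ) ≤ k := by nlinarith [c0.1]
        exact_mod_cast this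
      · have : (k : ℝ) ≤ 2000 := by nlinarith [c0.2]
        exact_mod_cast this
      · rw [Int.le_floor, le_div_iff₀ hε]
        push_cast
        linarith
      · have : (|(y - o) (a + 1)| - |(y - o) (a + 2)|) / ε ≤ ((M : ℤ) : ℝ) := by
          rw [div_le_iff₀ hε]
          push_cast
          linarith
        exact Int.cast_le.1 ((Int.floor_le _).trans this)
    · have hE : ∃ x, Has D ε x _ := ⟨_, hH⟩
      simp only [rep]
      rw [dif_pos hE, ← sub_sub]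
      exact close hε hH hE.choose_spec

end Pool.Agent.Lib.ED
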