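import Pool.Agent.Lib.ED.Blue

/-! Project ed43: the loops of a pair of levels. -/

open Set Metric MeasureTheory
open scoped ENNReal NNReal Classical RealInnerProductSpace

namespace Pool.Agent.Lib.ED

open Pool.Agent.Lib.MP_523900_gt

namespace PAIR43

variable {X : Type} [MetricSpace X] [MeasurableSpace X] [BorelSpace X] {C : Cx X}

theorem floor_mem {y ε : ℝ} (hε : 0 < ε) :
    (⌊y / ε⌋ : ℝ) * ε ≤ y ∧ y < ((⌊y / ε⌋ : ℝ) + 1) * ε :=
  ⟨(le_div_iff₀ hε).1 (Int.floor_le _), (div_lt_iff₀ hε).1 (Int.lt_floor_add_one _)⟩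

theorem sum_arc (g : C.GamF) {t ε : ℝ} (ht : 0 ≤ t) (hε : 0 < ε) (A : Finset ℤ) (U : Set ℂ)
    (hU : ∀ i ∈ A, C.th t (C.strip (i * ε) ((i + 1) * ε)) ⊆ C.th t U) :
    ∑ i ∈ A, C.arc t (C.strip (i * ε) ((i + 1) * ε)) ≤ C.arc t U := by
  have hfin : ∀ W, volume (C.th t W) ≠ ⊤ := fun W =>
    ne_top_of_le_ne_top (by simp) (measure_mono (fun θ hθ => hθ.1 : C.th t W ⊆ Ioc _ _))
  have hms : ∀ a b : ℝ, MeasurableSet (C.strip a b) := fun a b => by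
    have h1 : MeasurableSet {z : ℂ | |z.re| ≤ 14 * C.R} :=
      (isClosed_le (by fun_prop) continuous_const).measurableSet
    have h2 : MeasurableSet {z : ℂ | a ≤ z.im} :=
      (isClosed_le continuous_const (by fun_prop)).measurableSet
    have h3 : MeasurableSet {z : ℂ | z.im < b} :=
      (isOpen_lt (by fun_prop) continuous_const).measurableSet
    exact h1.inter (h2.inter h3)
  unfold Cx.arc
  rw [← Finset.mul_sum]
  refine mul_le_mul_of_nonneg_left ?_ ht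
  rw [← ENNReal.toReal_sum fun i _ => hfin _,
    ← measure_biUnion_finset ?_ fun i _ => g.meas _ _ (hms _ _)]
  · exact ENNReal.toReal_mono (hfin _) (measure_mono (iUnion₂_subset hU))
  · intro i _ j _ hij
    refine Set.disjoint_left.2 fun θ h1 h2 => hij ?_
    obtain ⟨-, a1, a2⟩ := h1.2.2
    obtain ⟨-, b1, b2⟩ := h2.2.2
    have e1 : (i : ℝ) < j + 1 := lt_of_mul_lt_mul_right (a1.trans_lt b2) hε.le
    have e2 : (j : ℝ) < i + 1 := lt_of_mul_lt_mul_right (b1.trans_lt a2) hε.le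
    have e1' : i < j + 1 := by exact_mod_cast e1
    have e2' : j < i + 1 := by exact_mod_cast e2
    omega

theorem rail (hA : St_ARC2) (hL : St_LEV) (ok : C.Ok) (g : C.GamF) {t ε κ : ℝ} (hε : 0 < ε)
    (hεR : ε ≤ C.R / 100) (hκ : 0 < κ) (h1 : C.Lv (t - ε)) (h2 : C.Lv (t + ε)) (A : Finset ℤ)
    (U : Set ℂ) (hb : ∀ i ∈ A, |(i : ℝ) * ε| ≤ 2 * C.R ∧ |((i : ℝ) + 1) * ε| ≤ 2 * C.R)
    (hU : ∀ i ∈ A, C.th t (C.strip (i * ε) ((i + 1) * ε)) ⊆ C.th t U) :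
    ∃ (l : ℤ → ℝ) (T : ℤ → Set X),
      (∀ i ∈ A, Pth (C.gam t (i * ε)) (C.gam t ((i + 1) * ε)) (l i) (T i)) ∧
      ∑ i ∈ A, l i ≤ C.arc t U + 200 * C.dead t ε ∧
      ∀ x, ‖C.pr x‖ ≤ C.R → dist C.p x ∈ Icc (t - ε) (t + ε) →
        ∃ y, |y - (C.pr x).im| ≤ 10 * ε ∧ ∃ w ∈ T ⌊y / ε⌋, dist x w ≤ ε + κ := by
  have hR := ok.Rpos
  have hfar := ok.far
  have ht : C.Lv t := by
    unfold Cx.Lv at h1 h2 ⊢
    rw [abs_le] at h1 h2 ⊢
    constructor <;> linarith [h1.1, h2.2]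
  have ht0 : 0 ≤ t := by
    unfold Cx.Lv at ht
    linarith [(abs_le.1 ht).1]
  obtain ⟨F, h, σ, T, p1, p2, p3⟩ := hL X C ok t ε κ hε hεR hκ h1 h2
  refine ⟨fun i => C.arc t (C.strip (i * ε) ((i + 1) * ε)) +
      ∑ k ∈ F.filter fun k => ⌊h k / ε⌋ = i, σ k,
    fun i => C.gam t '' Icc (i * ε) ((i + 1) * ε) ∪
      ⋃ k ∈ F.filter fun k => ⌊h k / ε⌋ = i, T k, fun i hi => ?_, ?_, fun x hx hx' => ?_⟩
  · refine (((hA X C ok).1 t _ _ ht (by nlinarith) (hb i hi).1 (hb i hi).2).1).ins_finset _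
      (fun k => C.gam t (h k)) σ T (fun k hk => ?_) fun k hk => p1 k (Finset.mem_filter.1 hk).1
    have := floor_mem (y := h k) hε
    rw [(Finset.mem_filter.1 hk).2] at this
    exact ⟨h k, ⟨this.1, this.2.le⟩, rfl⟩
  · rw [Finset.sum_add_distrib]
    refine add_le_add (sum_arc g ht0 hε A U hU) (le_trans ?_ p2)
    rw [Finset.sum_fiberwise_eq_sum_filter]
    exact Finset.sum_le_sum_of_subset_of_nonneg (Finset.filter_subset _ _)
      fun k hk _ => (p1 k hk).nonneg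
  · rcases p3 x hx hx' with ⟨y, hy, hd⟩ | ⟨k, hk, hy, w, hw, hd⟩
    · have := floor_mem (y := y) hε
      exact ⟨y, hy, _, Or.inl ⟨y, ⟨this.1, this.2.le⟩, rfl⟩, hd⟩
    · exact ⟨h k, hy, w, Or.inr (mem_biUnion (Finset.mem_filter.2 ⟨hk, rfl⟩) hw), hd⟩

end PAIR43

open PAIR43

theorem r_PAIR2 : R_PAIR := by
  intro hG hA hL hRun X _ _ _ C ok Ω U t ε ρ hε hεR hρ h1 h2 hΩ hUm hU
  have g := hG X C ok
  have hR := ok.Rpos
  have hfar := ok.far
  have lv : ∀ r, t - ε ≤ r → r ≤ t + 3 * ε → C.Lv r := fun r a b => by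
    unfold Cx.Lv at h1 h2 ⊢
    rw [abs_le] at h1 h2 ⊢
    constructor <;> linarith [h1.1, h2.2]
  have hq : C.R / ε * ε = C.R := div_mul_cancel₀ _ hε.ne'
  have hc1 : (⌈C.R / ε⌉ : ℝ) * ε ≤ C.R + ε := by
    nlinarith [Int.ceil_lt_add_one (C.R / ε)]
  have hc2 : C.R ≤ (⌈C.R / ε⌉ : ℝ) * ε := by
    nlinarith [Int.le_ceil (C.R / ε)]
  set A := C.act Ω t ε with hAdef
  have hb : ∀ i ∈ A, |(i : ℝ) * ε| ≤ 2 * C.R ∧ |((i : ℝ) + 1) * ε| ≤ 2 * C.R := fun i hi => by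
    obtain ⟨a, b⟩ := Finset.mem_Icc.1 (Finset.mem_filter.1 hi).1
    have a' : -(⌈C.R / ε⌉ : ℝ) - 12 ≤ i := by exact_mod_cast a
    have b' : (i : ℝ) ≤ (⌈C.R / ε⌉ : ℝ) + 12 := by exact_mod_cast b
    have a'' := mul_le_mul_of_nonneg_right a' hε.le
    have b'' := mul_le_mul_of_nonneg_right b' hε.le
    constructor <;> rw [abs_le] <;> constructor <;> nlinarith
  have hsub : ∀ s, t ≤ s → s ≤ t + 2 * ε →
      ∀ i ∈ A, C.th s (C.strip (i * ε) ((i + 1) * ε)) ⊆ C.th s U := by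
    intro s s1 s2 i hi θ hθ
    obtain ⟨x, hx, hx1, hx2⟩ := (Finset.mem_filter.1 hi).2
    obtain ⟨q1, q2, q3, q4, q5⟩ := hθ
    have ls := lv s (by linarith) (by linarith)
    have s0 : 0 ≤ s := by
      unfold Cx.Lv at ls
      linarith [(abs_le.1 ls).1]
    have e0 := g.levE s θ s0 q2
    have hy : |(C.pr (C.E (pol s θ))).im| ≤ 2 * C.R := by
      rw [abs_le]
      constructor <;> linarith [(abs_le.1 (hb i hi).1).1, (abs_le.1 (hb i hi).2).2]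
    have e1 := g.uniq (C.E (pol s θ)) (by linarith) hy (by rw [e0]; exact ls)
    rw [e0] at e1
    have hxi : |(C.pr x).im| ≤ 2 * C.R := by
      linarith [Complex.abs_im_le_norm (C.pr x), hΩ x hx]
    have lx := lv _ hx1.1 hx1.2
    have e2 := g.uniq x (by linarith [Complex.abs_re_le_norm (C.pr x), hΩ x hx]) hxi lx
    have e3 := g.lip _ _ _ _ ls hy lx hxi
    rw [e1, e2] at e3
    refine ⟨q1, q2, hU x hx _ (e3.trans ?_)⟩
    have a1 : |s - dist C.p x| ≤ 3 * ε := by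
      rw [abs_le]; constructor <;> linarith [hx1.1, hx1.2]
    have a2 : |(C.pr (C.E (pol s θ))).im - (C.pr x).im| ≤ 11 * ε := by
      rw [abs_le]; constructor <;> linarith [hx2.1, hx2.2]
    linarith
  obtain ⟨l, T, p1, p2, p3⟩ := rail hA hL ok g hε hεR (sub_pos.2 hρ) h1
    (lv _ (by linarith) (by linarith)) A U hb (hsub t le_rfl (by linarith))
  obtain ⟨l', T', p1', p2', p3'⟩ := rail (t := t + 2 * ε) hA hL ok g hε hεR (sub_pos.2 hρ)
    (lv _ (by linarith) (by linarith)) (lv _ (by linarith) (by linarith)) A U hb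
    (hsub _ (by linarith) le_rfl)
  have cross : ∀ y, |y| ≤ 2 * C.R → Pth (C.gam t y) (C.gam (t + 2 * ε) y) (8 * ε) ∅ := fun y hy =>
    ((hA X C ok).2 t _ y (lv _ (by linarith) (by linarith)) (lv _ (by linarith) (by linarith))
      hy).mono (by rw [abs_sub_comm, abs_of_nonneg (by linarith)]; linarith) le_rfl
  have act : ∀ x ∈ Ω, dist C.p x ∈ Icc (t - ε) (t + 3 * ε) → ∀ y, |y - (C.pr x).im| ≤ 10 * ε →
      ⌊y / ε⌋ ∈ A := by
    intro x hx hx' y hy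
    obtain ⟨f1, f2⟩ := floor_mem (y := y) hε
    obtain ⟨y1, y2⟩ := abs_le.1 hy
    obtain ⟨x1, x2⟩ := abs_le.1 ((Complex.abs_im_le_norm (C.pr x)).trans (hΩ x hx))
    refine Finset.mem_filter.2 ⟨Finset.mem_Icc.2 ⟨?_, ?_⟩, x, hx, hx', by linarith, by linarith⟩
    · have : -(⌈C.R / ε⌉ : ℝ) - 12 ≤ ⌊y / ε⌋ := le_of_mul_le_mul_right (by linarith) hε
      exact_mod_cast this
    · have : (⌊y / ε⌋ : ℝ) ≤ (⌈C.R / ε⌉ : ℝ) + 12 := le_of_mul_le_mul_right (by linarith) hε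
      exact_mod_cast this
  refine (hRun X A (fun i => C.gam t (i * ε)) (fun i => C.gam (t + 2 * ε) (i * ε)) l l' T T'
    (8 * ε) ρ _ (fun i hi => ?_) ?_).mono le_rfl ?_ le_rfl le_rfl
  · push_cast
    exact ⟨p1 i hi, p1' i hi, cross _ (hb i hi).1, cross _ (hb i hi).2⟩
  · rintro x ⟨hx, hx'⟩
    rcases le_total (dist C.p x) (t + ε) with h | h
    · obtain ⟨y, hy, w, hw, hd⟩ := p3 x (hΩ x hx) ⟨hx'.1, h⟩
      exact ⟨_, act x hx hx' y hy, w, Or.inl hw, by linarith⟩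
    · obtain ⟨y, hy, w, hw, hd⟩ := p3' x (hΩ x hx) ⟨by linarith, by linarith [hx'.2]⟩
      exact ⟨_, act x hx hx' y hy, w, Or.inr hw, by linarith⟩
  · rw [Finset.sum_add_distrib]
    linarith

end Pool.Agent.Lib.ED
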