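import Pool.Agent.Lib.ED.Blue

/-! Project ed43: the intrinsic diameter, the lower bound for polytopes. -/

open Set Metric MeasureTheory Filter
open scoped ENNReal NNReal Classical RealInnerProductSpace Topology

namespace Pool.Agent.Lib.ED

open Pool.Agent.Lib.MP_523900_gt

namespace PL12

theorem exists_orth (a b : E3) : ∃ k : E3, ‖k‖ = 1 ∧ ⟪a, k⟫ = 0 ∧ ⟪b, k⟫ = 0 := by
  let L : E3 →ₗ[ℝ] ℝ × ℝ := (innerₛₗ ℝ a).prod (innerₛₗ ℝ b)
  obtain ⟨v, hv, h0⟩ := (Submodule.ne_bot_iff _).1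
    (LinearMap.ker_ne_bot_of_finrank_lt (f := L) (by simp))
  have h1 : ⟪a, v⟫ = 0 := congrArg Prod.fst hv
  have h2 : ⟪b, v⟫ = 0 := congrArg Prod.snd hv
  refine ⟨‖v‖⁻¹ • v, ?_, by rw [inner_smul_right, h1, mul_zero],
    by rw [inner_smul_right, h2, mul_zero]⟩
  rw [norm_smul, norm_inv, norm_norm, inv_mul_cancel₀ (norm_ne_zero_iff.2 h0)]

theorem leg {K : Set E3} (P : PrjF K) {x n k : E3} (hn : ‖n‖ = 1) (hk : ‖k‖ = 1)
    (h : ∀ w ∈ K, ⟪n, w - x⟫ ≤ 0) (hnk : ⟪n, k⟫ = 0) {s : ℝ} (hs : 0 ≤ s) :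
    Conn (interior K)ᶜ x (x + s • k) s ∅ := by
  refine (conn_line fun t _ => P.notin _ n ⟪n, x⟫ (fun e => by simp [e] at hn)
    (fun w hw => ?_) ?_).mono ?_ le_rfl
  · have := h w hw
    rw [inner_sub_right] at this
    linarith
  · simp [inner_add_right, inner_smul_right, hnk]
  · simp [norm_smul, hk, abs_of_nonneg hs]

variable {X : Type} [MetricSpace X] {S : Set E3} {ι : X → E3}

theorem dist_le_var (h : Model S ι) {γ : ℝ → E3} (hγ : IsPathIn S γ) (hl : len γ < ⊤) {s t : ℝ}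
    (hs : 0 ≤ s) (hst : s ≤ t) (ht : t ≤ 1) {a b : X} (ha : ι a = γ s) (hb : ι b = γ t) :
    ENNReal.ofReal (dist a b) ≤ eVariationOn γ (Icc s t) := by
  have hsub : Icc s t ⊆ Icc 0 1 := Icc_subset_Icc hs ht
  have hne : eVariationOn γ (Icc s t) ≠ ⊤ := ((eVariationOn.mono γ hsub).trans_lt hl).ne
  have := conn_of_var hst (hγ.1.mono hsub) (hγ.2.mono_left hsub) ENNReal.toReal_nonneg
    (ENNReal.ofReal_toReal hne).ge
  rw [← ha, ← hb] at this
  exact (ENNReal.ofReal_le_ofReal (h.dist_le this)).trans (ENNReal.ofReal_toReal hne).le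

theorem lift_cont (hL : Loc ι) {γ : ℝ → E3} {g : ℝ → X} {I : Set ℝ} (hγ : ContinuousOn γ I)
    (hg : ∀ t ∈ I, ι (g t) = γ t) : ContinuousOn g I := by
  intro t ht
  obtain ⟨r, hr, h⟩ := hL (g t)
  rw [Metric.continuousWithinAt_iff']
  intro ε hε
  filter_upwards [Metric.continuousWithinAt_iff'.1 (hγ t ht) _ (lt_min hr hε),
    self_mem_nhdsWithin] with s hs hsI
  rw [dist_comm, dist_eq_norm, ← hg t ht, ← hg s hsI, lt_min_iff] at hs
  rw [dist_comm, h _ hs.1]
  exact hs.2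

end PL12

open PL12

theorem r_DIA : R_DIA := by
  intro hP K hK
  have P := hP K hK.compact.isClosed hK.convex hK.int
  have hb := hK.compact.isBounded
  have hD : 0 < diam K := by
    obtain ⟨o, ho⟩ := hK.int
    exact Metric.diam_pos (infinite_of_mem_nhds o (mem_interior_iff_mem_nhds.1 ho)).nontrivial hb
  refine ⟨hD, fun x hx y hy => ?_⟩
  obtain ⟨n, hn, hnx⟩ := P.normal x hx
  obtain ⟨n', hn', hny⟩ := P.normal y hy
  obtain ⟨k, hk, h1, h2⟩ := exists_orth n n'
  have hxK : x ∈ K := hK.compact.isClosed.frontier_subset hx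
  have hyK : y ∈ K := hK.compact.isClosed.frontier_subset hy
  have hs : 0 ≤ 2 * diam K := by positivity
  have hm : Conn (interior K)ᶜ (x + (2 * diam K) • k) (y + (2 * diam K) • k) (diam K) ∅ := by
    refine (conn_line fun t ht => ?_).mono ?_ le_rfl
    · intro hi
      have hz : x + t • (y - x) ∈ K := hK.convex.add_smul_sub_mem hxK hyK ht
      have := dist_le_diam_of_mem hb (interior_subset hi) hz
      rw [dist_eq_norm, show x + (2 * diam K) • k + t • (y + (2 * diam K) • k -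
        (x + (2 * diam K) • k)) - (x + t • (y - x)) = (2 * diam K) • k by module, norm_smul, hk,
        Real.norm_of_nonneg hs] at this
      linarith
    · rw [add_sub_add_right_eq_sub, ← dist_eq_norm]
      exact dist_le_diam_of_mem hb hxK hyK
  have := P.out _ _ _ _ (((leg P hn hk hnx h1 hs).trans hm).trans
    (conn_symm (leg P hn' hk hny h2 hs)))
  rw [P.self x hxK, P.self y hyK] at this
  exact this.mono (le_of_eq (by ring)) (empty_subset _)

theorem r_PL : R_PL := by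
  intro hMOD hSURF hDIA hLOW κ J n c hJ hK ε l hε hl
  obtain ⟨X, _, ι, hι⟩ := hMOD _ fun x hx y hy => ⟨_, (hDIA _ hK).2 x hx y hy⟩
  borelize X
  have hS := hSURF κ J n c hJ X ι hι
  simp only [shortestDense, iInf_lt_iff] at hl
  obtain ⟨γ, ⟨hγ, hfin, hden⟩, hl⟩ := hl
  have hl0 : 0 ≤ l := (ENNReal.ofReal_pos.1 (zero_le.trans_lt hl)).le
  obtain ⟨a₀, -⟩ := hι.surj (hγ.2 (left_mem_Icc.2 zero_le_one))
  have : Nonempty X := ⟨a₀⟩
  choose! g hg using fun t (ht : t ∈ Icc (0 : ℝ) 1) => hι.surj (hγ.2 ht)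
  have hu := isCompact_Icc.uniformContinuousOn_of_continuous (lift_cont hS.loc hγ.1 hg)
  have key : ∀ η : ℝ, 0 < η → μHE[2] (frontier (poly J n c)) ≤
      ENNReal.ofReal (2 * (ε + η) * l + Real.pi * (ε + η) ^ 2) := by
    intro η hη
    obtain ⟨δ, hδ, hd⟩ := Metric.uniformContinuousOn_iff.1 hu η hη
    obtain ⟨m, hm⟩ := exists_nat_one_div_lt hδ
    have hM : (0 : ℝ) < (m + 1 : ℕ) := by positivity
    have hI : ∀ i : ℕ, i ≤ m + 1 → (i : ℝ) / (m + 1 : ℕ) ∈ Icc (0 : ℝ) 1 := fun i hi =>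
      ⟨by positivity, (div_le_one hM).2 (by exact_mod_cast hi)⟩
    have hmono : Monotone fun i : ℕ => (i : ℝ) / (m + 1 : ℕ) := fun i j hij =>
      div_le_div_of_nonneg_right (by exact_mod_cast hij) hM.le
    have h := hLOW X hS.good (fun i => g ((i : ℝ) / (m + 1 : ℕ))) (m + 1) (ε + η) l (by positivity)
      ?_ fun x => ?_
    · have e := hS.mea univ MeasurableSet.univ
      rwa [← univ_inter (frontier _), ← e]
    · rw [← ENNReal.ofReal_le_ofReal_iff hl0, ENNReal.ofReal_sum_of_nonneg fun _ _ => dist_nonneg]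
      refine le_trans ?_ hl.le
      have e := eVariationOn.sum' γ hmono (n := m + 1)
      rw [Nat.cast_zero, zero_div, div_self hM.ne'] at e
      refine le_trans (Finset.sum_le_sum fun i hi => ?_) e.le
      have hi' := Finset.mem_range.1 hi
      exact dist_le_var hι hγ hfin (hI i hi'.le).1 (hmono i.le_succ) (hI _ hi').2
        (hg _ (hI i hi'.le)) (hg _ (hI _ hi'))
    · obtain ⟨t, ht, hx⟩ := hden _ (hι.mem x)
      rw [← hg t ht, ← hι.dist, ENNReal.ofReal_le_ofReal_iff hε.le] at hx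
      have h0 : 0 ≤ t * (m + 1 : ℕ) := mul_nonneg ht.1 hM.le
      have hi : ⌊t * (m + 1 : ℕ)⌋₊ ≤ m + 1 :=
        Nat.floor_le_of_le (mul_le_of_le_one_left hM.le ht.2)
      refine ⟨_, hi, (dist_triangle _ (g t) _).trans (add_le_add hx (hd t ht _ (hI _ hi) ?_).le)⟩
      refine lt_of_le_of_lt ?_ hm
      have h1 := Nat.floor_le h0
      have h2 := Nat.lt_floor_add_one (t * (m + 1 : ℕ))
      rw [Real.dist_eq, ← Nat.cast_succ, show t - ⌊t * (m + 1 : ℕ)⌋₊ / (m + 1 : ℕ) =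
        (t * (m + 1 : ℕ) - ⌊t * (m + 1 : ℕ)⌋₊) / (m + 1 : ℕ) by field_simp, abs_div,
        abs_of_pos hM, abs_of_nonneg (by linarith)]
      exact div_le_div_of_nonneg_right (by linarith) hM.le
  have hc : Continuous fun η : ℝ =>
      ENNReal.ofReal (2 * (ε + η) * l + Real.pi * (ε + η) ^ 2) :=
    ENNReal.continuous_ofReal.comp (by fun_prop)
  have ht := (hc.tendsto 0).mono_left (nhdsWithin_le_nhds (s := Ioi 0))
  rw [add_zero] at ht
  exact ge_of_tendsto ht (eventually_mem_nhdsWithin.mono key)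

end Pool.Agent.Lib.ED
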