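import Pool.Agent.Lib.ED.Blue

/-! Project ed43: the nearest point map of a convex body. -/

open Set Metric Filter
open scoped ENNReal NNReal Classical RealInnerProductSpace Topology

noncomputable section

namespace Pool.Agent.Lib.ED

open Pool.Agent.Lib.MP_523900_gt

namespace PRJ32

variable {K : Set E3}

theorem spec (hc : IsClosed K) (hv : Convex ℝ K) (hn : K.Nonempty) (x : E3) :
    prj K x ∈ K ∧ ∀ w ∈ K, ⟪x - prj K x, w - prj K x⟫ ≤ 0 := by
  obtain ⟨v, h1, h2⟩ := exists_norm_eq_iInf_of_complete_convex hn hc.isComplete hv x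
  exact Classical.epsilon_spec (p := fun v => v ∈ K ∧ ∀ w ∈ K, ⟪x - v, w - v⟫ ≤ 0)
    ⟨v, h1, (norm_eq_iInf_iff_real_inner_le_zero hv h1).1 h2⟩

theorem lip {x y v w : E3} (h1 : ⟪x - v, w - v⟫ ≤ 0) (h2 : ⟪y - w, v - w⟫ ≤ 0) :
    ‖v - w‖ ≤ ‖x - y‖ := by
  have e : ⟪x - y, v - w⟫ = ‖v - w‖ ^ 2 - ⟪x - v, w - v⟫ - ⟪y - w, v - w⟫ := by
    rw [← real_inner_self_eq_norm_sq]
    simp only [inner_sub_left, inner_sub_right]
    ring
  have h3 := real_inner_le_norm (x - y) (v - w)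
  rcases (norm_nonneg (v - w)).eq_or_lt with h | h
  · rw [← h]; exact norm_nonneg _
  · exact le_of_mul_le_mul_right (by nlinarith) h

theorem notin (x n : E3) (c : ℝ) (hn : n ≠ 0) (h : ∀ w ∈ K, ⟪n, w⟫ ≤ c) (hx : c ≤ ⟪n, x⟫) :
    x ∉ interior K := fun hi => by
  have h1 : Tendsto (fun t : ℝ => x + t • n) (𝓝[>] 0) (𝓝 x) := by
    have : Continuous fun t : ℝ => x + t • n := by fun_prop
    simpa using (this.tendsto 0).mono_left (nhdsWithin_le_nhds (s := Ioi 0))
  obtain ⟨t, h2, h3⟩ := ((h1.eventually (mem_interior_iff_mem_nhds.1 hi)).and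
    self_mem_nhdsWithin).exists
  have h4 := h _ h2
  rw [inner_add_right, inner_smul_right, real_inner_self_eq_norm_sq] at h4
  have := mul_pos (show 0 < t from h3) (pow_pos (norm_pos_iff.2 hn) 2)
  linarith

theorem normal (hv : Convex ℝ K) (hn : (interior K).Nonempty) {x : E3} (hx : x ∉ interior K) :
    ∃ n : E3, ‖n‖ = 1 ∧ ∀ w ∈ K, ⟪n, w - x⟫ ≤ 0 := by
  obtain ⟨f, hf⟩ := geometric_hahn_banach_open_point hv.interior isOpen_interior hx
  obtain ⟨m, rfl⟩ := (InnerProductSpace.toDual ℝ E3).surjective f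
  simp only [InnerProductSpace.toDual_apply_apply] at hf
  have h0 : m ≠ 0 := by
    rintro rfl
    obtain ⟨a, ha⟩ := hn
    simpa using hf a ha
  refine ⟨‖m‖⁻¹ • m, norm_smul_inv_norm h0, fun w hw => ?_⟩
  have h1 : closure (interior K) ⊆ {w | ⟪m, w⟫ ≤ ⟪m, x⟫} :=
    closure_minimal (fun a ha => (hf a ha).le) (isClosed_le (by fun_prop) continuous_const)
  rw [hv.closure_interior_eq_closure_of_nonempty_interior hn] at h1
  have h2 : ⟪m, w⟫ ≤ ⟪m, x⟫ := h1 (subset_closure hw)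
  rw [real_inner_smul_left, inner_sub_right]
  exact mul_nonpos_of_nonneg_of_nonpos (inv_nonneg.2 (norm_nonneg _)) (sub_nonpos.2 h2)

end PRJ32

open PRJ32 in
theorem r_PRJ : R_PRJ := by
  intro K hc hv hn
  have sp := spec hc hv (hn.mono interior_subset)
  have un : ∀ x, ∀ v ∈ K, (∀ w ∈ K, ⟪x - v, w - v⟫ ≤ 0) → prj K x = v := fun x v h1 h2 => by
    have := lip ((sp x).2 v h1) (h2 _ (sp x).1)
    rwa [sub_self, norm_zero, norm_le_zero_iff, sub_eq_zero] at this
  have li : ∀ x y, ‖prj K x - prj K y‖ ≤ ‖x - y‖ := fun x y =>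
    lip ((sp x).2 _ (sp y).1) ((sp y).2 _ (sp x).1)
  have fr : ∀ x, x ∉ interior K → prj K x ∈ frontier K := fun x hx => by
    refine ⟨subset_closure (sp x).1, ?_⟩
    by_cases h : x - prj K x = 0
    · rwa [← sub_eq_zero.1 h]
    · refine notin _ _ _ h (fun w hw => ?_) le_rfl
      have := (sp x).2 w hw
      rwa [inner_sub_right, sub_nonpos] at this
  refine ⟨fun x => (sp x).1, fun x => (sp x).2, un, li, fun x hx => un x x hx fun w _ => by simp,
    fr, fun x hx => normal hv hn hx.2, notin, ?_⟩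
  rintro x y l T ⟨h0, γ, h1, h2, h3, h4, h5, h6⟩
  have hL : LipschitzWith 1 (prj K) := LipschitzWith.of_dist_le_mul fun a b => by
    rw [NNReal.coe_one, one_mul, dist_eq_norm, dist_eq_norm]; exact li a b
  refine ⟨h0, prj K ∘ γ, hL.continuous.comp h1, fun t ht => fr _ (h2 ht), by simp [h3],
    by simp [h4], ?_, by rw [image_comp]; exact image_mono h6⟩
  have := (hL.lipschitzOnWith (s := univ)).comp_eVariationOn_le (g := γ) (s := Icc (0 : ℝ) 1)
    (mapsTo_univ _ _)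
  rw [ENNReal.coe_one, one_mul] at this
  exact this.trans h5

end Pool.Agent.Lib.ED
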