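import Pool.Agent.Lib.ED.Blue

/-! Project ed43: rays and exponential maps. -/

open Set Metric MeasureTheory
open scoped ENNReal NNReal Classical RealInnerProductSpace

noncomputable section

namespace Pool.Agent.Lib.ED

open Pool.Agent.Lib.MP_523900_gt

namespace RAY28

variable {X : Type} [MetricSpace X] {V : Set X} {φ : ℂ → X} {δ : ℝ} {a : ℂ} {g g' : ℝ → X}

theorem sub (h : Ray φ δ a g) {t : ℝ} (ht : t ∈ Icc (0 : ℝ) 1) :
    Ray φ δ (t • a) fun s => g (s * t) := by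
  have m : ∀ s ∈ Icc (0 : ℝ) 1, s * t ∈ Icc (0 : ℝ) 1 := fun s hs =>
    ⟨mul_nonneg hs.1 ht.1, mul_le_one₀ hs.2 ht.1 ht.2⟩
  have n : ‖t • a‖ = t * ‖a‖ := by rw [norm_smul, Real.norm_of_nonneg ht.1]
  refine ⟨fun s hs r hr => ?_, fun s hs h1 => ?_⟩
  · rw [h.1 _ (m s hs) _ (m r hr), n, ← sub_mul, abs_mul, abs_of_nonneg ht.1, mul_assoc]
  · rw [smul_smul]
    exact h.2 _ (m s hs) (by rwa [n, ← mul_assoc] at h1)

theorem off (hF : Flat V) {l : ℝ} (h : Seg g l) (hl : 0 < l) {t : ℝ} (ht : t ∈ Ioo (0 : ℝ) 1) :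
    g t ∉ V := fun hv => by
  have t1 := Ioo_subset_Icc_self ht
  have a1 := h 0 (left_mem_Icc.2 zero_le_one) t t1
  have a2 := h t t1 1 (right_mem_Icc.2 zero_le_one)
  have a3 := h 0 (left_mem_Icc.2 zero_le_one) 1 (right_mem_Icc.2 zero_le_one)
  rw [abs_of_nonpos (by linarith [ht.1, ht.2])] at a1 a2 a3
  have b1 := mul_pos ht.1 hl
  have b2 := mul_pos (sub_pos.2 ht.2) hl
  have := hF.vert _ hv (g 0) (g 1) (dist_pos.1 (by linarith)) (dist_pos.1 (by linarith)).symm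
  linarith

end RAY28

open RAY28 in
theorem r_RAY : R_RAY := by
  intro hS hU X _ V hF φ δ hc
  have i0 : (0 : ℝ) ∈ Icc (0 : ℝ) 1 := left_mem_Icc.2 zero_le_one
  have i1 : (1 : ℝ) ∈ Icc (0 : ℝ) 1 := right_mem_Icc.2 zero_le_one
  have eq : ∀ a g, Ray φ δ a g → ∀ s ∈ Icc (0 : ℝ) 1, ex φ δ (s • a) = g s := fun a g h s hs => by
    have h1 := sub h hs
    have H : ∃ g, Ray φ δ (s • a) g := ⟨_, h1⟩
    have p : 0 < ‖s • a‖ + 1 := by positivity
    rw [ex, dif_pos H, hU X V hF _ _ _ (δ / (‖s • a‖ + 1)) (norm_nonneg _) H.choose_spec.1 h1.1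
      (div_pos hc.pos p) (fun r hr h2 => by
        have h3 : r * ‖s • a‖ < δ := by
          rw [lt_div_iff₀ p] at h2
          linarith [hr.1]
        exact (H.choose_spec.2 r hr h3).trans (h1.2 r hr h3).symm) 1 i1, one_mul]
  have e1 : ∀ a g, Ray φ δ a g → ex φ δ a = g 1 := fun a g h => by
    simpa only [one_smul] using eq a g h 1 i1
  refine ⟨fun a ⟨g, h⟩ t ht => ⟨_, sub h ht⟩, eq, fun a ⟨g, h⟩ => ⟨fun s hs r hr => ?_,
    fun s hs h1 => ?_⟩, fun x => ?_, fun a ⟨g, h⟩ => ?_, fun a ha => ?_,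
    fun a ⟨g, h⟩ h0 t ht => ?_⟩
  · simp only [eq a g h s hs, eq a g h r hr]
    exact h.1 s hs r hr
  · exact (eq a g h s hs).trans (h.2 s hs h1)
  · obtain ⟨g, g0, g1, h⟩ := hF.geo (φ 0) x
    obtain ⟨v, v1, v2⟩ := hS X φ 0 δ hc g _ dist_nonneg h 0 i0 g0
    have r : Ray φ δ v g := ⟨v1 ▸ h, fun s hs h1 => by
      simpa only [sub_zero, zero_add] using
        v2 s hs (by rwa [sub_zero, abs_of_nonneg hs.1, ← v1])⟩
    exact ⟨v, ⟨g, r⟩, (e1 v g r).trans g1⟩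
  · have h1 := h.2 0 i0 (by simpa using hc.pos)
    rw [zero_smul] at h1
    rw [e1 a g h, ← h1, h.1 0 i0 1 i1]
    simp
  · have m : ∀ s ∈ Icc (0 : ℝ) 1, s • a ∈ ball (0 : ℂ) δ := fun s hs => by
      rw [mem_ball_zero_iff, norm_smul, Real.norm_of_nonneg hs.1]
      exact (mul_le_of_le_one_left (norm_nonneg a) hs.2).trans_lt ha
    have r : Ray φ δ a fun s => φ (s • a) := ⟨fun s hs t ht => by
      rw [hc.iso _ (m s hs) _ (m t ht), ← sub_smul, norm_smul, Real.norm_eq_abs], fun _ _ _ => rfl⟩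
    exact ⟨⟨_, r⟩, by simpa only [one_smul] using e1 a _ r⟩
  · rw [eq a g h t (Ioo_subset_Icc_self ht)]
    exact off hF h.1 (norm_pos_iff.2 h0) ht

open RAY28 in
theorem r_EXP : R_EXP := by
  intro hR hH hC hA X _ _ _ V hF x
  by_cases h : ∀ y, y = x
  · refine subset_closure ⟨{0}, fun _ => x, isClosed_singleton, fun y => ⟨0, rfl, (h y).symm⟩,
      ?_, ?_, ?_, ?_, fun U _ => ?_⟩
    · rintro _ rfl t -
      simp
    · rintro _ rfl
      simp
    · rintro _ rfl _ rfl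
      simp
    · rintro _ rfl _ rfl t - -
      simp
    · exact (measure_mono inter_subset_left).trans (by simp)
  obtain ⟨y, hy⟩ := not_forall.1 h
  obtain ⟨g, g0, -, hg⟩ := hF.geo x y
  have l0 : 0 < dist x y := dist_pos.2 (Ne.symm hy)
  refine Metric.mem_closure_iff.2 fun ε hε => ?_
  obtain ⟨t, t0, t1, t2⟩ : ∃ t : ℝ, 0 < t ∧ t < 1 ∧ t * dist x y < ε :=
    ⟨min (1 / 2) (ε / 2 / dist x y), lt_min one_half_pos (by positivity),
      (min_le_left _ _).trans_lt one_half_lt_one, by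
        have := (le_div_iff₀ l0).1 (min_le_right (1 / 2) (ε / 2 / dist x y))
        linarith⟩
  obtain ⟨φ, δ, h0, hc⟩ := hF.chart _ (off hF hg l0 ⟨t0, t1⟩)
  have R := hR X V hF φ δ hc
  refine ⟨g t, ⟨dom φ δ, ex φ δ, (hC X V hF φ δ hc).1, R.onto, R.star, h0 ▸ R.norm,
    hH X V hF φ δ hc, (hC X V hF φ δ hc).2, hA X V hF φ δ hc⟩, ?_⟩
  have := hg 0 (left_mem_Icc.2 zero_le_one) t ⟨t0.le, t1.le⟩
  rw [g0, zero_sub, abs_neg, abs_of_pos t0] at this
  rwa [this]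

end Pool.Agent.Lib.ED
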