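import Pool.Agent.Lib.ED.Blue

/-! Project ed43, row RUN: every run of boxes between two rails is one closed path. -/

open Set Metric MeasureTheory
open scoped ENNReal NNReal Classical RealInnerProductSpace

noncomputable section

namespace Pool.Agent.Lib.ED

open Pool.Agent.Lib.MP_523900_gt

namespace RUN13

theorem starts_insert_of_mem {s : Finset ℤ} {i : ℤ} (hi : ∀ x ∈ s, x < i) (h : i - 1 ∈ s) :
    starts (insert i s) = starts s := by
  ext x
  simp only [starts, Finset.mem_filter, Finset.mem_insert, not_or]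
  constructor
  · rintro ⟨rfl | hx, -, h2⟩
    · exact absurd h h2
    · exact ⟨hx, h2⟩
  · rintro ⟨hx, h2⟩
    exact ⟨Or.inr hx, by have := hi x hx; omega, h2⟩

theorem starts_insert_of_notMem {s : Finset ℤ} {i : ℤ} (hi : ∀ x ∈ s, x < i) (h : i - 1 ∉ s) :
    starts (insert i s) = insert i (starts s) := by
  ext x
  simp only [starts, Finset.mem_filter, Finset.mem_insert, not_or]
  constructor
  · rintro ⟨rfl | hx, -, h2⟩
    · exact Or.inl rfl
    · exact Or.inr ⟨hx, h2⟩
  · rintro (rfl | ⟨hx, h2⟩)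
    · exact ⟨Or.inl rfl, by omega, h⟩
    · exact ⟨Or.inr hx, by have := hi x hx; omega, h2⟩

variable {X : Type} [MetricSpace X]

/-- The points close to a set. -/
def nb (ρ : ℝ) (T : Set X) : Set X := {x | ∃ w ∈ T, dist x w ≤ ρ}

theorem main (P P' : ℤ → X) (l l' : ℤ → ℝ) (T T' : ℤ → Set X) (c ρ : ℝ) (A : Finset ℤ) :
    (∀ i ∈ A, Pth (P i) (P (i + 1)) (l i) (T i) ∧ Pth (P' i) (P' (i + 1)) (l' i) (T' i) ∧
      Pth (P i) (P' i) c ∅ ∧ Pth (P (i + 1)) (P' (i + 1)) c ∅) →
    Loops (starts A).card (∑ i ∈ A, (l i + l' i) + 2 * c * (starts A).card) ρ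
      {x | ∃ i ∈ A, x ∈ nb ρ (T i ∪ T' i)} ∧
    ∀ m ∈ A, (∀ x ∈ A, x ≤ m) → ∃ (l₀ : ℝ) (T₀ Ω₀ : Set X),
      Pth (P (m + 1)) (P' (m + 1)) l₀ T₀ ∧
      Loops ((starts A).card - 1) (∑ i ∈ A, (l i + l' i) + 2 * c * (starts A).card - c - l₀) ρ Ω₀ ∧
      {x | ∃ i ∈ A, x ∈ nb ρ (T i ∪ T' i)} ⊆ nb ρ T₀ ∪ Ω₀ := by
  induction A using Finset.induction_on_max with
  | empty =>
    intro _
    refine ⟨(Loops.empty ρ).mono (by simp [starts]) (by simp [starts]) le_rfl ?_, by simp⟩
    rintro x ⟨i, hi, -⟩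
    simp at hi
  | insert i s hi ih =>
    intro h
    obtain ⟨ih1, ih2⟩ := ih fun j hj => h j (Finset.mem_insert_of_mem hj)
    obtain ⟨h1, h2, h3, h4⟩ := h i (Finset.mem_insert_self _ _)
    have his : i ∉ s := fun hh => lt_irrefl _ (hi i hh)
    have key : ∃ (l₀ : ℝ) (T₀ Ω₀ : Set X), Pth (P (i + 1)) (P' (i + 1)) l₀ T₀ ∧
        Loops ((starts (insert i s)).card - 1) (∑ j ∈ insert i s, (l j + l' j) +
          2 * c * (starts (insert i s)).card - c - l₀) ρ Ω₀ ∧
        {x | ∃ j ∈ insert i s, x ∈ nb ρ (T j ∪ T' j)} ⊆ nb ρ T₀ ∪ Ω₀ := by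
      by_cases hm : i - 1 ∈ s
      · obtain ⟨l₀, T₀, Ω₀, p1, p2, p3⟩ := ih2 (i - 1) hm fun x hx => by have := hi x hx; omega
        rw [sub_add_cancel] at p1
        refine ⟨_, _, Ω₀, (h1.symm.trans p1).trans h2, ?_, ?_⟩
        · rw [starts_insert_of_mem hi hm, Finset.sum_insert his]
          exact p2.mono le_rfl (le_of_eq (by ring)) le_rfl le_rfl
        · rintro x ⟨j, hj, hx⟩
          rcases Finset.mem_insert.1 hj with rfl | hj
          · obtain ⟨w, hw | hw, hd⟩ := hx
            · exact Or.inl ⟨w, Or.inl (Or.inl hw), hd⟩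
            · exact Or.inl ⟨w, Or.inr hw, hd⟩
          · rcases p3 ⟨j, hj, hx⟩ with ⟨w, hw, hd⟩ | hx'
            · exact Or.inl ⟨w, Or.inl (Or.inr hw), hd⟩
            · exact Or.inr hx'
      · have hs : i ∉ starts s := fun hh => his (Finset.mem_filter.1 hh).1
        refine ⟨_, _, _, (h1.symm.trans h3).trans h2, ih1.mono ?_ ?_ le_rfl le_rfl, ?_⟩
        · rw [starts_insert_of_notMem hi hm, Finset.card_insert_of_notMem hs]
          push_cast; linarith
        · rw [starts_insert_of_notMem hi hm, Finset.card_insert_of_notMem hs,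
            Finset.sum_insert his]
          push_cast; exact le_of_eq (by ring)
        · rintro x ⟨j, hj, hx⟩
          rcases Finset.mem_insert.1 hj with rfl | hj
          · obtain ⟨w, hw | hw, hd⟩ := hx
            · exact Or.inl ⟨w, Or.inl (Or.inl hw), hd⟩
            · exact Or.inl ⟨w, Or.inr hw, hd⟩
          · exact Or.inr ⟨j, hj, hx⟩
    refine ⟨?_, fun m hm hmax => ?_⟩
    · obtain ⟨l₀, T₀, Ω₀, p1, p2, p3⟩ := key
      have hl : Loops 1 (l₀ + c) ρ (nb ρ T₀) :=
        Loops.single ((p1.trans h4.symm).mono le_rfl subset_union_left) fun x hx => hx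
      exact (hl.union p2).mono (le_of_eq (by ring)) (le_of_eq (by ring)) le_rfl p3
    · have : m = i := by
        rcases Finset.mem_insert.1 hm with rfl | hm
        · rfl
        · exact absurd (hmax i (Finset.mem_insert_self _ _)) (not_le.2 (hi m hm))
      subst this
      exact key

end RUN13

theorem r_RUN : R_RUN := fun _ _ A P P' l l' T T' c ρ _ h hΩ =>
  (RUN13.main P P' l l' T T' c ρ A h).1.mono le_rfl le_rfl le_rfl fun x hx => hΩ x hx

end Pool.Agent.Lib.ED
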