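import Pool.Agent.Lib.ED.Blue

/-! Project ed43, row SURF: the boundary of a polyhedron is a flat geodesic space off its vertices. -/

open Set Metric MeasureTheory
open scoped ENNReal NNReal Classical RealInnerProductSpace

noncomputable section

namespace Pool.Agent.Lib.ED

open Pool.Agent.Lib.MP_523900_gt

namespace SURF40

variable {κ : Type} {J : Finset κ} {n : κ → E3} {c : κ → ℝ}

/-- A point of the boundary close to `z` lies on a face through `z`. -/
theorem face (hS : StarF J n c) (z : E3) (hz : z ∈ frontier (poly J n c)) :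
    ∃ r : ℝ, 0 < r ∧ ∀ y ∈ frontier (poly J n c), ‖z - y‖ < r →
      ∃ j ∈ J, ⟪n j, z⟫ = c j ∧ ⟪n j, y⟫ = c j := by
  obtain ⟨r, hr, h⟩ := hS.near z ((hS.fro z).1 hz).1
  refine ⟨r, hr, fun y hy hzy => ?_⟩
  obtain ⟨-, j, hj, hjy⟩ := (hS.fro y).1 hy
  refine ⟨j, hj, ?_, hjy⟩
  by_contra hne
  exact absurd hjy (h y hzy j hj hne).ne

variable {X : Type} [MetricSpace X] {ι : X → E3}

theorem loc (hS : StarF J n c) (hM : Model (frontier (poly J n c)) ι) : Loc ι := by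
  intro a
  obtain ⟨r, hr, h⟩ := face hS (ι a) (hM.mem a)
  refine ⟨r, hr, fun b hb => ?_⟩
  obtain ⟨j, hj, h1, h2⟩ := h (ι b) (hM.mem b) hb
  exact le_antisymm
    (hM.dist_le (hS.chord j hj _ ((hS.fro _).1 (hM.mem a)).1 _ ((hS.fro _).1 (hM.mem b)).1 h1 h2))
    (hM.norm_le a b)

/-- A point on a shortest path from `v` to `a`, close to `v`. -/
theorem close (hG : Geo X) (v a : X) (hav : a ≠ v) (r : ℝ) (hr : 0 < r) :
    ∃ a' : X, a' ≠ v ∧ dist v a' < r ∧ dist a a' + dist v a' = dist a v := by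
  obtain ⟨g, h0, h1, hg⟩ := hG v a
  have hd : 0 < dist v a := dist_pos.2 hav.symm
  set s : ℝ := min 1 (r / (2 * dist v a)) with hs
  have hs0 : 0 < s := lt_min one_pos (by positivity)
  have hs1 : s ≤ 1 := min_le_left _ _
  have hs2 : s ≤ r / (2 * dist v a) := min_le_right _ _
  have e1 : dist v (g s) = s * dist v a := by
    have := hg 0 ⟨le_rfl, zero_le_one⟩ s ⟨hs0.le, hs1⟩
    rw [h0, zero_sub, abs_neg, abs_of_pos hs0] at this
    exact this
  have e2 : dist a (g s) = (1 - s) * dist v a := by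
    have := hg 1 ⟨zero_le_one, le_rfl⟩ s ⟨hs0.le, hs1⟩
    rw [h1, abs_of_nonneg (sub_nonneg.2 hs1)] at this
    exact this
  refine ⟨g s, ?_, ?_, ?_⟩
  · intro h
    rw [h, dist_self] at e1
    exact (mul_pos hs0 hd).ne e1
  · rw [e1]
    have h3 : s * (2 * dist v a) ≤ r := (le_div_iff₀ (by positivity)).1 hs2
    nlinarith [mul_pos hs0 hd]
  · rw [e1, e2, dist_comm a v]; ring

theorem vert (hP : PolyOk J n c) (hS : StarF J n c) (hF : PrjF (poly J n c)) (hV : St_VER)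
    (hM : Model (frontier (poly J n c)) ι) (hG : Geo X) (v : X) (hv : ι v ∈ vtx J n c) (a b : X)
    (ha : a ≠ v) (hb : b ≠ v) : dist a b < dist a v + dist v b := by
  obtain ⟨r, hr, h⟩ := face hS (ι v) (hM.mem v)
  obtain ⟨a', ha1, ha2, ha3⟩ := close hG v a ha r hr
  obtain ⟨b', hb1, hb2, hb3⟩ := close hG v b hb r hr
  obtain ⟨i, hi, hi1, hi2⟩ := h (ι a') (hM.mem a') ((hM.norm_le v a').trans_lt ha2)
  obtain ⟨j, hj, hj1, hj2⟩ := h (ι b') (hM.mem b') ((hM.norm_le v b').trans_lt hb2)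
  have ma : ι a' ∈ poly J n c := ((hS.fro _).1 (hM.mem a')).1
  have mb : ι b' ∈ poly J n c := ((hS.fro _).1 (hM.mem b')).1
  obtain ⟨l, hl, hc⟩ := hV κ J n c hP (ι v) hv i hi j hj (ι a') ma (ι b') mb
    (fun e => ha1 (hM.inj e)) (fun e => hb1 (hM.inj e)) hi1 hi2 hj1 hj2
  have hc' := hF.out _ _ _ _ hc
  rw [hF.self _ ma, hF.self _ mb] at hc'
  have h1 : dist a' b' ≤ l := hM.dist_le hc'
  have h2 : ‖ι a' - ι v‖ ≤ dist v a' := by rw [norm_sub_rev]; exact hM.norm_le v a'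
  have h3 : ‖ι b' - ι v‖ ≤ dist v b' := by rw [norm_sub_rev]; exact hM.norm_le v b'
  have h4 : dist a b ≤ dist a a' + dist a' b' + dist b' b := dist_triangle4 a a' b' b
  rw [dist_comm b' b] at h4
  rw [dist_comm v b]
  linarith

end SURF40

theorem r_SURF : R_SURF := by
  intro hSTAR hPRJ hGEO hC1 hC2 hVER hMEA hEXP κ J n c hP X _ _ _ ι hM
  have hS := hSTAR κ J n c hP
  have hF := hPRJ _ hS.closed hS.convex hP.int
  have hL := SURF40.loc hS hM
  obtain ⟨hc, hG⟩ := hGEO X _ ι isClosed_frontier hM hL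
  have hFlat : Flat (ι ⁻¹' vtx J n c) :=
    ⟨hc, hG, fun x hx => hC2 X _ ι hM x (hC1 κ J n c hP (ι x) (hM.mem x) hx),
      fun v hv a b ha hb => SURF40.vert hP hS hF hVER hM hG v hv a b ha hb⟩
  exact ⟨hM, hG, hEXP X _ hFlat, hL, hMEA κ J n c hP X ι hM⟩

end Pool.Agent.Lib.ED
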