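import Pool.Agent.Lib.ED.Blue

/-! Project ed43: transfer along Lipschitz maps. -/

open Set Metric MeasureTheory
open scoped ENNReal NNReal Classical RealInnerProductSpace

noncomputable section

namespace Pool.Agent.Lib.ED

open Pool.Agent.Lib.MP_523900_gt

namespace TRFh23

variable {F : E3 → E3} {a : ℝ≥0} {S : Set E3}

theorem path_map (hF : LipschitzWith a F) {γ : ℝ → E3} (h : IsPathIn S γ) :
    IsPathIn (F '' S) (F ∘ γ) :=
  ⟨hF.continuous.comp_continuousOn h.1, fun _ ht => mem_image_of_mem F (h.2 ht)⟩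

theorem len_map (hF : LipschitzWith a F) (γ : ℝ → E3) : len (F ∘ γ) ≤ a * len γ :=
  (hF.lipschitzOnWith (s := univ)).comp_eVariationOn_le (mapsTo_univ _ _)

theorem dist_map (hF : LipschitzWith a F) (ha : a ≠ 0) (x y : E3) :
    intrinsicDist (F '' S) (F x) (F y) ≤ a * intrinsicDist S x y := by
  have h0 : (a : ℝ≥0∞) ≠ 0 := ENNReal.coe_ne_zero.mpr ha
  rw [intrinsicDist, intrinsicDist, ENNReal.mul_iInf_of_ne h0 ENNReal.coe_ne_top]
  refine le_iInf fun γ => ?_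
  rw [ENNReal.mul_iInf_of_ne h0 ENNReal.coe_ne_top]
  refine le_iInf fun h => iInf₂_le_of_le (F ∘ γ) ⟨path_map hF h.1, ?_, ?_⟩ (len_map hF γ)
  · rw [Function.comp_apply, h.2.1]
  · rw [Function.comp_apply, h.2.2]

theorem dense_map (hF : LipschitzWith a F) (ha : a ≠ 0) (ε : ℝ) :
    shortestDense (F '' S) (a * ε) ≤ a * shortestDense S ε := by
  have h0 : (a : ℝ≥0∞) ≠ 0 := ENNReal.coe_ne_zero.mpr ha
  rw [shortestDense, shortestDense, ENNReal.mul_iInf_of_ne h0 ENNReal.coe_ne_top]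
  refine le_iInf fun γ => ?_
  rw [ENNReal.mul_iInf_of_ne h0 ENNReal.coe_ne_top]
  refine le_iInf fun h => iInf₂_le_of_le (F ∘ γ) ⟨path_map hF h.1,
    (len_map hF γ).trans_lt (ENNReal.mul_lt_top ENNReal.coe_lt_top h.2.1), ?_⟩ (len_map hF γ)
  rintro _ ⟨x, hx, rfl⟩
  obtain ⟨t, ht, h1⟩ := h.2.2 x hx
  refine ⟨t, ht, (dist_map hF ha x (γ t)).trans ?_⟩
  rw [ENNReal.ofReal_mul a.coe_nonneg, ENNReal.ofReal_coe_nnreal]
  gcongr

theorem exit {K : Set E3} (hK : Body K) {x n : E3} (hx : x ∈ K) (hn : ‖n‖ = 1) :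
    ∃ s : ℝ, 0 ≤ s ∧ x + s • n ∈ frontier K := by
  have hc : Continuous fun s : ℝ => x + s • n := by fun_prop
  obtain ⟨R, hR⟩ := hK.compact.isBounded.subset_closedBall x
  have hA : IsCompact (Icc 0 R ∩ (fun s : ℝ => x + s • n) ⁻¹' K) :=
    isCompact_Icc.inter_right (hK.compact.isClosed.preimage hc)
  have hR0 : 0 ≤ R := by simpa using hR hx
  obtain ⟨s, ⟨h1, h2⟩, h3⟩ := hA.exists_isGreatest ⟨0, ⟨le_rfl, hR0⟩, by simpa using hx⟩
  refine ⟨s, h1.1, subset_closure h2, fun h4 => ?_⟩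
  obtain ⟨η, hη, h5⟩ := Metric.isOpen_iff.mp (isOpen_interior.preimage hc) s h4
  have h6 : x + (s + η / 2) • n ∈ K := interior_subset (h5 (by
    rw [mem_ball, Real.dist_eq, add_sub_cancel_left, abs_of_pos (by linarith)]; linarith))
  have h7 := hR h6
  rw [mem_closedBall_iff_norm, add_sub_cancel_left, norm_smul, hn, mul_one,
    Real.norm_of_nonneg (by linarith [h1.1])] at h7
  linarith [h3 ⟨⟨by linarith [h1.1], h7⟩, h6⟩]

end TRFh23

open TRFh23

theorem r_TRF : R_TRF := by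
  intro hPRJ
  refine ⟨fun F a ε S ha hF => ?_, fun K₁ K₂ h₁ h₂ hle => ?_, fun S ε ε' hε => ?_,
    fun S x ε hx h => ?_⟩
  · lift a to ℝ≥0 using ha.le
    have hL : LipschitzWith a F := LipschitzWith.of_dist_le_mul fun x y => by
      rw [dist_eq_norm, dist_eq_norm]; exact hF x y
    refine ⟨?_, ?_⟩
    · rw [ENNReal.ofReal_coe_nnreal]
      exact dense_map hL (by exact_mod_cast ha.ne') ε
    · rw [ENNReal.ofReal_pow a.coe_nonneg, ENNReal.ofReal_coe_nnreal]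
      exact muHE_image_le hL.lipschitzOnWith
  · have hP := hPRJ K₁ h₁.compact.isClosed h₁.convex h₁.int
    refine Subset.antisymm ?_ fun x hx => ?_
    · rintro _ ⟨y, hy, rfl⟩
      exact hP.fro y fun h => hy.2 (interior_mono hle h)
    · obtain ⟨n, hn, h3⟩ := hP.normal x hx
      have h4 : x ∈ K₁ := h₁.compact.isClosed.frontier_subset hx
      obtain ⟨s, h5, h6⟩ := exit h₂ (hle h4) hn
      refine ⟨_, h6, hP.uniq _ x h4 fun w hw => ?_⟩
      rw [add_sub_cancel_left, real_inner_smul_left]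
      exact mul_nonpos_of_nonneg_of_nonpos h5 (h3 w hw)
  · refine le_iInf₂ fun γ h => iInf₂_le γ ⟨h.1, h.2.1, fun x hx => ?_⟩
    obtain ⟨t, ht, h1⟩ := h.2.2 x hx
    exact ⟨t, ht, h1.trans (ENNReal.ofReal_le_ofReal hε)⟩
  · have h0 : len (fun _ => x) = 0 :=
      eVariationOn.constant_on (by rintro _ ⟨_, _, rfl⟩ _ ⟨_, _, rfl⟩; rfl)
    refine le_antisymm (iInf₂_le_of_le (fun _ => x) ⟨⟨continuousOn_const, fun _ _ => hx⟩,
      h0 ▸ ENNReal.zero_lt_top, fun y hy => ⟨0, left_mem_Icc.mpr zero_le_one,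
        (h y hy).intrinsicDist_le⟩⟩ h0.le) zero_le

end Pool.Agent.Lib.ED
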