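import Pool.Agent.Lib.ED.Blue

/-! Project ed43: the two bounds for a convex body, and the theorem. -/

open Set Metric MeasureTheory Filter Topology
open scoped ENNReal NNReal Classical RealInnerProductSpace

namespace Pool.Agent.Lib.ED

open Pool.Agent.Lib.MP_523900_gt

namespace UB43

theorem hom_lip (o : E3) {a : ℝ} (ha : 0 ≤ a) (x y : E3) :
    ‖AffineMap.homothety o a x - AffineMap.homothety o a y‖ ≤ a * ‖x - y‖ := by
  simp only [AffineMap.homothety_apply, vsub_eq_sub, vadd_eq_add]
  rw [show a • (x - o) + o - (a • (y - o) + o) = a • (x - y) by module, norm_smul,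
    Real.norm_of_nonneg ha]

/-- Transfer from a bigger body to a smaller one. -/
theorem down (hP : St_PRJ) (hT : St_TRF) {K₁ K₂ : Set E3} (h₁ : Body K₁) (h₂ : Body K₂)
    (h : K₁ ⊆ K₂) : (∀ ε, shortestDense (frontier K₁) ε ≤ shortestDense (frontier K₂) ε) ∧
      (μHE[2] (frontier K₁)).toReal ≤ (μHE[2] (frontier K₂)).toReal := by
  have p := hP K₁ h₁.compact.isClosed h₁.convex h₁.int
  have key := fun ε => hT.1 (prj K₁) 1 ε (frontier K₂) one_pos fun x y => by
    simpa using p.lip x y
  rw [hT.2.1 K₁ K₂ h₁ h₂ h] at key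
  refine ⟨fun ε => by simpa using (key ε).1, ENNReal.toReal_mono h₂.area ?_⟩
  simpa using (key 0).2

/-- Transfer to a dilate. -/
theorem up (hT : St_TRF) {K K' : Set E3} (hK : Body K) {o : E3} {a : ℝ} (ha : 0 < a)
    (h : AffineMap.homothety o a '' frontier K = frontier K') :
    (∀ ε, shortestDense (frontier K') (a * ε) ≤ ENNReal.ofReal a * shortestDense (frontier K) ε) ∧
      (μHE[2] (frontier K')).toReal ≤ a ^ 2 * (μHE[2] (frontier K)).toReal := by
  have key := fun ε => hT.1 (AffineMap.homothety o a) a ε (frontier K) ha (hom_lip o ha.le)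
  rw [h] at key
  refine ⟨fun ε => (key ε).1, ?_⟩
  have := ENNReal.toReal_mono (ENNReal.mul_ne_top ENNReal.ofReal_ne_top hK.area) (key 0).2
  rwa [ENNReal.toReal_mul, ENNReal.toReal_ofReal (by positivity)] at this

theorem le_of_eta {x : ℝ} {f : ℝ → ℝ} (hf : Continuous f)
    (h : ∀ η : ℝ, 0 < η → η ≤ 1 → x ≤ f η) : x ≤ f 0 := by
  have ht : Tendsto f (𝓝[>] 0) (𝓝 (f 0)) := (hf.tendsto 0).mono_left nhdsWithin_le_nhds
  refine ge_of_tendsto ht ?_
  filter_upwards [Ioc_mem_nhdsGT (zero_lt_one (α := ℝ))] with η hη using h η hη.1 hη.2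

end UB43

open UB43

theorem r_LB : R_LB := by
  intro hP hA hT hL K hK ε l hε hl
  obtain ⟨o, ho⟩ := hK.int
  have hl0 : 0 < l := ENNReal.ofReal_pos.1 (zero_le.trans_lt hl)
  have := le_of_eta (x := (μHE[2] (frontier K)).toReal)
    (f := fun η => 2 * ((1 + η) * ε) * ((1 + η) * l) + Real.pi * ((1 + η) * ε) ^ 2)
    (by fun_prop) fun η hη _ => by
      obtain ⟨hK', hfr, J, c, hok, hb, h1, h2⟩ := hA K o η hK ho hη
      have ha : 0 < 1 + η := by linarith
      have e1 := (down hP hT hb hK' h2).1 ((1 + η) * ε)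
      have e2 := (up hT hK ha hfr).1 ε
      have e3 : ENNReal.ofReal (1 + η) * shortestDense (frontier K) ε <
          ENNReal.ofReal ((1 + η) * l) := by
        rw [ENNReal.ofReal_mul ha.le]
        exact ENNReal.mul_lt_mul_right (ENNReal.ofReal_pos.2 ha).ne' ENNReal.ofReal_ne_top hl
      have e4 := hL E3 J id c hok hb _ _ (mul_pos ha hε) ((e1.trans e2).trans_lt e3)
      refine (down hP hT hK hb h1).2.trans ?_
      exact ENNReal.toReal_le_of_le_ofReal (by positivity) e4
  simpa using this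

theorem r_UB : R_UB := by
  intro hP hA hT hD hU
  obtain ⟨C, hC, hU⟩ := hU
  refine ⟨C, hC, fun K hK ε hε hεD => ?_⟩
  obtain ⟨o, ho⟩ := hK.int
  set A := (μHE[2] (frontier K)).toReal with hAdef
  have hA0 : 0 ≤ A := ENNReal.toReal_nonneg
  have hD0 := (hD K hK).1
  have key : ∀ η : ℝ, 0 < η → η ≤ 1 → shortestDense (frontier K) ε ≤
      ENNReal.ofReal ((1 + η) ^ 3 * (A / (2 * ε)) + C * ((1 + η) * diam K)) := by
    intro η hη hη1
    obtain ⟨hK', hfr, J, c, hok, hb, h1, h2⟩ := hA K o η hK ho hη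
    have ha : 0 < 1 + η := by linarith
    have hball : poly J id c ⊆ closedBall o ((1 + η) * diam K) := by
      refine h2.trans ?_
      rintro _ ⟨x, hx, rfl⟩
      have := hom_lip o ha.le x o
      rw [AffineMap.homothety_apply_same] at this
      rw [mem_closedBall, dist_eq_norm]
      refine this.trans (mul_le_mul_of_nonneg_left ?_ ha.le)
      rw [← dist_eq_norm]
      exact dist_le_diam_of_mem hK.compact.isBounded hx (interior_subset ho)
    have hlt : ε / (1 + η) < ε := div_lt_self hε (by linarith)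
    have e1 := hU E3 J id c hok hb o _ (ε / (1 + η)) ε hball (by positivity)
      (by nlinarith) hlt (by rw [← mul_div_assoc, le_div_iff₀ ha]; nlinarith)
    refine ((down hP hT hK hb h1).1 ε).trans (e1.trans (ENNReal.ofReal_le_ofReal ?_))
    have e2 := (down hP hT hb hK' h2).2.trans (up hT hK ha hfr).2
    have e3 : (μHE[2] (frontier (poly J id c))).toReal / (2 * (ε / (1 + η))) ≤
        (1 + η) ^ 2 * A / (2 * (ε / (1 + η))) := by gcongr
    have e4 : (1 + η) ^ 2 * A / (2 * (ε / (1 + η))) = (1 + η) ^ 3 * (A / (2 * ε)) := by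
      field_simp
    linarith
  have hf : shortestDense (frontier K) ε ≠ ⊤ :=
    ne_top_of_le_ne_top ENNReal.ofReal_ne_top (key 1 one_pos le_rfl)
  have := le_of_eta (x := (shortestDense (frontier K) ε).toReal)
    (f := fun η => (1 + η) ^ 3 * (A / (2 * ε)) + C * ((1 + η) * diam K)) (by fun_prop)
    fun η hη hη1 => ENNReal.toReal_le_of_le_ofReal (by positivity) (key η hη hη1)
  rw [← ENNReal.ofReal_toReal hf]
  refine ENNReal.ofReal_le_ofReal ?_
  simpa using this

theorem r_FIN : R_FIN := by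
  intro hT hD hL hU
  obtain ⟨C, hC, hU⟩ := hU
  refine ⟨C + 13 * Real.pi, by positivity, fun K hc hk hi ε hε => ?_⟩
  have hK : Body K := ⟨hc, hk, hi⟩
  obtain ⟨hD0, hD1⟩ := hD K hK
  set A := (μHE[2] (frontier K)).toReal with hAdef
  have hA0 : 0 ≤ A := ENNReal.toReal_nonneg
  have low : ∀ e : ℝ, 0 < e → shortestDense (frontier K) e ≠ ⊤ →
      A ≤ 2 * e * (shortestDense (frontier K) e).toReal + Real.pi * e ^ 2 := by
    intro e he hf
    have := le_of_eta (x := A)
      (f := fun η => 2 * e * ((shortestDense (frontier K) e).toReal + η) + Real.pi * e ^ 2)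
      (by fun_prop) fun η hη _ => hL K hK e _ he (by
        rw [ENNReal.lt_ofReal_iff_toReal_lt hf]; linarith)
    simpa using this
  have hne : (frontier K).Nonempty := by
    rw [nonempty_frontier_iff]
    refine ⟨hi.mono interior_subset, fun h => ?_⟩
    exact noncompact_univ E3 (h ▸ hk)
  obtain ⟨x, hx⟩ := hne
  have h0 := hT.2.2.2 (frontier K) x (5 * diam K) hx fun y hy => hD1 y hy x hx
  have hA1 : A ≤ 25 * Real.pi * diam K ^ 2 := by
    have := low (5 * diam K) (by positivity) (by rw [h0]; exact ENNReal.zero_ne_top)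
    rw [h0] at this
    simp only [ENNReal.toReal_zero] at this
    linarith
  have hup : shortestDense (frontier K) ε ≤
      ENNReal.ofReal (A / (2 * ε) + (C + 13 * Real.pi) * diam K) := by
    have hp : 0 ≤ Real.pi * diam K := by positivity
    rcases le_total ε (diam K) with h | h
    · exact (hU K hK ε hε h).trans (ENNReal.ofReal_le_ofReal (by linarith))
    · refine (hT.2.2.1 _ _ _ h).trans ((hU K hK _ hD0 le_rfl).trans
        (ENNReal.ofReal_le_ofReal ?_))
      have e1 : A / (2 * diam K) ≤ 13 * Real.pi * diam K := by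
        rw [div_le_iff₀ (by positivity)]
        nlinarith [mul_pos Real.pi_pos (pow_pos hD0 2)]
      have e2 : 0 ≤ A / (2 * ε) := by positivity
      linarith
  have hf : shortestDense (frontier K) ε ≠ ⊤ := ne_top_of_le_ne_top ENNReal.ofReal_ne_top hup
  refine ⟨hK.area.lt_top, hf.lt_top, ?_, ENNReal.toReal_le_of_le_ofReal (by positivity) hup⟩
  have := low ε hε hf
  rw [sub_le_iff_le_add, div_le_iff₀ (by positivity)]
  nlinarith

end Pool.Agent.Lib.ED
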