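import Pool.Agent.Lib.ED.Blue

/-! Project ed43: shortest paths are straight in charts and do not branch. -/

open Set Metric MeasureTheory Filter Topology
open scoped ENNReal NNReal Classical RealInnerProductSpace

namespace Pool.Agent.Lib.ED

open Pool.Agent.Lib.MP_523900_gt

namespace UNI60

theorem col {u w : ℂ} {p q l : ℝ} (hu : ‖u‖ = |p| * l) (hw : ‖w‖ = |q| * l)
    (h : ‖u - w‖ = |p - q| * l) : q • u = p • w := by
  have h1 : ‖u‖ ^ 2 = p ^ 2 * l ^ 2 := by rw [hu, mul_pow, sq_abs]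
  have h2 : ‖w‖ ^ 2 = q ^ 2 * l ^ 2 := by rw [hw, mul_pow, sq_abs]
  have h3 : ‖u - w‖ ^ 2 = (p - q) ^ 2 * l ^ 2 := by rw [h, mul_pow, sq_abs]
  rw [norm_sub_sq_real, h1, h2] at h3
  have h4 : ⟪u, w⟫ = p * q * l ^ 2 := by linarith
  rw [← sub_eq_zero, ← norm_eq_zero, ← sq_eq_zero_iff, norm_sub_sq_real, norm_smul, norm_smul,
    real_inner_smul_left, real_inner_smul_right, mul_pow, mul_pow, h1, h2, h4, Real.norm_eq_abs,
    Real.norm_eq_abs, sq_abs, sq_abs]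
  ring

theorem small {δ l τ : ℝ} (hδ : 0 < δ) (hl : 0 ≤ l) (h : τ ≤ δ / (l + 1)) : τ * l < δ := by
  refine (mul_le_mul_of_nonneg_right h hl).trans_lt ?_
  rw [div_mul_eq_mul_div, div_lt_iff₀ (by linarith)]
  linarith

theorem cont {X : Type} [MetricSpace X] {g : ℝ → X} {l : ℝ} (h : Seg g l) :
    ContinuousOn g (Icc 0 1) :=
  (LipschitzOnWith.of_dist_le' (K := l) fun u hu v hv => by
    rw [h u hu v hv, Real.dist_eq, mul_comm]).continuousOn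

end UNI60

open UNI60

theorem r_STR : R_STR := by
  intro X _ φ a δ hφ g l hl hg s₀ hs₀ h₀
  have hδ := hφ.pos
  have ha : a ∈ ball a δ := mem_ball_self hδ
  have key : ∀ s ∈ Icc (0 : ℝ) 1, |s - s₀| * l < δ → ∃ b ∈ ball a δ, φ b = g s := fun s hs h =>
    hφ.onto _ (by rw [mem_ball, ← h₀, hg s hs s₀ hs₀]; exact h)
  have hn : ∀ s ∈ Icc (0 : ℝ) 1, ∀ b ∈ ball a δ, φ b = g s → ‖b - a‖ = |s - s₀| * l :=
    fun s hs b hb h => by rw [← hφ.iso b hb a ha, h, ← h₀, hg s hs s₀ hs₀]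
  obtain ⟨s₁, h1, h2, h3⟩ : ∃ s₁ ∈ Icc (0 : ℝ) 1, s₁ - s₀ ≠ 0 ∧ |s₁ - s₀| * l < δ := by
    have t0 : 0 < min (1 / 2) (δ / (l + 1)) := by positivity
    have t1 := min_le_left (1 / 2) (δ / (l + 1))
    have t2 := small hδ hl (min_le_right (1 / 2) (δ / (l + 1)))
    rcases le_total s₀ (1 / 2) with h | h
    · refine ⟨s₀ + min (1 / 2) (δ / (l + 1)), ⟨by linarith [hs₀.1], by linarith⟩, ?_⟩
      rw [add_sub_cancel_left, abs_of_pos t0]
      exact ⟨t0.ne', t2⟩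
    · refine ⟨s₀ - min (1 / 2) (δ / (l + 1)), ⟨by linarith, by linarith [hs₀.2]⟩, ?_⟩
      rw [sub_sub_cancel_left, abs_neg, abs_of_pos t0]
      exact ⟨neg_ne_zero.2 t0.ne', t2⟩
  obtain ⟨b₁, hb₁, e₁⟩ := key s₁ h1 h3
  refine ⟨(s₁ - s₀)⁻¹ • (b₁ - a), ?_, fun s hs h => ?_⟩
  · rw [norm_smul, hn s₁ h1 b₁ hb₁ e₁, norm_inv, Real.norm_eq_abs,
      inv_mul_cancel_left₀ (abs_ne_zero.2 h2)]
  · obtain ⟨b, hb, e⟩ := key s hs h
    have := col (hn s hs b hb e) (hn s₁ h1 b₁ hb₁ e₁) (by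
      rw [sub_sub_sub_cancel_right, sub_sub_sub_cancel_right, ← hφ.iso b hb b₁ hb₁, e, e₁,
        hg s hs s₁ h1])
    rw [smul_comm, ← this, inv_smul_smul₀ h2, add_sub_cancel, e]

theorem r_UNI : R_UNI := by
  intro hS X _ V hV g g' l s₀ hl hg hg' hs₀ h
  have h0 : g 0 = g' 0 := h 0 ⟨le_rfl, zero_le_one⟩ hs₀
  rcases hl.eq_or_lt with rfl | hl'
  · intro s hs
    have e1 := hg s hs 0 ⟨le_rfl, zero_le_one⟩
    have e2 := hg' s hs 0 ⟨le_rfl, zero_le_one⟩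
    rw [mul_zero, dist_eq_zero] at e1 e2
    rw [e1, e2, h0]
  refine IsClosed.Icc_subset_of_forall_mem_nhdsGT_of_Icc_subset (s := {t | g t = g' t})
    (by rw [inter_comm]; exact isClosed_Icc.isClosed_eq (cont hg) (cont hg')) h0 ?_
  intro t ht hs
  rcases ht.1.eq_or_lt with rfl | t0
  · filter_upwards [Ioo_mem_nhdsGT (lt_min hs₀ one_pos)] with u hu
    exact h u ⟨hu.1.le, (hu.2.trans_le (min_le_right _ _)).le⟩ (hu.2.trans_le (min_le_left _ _))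
  have htI : t ∈ Icc (0 : ℝ) 1 := ⟨ht.1, ht.2.le⟩
  have d0 := hg 0 ⟨le_rfl, zero_le_one⟩ t htI
  have d1 := hg t htI 1 ⟨zero_le_one, le_rfl⟩
  have d2 := hg 0 ⟨le_rfl, zero_le_one⟩ 1 ⟨zero_le_one, le_rfl⟩
  rw [zero_sub, abs_neg, abs_of_pos t0] at d0
  rw [abs_sub_comm, abs_of_pos (sub_pos.2 ht.2)] at d1
  rw [zero_sub, abs_neg, abs_one] at d2
  have hv : g t ∉ V := fun hv => by
    have := hV.vert _ hv (g 0) (g 1) (dist_pos.1 (by rw [d0]; positivity))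
      (dist_pos.1 (by rw [d1]; exact mul_pos (sub_pos.2 ht.2) hl')).symm
    rw [d0, d1, d2] at this
    linarith
  obtain ⟨φ, δ, e, hφ⟩ := hV.chart _ hv
  have hδ := hφ.pos
  obtain ⟨v, n1, hv1⟩ := hS X φ 0 δ hφ g l hl hg t htI e.symm
  obtain ⟨v', n2, hv2⟩ := hS X φ 0 δ hφ g' l hl hg' t htI
    ((hs ⟨ht.1, le_rfl⟩).symm.trans e.symm)
  have hq : 0 < δ / (l + 1) := by positivity
  have m0 : 0 < min t (δ / (l + 1)) := lt_min t0 hq
  have m1 := min_le_left t (δ / (l + 1))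
  have m2 : |t - min t (δ / (l + 1)) - t| * l < δ := by
    rw [sub_sub_cancel_left, abs_neg, abs_of_pos m0]
    exact small hδ hl (min_le_right _ _)
  have hI : t - min t (δ / (l + 1)) ∈ Icc (0 : ℝ) 1 := ⟨by linarith, by linarith [ht.2]⟩
  have hb : ∀ w : ℂ, ‖w‖ = l → 0 + (t - min t (δ / (l + 1)) - t) • w ∈ ball (0 : ℂ) δ :=
    fun w hw => by rw [zero_add, mem_ball_zero_iff, norm_smul, hw]; exact m2
  have e2 := hφ.iso _ (hb v n1) _ (hb v' n2)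
  rw [← hv1 _ hI m2, ← hv2 _ hI m2, hs (show _ ∈ Icc 0 t from ⟨hI.1, by linarith⟩), dist_self,
    eq_comm, norm_eq_zero, sub_eq_zero, add_right_inj] at e2
  have e3 : v = v' := smul_right_injective ℂ (by linarith) e2
  filter_upwards [Ioo_mem_nhdsGT (lt_min ht.2 (lt_add_of_pos_right t hq))] with u hu
  have uI : u ∈ Icc (0 : ℝ) 1 := ⟨by linarith [hu.1], (hu.2.trans_le (min_le_left _ _)).le⟩
  have u1 : |u - t| * l < δ := by
    rw [abs_of_pos (sub_pos.2 hu.1)]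
    exact small hδ hl (by linarith [hu.2.trans_le (min_le_right _ _)])
  exact (hv1 u uI u1).trans (e3 ▸ (hv2 u uI u1).symm)

end Pool.Agent.Lib.ED
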