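import Pool.Agent.Lib.ED.Blue

/-! Project ed43: the upper bound for polytopes. -/

open Set Metric MeasureTheory
open scoped ENNReal NNReal Classical RealInnerProductSpace

namespace Pool.Agent.Lib.ED

open Pool.Agent.Lib.MP_523900_gt

namespace UPP43

theorem dense_of_pth {X : Type} [MetricSpace X] {S : Set E3} {ι : X → E3} (hm : Model S ι)
    {a : X} {l ρ : ℝ} {T : Set X} (h : Pth a a l T) (hT : ∀ x, ∃ w ∈ T, dist x w ≤ ρ) :
    shortestDense S ρ ≤ ENNReal.ofReal l := by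
  obtain ⟨-, γ, hc, hS, -, -, hlen, hT'⟩ := hm.conn_of_pth h
  refine (iInf₂_le γ ⟨⟨hc.continuousOn, hS⟩, hlen.trans_lt ENNReal.ofReal_lt_top, ?_⟩).trans hlen
  intro x hx
  obtain ⟨b, rfl⟩ := hm.surj hx
  obtain ⟨w, hw, hd⟩ := hT b
  obtain ⟨t, ht, he⟩ := hT' ⟨w, hw, rfl⟩
  refine ⟨t, ht, ?_⟩
  rw [he, ← hm.dist]
  exact ENNReal.ofReal_le_ofReal hd

end UPP43

theorem r_UPP2 : R_UPP := by
  intro hP hM hS hD hN h1 h3 hC hG
  obtain ⟨Q, h1⟩ : ∃ Q : Finset (Fin 3 → ℤ), ∀ (K : Set E3) (o : E3) (D : ℝ), Body K → 0 < D →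
      K ⊆ closedBall o D → ∀ x ∈ frontier K,
        (∃ q ∈ Q, x ∈ cell K o D q) ∨ ∃ y ∈ grid o D, prj K y = x :=
    ⟨cubes, fun K o D a b c => (h1 K o D a b c).2⟩
  set c₀ : ℝ := (Q.card : ℝ) with hc₀
  have hc0 : 0 ≤ c₀ := Nat.cast_nonneg _
  refine ⟨c₀ * (10 ^ 8 * (10 ^ 6 + 100)) + 10 ^ 7 * (c₀ * 10 ^ 6 + 1), by positivity, ?_⟩
  intro κ J n c hok hb o D ε ρ hball hε hεD hερ hρ
  have hD0 : 0 < D := hε.trans_le hεD
  set K := poly J n c with hK
  have p := hP K hb.compact.isClosed hb.convex hb.int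
  obtain ⟨X, _, ι, hm⟩ := hM (frontier K) fun x hx y hy => ⟨_, (hD K hb).2 x hx y hy⟩
  borelize X
  have hs := hS κ J n c hok X ι hm
  have hout : ∀ y : E3, D ≤ ‖y - o‖ → y ∉ interior K := fun y hy hi => by
    have := interior_mono hball hi
    rw [interior_closedBall o hD0.ne', mem_ball, dist_eq_norm] at this
    linarith
  have hF : ∀ y : E3, ∃ a : X, D ≤ ‖y - o‖ → ι a = prj K y := by
    have : ∃ y₀ : E3, D ≤ ‖y₀ - o‖ := by
      obtain ⟨v, hv⟩ := exists_norm_eq E3 hD0.le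
      exact ⟨v + o, by simp [hv]⟩
    obtain ⟨y₀, hy₀⟩ := this
    obtain ⟨a₀, -⟩ := hm.surj (p.fro y₀ (hout y₀ hy₀))
    intro y
    by_cases hy : D ≤ ‖y - o‖
    · obtain ⟨a, ha⟩ := hm.surj (p.fro y (hout y hy))
      exact ⟨a, fun _ => ha⟩
    · exact ⟨a₀, fun h => absurd h hy⟩
  choose F hF using hF
  have : Nonempty X := ⟨F 0⟩
  obtain ⟨N, hNc, hNet⟩ := hN o D ε hε hεD
  have L1 := Loops.biUnion Q fun q (_ : q ∈ Q) =>
    hC κ J n c hok hb o D hD0 hball X ι hm ε ρ N hε hεD hερ hNet q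
  have L2 := Loops.biUnion (X := X) N (N := fun _ => 1) (L := fun _ => 0) (ρ := ρ)
    (Ω := fun y => {x | dist x (F y) ≤ ρ}) fun y _ =>
      Loops.single (Pth.refl (F y)) fun x hx => ⟨F y, rfl, hx⟩
  have hsum : ∑ q ∈ Q, (μHE[2] (cell K o D q)).toReal ≤ (μHE[2] (frontier K)).toReal := by
    obtain ⟨hO, hdis⟩ := h3 K o D hb hD0 hball
    have hmeas : ∀ q, MeasurableSet (cell K o D q) := fun q => by
      obtain ⟨O, hO1, hO2⟩ := hO q
      rw [hO2]
      exact hO1.measurableSet.inter isClosed_frontier.measurableSet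
    have hle : ∀ q, μHE[2] (cell K o D q) ≠ ⊤ := fun q =>
      ne_top_of_le_ne_top hb.area (measure_mono fun x hx => hx.1)
    rw [← ENNReal.toReal_sum fun q _ => hle q,
      ← measure_biUnion_finset (fun q _ q' _ h => hdis q q' h) fun q _ => hmeas q]
    exact ENNReal.toReal_mono hb.area (measure_mono (iUnion₂_subset fun q _ x hx => hx.1))
  have L3 : Loops ((c₀ * 10 ^ 6 + 1) * (10 ^ 6 * (D / ε)))
      ((μHE[2] (frontier K)).toReal / (2 * ε) + c₀ * (10 ^ 8 * (10 ^ 6 + 100)) * D) ρ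
      (univ : Set X) := by
    refine (L1.union L2).mono ?_ ?_ le_rfl ?_
    · simp only [Finset.sum_const, nsmul_eq_mul, mul_one, ← hc₀]
      have : (0 : ℝ) ≤ c₀ * 10 ^ 6 + 1 := by positivity
      nlinarith [mul_le_mul_of_nonneg_left hNc this]
    · rw [Finset.sum_add_distrib, ← Finset.sum_div]
      simp only [Finset.sum_const, nsmul_eq_mul, mul_zero, add_zero, ← hc₀]
      have e1 : (N.card : ℝ) * ε ≤ 10 ^ 6 * D := by
        have := mul_le_mul_of_nonneg_right hNc hε.le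
        rwa [mul_assoc, div_mul_cancel₀ _ hε.ne'] at this
      have e2 : (∑ q ∈ Q, (μHE[2] (cell K o D q)).toReal) / (2 * ε) ≤
          (μHE[2] (frontier K)).toReal / (2 * ε) := by gcongr
      nlinarith [mul_le_mul_of_nonneg_left e1 hc0]
    · intro x _
      rcases h1 K o D hb hD0 hball (ι x) (hm.mem x) with ⟨q, hq, hx⟩ | ⟨y, hy, hx⟩
      · exact Or.inl (mem_biUnion hq hx)
      · obtain ⟨y', hy', hd⟩ := hNet y hy
        refine Or.inr (mem_biUnion hy' ?_)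
        have hseg : ∀ t ∈ Icc (0 : ℝ) 1, D ≤ ‖y + t • (y' - y) - o‖ := fun t ht => by
          have a1 : ‖t • (y' - y)‖ ≤ ε := by
            rw [norm_smul, Real.norm_of_nonneg ht.1, norm_sub_rev]
            nlinarith [ht.1, ht.2, norm_nonneg (y - y')]
          have a2 := norm_sub_le (y + t • (y' - y) - o) (t • (y' - y))
          rw [show y + t • (y' - y) - o - t • (y' - y) = y - o by abel, hy.1] at a2
          linarith
        have hy'D : D ≤ ‖y' - o‖ := by simpa using hseg 1 ⟨zero_le_one, le_rfl⟩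
        have := p.out y y' _ _ (conn_line (S := (interior K)ᶜ) fun t ht => hout _ (hseg t ht))
        rw [hx, ← hF y' hy'D] at this
        exact (hm.dist_le this).trans (hd.trans hερ.le)
  obtain ⟨a, T, hp, hT⟩ := hG X hs.geo _ _ ρ (hε.trans hερ) L3
  refine (UPP43.dense_of_pth hm hp hT).trans (ENNReal.ofReal_le_ofReal ?_)
  have e1 : ρ * (D / ε) ≤ 2 * D := by
    rw [← mul_div_assoc, div_le_iff₀ hε]; nlinarith
  have e2 : (0 : ℝ) ≤ c₀ * 10 ^ 6 + 1 := by positivity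
  nlinarith [mul_le_mul_of_nonneg_left e1 e2]

end Pool.Agent.Lib.ED
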