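import Pool.Agent.Lib.ED.Blue

/-! A path through a vertex can be shortened outside the polyhedron. -/

open Set Metric MeasureTheory
open scoped ENNReal NNReal Classical RealInnerProductSpace

noncomputable section

namespace Pool.Agent.Lib.ED

open Pool.Agent.Lib.MP_523900_gt

namespace VER39

theorem exists_orth (u w : E3) : ∃ e : E3, e ≠ 0 ∧ ⟪u, e⟫ = 0 ∧ ⟪w, e⟫ = 0 := by
  have h := LinearMap.ker_ne_bot_of_finrank_lt
    (f := (innerₗ E3 u).prod (innerₗ E3 w)) (by simp)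
  obtain ⟨e, he, h0⟩ := Submodule.exists_mem_ne_zero_of_ne_bot h
  rw [LinearMap.mem_ker, Prod.ext_iff] at he
  exact ⟨e, h0, by simpa using he.1, by simpa using he.2⟩

theorem est {α : E3} (hα : α ≠ 0) (x : E3) (τ : ℝ) :
    ‖α - τ • x‖ ≤ ‖α‖ - τ * (⟪α, x⟫ / ‖α‖) + τ ^ 2 * (‖x‖ ^ 2 / (2 * ‖α‖)) := by
  have hM : 0 < ‖α‖ := norm_pos_iff.2 hα
  have h1 : ‖α - τ • x‖ ^ 2 = ‖α‖ ^ 2 - 2 * (τ * ⟪α, x⟫) + τ ^ 2 * ‖x‖ ^ 2 := by
    rw [norm_sub_sq_real, real_inner_smul_right, norm_smul, mul_pow, Real.norm_eq_abs, sq_abs]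
  have h2 : ‖α‖ - τ * (⟪α, x⟫ / ‖α‖) + τ ^ 2 * (‖x‖ ^ 2 / (2 * ‖α‖))
      = (‖α - τ • x‖ ^ 2 + ‖α‖ ^ 2) / (2 * ‖α‖) := by
    rw [h1]; field_simp; ring
  rw [h2, le_div_iff₀ (by positivity)]
  nlinarith [sq_nonneg (‖α - τ • x‖ - ‖α‖)]

theorem short {α β : E3} (hα : α ≠ 0) (hβ : β ≠ 0) (x y : E3)
    (h : ‖x - y‖ < ⟪α, x⟫ / ‖α‖ + ⟪β, y⟫ / ‖β‖) :
    ∃ τ : ℝ, 0 < τ ∧ ‖α - τ • x‖ + τ * ‖x - y‖ + ‖β - τ • y‖ < ‖α‖ + ‖β‖ := by
  have hM : 0 < ‖α‖ := norm_pos_iff.2 hα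
  have hN : 0 < ‖β‖ := norm_pos_iff.2 hβ
  set G := ⟪α, x⟫ / ‖α‖ + ⟪β, y⟫ / ‖β‖ - ‖x - y‖ with hG
  set Q := ‖x‖ ^ 2 / (2 * ‖α‖) + ‖y‖ ^ 2 / (2 * ‖β‖) with hQ
  have hG0 : 0 < G := by linarith
  have hQ0 : 0 ≤ Q := by positivity
  have hτ : 0 < G / (Q + 1) := by positivity
  refine ⟨G / (Q + 1), hτ, ?_⟩
  set τ := G / (Q + 1) with hτd
  have h1 := est hα x τ
  have h2 := est hβ y τ
  have h3 : τ * (Q + 1) = G := by rw [hτd]; field_simp
  have h4 : τ ^ 2 * Q < τ * G := by rw [← h3]; nlinarith [mul_pos hτ hτ]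
  have h5 : τ ^ 2 * Q = τ ^ 2 * (‖x‖ ^ 2 / (2 * ‖α‖)) + τ ^ 2 * (‖y‖ ^ 2 / (2 * ‖β‖)) := by
    rw [hQ]; ring
  have h6 : τ * G = τ * (⟪α, x⟫ / ‖α‖) + τ * (⟪β, y⟫ / ‖β‖) - τ * ‖x - y‖ := by
    rw [hG]; ring
  linarith

variable {κ : Type} {J : Finset κ} {n : κ → E3} {c : κ → ℝ}

theorem line (hS : StarF J n c) {k : κ} (hk : k ∈ J) {p q : E3} (hp : c k ≤ ⟪n k, p⟫)
    (hq : c k ≤ ⟪n k, q⟫) : Conn (interior (poly J n c))ᶜ p q ‖p - q‖ ∅ := by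
  refine conn_line fun t ht h => ?_
  have h1 := (hS.int _).1 h k hk
  rw [inner_add_right, real_inner_smul_right, inner_sub_right] at h1
  nlinarith [mul_nonneg ht.1 (sub_nonneg.2 hq), mul_nonneg (sub_nonneg.2 ht.2) (sub_nonneg.2 hp)]

theorem path (hS : StarF J n c) {v a b x y : E3} {i j k : κ} (hi : i ∈ J) (hj : j ∈ J)
    (hk : k ∈ J) (hav : a ≠ v) (hbv : b ≠ v) (hiv : ⟪n i, v⟫ = c i) (hia : ⟪n i, a⟫ = c i)
    (hjv : ⟪n j, v⟫ = c j) (hjb : ⟪n j, b⟫ = c j) (hkv : ⟪n k, v⟫ = c k) (hx : ⟪n i, x⟫ = 0)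
    (hy : ⟪n j, y⟫ = 0) (hkx : 0 ≤ ⟪n k, x⟫) (hky : 0 ≤ ⟪n k, y⟫)
    (h : ‖x - y‖ < ⟪a - v, x⟫ / ‖a - v‖ + ⟪b - v, y⟫ / ‖b - v‖) :
    ∃ l, l < ‖a - v‖ + ‖b - v‖ ∧ Conn (interior (poly J n c))ᶜ a b l ∅ := by
  obtain ⟨τ, hτ, hl⟩ := short (sub_ne_zero.2 hav) (sub_ne_zero.2 hbv) x y h
  have e : ∀ (m : κ) (z : E3), ⟪n m, v + τ • z⟫ = ⟪n m, v⟫ + τ * ⟪n m, z⟫ := fun m z => by
    rw [inner_add_right, real_inner_smul_right]
  have c1 := line hS hi (p := a) (q := v + τ • x) hia.ge (by rw [e, hx, hiv]; simp)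
  have c2 := line hS hk (p := v + τ • x) (q := v + τ • y)
    (by rw [e, hkv]; nlinarith) (by rw [e, hkv]; nlinarith)
  have c3 := line hS hj (p := v + τ • y) (q := b) (by rw [e, hy, hjv]; simp) hjb.ge
  refine ⟨_, hl, ((c1.trans c2).trans c3).mono (le_of_eq ?_) (empty_subset _)⟩
  rw [show a - (v + τ • x) = a - v - τ • x by abel,
    show v + τ • x - (v + τ • y) = τ • (x - y) by rw [smul_sub]; abel,
    norm_sub_rev (v + τ • y) b, show b - (v + τ • y) = b - v - τ • y by abel, norm_smul,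
    Real.norm_of_nonneg hτ.le]

end VER39

theorem r_VER : R_VER := by
  intro hSTAR κ J n c hP v hv i hi j hj a ha b hb hav hbv hiv hia hjv hjb
  have hS := hSTAR κ J n c hP
  have hα : a - v ≠ 0 := sub_ne_zero.2 hav
  have hβ : b - v ≠ 0 := sub_ne_zero.2 hbv
  have hM : 0 < ‖a - v‖ := norm_pos_iff.2 hα
  have hN : 0 < ‖b - v‖ := norm_pos_iff.2 hβ
  obtain ⟨e, k, hk, hkv, hke, hie, hje⟩ : ∃ (e : E3) (k : κ), k ∈ J ∧ ⟪n k, v⟫ = c k ∧
      0 < ⟪n k, e⟫ ∧ ⟪n i, e⟫ = 0 ∧ ⟪n j, e⟫ = 0 := by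
    obtain ⟨e, he, h1, h2⟩ := VER39.exists_orth (n i) (n j)
    have h3 : ¬ ∀ k ∈ J, ⟪n k, v⟫ = c k → ⟪n k, e⟫ = 0 := fun h => he (hv e h)
    push Not at h3
    obtain ⟨k, hk, hkv, hke⟩ := h3
    rcases lt_or_gt_of_ne hke with h | h
    · exact ⟨-e, k, hk, hkv, by rw [inner_neg_right]; linarith, by rw [inner_neg_right, h1, neg_zero],
        by rw [inner_neg_right, h2, neg_zero]⟩
    · exact ⟨e, k, hk, hkv, h, h1, h2⟩
  by_cases hc : ⟪a - v, e⟫ / ‖a - v‖ + ⟪b - v, e⟫ / ‖b - v‖ < 0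
  · refine VER39.path hS (x := -e) (y := -e) hi hj hi hav hbv hiv hia hjv hjb hiv
      (by rw [inner_neg_right, hie, neg_zero]) (by rw [inner_neg_right, hje, neg_zero])
      (by rw [inner_neg_right, hie, neg_zero]) (by rw [inner_neg_right, hie, neg_zero]) ?_
    rw [sub_self, norm_zero, inner_neg_right, inner_neg_right, neg_div, neg_div]
    linarith
  · rw [not_lt] at hc
    set q := ⟪n k, e⟫ with hq
    set u := ‖a - v‖⁻¹ • (a - v) with hu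
    set w := ‖b - v‖⁻¹ • (b - v) with hw
    have hu1 : ‖u‖ = 1 := norm_smul_inv_norm hα
    have hw1 : ‖w‖ = 1 := norm_smul_inv_norm hβ
    have hlow : ∀ z : E3, ‖z‖ = 1 → 0 ≤ ⟪n k, e + q • z⟫ := fun z hz => by
      have h1 := abs_real_inner_le_norm (n k) z
      rw [hP.unit k hk, hz, mul_one] at h1
      rw [inner_add_right, real_inner_smul_right, ← hq]
      nlinarith [neg_abs_le ⟪n k, z⟫]
    have hne : u + w ≠ 0 := by
      intro h0
      have h1 : u = 0 := hv u fun m hm hmv => by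
        have h2 : ⟪n m, u⟫ ≤ 0 := by
          rw [hu, real_inner_smul_right, inner_sub_right, hmv]
          exact mul_nonpos_of_nonneg_of_nonpos (by positivity) (sub_nonpos.2 (ha m hm))
        have h3 : ⟪n m, w⟫ ≤ 0 := by
          rw [hw, real_inner_smul_right, inner_sub_right, hmv]
          exact mul_nonpos_of_nonneg_of_nonpos (by positivity) (sub_nonpos.2 (hb m hm))
        have h4 : ⟪n m, u⟫ + ⟪n m, w⟫ = 0 := by rw [← inner_add_right, h0, inner_zero_right]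
        linarith
      rw [h1, norm_zero] at hu1
      exact zero_ne_one hu1
    have hlt : ‖u - w‖ < 2 := by
      have h1 := norm_sub_sq_real u w
      have h2 := norm_add_sq_real u w
      have h3 : 0 < ‖u + w‖ := norm_pos_iff.2 hne
      rw [hu1, hw1] at h1 h2
      refine lt_of_pow_lt_pow_left₀ 2 (by norm_num) ?_
      nlinarith
    refine VER39.path hS (x := e + q • u) (y := e + q • w) hi hj hk hav hbv hiv hia hjv hjb hkv
      ?_ ?_ (hlow u hu1) (hlow w hw1) ?_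
    · rw [inner_add_right, hie, real_inner_smul_right, hu, real_inner_smul_right, inner_sub_right,
        hia, hiv]
      simp
    · rw [inner_add_right, hje, real_inner_smul_right, hw, real_inner_smul_right, inner_sub_right,
        hjb, hjv]
      simp
    · have h1 : ∀ z : E3, z ≠ 0 → ⟪z, e + q • ‖z‖⁻¹ • z⟫ / ‖z‖ = ⟪z, e⟫ / ‖z‖ + q := fun z hz => by
        have := norm_pos_iff.2 hz
        rw [inner_add_right, real_inner_smul_right, real_inner_smul_right,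
          real_inner_self_eq_norm_sq]
        field_simp
      rw [h1 _ hα, h1 _ hβ, show e + q • u - (e + q • w) = q • (u - w) by rw [smul_sub]; abel,
        norm_smul, Real.norm_of_nonneg hke.le]
      nlinarith

end Pool.Agent.Lib.ED
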