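import Pool.Agent.Lib.ED.B_DEV
import Pool.Agent.Lib.ED.B_NET
import Pool.Agent.Lib.ED.B_ARE
import Pool.Agent.Lib.ED.B_CHA1
import Pool.Agent.Lib.ED.B_GEO
import Pool.Agent.Lib.ED.B_VER
import Pool.Agent.Lib.ED.B_PAIR2
import Pool.Agent.Lib.ED.B_CEL1
import Pool.Agent.Lib.ED.B_AVG
import Pool.Agent.Lib.ED.B_MON
import Pool.Agent.Lib.ED.B_GAM
import Pool.Agent.Lib.ED.B_UPP2
import Pool.Agent.Lib.ED.B_CELL
import Pool.Agent.Lib.ED.B_CORE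
import Pool.Agent.Lib.ED.B_CHA2
import Pool.Agent.Lib.ED.B_GRA
import Pool.Agent.Lib.ED.B_CEL2
import Pool.Agent.Lib.ED.B_UNI
import Pool.Agent.Lib.ED.B_HIN
import Pool.Agent.Lib.ED.B_LEV
import Pool.Agent.Lib.ED.B_CNT
import Pool.Agent.Lib.ED.B_ARC
import Pool.Agent.Lib.ED.B_PL
import Pool.Agent.Lib.ED.B_CLO
import Pool.Agent.Lib.ED.B_RAY
import Pool.Agent.Lib.ED.B_MOD
import Pool.Agent.Lib.ED.B_PRJ
import Pool.Agent.Lib.ED.B_APX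
import Pool.Agent.Lib.ED.B_RUN
import Pool.Agent.Lib.ED.B_NETY
import Pool.Agent.Lib.ED.B_LOW
import Pool.Agent.Lib.ED.B_TRF
import Pool.Agent.Lib.ED.B_EXB
import Pool.Agent.Lib.ED.B_SURF
import Pool.Agent.Lib.ED.B_MEA
import Pool.Agent.Lib.ED.B_NCD
import Pool.Agent.Lib.ED.B_GLUE
import Pool.Agent.Lib.ED.B_CTX
import Pool.Agent.Lib.ED.B_UB

/-! Project ed43: assembly. -/

namespace Pool.Agent.Lib.ED

theorem st_fin : St_FIN :=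
  fin_of_rows r_EXT r_BAR r_STR r_UNI r_RAY r_DEV r_HIN r_CLO r_ARE r_EXP r_LOW r_PRJ r_MOD
    r_STAR r_MID r_GEO r_CHA1 r_CHA2 r_VER r_MEA r_SURF r_GAM r_ARC1 r_ARC2 r_NC
    r_NET r_LEV r_AVG r_DED r_RUN r_PAIR2 r_CNT r_CORE r_GLUE r_GRA r_GFIN r_MON
    r_CTX r_NETY r_CEL1 r_CEL3 r_CEL2 r_CELL r_DIA r_UPP2 r_PL r_APX r_TRF r_LB r_UB
    r_FIN

end Pool.Agent.Lib.ED
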