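import Pool.Agent.Lib.ED.Blue

/-! Project ed43, block APX: approximation of a convex body by polytopes. -/

open Set Metric MeasureTheory
open scoped ENNReal NNReal Classical RealInnerProductSpace

noncomputable section

namespace Pool.Agent.Lib.ED

open Pool.Agent.Lib.MP_523900_gt

namespace APX21

/-- A homothety of nonzero ratio as a homeomorphism. -/
def hom (o : E3) (t : ℝ) (ht : t ≠ 0) : E3 ≃ₜ E3 where
  toFun := AffineMap.homothety o t
  invFun := AffineMap.homothety o t⁻¹
  left_inv := fun e => by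
    simp [← AffineMap.comp_apply, ← AffineMap.homothety_mul, ht]
  right_inv := fun e => by
    simp [← AffineMap.comp_apply, ← AffineMap.homothety_mul, ht]
  continuous_toFun := AffineMap.homothety_continuous o t
  continuous_invFun := AffineMap.homothety_continuous o t⁻¹

/-- The support function. -/
def sup (K : Set E3) (n : E3) : ℝ := sSup ((fun y => ⟪n, y⟫) '' K)

theorem le_sup {K : Set E3} (hK : IsCompact K) (n : E3) {y : E3} (hy : y ∈ K) :
    ⟪n, y⟫ ≤ sup K n := by
  have hc : Continuous fun y : E3 => ⟪n, y⟫ := continuous_const.inner continuous_id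
  exact le_csSup (hK.image hc).bddAbove ⟨y, hy, rfl⟩

theorem sep {K : Set E3} (hK : Body K) {x : E3} (hx : x ∉ K) :
    ∃ n : E3, ‖n‖ = 1 ∧ sup K n < ⟪n, x⟫ := by
  obtain ⟨f, u, h1, h2⟩ := geometric_hahn_banach_closed_point hK.convex hK.compact.isClosed hx
  obtain ⟨o, ho⟩ := hK.int
  have hoK : o ∈ K := interior_subset ho
  obtain ⟨v, hv⟩ : ∃ v : E3, ∀ y, ⟪v, y⟫ = f y :=
    ⟨(InnerProductSpace.toDual ℝ E3).symm f, fun y => InnerProductSpace.toDual_symm_apply⟩
  have hv0 : v ≠ 0 := by
    intro h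
    have a1 := h1 o hoK
    rw [← hv, h, inner_zero_left] at a1
    rw [← hv, h, inner_zero_left] at h2
    linarith
  have hn : 0 < ‖v‖ := norm_pos_iff.2 hv0
  refine ⟨‖v‖⁻¹ • v, ?_, ?_⟩
  · rw [norm_smul, norm_inv, norm_norm, inv_mul_cancel₀ hn.ne']
  · have h3 : sup K (‖v‖⁻¹ • v) ≤ ‖v‖⁻¹ * u := by
      refine csSup_le ⟨_, o, hoK, rfl⟩ ?_
      rintro _ ⟨y, hy, rfl⟩
      show ⟪‖v‖⁻¹ • v, y⟫ ≤ _
      rw [real_inner_smul_left, hv]
      exact mul_le_mul_of_nonneg_left (h1 y hy).le (inv_pos.2 hn).le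
    refine h3.trans_lt ?_
    rw [real_inner_smul_left, hv]
    exact mul_lt_mul_of_pos_left h2 (inv_pos.2 hn)

theorem poly_convex (J : Finset E3) (c : E3 → ℝ) : Convex ℝ (poly J id c) := by
  intro x hx y hy a b ha hb hab j hj
  have h1 : ⟪j, x⟫ ≤ c j := hx j hj
  have h2 : ⟪j, y⟫ ≤ c j := hy j hj
  show ⟪j, a • x + b • y⟫ ≤ c j
  rw [inner_add_right, real_inner_smul_right, real_inner_smul_right]
  have h3 := mul_le_mul_of_nonneg_left h1 ha
  have h4 := mul_le_mul_of_nonneg_left h2 hb
  have h5 : a * c j + b * c j = c j := by rw [← add_mul, hab, one_mul]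
  linarith

theorem poly_closed (J : Finset E3) (c : E3 → ℝ) : IsClosed (poly J id c) := by
  have h : poly J id c = ⋂ j ∈ J, {x : E3 | ⟪j, x⟫ ≤ c j} := by
    ext x
    simp only [poly, mem_ofPred_eq, mem_iInter, id]
  rw [h]
  exact isClosed_biInter fun j _ =>
    isClosed_le (continuous_const.inner continuous_id) continuous_const

/-- A polytope between a body and a compact set that holds it in its interior. -/
theorem between {K L : Set E3} (hK : Body K) (hL : IsCompact L) (hKL : K ⊆ interior L) :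
    ∃ (J : Finset E3) (c : E3 → ℝ), PolyOk J id c ∧ Body (poly J id c) ∧ K ⊆ poly J id c ∧
      poly J id c ⊆ L := by
  have hF : IsCompact (frontier L) :=
    hL.of_isClosed_subset isClosed_frontier hL.isClosed.frontier_subset
  have hU : ∀ n : {n : E3 // ‖n‖ = 1}, IsOpen {x : E3 | sup K n.1 < ⟪n.1, x⟫} := fun n =>
    isOpen_lt continuous_const (continuous_const.inner continuous_id)
  have hcov : frontier L ⊆ ⋃ n : {n : E3 // ‖n‖ = 1}, {x : E3 | sup K n.1 < ⟪n.1, x⟫} := by
    intro x hx
    obtain ⟨n, hn, h⟩ := sep hK (fun hxK : x ∈ K => hx.2 (hKL hxK))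
    exact mem_iUnion.2 ⟨⟨n, hn⟩, h⟩
  obtain ⟨T, hT⟩ := hF.elim_finite_subcover _ hU hcov
  have hKP : K ⊆ poly (T.image Subtype.val) id (sup K) := fun y hy j _ => le_sup hK.compact j hy
  have hint : (interior (poly (T.image Subtype.val) id (sup K))).Nonempty :=
    hK.int.mono (interior_mono hKP)
  have hPL : poly (T.image Subtype.val) id (sup K) ⊆ interior L := by
    obtain ⟨o, ho⟩ := hK.int
    refine (poly_convex _ _).isPreconnected.subset_of_closure_inter_subset isOpen_interior
      ⟨o, hKP (interior_subset ho), hKL (interior_subset ho)⟩ ?_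
    rintro x ⟨hx1, hx2⟩
    by_contra hx
    have hxF : x ∈ frontier L := ⟨closure_mono interior_subset hx1, hx⟩
    obtain ⟨n, hn, h⟩ := mem_iUnion₂.1 (hT hxF)
    have h1 : ⟪n.1, x⟫ ≤ sup K n.1 := hx2 n.1 (Finset.mem_image_of_mem _ hn)
    exact absurd h (not_lt.2 h1)
  refine ⟨T.image Subtype.val, sup K, ⟨?_, hint⟩, ⟨poly_convex _ _, ?_, hint⟩, hKP,
    hPL.trans interior_subset⟩
  · intro j hj
    obtain ⟨n, _, rfl⟩ := Finset.mem_image.1 hj
    exact n.2
  · exact hL.of_isClosed_subset (poly_closed _ _) (hPL.trans interior_subset)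

end APX21

theorem r_APX : R_APX := by
  intro K o η hK ho hη
  have ht : (1 + η) ≠ 0 := by positivity
  have hc : IsCompact (AffineMap.homothety o (1 + η) '' K) :=
    hK.compact.image (AffineMap.homothety_continuous o (1 + η))
  have hi : AffineMap.homothety o (1 + η) '' interior K =
      interior (AffineMap.homothety o (1 + η) '' K) := (APX21.hom o (1 + η) ht).image_interior K
  have hKL : K ⊆ interior (AffineMap.homothety o (1 + η) '' K) := by
    rw [← hi]
    exact subset_closure.trans
      (hK.convex.closure_subset_image_homothety_interior_of_one_lt ho (1 + η) (by linarith))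
  refine ⟨⟨hK.convex.affine_image _, hc, ⟨o, hKL (interior_subset ho)⟩⟩,
    (APX21.hom o (1 + η) ht).image_frontier K, APX21.between hK hc hKL⟩

end Pool.Agent.Lib.ED
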