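import Pool.Agent.Lib.ED.Blue

open Set Metric MeasureTheory
open scoped ENNReal NNReal Classical

noncomputable section

namespace Pool.Agent.Lib.ED

open Pool.Agent.Lib.MP_523900_gt

namespace CORE79

theorem sum_pairs (f : ℕ → ℝ) (M : ℕ) :
    ∑ j ∈ Finset.range (2 * M), f j = ∑ m ∈ Finset.range M, (f (2 * m) + f (2 * m + 1)) := by
  induction M with
  | zero => simp
  | succ M ih =>
    rw [show 2 * (M + 1) = 2 * M + 1 + 1 by ring, Finset.sum_range_succ, Finset.sum_range_succ, ih,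
      Finset.sum_range_succ, add_assoc]

theorem area_le {X : Type} [MetricSpace X] [MeasurableSpace X] [BorelSpace X] (C : Cx X)
    (h : C.Ok) (Ω : Set X) (B : Finset ℂ) {r : ℝ} (hr : 0 ≤ r) :
    μHE[2] (C.pr ⁻¹' (C.lf ⁻¹' Ω ∪ ⋃ β ∈ B, closedBall β r)) ≤
      μHE[2] Ω + ENNReal.ofReal (B.card * (16 * r ^ 2)) := by
  have hl : LipschitzWith 2 C.lf := LipschitzWith.of_dist_le_mul fun a b => by
    have := h.up (C.lf a) (C.lf b)
    rw [h.pr_lf, h.pr_lf] at this
    simpa [dist_eq_norm] using this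
  have h1 : C.pr ⁻¹' (C.lf ⁻¹' Ω ∪ ⋃ β ∈ B, closedBall β r) ⊆
      Ω ∪ ⋃ β ∈ B, C.lf '' closedBall β r := by
    rintro x (hx | hx)
    · left
      have : C.lf (C.pr x) ∈ Ω := hx
      rwa [h.lf_pr] at this
    · right
      simp only [mem_iUnion] at hx ⊢
      obtain ⟨β, hβ, hx⟩ := hx
      exact ⟨β, hβ, C.pr x, hx, h.lf_pr x⟩
  refine (measure_mono h1).trans ((measure_union_le _ _).trans ?_)
  gcongr
  refine (measure_biUnion_finset_le _ _).trans ?_
  have h2 : ∀ β ∈ B, μHE[2] (C.lf '' closedBall β r) ≤ ENNReal.ofReal (16 * r ^ 2) := by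
    intro β _
    refine (muHE_image_le hl.lipschitzOnWith).trans ?_
    rw [muHE_complex, Complex.volume_closedBall, ← ENNReal.ofReal_pow hr,
      ENNReal.coe_nnreal_eq, ENNReal.coe_nnreal_eq, ← ENNReal.ofReal_pow (by positivity),
      ← ENNReal.ofReal_mul (by positivity), ← ENNReal.ofReal_mul (by positivity)]
    refine ENNReal.ofReal_le_ofReal ?_
    have := Real.pi_le_four
    simp only [NNReal.coe_ofNat, NNReal.coe_real_pi]
    nlinarith [sq_nonneg r]
  refine (Finset.sum_le_sum h2).trans (le_of_eq ?_)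
  rw [Finset.sum_const, nsmul_eq_mul, ENNReal.ofReal_mul (p := B.card) (by positivity),
    ENNReal.ofReal_natCast]

end CORE79

open CORE79

theorem r_CORE : R_CORE := by
  intro hAVG hDED hPAIR hCNT X _ _ _ C h Ω B ε ρ hε hεR hρ hΩ hfin hin hbad
  have hR := h.Rpos
  have hfar := h.far
  have hnear := h.near
  have hl : Continuous C.lf := (LipschitzWith.of_dist_le_mul (K := 2) fun a b => by
    have := h.up (C.lf a) (C.lf b)
    rw [h.pr_lf, h.pr_lf] at this
    simpa [dist_eq_norm] using this).continuous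
  set U : Set ℂ := C.lf ⁻¹' Ω ∪ ⋃ β ∈ B, closedBall β (400 * ε) with hU
  have hUm : MeasurableSet U := (hl.measurable hΩ).union
    (Finset.measurableSet_biUnion _ fun β _ => measurableSet_closedBall)
  have hA := area_le C h Ω B (r := 400 * ε) (by positivity)
  have hA1 : μHE[2] (C.pr ⁻¹' U) ≠ ⊤ :=
    ne_top_of_le_ne_top (ENNReal.add_ne_top.2 ⟨hfin, ENNReal.ofReal_ne_top⟩) hA
  have hA2 : (μHE[2] (C.pr ⁻¹' U)).toReal ≤ (μHE[2] Ω).toReal + B.card * (16 * (400 * ε) ^ 2) := by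
    have := ENNReal.toReal_mono (ENNReal.add_ne_top.2 ⟨hfin, ENNReal.ofReal_ne_top⟩) hA
    rwa [ENNReal.toReal_add hfin ENNReal.ofReal_ne_top, ENNReal.toReal_ofReal (by positivity)]
      at this
  set u₀ := dist C.p (C.lf 0) with hu₀
  set M : ℕ := ⌈C.R / ε⌉₊ + 1 with hM
  have hM1 : C.R + ε ≤ ε * M := by
    have := Nat.le_ceil (C.R / ε)
    rw [div_le_iff₀ hε] at this
    rw [hM]; push_cast; linarith
  have hM2 : ε * M ≤ C.R + 2 * ε := by
    have h1 := (Nat.ceil_lt_add_one (div_pos hR hε).le).le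
    have h2 := mul_le_mul_of_nonneg_left h1 hε.le
    rw [mul_add, mul_div_cancel₀ _ hε.ne'] at h2
    rw [hM]; push_cast; linarith
  obtain ⟨τ, ⟨hτ0, hτ1⟩, havg⟩ := hAVG X C h (u₀ - 2 * C.R - ε) ε (2 * M) U (by linarith) hε hUm hA1
  set t₀ := u₀ - 2 * C.R - ε + τ with ht₀
  have hj : ∀ j : ℕ, j < 2 * M → t₀ + 2 * ε * j ≤ u₀ + 2 * C.R + 7 * ε := by
    intro j hj
    have h1 : (j : ℝ) + 1 ≤ 2 * M := by exact_mod_cast hj
    nlinarith
  obtain ⟨-, hded⟩ := hDED X C h t₀ ε (2503 * C.R) (2 * M) hε (by linarith) (by positivity)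
    (fun j hj' => by linarith [hj j hj'])
  have hcnt := hCNT X C h Ω B t₀ ε M hε hεR hin hbad
  have hL := Loops.biUnion (Finset.range M) (fun m hm => hPAIR X C h Ω U (t₀ + 4 * ε * m) ε ρ hε hεR hρ
    (by
      have h1 := hj (2 * m) (by have := Finset.mem_range.1 hm; omega)
      have h2 : (0 : ℝ) ≤ ε * m := by positivity
      push_cast at h1
      exact abs_le.2 ⟨by linarith, by linarith⟩)
    (by
      have h1 := hj (2 * m) (by have := Finset.mem_range.1 hm; omega)
      have h2 : (0 : ℝ) ≤ ε * m := by positivity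
      push_cast at h1
      exact abs_le.2 ⟨by linarith, by linarith⟩)
    hin hUm
    (fun x hx z hz => by
      by_cases hz' : C.lf z ∈ Ω
      · exact Or.inl hz'
      · obtain ⟨β, hβ, h1⟩ := hbad x hx (C.lf z) hz' (by rw [h.pr_lf, norm_sub_rev]; linarith)
        refine Or.inr (mem_iUnion₂.2 ⟨β, hβ, ?_⟩)
        rw [mem_closedBall, dist_eq_norm]
        have := norm_sub_le_norm_sub_add_norm_sub z (C.pr x) β
        linarith))
  refine hL.mono hcnt ?_ le_rfl fun x hx => ?_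
  · rw [sum_pairs] at havg hded
    have e1 : ∀ m : ℕ, t₀ + 2 * ε * ((2 * m : ℕ) : ℝ) = t₀ + 4 * ε * m := fun m => by
      push_cast; ring
    have e2 : ∀ m : ℕ, t₀ + 2 * ε * ((2 * m + 1 : ℕ) : ℝ) = t₀ + 4 * ε * m + 2 * ε := fun m => by
      push_cast; ring
    simp only [e1, e2] at havg hded
    rw [Finset.sum_add_distrib, Finset.sum_add_distrib, ← Finset.mul_sum, ← Finset.mul_sum]
    have h3 : (μHE[2] (C.pr ⁻¹' U)).toReal / (2 * ε) ≤
        (μHE[2] Ω).toReal / (2 * ε) + 1280000 * (B.card * ε) := by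
      rw [div_le_iff₀ (by positivity), add_mul, div_mul_cancel₀ _ (by positivity)]
      nlinarith
    have h4 := mul_le_mul_of_nonneg_left hcnt (show 0 ≤ 16 * ε by positivity)
    have h5 := Real.pi_le_four
    have h6 : (0 : ℝ) ≤ B.card * ε := by positivity
    nlinarith
  · have h1 : |dist C.p x - u₀| ≤ 2 * C.R := by
      have a1 := abs_dist_sub_le x (C.lf 0) C.p
      have a2 := h.up x (C.lf 0)
      rw [h.pr_lf, sub_zero] at a2
      rw [dist_comm x C.p, dist_comm (C.lf 0) C.p] at a1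
      linarith [hin x hx]
    obtain ⟨h2, h3⟩ := abs_le.1 h1
    have h4 : 0 ≤ (dist C.p x - (t₀ - ε)) / (4 * ε) := div_nonneg (by linarith) (by positivity)
    have h5 := Nat.floor_le h4
    have h6 := Nat.lt_floor_add_one ((dist C.p x - (t₀ - ε)) / (4 * ε))
    rw [le_div_iff₀ (by positivity)] at h5
    rw [div_lt_iff₀ (by positivity)] at h6
    refine mem_iUnion₂.2 ⟨⌊(dist C.p x - (t₀ - ε)) / (4 * ε)⌋₊, Finset.mem_range.2 ?_, hx,
      by linarith, by linarith⟩
    rw [Nat.floor_lt h4, div_lt_iff₀ (by positivity)]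
    linarith

end Pool.Agent.Lib.ED
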