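import Pool.Agent.Lib.ED.Blue

/-! Project ed43: developing along a ray. -/

open Set Metric MeasureTheory
open scoped ENNReal NNReal Classical RealInnerProductSpace

noncomputable section

namespace Pool.Agent.Lib.ED

open Pool.Agent.Lib.MP_523900_gt

namespace DEV58

variable {X : Type} [MetricSpace X]

/-- A developing chart at `p` of radius `η`. -/
structure Dv (φ : ℂ → X) (δ : ℝ) (p : ℂ) (ψ : ℂ → X) (η : ℝ) : Prop where
  le : η ≤ δ
  chart : Chart ψ p η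
  ctr : ψ p = ex φ δ p
  lip : ∀ b ∈ ball (0 : ℂ) η, ∀ c ∈ ball p η, dist (φ b) (ψ c) ≤ ‖b - c‖
  eq : ∀ c ∈ dom φ δ, c ∈ ball p η → ex φ δ c = ψ c

theorem sub {φ : ℂ → X} {a p : ℂ} {δ η : ℝ} (h : Chart φ a δ) (h0 : 0 < η)
    (hp : ‖p - a‖ + η ≤ δ) : ball p η ⊆ ball a δ ∧ Chart φ p η := by
  have h1 : ball p η ⊆ ball a δ := ball_subset_ball' (by rw [dist_eq_norm]; linarith)
  have h2 := h1 (mem_ball_self h0)
  refine ⟨h1, h0, fun b hb c hc => h.iso b (h1 hb) c (h1 hc), fun y hy => ?_⟩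
  obtain ⟨b, hb, rfl⟩ := h.onto y (by
    have h3 := dist_triangle y (φ p) (φ a)
    rw [h.iso p h2 a (mem_ball_self h.pos)] at h3
    rw [mem_ball] at hy ⊢
    linarith)
  refine ⟨b, ?_, rfl⟩
  rw [mem_ball, h.iso b hb p h2] at hy
  rwa [mem_ball, dist_eq_norm]

theorem Dv.shrink {φ ψ : ℂ → X} {δ η η' : ℝ} {p : ℂ} (h : Dv φ δ p ψ η) (h0 : 0 < η')
    (h1 : η' ≤ η) : Dv φ δ p ψ η' :=
  ⟨h1.trans h.le, (sub h.chart h0 (by simpa using h1)).2, h.ctr,
    fun b hb c hc => h.lip b (ball_subset_ball h1 hb) c (ball_subset_ball h1 hc),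
    fun c hc hc' => h.eq c hc (ball_subset_ball h1 hc')⟩

theorem base {V : Set X} {φ : ℂ → X} {δ : ℝ} (h : Chart φ 0 δ) (hR : RayF V φ δ) {p : ℂ}
    (hp : ‖p‖ < δ) : Dv φ δ p φ (δ - ‖p‖) := by
  obtain ⟨h1, h2⟩ := sub (p := p) h (sub_pos.mpr hp) (by simp)
  have h3 : δ - ‖p‖ ≤ δ := sub_le_self _ (norm_nonneg _)
  exact ⟨h3, h2, (hR.small p hp).2.symm,
    fun b hb c hc => (h.iso b (ball_subset_ball h3 hb) c (h1 hc)).le,
    fun c _ hc => (hR.small c (mem_ball_zero_iff.mp (h1 hc))).2⟩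

theorem extend (hE : St_EXT) {ψ χ : ℂ → X} {p : ℂ} {η r : ℝ} (hψ : Chart ψ p η)
    (hχ : Chart χ 0 r) (hη : η ≤ r / 4) (hd : dist (ψ p) (χ 0) < r / 4) :
    ∃ ψ' : ℂ → X, Chart ψ' p (3 * r / 4) ∧ ∀ c ∈ ball p η, ψ' c = ψ c := by
  have hr := hχ.pos
  have h0 := mem_ball_self (x := p) hψ.pos
  have h1 : ∀ c, ∃ u, c ∈ ball p η → u ∈ ball (0 : ℂ) r ∧ χ u = ψ c := fun c => by
    by_cases hc : c ∈ ball p η
    · obtain ⟨u, hu, hu'⟩ := hχ.onto (ψ c) (by
        have h3 := dist_triangle (ψ c) (ψ p) (χ 0)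
        rw [hψ.iso c hc p h0, ← dist_eq_norm] at h3
        rw [mem_ball] at hc ⊢
        linarith)
      exact ⟨u, fun _ => ⟨hu, hu'⟩⟩
    · exact ⟨0, fun h => absurd h hc⟩
  choose f hf using h1
  obtain ⟨R, hR⟩ := hE f p η hψ.pos fun b hb c hc => by
    rw [← hχ.iso _ (hf b hb).1 _ (hf c hc).1, (hf b hb).2, (hf c hc).2, hψ.iso b hb c hc]
  have h2 : ‖f p‖ < r / 4 := by
    rwa [← (hf p h0).2, hχ.iso _ (hf p h0).1 0 (mem_ball_self hr), sub_zero] at hd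
  obtain ⟨h3, h4⟩ := sub (p := f p) (η := 3 * r / 4) hχ (by linarith) (by
    rw [sub_zero]; linarith)
  have h5 : ∀ c ∈ ball p (3 * r / 4), f p + R (c - p) ∈ ball (f p) (3 * r / 4) := fun c hc => by
    rwa [mem_ball_iff_norm, add_sub_cancel_left, R.norm_map, ← mem_ball_iff_norm]
  refine ⟨fun c => χ (f p + R (c - p)), ⟨by linarith, fun b hb c hc => ?_, fun y hy => ?_⟩,
    fun c hc => by rw [← (hf c hc).2, hR c hc]⟩
  · rw [h4.iso _ (h5 b hb) _ (h5 c hc), add_sub_add_left_eq_sub, ← map_sub, R.norm_map,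
      sub_sub_sub_cancel_right]
  · obtain ⟨u, hu, rfl⟩ := h4.onto y (by simpa using hy)
    refine ⟨p + R.symm (u - f p), ?_, by simp⟩
    rwa [mem_ball_iff_norm, add_sub_cancel_left, R.symm.norm_map, ← mem_ball_iff_norm]

theorem step (hE : St_EXT) (hU : St_UNI) {V : Set X} (hV : Flat V) {φ ψ χ : ℂ → X} {δ η r : ℝ}
    (hR : RayF V φ δ) {q : ℂ} (hq : q ∈ dom φ δ) {l : ℝ} (l0 : 0 < l) (l1 : l < 1)
    (h : Dv φ δ (l • q) ψ η) (hχ : Chart χ 0 r) (hη : η ≤ r / 4)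
    (hd : dist (ex φ δ (l • q)) (χ 0) < r / 4) (hl : (1 - l) * ‖q‖ ≤ r / 2) :
    ∃ ψ', Dv φ δ q ψ' η := by
  obtain ⟨ψ', c1, c2⟩ := extend hE h.chart hχ hη (by rwa [h.ctr])
  have η0 := h.chart.pos
  have n1 : ∀ m : ℝ, l ≤ m → m ≤ 1 → ∀ c ∈ ball q η, m • c ∈ ball (l • q) (3 * r / 4) :=
    fun m m0 m1 c hc => by
      rw [mem_ball_iff_norm] at hc ⊢
      rw [show m • c - l • q = m • (c - q) + (m - l) • q by module]
      refine (norm_add_le _ _).trans_lt ?_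
      rw [norm_smul, norm_smul, Real.norm_of_nonneg (by linarith),
        Real.norm_of_nonneg (by linarith)]
      nlinarith [norm_nonneg (c - q), norm_nonneg q]
  have n2 : Chart ψ' q η := (sub c1 η0 (by
    rw [show q - l • q = (1 - l) • q by module, norm_smul, Real.norm_of_nonneg (by linarith)]
    linarith)).2
  have n3 : ∀ c ∈ dom φ δ, c ∈ ball q η → ex φ δ c = ψ' c := fun c hc hc' => by
    have m0 : ∀ t ∈ Icc (0 : ℝ) 1, l ≤ l + (1 - l) * t ∧ l + (1 - l) * t ≤ 1 := fun t ht =>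
      ⟨by nlinarith [ht.1], by nlinarith [ht.2]⟩
    have m1 : ∀ s t : ℝ, |l + (1 - l) * s - (l + (1 - l) * t)| * ‖c‖ =
        |s - t| * ((1 - l) * ‖c‖) := fun s t => by
      rw [add_sub_add_left_eq_sub, ← mul_sub, abs_mul, abs_of_pos (by linarith)]; ring
    have m2 : ‖l • c - l • q‖ < η := by
      rw [← smul_sub, norm_smul, Real.norm_of_nonneg l0.le]
      nlinarith [mem_ball_iff_norm.mp hc', norm_nonneg (c - q)]
    have m3 := hU X V hV (fun t => ex φ δ ((l + (1 - l) * t) • c))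
      (fun t => ψ' ((l + (1 - l) * t) • c)) ((1 - l) * ‖c‖) ((η - ‖l • c - l • q‖) / (‖c‖ + 1))
      (mul_nonneg (by linarith) (norm_nonneg _))
      (fun s hs t ht => by
        rw [← m1]
        exact (hR.ray c hc).1 _ ⟨l0.le.trans (m0 s hs).1, (m0 s hs).2⟩ _
          ⟨l0.le.trans (m0 t ht).1, (m0 t ht).2⟩)
      (fun s hs t ht => by
        rw [← m1, c1.iso _ (n1 _ (m0 s hs).1 (m0 s hs).2 c hc') _
          (n1 _ (m0 t ht).1 (m0 t ht).2 c hc'), ← sub_smul, norm_smul, Real.norm_eq_abs])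
      (div_pos (by linarith) (by positivity))
      (fun t ht ht' => by
        have m4 : (l + (1 - l) * t) • c ∈ ball (l • q) η := by
          rw [mem_ball_iff_norm, show (l + (1 - l) * t) • c - l • q =
            (l • c - l • q) + ((1 - l) * t) • c by module]
          refine (norm_add_le _ _).trans_lt ?_
          rw [lt_div_iff₀ (by positivity)] at ht'
          rw [norm_smul ((1 - l) * t), Real.norm_of_nonneg (mul_nonneg (by linarith) ht.1)]
          nlinarith [mul_nonneg ht.1 (norm_nonneg c), ht.1]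
        show ex φ δ _ = ψ' _
        rw [c2 _ m4]
        exact h.eq _ (hR.star c hc _ ⟨l0.le.trans (m0 t ht).1, (m0 t ht).2⟩) m4)
      1 ⟨zero_le_one, le_rfl⟩
    simpa using m3
  refine ⟨ψ', h.le, n2, (n3 q hq (mem_ball_self η0)).symm, fun b hb c hc => ?_, n3⟩
  have k1 : (1 - l) • b + l • c ∈ ball (l • q) η := by
    rw [mem_ball_iff_norm, show (1 - l) • b + l • c - l • q = (1 - l) • b + l • (c - q) by module]
    refine (norm_add_le _ _).trans_lt ?_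
    rw [norm_smul, norm_smul, Real.norm_of_nonneg (by linarith), Real.norm_of_nonneg l0.le]
    nlinarith [mem_ball_iff_norm.mp hc, mem_ball_zero_iff.mp hb]
  have k2 := h.lip b hb _ k1
  have k3 := c1.iso _ (ball_subset_ball (by linarith [hχ.pos]) k1) c
    (by simpa using n1 1 l1.le le_rfl c hc)
  rw [show b - ((1 - l) • b + l • c) = l • (b - c) by module, norm_smul,
    Real.norm_of_nonneg l0.le, ← c2 _ k1] at k2
  rw [show (1 - l) • b + l • c - c = (1 - l) • (b - c) by module, norm_smul,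
    Real.norm_of_nonneg (by linarith)] at k3
  linarith [dist_triangle (φ b) (ψ' ((1 - l) • b + l • c)) (ψ' c)]

theorem all (hE : St_EXT) (hU : St_UNI) {V : Set X} (hV : Flat V) {φ : ℂ → X} {δ : ℝ}
    (hφ : Chart φ 0 δ) (hR : RayF V φ δ) {a : ℂ} (ha : a ∈ dom φ δ) (haV : ex φ δ a ∉ V) :
    ∃ ψ η, Dv φ δ a ψ η := by
  by_cases a0 : a = 0
  · exact ⟨φ, _, base hφ hR (by rw [a0, norm_zero]; exact hφ.pos)⟩
  have an := norm_pos_iff.mpr a0
  set T : Set ℝ := {s | s ≤ 1 ∧ ∀ t ∈ Ioo 0 s, ∃ ψ η, Dv φ δ (t • a) ψ η} with hT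
  have t0 : min 1 (δ / ‖a‖) ∈ T := ⟨min_le_left _ _, fun t ht => ⟨φ, _, base hφ hR (by
    rw [norm_smul, Real.norm_of_nonneg ht.1.le, ← lt_div_iff₀ an]
    exact ht.2.trans_le (min_le_right _ _))⟩⟩
  have tb : BddAbove T := ⟨1, fun s hs => hs.1⟩
  have s0 : 0 < sSup T := (lt_min one_pos (div_pos hφ.pos an)).trans_le (le_csSup tb t0)
  have s1 : sSup T ≤ 1 := csSup_le ⟨_, t0⟩ fun s hs => hs.1
  have s2 : ∀ t ∈ Ioo 0 (sSup T), ∃ ψ η, Dv φ δ (t • a) ψ η := fun t ht => by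
    obtain ⟨s, hs, hts⟩ := exists_lt_of_lt_csSup ⟨_, t0⟩ ht.2
    exact hs.2 t ⟨ht.1, hts⟩
  have s3 : ∀ s ∈ T, s ≤ sSup T := fun s hs => le_csSup tb hs
  generalize sSup T = u at s0 s1 s2 s3
  obtain ⟨χ, r, c0, hχ⟩ := hV.chart (ex φ δ (u • a)) (by
    rcases s1.eq_or_lt with rfl | s1
    · rwa [one_smul]
    · exact hR.off a ha a0 u ⟨s0, s1⟩)
  have hr := hχ.pos
  have e0 : 0 < r / (8 * ‖a‖) := by positivity
  have e1 : r / (8 * ‖a‖) * ‖a‖ = r / 8 := by field_simp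
  generalize r / (8 * ‖a‖) = e at e0 e1
  have key : ∀ t, u ≤ t → t ≤ 1 → t ≤ u + e → ∃ ψ η, Dv φ δ (t • a) ψ η := fun t t1 t2 t3 => by
    have tp : 0 < t := s0.trans_le t1
    obtain ⟨s, p0, p1, p2⟩ : ∃ s, 0 < s ∧ s < u ∧ u - e ≤ s :=
      ⟨max (u / 2) (u - e), lt_max_of_lt_left (half_pos s0), max_lt (half_lt_self s0)
        (sub_lt_self _ e0), le_max_right _ _⟩
    obtain ⟨ψ, η, h⟩ := s2 s ⟨p0, p1⟩
    have q1 : (s / t) • t • a = s • a := by rw [smul_smul, div_mul_cancel₀ _ tp.ne']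
    have h' := h.shrink (lt_min h.chart.pos (by linarith : 0 < r / 4)) (min_le_left _ _)
    rw [← q1] at h'
    obtain ⟨ψ', h''⟩ := step hE hU hV hR (hR.star a ha t ⟨tp.le, t2⟩) (div_pos p0 tp)
      ((div_lt_one tp).mpr (by linarith)) h' hχ (min_le_right _ _) (by
        have q2 := (hR.ray a ha).1 s ⟨p0.le, by linarith⟩ u ⟨s0.le, s1⟩
        rw [abs_of_neg (by linarith)] at q2
        rw [q1, c0, q2]
        nlinarith) (by
        rw [norm_smul, Real.norm_of_nonneg tp.le, ← mul_assoc, sub_mul, one_mul,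
          div_mul_cancel₀ _ tp.ne']
        nlinarith)
    exact ⟨ψ', _, h''⟩
  rcases s1.eq_or_lt with rfl | s1
  · simpa using key 1 le_rfl le_rfl (by linarith)
  · have := s3 (min 1 (u + e)) ⟨min_le_left _ _, fun t ht => by
      rcases lt_or_ge t u with h | h
      · exact s2 t ⟨ht.1, h⟩
      · exact key t h (ht.2.le.trans (min_le_left _ _)) (ht.2.le.trans (min_le_right _ _))⟩
    exact absurd this (not_le.mpr (lt_min s1 (by linarith)))

end DEV58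

theorem r_DEV : R_DEV := fun hE hU hR X _ V hV φ δ hφ a ha haV => by
  obtain ⟨ψ, η, h⟩ := DEV58.all hE hU hV hφ (hR X V hV φ δ hφ) ha haV
  exact ⟨ψ, η, h.le, h.chart, h.ctr, h.lip, h.eq⟩

end Pool.Agent.Lib.ED
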