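import Pool.Agent.Lib.ED.Blue

/-! Project ed43: the upper bound for polytopes. -/

open Set Metric MeasureTheory
open scoped ENNReal NNReal Classical RealInnerProductSpace

noncomputable section

namespace Pool.Agent.Lib.ED

open Pool.Agent.Lib.MP_523900_gt

namespace UPP27

theorem short_le {X : Type} [MetricSpace X] {S : Set E3} {ι : X → E3} (h : Model S ι) {a : X}
    {l ρ : ℝ} {T : Set X} (hp : Pth a a l T) (hT : ∀ x, ∃ w ∈ T, dist x w ≤ ρ) :
    shortestDense S ρ ≤ ENNReal.ofReal l := by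
  obtain ⟨-, γ, hc, hm, -, -, hlen, hγ⟩ := h.conn_of_pth hp
  refine (iInf₂_le γ ⟨⟨hc.continuousOn, hm⟩, hlen.trans_lt ENNReal.ofReal_lt_top, ?_⟩).trans hlen
  intro x hx
  obtain ⟨x', rfl⟩ := h.surj hx
  obtain ⟨w, hw, hd⟩ := hT x'
  obtain ⟨t, ht, e⟩ := hγ ⟨w, hw, rfl⟩
  exact ⟨t, ht, by rw [e, ← h.dist]; exact ENNReal.ofReal_le_ofReal hd⟩

theorem sum_le {K : Set E3} (hK : Body K) {τ : Type} (Q : Finset τ) (W : τ → Set E3)
    (h1 : ∀ q, ∃ O : Set E3, IsOpen O ∧ W q = O ∩ frontier K)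
    (h2 : ∀ q q', q ≠ q' → Disjoint (W q) (W q')) :
    ∑ q ∈ Q, (μHE[2] (W q)).toReal ≤ (μHE[2] (frontier K)).toReal := by
  have hm : ∀ q, MeasurableSet (W q) := fun q => by
    obtain ⟨O, hO, e⟩ := h1 q
    rw [e]
    exact hO.measurableSet.inter isClosed_frontier.measurableSet
  have hs : ∀ q, W q ⊆ frontier K := fun q => by
    obtain ⟨O, -, e⟩ := h1 q
    rw [e]
    exact inter_subset_right
  rw [← ENNReal.toReal_sum fun q _ => ne_top_of_le_ne_top hK.area (measure_mono (hs q)),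
    ← measure_biUnion_finset (fun q _ q' _ hq => h2 q q' hq) fun q _ => hm q]
  exact ENNReal.toReal_mono hK.area (measure_mono (iUnion₂_subset fun q _ => hs q))

theorem points {X : Type} [MetricSpace X] {K : Set E3} {ι : X → E3} (h : Model (frontier K) ι)
    (hP : PrjF K) {o : E3} {D ε ρ : ℝ} (hK : K ⊆ closedBall o D) (hD : 0 < D) (hε : ε ≤ D)
    (hρ : ε ≤ ρ) {N : Finset E3} (hN : Net o D ε N) :
    Loops N.card 0 ρ {x | ∃ y ∈ grid o D, prj K y = ι x} := by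
  have hi : ∀ z, D ≤ ‖z - o‖ → z ∉ interior K := fun z hz hz' => by
    have := interior_mono hK hz'
    rw [interior_closedBall o hD.ne', mem_ball, dist_eq_norm] at this
    linarith
  have h1 : ∀ y' ∈ N, Loops 1 0 ρ {x | ∃ a, ι a = prj K y' ∧ dist x a ≤ ρ} := fun y' _ => by
    by_cases he : ∃ a, ι a = prj K y'
    · obtain ⟨a, ha⟩ := he
      refine Loops.single (Pth.refl a) ?_
      rintro x ⟨b, hb, hd⟩
      exact ⟨a, rfl, by rwa [h.inj (ha.trans hb.symm)]⟩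
    · refine (Loops.empty ρ).mono zero_le_one le_rfl le_rfl ?_
      rintro x ⟨b, hb, -⟩
      exact he ⟨b, hb⟩
  refine (Loops.biUnion N h1).mono (by simp) (by simp) le_rfl ?_
  rintro x ⟨y, hy, e⟩
  obtain ⟨y', hy', hd⟩ := hN y hy
  have hseg : ∀ t ∈ Icc (0 : ℝ) 1, y + t • (y' - y) ∈ (interior K)ᶜ := fun t ht => by
    refine hi _ ?_
    have h2 : ‖t • (y' - y)‖ ≤ ε := by
      rw [norm_smul, Real.norm_of_nonneg ht.1, norm_sub_rev]
      exact (mul_le_of_le_one_left (norm_nonneg _) ht.2).trans hd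
    have h3 := norm_sub_le (y + t • (y' - y) - o) (t • (y' - y))
    rw [show y + t • (y' - y) - o - t • (y' - y) = y - o by abel, hy.1] at h3
    linarith
  have h4 : y' ∉ interior K := by simpa using hseg 1 ⟨zero_le_one, le_rfl⟩
  obtain ⟨a, ha⟩ := h.surj (hP.fro y' h4)
  have h5 := hP.out _ _ _ _ (conn_line hseg)
  rw [e, ← ha] at h5
  exact mem_iUnion₂.2 ⟨y', hy', a, ha, (h.dist_le h5).trans (hd.trans hρ)⟩

theorem upp (Q : Finset (Fin 3 → ℤ)) (hPRJ : St_PRJ) (hMOD : St_MOD) (hSURF : St_SURF)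
    (hDIA : St_DIA) (hNETY : St_NETY)
    (hCEL1 : ∀ (K : Set E3) (o : E3) (D : ℝ), Body K → 0 < D → K ⊆ closedBall o D →
      ∀ x ∈ frontier K, (∃ q ∈ Q, x ∈ cell K o D q) ∨ ∃ y ∈ grid o D, prj K y = x)
    (hCEL3 : St_CEL3) (hCELL : St_CELL) (hGLUE : St_GLUE) : St_UPP := by
  have hq : (0 : ℝ) ≤ Q.card := Nat.cast_nonneg _
  refine ⟨Q.card * (10 ^ 8 * (10 ^ 6 + 100)) + 10 * (Q.card * 10 ^ 6 + 1) * 10 ^ 6,
    by positivity, ?_⟩
  intro κ J n c hok hK o D ε ρ hKo hε hεD hρ hρ2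
  have hD : 0 < D := hε.trans_le hεD
  have hP := hPRJ _ hK.compact.isClosed hK.convex hK.int
  obtain ⟨X, _, ι, hι⟩ := hMOD _ fun x hx y hy => ⟨_, (hDIA _ hK).2 x hx y hy⟩
  borelize X
  have hS := hSURF κ J n c hok X ι hι
  have hne : (frontier (poly J n c)).Nonempty :=
    nonempty_frontier_iff.2 ⟨hK.int.mono interior_subset, hK.compact.ne_univ⟩
  have : Nonempty X := by
    obtain ⟨x, hx⟩ := hne
    exact ⟨(hι.surj hx).choose⟩
  obtain ⟨N, hNc, hN⟩ := hNETY o D ε hε hεD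
  have h1 := Loops.biUnion Q fun q _ =>
    hCELL κ J n c hok hK o D hD hKo X ι hι ε ρ N hε hεD hρ hN q
  have h2 := points hι hP hKo hD hεD hρ.le hN
  have h3 := (h1.union h2).mono le_rfl le_rfl le_rfl (Ω' := univ) fun x _ => by
    rcases hCEL1 _ o D hK hD hKo _ (hι.mem x) with ⟨q, hq, hx⟩ | hx
    · exact Or.inl (mem_iUnion₂.2 ⟨q, hq, hx⟩)
    · exact Or.inr hx
  obtain ⟨a, T, hp, hT⟩ := hGLUE X hS.geo _ _ ρ (hε.trans hρ) h3
  refine (short_le hι hp hT).trans (ENNReal.ofReal_le_ofReal ?_)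
  have h4 := sum_le hK Q _ (hCEL3 _ o D hK hD hKo).1 (hCEL3 _ o D hK hD hKo).2
  have h5 : (N.card : ℝ) * ε ≤ 10 ^ 6 * D := by
    have := mul_le_mul_of_nonneg_right hNc hε.le
    rwa [mul_assoc, div_mul_cancel₀ _ hε.ne'] at this
  have hn : (0 : ℝ) ≤ N.card := Nat.cast_nonneg _
  rw [Finset.sum_add_distrib, ← Finset.sum_div, Finset.sum_const, Finset.sum_const, nsmul_eq_mul,
    nsmul_eq_mul]
  have h6 := div_le_div_of_nonneg_right h4 (by positivity : 0 ≤ 2 * ε)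
  have h7 : ρ * N.card ≤ 2 * (10 ^ 6 * D) := by nlinarith
  have h8 := mul_le_mul_of_nonneg_left h7 hq
  have h9 := mul_le_mul_of_nonneg_left h5 hq
  nlinarith

end UPP27

theorem r_UPP : R_UPP := fun h1 h2 h3 h4 h5 h6 h7 h8 h9 =>
  UPP27.upp cubes h1 h2 h3 h4 h5 (fun K o D a b c => (h6 K o D a b c).2) h7 h8 h9

end Pool.Agent.Lib.ED
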