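import Pool.Agent.Lib.ED.Pth
import Pool.Agent.Lib.MP_523900_gt.Grid

/-! Project ed43: the statements of the blocks. -/

open Set Metric MeasureTheory
open scoped ENNReal NNReal Classical RealInnerProductSpace

noncomputable section

namespace Pool.Agent.Lib.ED

open Pool.Agent.Lib.MP_523900_gt

/-! ## 1. Flat spaces -/

/-- An isometry of a disc into the plane is affine. -/
def St_EXT : Prop := ∀ (f : ℂ → ℂ) (a : ℂ) (δ : ℝ), 0 < δ →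
  (∀ b ∈ ball a δ, ∀ c ∈ ball a δ, ‖f b - f c‖ = ‖b - c‖) →
  ∃ R : ℂ ≃ₗᵢ[ℝ] ℂ, ∀ b ∈ ball a δ, f b = f a + R (b - a)

/-- A continuous function with affine upper barriers lies below the barrier at `0`. -/
def St_BAR : Prop := ∀ (f : ℝ → ℝ) (k₀ : ℝ), ContinuousOn f (Icc 0 1) →
  (∀ s ∈ Ioo (0 : ℝ) 1, ∃ k η : ℝ, 0 < η ∧
    ∀ t ∈ Icc (0 : ℝ) 1, |t - s| < η → f t ≤ f s + k * (t - s)) →
  (∃ η : ℝ, 0 < η ∧ ∀ t ∈ Icc (0 : ℝ) 1, t < η → f t ≤ f 0 + k₀ * t) → f 1 ≤ f 0 + k₀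

/-- A shortest path is straight in a chart. -/
def St_STR : Prop := ∀ (X : Type) [MetricSpace X] (φ : ℂ → X) (a : ℂ) (δ : ℝ), Chart φ a δ →
  ∀ (g : ℝ → X) (l : ℝ), 0 ≤ l → Seg g l → ∀ s₀ ∈ Icc (0 : ℝ) 1, g s₀ = φ a →
    ∃ v : ℂ, ‖v‖ = l ∧ ∀ s ∈ Icc (0 : ℝ) 1, |s - s₀| * l < δ → g s = φ (a + (s - s₀) • v)

/-- Shortest paths do not branch. -/
def St_UNI : Prop := ∀ (X : Type) [MetricSpace X] (V : Set X), Flat V →
  ∀ (g g' : ℝ → X) (l s₀ : ℝ), 0 ≤ l → Seg g l → Seg g' l → 0 < s₀ →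
    (∀ s ∈ Icc (0 : ℝ) 1, s < s₀ → g s = g' s) → ∀ s ∈ Icc (0 : ℝ) 1, g s = g' s

def St_RAY : Prop := ∀ (X : Type) [MetricSpace X] (V : Set X), Flat V →
  ∀ (φ : ℂ → X) (δ : ℝ), Chart φ 0 δ → RayF V φ δ

/-- Developing along a ray. -/
def St_DEV : Prop := ∀ (X : Type) [MetricSpace X] (V : Set X), Flat V →
  ∀ (φ : ℂ → X) (δ : ℝ), Chart φ 0 δ → ∀ a ∈ dom φ δ, ex φ δ a ∉ V →
    ∃ (ψ : ℂ → X) (η : ℝ), η ≤ δ ∧ Chart ψ a η ∧ ψ a = ex φ δ a ∧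
      (∀ b ∈ ball (0 : ℂ) η, ∀ c ∈ ball a η, dist (φ b) (ψ c) ≤ ‖b - c‖) ∧
      ∀ c ∈ dom φ δ, c ∈ ball a η → ex φ δ c = ψ c

/-- The hinge comparison. -/
def St_HIN : Prop := ∀ (X : Type) [MetricSpace X] (V : Set X), Flat V →
  ∀ (φ : ℂ → X) (δ : ℝ), Chart φ 0 δ →
    ∀ a ∈ dom φ δ, ∀ b ∈ dom φ δ, dist (ex φ δ a) (ex φ δ b) ≤ ‖a - b‖

def St_CLO : Prop := ∀ (X : Type) [MetricSpace X] (V : Set X), Flat V →
  ∀ (φ : ℂ → X) (δ : ℝ), Chart φ 0 δ → IsClosed (dom φ δ) ∧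
    ∀ a ∈ dom φ δ, ∀ b ∈ dom φ δ, ∀ t ∈ Ico (0 : ℝ) 1, ex φ δ b = ex φ δ (t • a) → b = t • a

def St_ARE : Prop := ∀ (X : Type) [MetricSpace X] [MeasurableSpace X] [BorelSpace X] (V : Set X),
  Flat V → ∀ (φ : ℂ → X) (δ : ℝ), Chart φ 0 δ →
    ∀ U : Set X, MeasurableSet U → volume (dom φ δ ∩ ex φ δ ⁻¹' U) ≤ μHE[2] U

/-- The points with an exponential map. -/
def good (X : Type) [MetricSpace X] [MeasurableSpace X] [BorelSpace X] : Set X :=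
  {p | ∃ D E, Exp p D E}

def St_EXP : Prop := ∀ (X : Type) [MetricSpace X] [MeasurableSpace X] [BorelSpace X] (V : Set X),
  Flat V → Dense (good X)

/-- The area of a space that is close to a chain of points. -/
def St_LOW : Prop := ∀ (X : Type) [MetricSpace X] [MeasurableSpace X] [BorelSpace X],
  Dense (good X) → ∀ (q : ℕ → X) (m : ℕ) (ρ l : ℝ), 0 ≤ ρ →
    ∑ i ∈ Finset.range m, dist (q i) (q (i + 1)) ≤ l → (∀ x, ∃ i ≤ m, dist x (q i) ≤ ρ) →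
    μHE[2] (univ : Set X) ≤ ENNReal.ofReal (2 * ρ * l + Real.pi * ρ ^ 2)

/-! ## 2. Convex sets and polyhedral surfaces -/

/-- The properties of the nearest point map. -/
structure PrjF (K : Set E3) : Prop where
  mem : ∀ x, prj K x ∈ K
  inner : ∀ x, ∀ w ∈ K, ⟪x - prj K x, w - prj K x⟫ ≤ 0
  uniq : ∀ x, ∀ v ∈ K, (∀ w ∈ K, ⟪x - v, w - v⟫ ≤ 0) → prj K x = v
  lip : ∀ x y, ‖prj K x - prj K y‖ ≤ ‖x - y‖
  self : ∀ x ∈ K, prj K x = x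
  fro : ∀ x, x ∉ interior K → prj K x ∈ frontier K
  normal : ∀ x ∈ frontier K, ∃ n : E3, ‖n‖ = 1 ∧ ∀ w ∈ K, ⟪n, w - x⟫ ≤ 0
  notin : ∀ (x n : E3) (c : ℝ), n ≠ 0 → (∀ w ∈ K, ⟪n, w⟫ ≤ c) → c ≤ ⟪n, x⟫ → x ∉ interior K
  out : ∀ x y l T, Conn (interior K)ᶜ x y l T →
    Conn (frontier K) (prj K x) (prj K y) l (prj K '' T)

def St_PRJ : Prop := ∀ K : Set E3, IsClosed K → Convex ℝ K → (interior K).Nonempty → PrjF K

/-- A set with finite intrinsic distances has a model. -/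
def St_MOD : Prop := ∀ S : Set E3, (∀ x ∈ S, ∀ y ∈ S, ∃ l, Conn S x y l ∅) →
  ∃ (X : Type) (_ : MetricSpace X) (ι : X → E3), Model S ι

/-- The boundary of a polyhedron. -/
structure StarF {κ : Type} (J : Finset κ) (n : κ → E3) (c : κ → ℝ) : Prop where
  closed : IsClosed (poly J n c)
  convex : Convex ℝ (poly J n c)
  int : ∀ x, x ∈ interior (poly J n c) ↔ ∀ j ∈ J, ⟪n j, x⟫ < c j
  fro : ∀ x, x ∈ frontier (poly J n c) ↔ x ∈ poly J n c ∧ ∃ j ∈ J, ⟪n j, x⟫ = c j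
  near : ∀ z ∈ poly J n c, ∃ r : ℝ, 0 < r ∧ ∀ y, ‖z - y‖ < r → ∀ j ∈ J, ⟪n j, z⟫ ≠ c j →
    ⟪n j, y⟫ < c j
  chord : ∀ j ∈ J, ∀ y ∈ poly J n c, ∀ z ∈ poly J n c, ⟪n j, y⟫ = c j → ⟪n j, z⟫ = c j →
    Conn (frontier (poly J n c)) y z ‖y - z‖ ∅

def St_STAR : Prop := ∀ (κ : Type) (J : Finset κ) (n : κ → E3) (c : κ → ℝ), PolyOk J n c →
  StarF J n c

/-- A complete space with midpoints is geodesic. -/
def St_MID : Prop := ∀ (X : Type) [MetricSpace X] [CompleteSpace X],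
  (∀ a b : X, ∃ m, dist a m = dist a b / 2 ∧ dist m b = dist a b / 2) → Geo X

/-- Near each point the distance from it is the Euclidean one. -/
def Loc {X : Type} [MetricSpace X] (ι : X → E3) : Prop :=
  ∀ a, ∃ r : ℝ, 0 < r ∧ ∀ b, ‖ι a - ι b‖ < r → dist a b = ‖ι a - ι b‖

def St_GEO : Prop := ∀ (X : Type) [MetricSpace X] (S : Set E3) (ι : X → E3), IsClosed S →
  Model S ι → Loc ι → CompleteSpace X ∧ Geo X

/-- The local shape of a set: two half-planes along a line. -/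
def Wedge (S : Set E3) (z : E3) : Prop :=
  ∃ (e w₁ w₂ : E3) (r : ℝ), 0 < r ∧ ‖e‖ = 1 ∧ ‖w₁‖ = 1 ∧ ‖w₂‖ = 1 ∧ ⟪e, w₁⟫ = 0 ∧ ⟪e, w₂⟫ = 0 ∧
    w₁ ≠ w₂ ∧ ∀ y, ‖y - z‖ < r → (y ∈ S ↔ ∃ b, wedge z e w₁ w₂ b = y)

def St_CHA1 : Prop := ∀ (κ : Type) (J : Finset κ) (n : κ → E3) (c : κ → ℝ), PolyOk J n c →
  ∀ z ∈ frontier (poly J n c), z ∉ vtx J n c → Wedge (frontier (poly J n c)) z

def St_CHA2 : Prop := ∀ (X : Type) [MetricSpace X] (S : Set E3) (ι : X → E3), Model S ι →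
  ∀ x : X, Wedge S (ι x) → ∃ (φ : ℂ → X) (δ : ℝ), φ 0 = x ∧ Chart φ 0 δ

/-- The short cut round a vertex. -/
def St_VER : Prop := ∀ (κ : Type) (J : Finset κ) (n : κ → E3) (c : κ → ℝ), PolyOk J n c →
  ∀ v ∈ vtx J n c, ∀ i ∈ J, ∀ j ∈ J, ∀ a ∈ poly J n c, ∀ b ∈ poly J n c, a ≠ v → b ≠ v →
    ⟪n i, v⟫ = c i → ⟪n i, a⟫ = c i → ⟪n j, v⟫ = c j → ⟪n j, b⟫ = c j →
    ∃ l, l < ‖a - v‖ + ‖b - v‖ ∧ Conn (interior (poly J n c))ᶜ a b l ∅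

def St_MEA : Prop := ∀ (κ : Type) (J : Finset κ) (n : κ → E3) (c : κ → ℝ), PolyOk J n c →
  ∀ (X : Type) [MetricSpace X] [MeasurableSpace X] [BorelSpace X] (ι : X → E3),
    Model (frontier (poly J n c)) ι → ∀ W : Set E3, MeasurableSet W →
      μHE[2] (ι ⁻¹' W) = μHE[2] (W ∩ frontier (poly J n c))

/-- What is used of a polyhedral surface. -/
structure Surf {X : Type} [MetricSpace X] [MeasurableSpace X] [BorelSpace X] (S : Set E3)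
    (ι : X → E3) : Prop extends Model S ι where
  geo : Geo X
  good : Dense (good X)
  loc : Loc ι
  mea : ∀ W : Set E3, MeasurableSet W → μHE[2] (ι ⁻¹' W) = μHE[2] (W ∩ S)

def St_SURF : Prop := ∀ (κ : Type) (J : Finset κ) (n : κ → E3) (c : κ → ℝ), PolyOk J n c →
  ∀ (X : Type) [MetricSpace X] [MeasurableSpace X] [BorelSpace X] (ι : X → E3),
    Model (frontier (poly J n c)) ι → Surf (frontier (poly J n c)) ι

/-! ## 3. The upper bound on a graph -/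

def St_GAM : Prop := ∀ (X : Type) [MetricSpace X] [MeasurableSpace X] [BorelSpace X] (C : Cx X),
  C.Ok → C.GamF

/-- The distance of two points of a level is at most the length of the directions between them. -/
def St_ARC1 : Prop := ∀ (X : Type) [MetricSpace X] [MeasurableSpace X] [BorelSpace X] (C : Cx X),
  C.Ok → ∀ (r y₁ y₂ : ℝ) (Z : Set ℝ), C.Lv r → y₁ ≤ y₂ → |y₁| ≤ 2 * C.R → |y₂| ≤ 2 * C.R →
    Z ⊆ Ioc (-Real.pi) Real.pi →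
    (∀ y ∈ Ioo y₁ y₂, ∃ θ ∈ Z, pol r θ ∈ C.D ∧ C.E (pol r θ) = C.gam r y) →
    dist (C.gam r y₁) (C.gam r y₂) ≤ r * (volume Z).toReal

/-- Paths along a level and across levels. -/
def St_ARC2 : Prop := ∀ (X : Type) [MetricSpace X] [MeasurableSpace X] [BorelSpace X] (C : Cx X),
  C.Ok → (∀ r y₁ y₂ : ℝ, C.Lv r → y₁ ≤ y₂ → |y₁| ≤ 2 * C.R → |y₂| ≤ 2 * C.R →
      Pth (C.gam r y₁) (C.gam r y₂) (C.arc r (C.strip y₁ y₂)) (C.gam r '' Icc y₁ y₂) ∧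
      Pth (C.gam r y₁) (C.gam r y₂) (10 * (y₂ - y₁)) (C.gam r '' Icc y₁ y₂)) ∧
    ∀ r r' y : ℝ, C.Lv r → C.Lv r' → |y| ≤ 2 * C.R →
      Pth (C.gam r y) (C.gam r' y) (4 * |r - r'|) ∅

/-- The ray of direction `θ` is inside the window at distance `r`. -/
def Cx.In {X : Type} [MetricSpace X] (C : Cx X) (θ r : ℝ) : Prop :=
  |(C.pr (C.E (pol r θ))).re| ≤ 20 * C.R ∧ |C.ht θ r| ≤ 2 * C.R

/-- A ray does not cross a ray that lives longer. -/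
def St_NC : Prop := ∀ (X : Type) [MetricSpace X] [MeasurableSpace X] [BorelSpace X] (C : Cx X),
  C.Ok → ∀ r₁ r₂ r₃ θ θ' : ℝ, C.Lv r₁ → C.Lv r₂ → r₁ ≤ r₂ → r₂ < r₃ →
    θ ∈ Ioc (-Real.pi) Real.pi → θ' ∈ Ioc (-Real.pi) Real.pi → pol r₂ θ ∈ C.D → pol r₃ θ' ∈ C.D →
    (∀ r ∈ Icc r₁ r₂, C.In θ r ∧ C.In θ' r) →
    (C.ht θ r₁ < C.ht θ' r₁ ↔ C.ht θ r₂ < C.ht θ' r₂) ∧
      (C.ht θ' r₁ < C.ht θ r₁ ↔ C.ht θ' r₂ < C.ht θ r₂) ∧ (C.ht θ r₁ = C.ht θ' r₁ → θ = θ')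

/-- A finite family of surviving rays, each charged with the dying directions just above it. -/
def St_NET : Prop := ∀ (X : Type) [MetricSpace X] [MeasurableSpace X] [BorelSpace X] (C : Cx X),
  C.Ok → ∀ t ε κ : ℝ, 0 < ε → ε ≤ C.R / 100 → 0 < κ → C.Lv (t - ε) → C.Lv (t + ε) →
    ∃ (F : Finset ℝ) (σ : ℝ → ℝ),
      (∀ k ∈ F, pol (t + ε) k ∈ C.D ∧ |(C.pr (C.E (pol (t - ε) k))).re| ≤ 15 * C.R ∧
        |C.ht k (t - ε)| ≤ 3 / 2 * C.R ∧ 0 ≤ σ k) ∧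
      ∑ k ∈ F, σ k ≤ C.dead t ε ∧
      ∀ r ∈ Icc (t - ε) t, ∀ θ ∈ Ioc (-Real.pi) Real.pi, pol r θ ∈ C.D → pol (t + ε) θ ∉ C.D →
        ‖C.pr (C.E (pol r θ))‖ ≤ C.R →
        ∃ k ∈ F, C.ht k (t - ε) ≤ C.ht θ (t - ε) ∧ C.ht θ (t - ε) ≤ C.ht k (t - ε) + 6 * ε ∧
          dist (C.E (pol r θ)) (C.E (pol r k)) ≤ σ k + κ

/-- The level `t`, with spikes and small loops, comes close to the band round it. -/
def St_LEV : Prop := ∀ (X : Type) [MetricSpace X] [MeasurableSpace X] [BorelSpace X] (C : Cx X),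
  C.Ok → ∀ t ε κ : ℝ, 0 < ε → ε ≤ C.R / 100 → 0 < κ → C.Lv (t - ε) → C.Lv (t + ε) →
    ∃ (F : Finset ℝ) (h σ : ℝ → ℝ) (T : ℝ → Set X),
      (∀ k ∈ F, Pth (C.gam t (h k)) (C.gam t (h k)) (σ k) (T k)) ∧
      ∑ k ∈ F, σ k ≤ 200 * C.dead t ε ∧
      ∀ x, ‖C.pr x‖ ≤ C.R → dist C.p x ∈ Icc (t - ε) (t + ε) →
        (∃ y, |y - (C.pr x).im| ≤ 10 * ε ∧ dist x (C.gam t y) ≤ ε + κ) ∨
        ∃ k ∈ F, |h k - (C.pr x).im| ≤ 10 * ε ∧ ∃ w ∈ T k, dist x w ≤ ε + κ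

/-- Averaging over the position of the levels. -/
def St_AVG : Prop := ∀ (X : Type) [MetricSpace X] [MeasurableSpace X] [BorelSpace X] (C : Cx X),
  C.Ok → ∀ (t₀ ε : ℝ) (M : ℕ) (U : Set ℂ), 0 ≤ t₀ → 0 < ε → MeasurableSet U →
    μHE[2] (C.pr ⁻¹' U) ≠ ⊤ → ∃ τ ∈ Icc 0 (2 * ε),
      ∑ j ∈ Finset.range M, C.arc (t₀ + τ + 2 * ε * j) U ≤ (μHE[2] (C.pr ⁻¹' U)).toReal / (2 * ε)

/-- A direction dies once. -/
def St_DED : Prop := ∀ (X : Type) [MetricSpace X] [MeasurableSpace X] [BorelSpace X] (C : Cx X),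
  C.Ok → ∀ (t₀ ε b : ℝ) (M : ℕ), 0 < ε → ε ≤ t₀ → 0 ≤ b → (∀ j < M, t₀ + 2 * ε * j ≤ b) →
    (∀ j < M, 0 ≤ C.dead (t₀ + 2 * ε * j) ε) ∧
      ∑ j ∈ Finset.range M, C.dead (t₀ + 2 * ε * j) ε ≤ 2 * Real.pi * b

/-- Two rails with rungs: every run of boxes is one closed path. -/
def St_RUN : Prop := ∀ (X : Type) [MetricSpace X] (A : Finset ℤ) (P P' : ℤ → X) (l l' : ℤ → ℝ)
  (T T' : ℤ → Set X) (c ρ : ℝ) (Ω : Set X),
    (∀ i ∈ A, Pth (P i) (P (i + 1)) (l i) (T i) ∧ Pth (P' i) (P' (i + 1)) (l' i) (T' i) ∧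
      Pth (P i) (P' i) c ∅ ∧ Pth (P (i + 1)) (P' (i + 1)) c ∅) →
    (∀ x ∈ Ω, ∃ i ∈ A, ∃ w ∈ T i ∪ T' i, dist x w ≤ ρ) →
    Loops (starts A).card (∑ i ∈ A, (l i + l' i) + 2 * c * (starts A).card) ρ Ω

def St_PAIR : Prop := ∀ (X : Type) [MetricSpace X] [MeasurableSpace X] [BorelSpace X] (C : Cx X),
  C.Ok → ∀ (Ω : Set X) (U : Set ℂ) (t ε ρ : ℝ), 0 < ε → ε ≤ C.R / 100 → ε < ρ →
    C.Lv (t - ε) → C.Lv (t + 3 * ε) → (∀ x ∈ Ω, ‖C.pr x‖ ≤ C.R) → MeasurableSet U →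
    (∀ x ∈ Ω, ∀ z : ℂ, ‖z - C.pr x‖ ≤ 100 * ε → z ∈ U) →
    Loops (starts (C.act Ω t ε)).card
      (C.arc t U + C.arc (t + 2 * ε) U + 200 * (C.dead t ε + C.dead (t + 2 * ε) ε) +
        16 * ε * (starts (C.act Ω t ε)).card) ρ
      {x | x ∈ Ω ∧ dist C.p x ∈ Icc (t - ε) (t + 3 * ε)}

/-- One leaves `Ω` only near `B`. -/
def Cx.Bad {X : Type} [MetricSpace X] (C : Cx X) (Ω : Set X) (B : Finset ℂ) (ε : ℝ) : Prop :=
  ∀ a ∈ Ω, ∀ b, b ∉ Ω → ‖C.pr a - C.pr b‖ ≤ 200 * ε → ∃ β ∈ B, ‖C.pr a - β‖ ≤ 300 * ε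

def St_CNT : Prop := ∀ (X : Type) [MetricSpace X] [MeasurableSpace X] [BorelSpace X] (C : Cx X),
  C.Ok → ∀ (Ω : Set X) (B : Finset ℂ) (t₀ ε : ℝ) (M : ℕ), 0 < ε → ε ≤ C.R / 100 →
    (∀ x ∈ Ω, ‖C.pr x‖ ≤ C.R) → C.Bad Ω B ε →
    ∑ m ∈ Finset.range M, ((starts (C.act Ω (t₀ + 4 * ε * m) ε)).card : ℝ) ≤ 10 ^ 6 * B.card

def St_CORE : Prop := ∀ (X : Type) [MetricSpace X] [MeasurableSpace X] [BorelSpace X] (C : Cx X),
  C.Ok → ∀ (Ω : Set X) (B : Finset ℂ) (ε ρ : ℝ), 0 < ε → ε ≤ C.R / 100 → ε < ρ →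
    MeasurableSet Ω → μHE[2] Ω ≠ ⊤ → (∀ x ∈ Ω, ‖C.pr x‖ ≤ C.R) → C.Bad Ω B ε →
    Loops (10 ^ 6 * B.card) ((μHE[2] Ω).toReal / (2 * ε) + 10 ^ 8 * (B.card * ε + C.R)) ρ Ω

/-- Joining closed paths. -/
def St_GLUE : Prop := ∀ (X : Type) [MetricSpace X] [Nonempty X], Geo X → ∀ N L ρ : ℝ, 0 < ρ →
  Loops N L ρ (univ : Set X) →
    ∃ (a : X) (T : Set X), Pth a a (L + 5 * ρ * N) T ∧ ∀ x, ∃ w ∈ T, dist x w ≤ ρ

/-! ## 4. Cells -/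

def St_GRA : Prop := ∀ (κ : Type) (J : Finset κ) (n : κ → E3) (c : κ → ℝ) (o e : E3), J.Nonempty →
  ‖e‖ = 1 → (∀ j ∈ J, ‖n j‖ = 1 ∧ ‖n j - e‖ ≤ 1 / 100) →
    PolyOk J n c ∧ ∃ (e₁ e₂ : E3) (f : ℂ → ℝ), Gr (poly J n c) o e₁ e₂ e f

/-- The distance from a far point increases in the direction `e₁`. -/
def St_MON : Prop := ∀ (Q : Set E3) (o e₁ e₂ e : E3) (f : ℂ → ℝ), Gr Q o e₁ e₂ e f →
  ∀ (X : Type) [MetricSpace X] (ι : X → E3), Model (frontier Q) ι → Geo X →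
    ∀ (R : ℝ) (p x x' : X) (z : ℂ) (s : ℝ), 0 < R →
      ‖gpr o e₁ e₂ (ι p) + (1000 * R : ℝ)‖ ≤ R → 0 ≤ s → |z.re| ≤ 20 * R → |z.re + s| ≤ 20 * R →
      |z.im| ≤ 20 * R → ι x = glf o e₁ e₂ e f z → ι x' = glf o e₁ e₂ e f (z + s) →
      dist p x + s / 2 ≤ dist p x'

/-- Paths on a graph over segments. -/
def St_GFIN : Prop := ∀ (Q : Set E3) (o e₁ e₂ e : E3) (f : ℂ → ℝ), Gr Q o e₁ e₂ e f →
  (interior Q).Nonempty ∧ ∀ z w : ℂ, Conn (frontier Q) (glf o e₁ e₂ e f z) (glf o e₁ e₂ e f w)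
    (51 / 50 * ‖z - w‖) ∅

def St_CTX : Prop := ∀ (Q : Set E3) (o e₁ e₂ e : E3) (f : ℂ → ℝ), Gr Q o e₁ e₂ e f →
  ∀ (X : Type) [MetricSpace X] [MeasurableSpace X] [BorelSpace X] (ι : X → E3),
    Surf (frontier Q) ι → ∀ R : ℝ, 0 < R → ∃ C : Cx X, C.Ok ∧ C.R = R ∧
      (∀ x, C.pr x = gpr o e₁ e₂ (ι x)) ∧ ∀ z, ι (C.lf z) = glf o e₁ e₂ e f z

/-- `N` is an `ε`-net of the grid. -/
def Net (o : E3) (D ε : ℝ) (N : Finset E3) : Prop := ∀ y ∈ grid o D, ∃ y' ∈ N, ‖y - y'‖ ≤ ε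

def St_NETY : Prop := ∀ (o : E3) (D ε : ℝ), 0 < ε → ε ≤ D →
  ∃ N : Finset E3, (N.card : ℝ) ≤ 10 ^ 6 * (D / ε) ∧ Net o D ε N

def St_CEL1 : Prop := ∀ (K : Set E3) (o : E3) (D : ℝ), Body K → 0 < D → K ⊆ closedBall o D →
  (∀ x ∈ K, ∀ v : E3, ‖v‖ = 1 → ∃ s : ℝ, D ≤ s ∧ ‖x + s • v - o‖ = 2 * D) ∧
  ∀ x ∈ frontier K, (∃ q ∈ cubes, x ∈ cell K o D q) ∨ ∃ y ∈ grid o D, prj K y = x

def St_CEL3 : Prop := ∀ (K : Set E3) (o : E3) (D : ℝ), Body K → 0 < D → K ⊆ closedBall o D →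
  (∀ q, ∃ O : Set E3, IsOpen O ∧ cell K o D q = O ∩ frontier K) ∧
    ∀ q q', q ≠ q' → Disjoint (cell K o D q) (cell K o D q')

def St_CEL2 : Prop := ∀ (κ : Type) (J : Finset κ) (n : κ → E3) (c : κ → ℝ), PolyOk J n c →
  Body (poly J n c) → ∀ (o : E3) (D : ℝ), 0 < D → poly J n c ⊆ closedBall o D → ∀ q,
    (∀ i ∈ faces J n c o D q, ∀ j ∈ faces J n c o D q, ‖n i - n j‖ ≤ 1 / 100) ∧
    (∀ x ∈ cell (poly J n c) o D q, ∀ j ∈ J, ⟪n j, x⟫ = c j → j ∈ faces J n c o D q) ∧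
    (∀ γ : ℝ → E3, Continuous γ → (∀ t, γ t ∈ frontier (poly (faces J n c o D q) n c)) →
      γ 0 ∈ cell (poly J n c) o D q → γ 1 ∉ cell (poly J n c) o D q →
      ∃ t ∈ Icc (0 : ℝ) 1, ∃ y ∈ grid o D, prj (poly J n c) y = γ t)

/-- The loops of one cell. -/
def St_CELL : Prop := ∀ (κ : Type) (J : Finset κ) (n : κ → E3) (c : κ → ℝ), PolyOk J n c →
  Body (poly J n c) → ∀ (o : E3) (D : ℝ), 0 < D → poly J n c ⊆ closedBall o D →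
    ∀ (X : Type) [MetricSpace X] (ι : X → E3), Model (frontier (poly J n c)) ι →
      ∀ (ε ρ : ℝ) (N : Finset E3), 0 < ε → ε ≤ D → ε < ρ → Net o D ε N → ∀ q,
        Loops (10 ^ 6 * N.card)
          ((μHE[2] (cell (poly J n c) o D q)).toReal / (2 * ε) + 10 ^ 8 * (N.card * ε + 100 * D))
          ρ (ι ⁻¹' cell (poly J n c) o D q)

/-- The intrinsic diameter. -/
def St_DIA : Prop := ∀ K : Set E3, Body K → 0 < diam K ∧
  ∀ x ∈ frontier K, ∀ y ∈ frontier K, Conn (frontier K) x y (5 * diam K) ∅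

/-- The upper bound for polytopes. -/
def St_UPP : Prop := ∃ C : ℝ, 0 < C ∧
  ∀ (κ : Type) (J : Finset κ) (n : κ → E3) (c : κ → ℝ), PolyOk J n c → Body (poly J n c) →
    ∀ (o : E3) (D ε ρ : ℝ), poly J n c ⊆ closedBall o D → 0 < ε → ε ≤ D → ε < ρ → ρ ≤ 2 * ε →
      shortestDense (frontier (poly J n c)) ρ ≤
        ENNReal.ofReal ((μHE[2] (frontier (poly J n c))).toReal / (2 * ε) + C * D)

/-- The lower bound for polytopes. -/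
def St_PL : Prop := ∀ (κ : Type) (J : Finset κ) (n : κ → E3) (c : κ → ℝ), PolyOk J n c →
  Body (poly J n c) → ∀ ε l : ℝ, 0 < ε →
    shortestDense (frontier (poly J n c)) ε < ENNReal.ofReal l →
    μHE[2] (frontier (poly J n c)) ≤ ENNReal.ofReal (2 * ε * l + Real.pi * ε ^ 2)

/-- Approximation by polytopes. -/
def St_APX : Prop := ∀ (K : Set E3) (o : E3) (η : ℝ), Body K → o ∈ interior K → 0 < η →
  Body (AffineMap.homothety o (1 + η) '' K) ∧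
  AffineMap.homothety o (1 + η) '' frontier K = frontier (AffineMap.homothety o (1 + η) '' K) ∧
  ∃ (J : Finset E3) (c : E3 → ℝ), PolyOk J id c ∧ Body (poly J id c) ∧ K ⊆ poly J id c ∧
    poly J id c ⊆ AffineMap.homothety o (1 + η) '' K

/-- Transfer along Lipschitz maps. -/
def St_TRF : Prop :=
  (∀ (F : E3 → E3) (a ε : ℝ) (S : Set E3), 0 < a → (∀ x y, ‖F x - F y‖ ≤ a * ‖x - y‖) →
    shortestDense (F '' S) (a * ε) ≤ ENNReal.ofReal a * shortestDense S ε ∧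
      μHE[2] (F '' S) ≤ ENNReal.ofReal (a ^ 2) * μHE[2] S) ∧
  (∀ K₁ K₂ : Set E3, Body K₁ → Body K₂ → K₁ ⊆ K₂ → prj K₁ '' frontier K₂ = frontier K₁) ∧
  (∀ (S : Set E3) (ε ε' : ℝ), ε ≤ ε' → shortestDense S ε' ≤ shortestDense S ε) ∧
  ∀ (S : Set E3) (x : E3) (ε : ℝ), x ∈ S → (∀ y ∈ S, Conn S y x ε ∅) → shortestDense S ε = 0

/-- The lower bound. -/
def St_LB : Prop := ∀ K : Set E3, Body K → ∀ ε l : ℝ, 0 < ε →
  shortestDense (frontier K) ε < ENNReal.ofReal l →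
    (μHE[2] (frontier K)).toReal ≤ 2 * ε * l + Real.pi * ε ^ 2

/-- The upper bound for small `ε`. -/
def St_UB : Prop := ∃ C : ℝ, 0 < C ∧ ∀ K : Set E3, Body K → ∀ ε : ℝ, 0 < ε → ε ≤ diam K →
  shortestDense (frontier K) ε ≤
    ENNReal.ofReal ((μHE[2] (frontier K)).toReal / (2 * ε) + C * diam K)

/-- The theorem. -/
def St_FIN : Prop := ∃ C : ℝ, 0 < C ∧ ∀ K : Set E3, Convex ℝ K → IsCompact K →
  (interior K).Nonempty → ∀ ε : ℝ, 0 < ε →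
    μHE[2] (frontier K) < ⊤ ∧ shortestDense (frontier K) ε < ⊤ ∧
    (μHE[2] (frontier K)).toReal / (2 * ε) - Real.pi * ε / 2 ≤
      (shortestDense (frontier K) ε).toReal ∧
    (shortestDense (frontier K) ε).toReal ≤ (μHE[2] (frontier K)).toReal / (2 * ε) + C * diam K

theorem Body.area {K : Set E3} (h : Body K) : μHE[2] (frontier K) ≠ ⊤ :=
  (main h.convex h.compact h.int).1.ne

/-! ## 5. The blocks -/

def R_EXT : Prop := St_EXT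
def R_BAR : Prop := St_BAR
def R_STR : Prop := St_STR
def R_UNI : Prop := St_STR → St_UNI
def R_RAY : Prop := St_STR → St_UNI → St_RAY
def R_DEV : Prop := St_EXT → St_UNI → St_RAY → St_DEV
def R_HIN : Prop := St_STR → St_RAY → St_DEV → St_BAR → St_HIN
def R_CLO : Prop := St_UNI → St_RAY → St_HIN → St_CLO
def R_ARE : Prop := St_RAY → St_DEV → St_HIN → St_CLO → St_ARE
def R_EXP : Prop := St_RAY → St_HIN → St_CLO → St_ARE → St_EXP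
def R_LOW : Prop := St_LOW
def R_PRJ : Prop := St_PRJ
def R_MOD : Prop := St_MOD
def R_STAR : Prop := St_STAR
def R_MID : Prop := St_MID
def R_GEO : Prop := St_MID → St_GEO
def R_CHA1 : Prop := St_STAR → St_CHA1
def R_CHA2 : Prop := St_CHA2
def R_VER : Prop := St_STAR → St_VER
def R_MEA : Prop := St_STAR → St_MEA
def R_SURF : Prop :=
  St_STAR → St_PRJ → St_GEO → St_CHA1 → St_CHA2 → St_VER → St_MEA → St_EXP → St_SURF
def R_GAM : Prop := St_GAM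
def R_ARC1 : Prop := St_GAM → St_ARC1
def R_ARC2 : Prop := St_GAM → St_ARC1 → St_ARC2
def R_NC : Prop := St_GAM → St_NC
def R_NET : Prop := St_GAM → St_ARC1 → St_NC → St_NET
def R_LEV : Prop := St_GAM → St_ARC2 → St_NET → St_LEV
def R_AVG : Prop := St_GAM → St_AVG
def R_DED : Prop := St_GAM → St_DED
def R_RUN : Prop := St_RUN
def R_PAIR : Prop := St_GAM → St_ARC2 → St_LEV → St_RUN → St_PAIR
def R_CNT : Prop := St_GAM → St_CNT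
def R_CORE : Prop := St_AVG → St_DED → St_PAIR → St_CNT → St_CORE
def R_GLUE : Prop := St_GLUE
def R_GRA : Prop := St_STAR → St_GRA
def R_GFIN : Prop := St_GFIN
def R_MON : Prop := St_PRJ → St_GFIN → St_MON
def R_CTX : Prop := St_GFIN → St_MON → St_CTX
def R_NETY : Prop := St_NETY
def R_CEL1 : Prop := St_PRJ → St_CEL1
def R_CEL3 : Prop := St_PRJ → St_CEL1 → St_CEL3
def R_CEL2 : Prop := St_PRJ → St_STAR → St_CEL1 → St_CEL3 → St_CEL2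
def R_CELL : Prop :=
  St_PRJ → St_STAR → St_MOD → St_SURF → St_GRA → St_GFIN → St_CTX → St_CORE → St_CEL2 → St_CEL3 → St_CELL
def R_DIA : Prop := St_PRJ → St_DIA
def R_UPP : Prop :=
  St_PRJ → St_MOD → St_SURF → St_DIA → St_NETY → St_CEL1 → St_CEL3 → St_CELL → St_GLUE → St_UPP
def R_PL : Prop := St_MOD → St_SURF → St_DIA → St_LOW → St_PL
def R_APX : Prop := St_APX
def R_TRF : Prop := St_PRJ → St_TRF
def R_LB : Prop := St_PRJ → St_APX → St_TRF → St_PL → St_LB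
def R_UB : Prop := St_PRJ → St_APX → St_TRF → St_DIA → St_UPP → St_UB
def R_FIN : Prop := St_TRF → St_DIA → St_LB → St_UB → St_FIN

theorem fin_of_rows
    (rEXT : R_EXT) (rBAR : R_BAR) (rSTR : R_STR) (rUNI : R_UNI) (rRAY : R_RAY) (rDEV : R_DEV)
    (rHIN : R_HIN) (rCLO : R_CLO) (rARE : R_ARE) (rEXP : R_EXP) (rLOW : R_LOW) (rPRJ : R_PRJ)
    (rMOD : R_MOD) (rSTAR : R_STAR) (rMID : R_MID) (rGEO : R_GEO) (rCHA1 : R_CHA1)
    (rCHA2 : R_CHA2) (rVER : R_VER) (rMEA : R_MEA) (rSURF : R_SURF) (rGAM : R_GAM)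
    (rARC1 : R_ARC1) (rARC2 : R_ARC2) (rNC : R_NC) (rNET : R_NET) (rLEV : R_LEV) (rAVG : R_AVG)
    (rDED : R_DED) (rRUN : R_RUN) (rPAIR : R_PAIR) (rCNT : R_CNT) (rCORE : R_CORE)
    (rGLUE : R_GLUE) (rGRA : R_GRA) (rGFIN : R_GFIN) (rMON : R_MON) (rCTX : R_CTX)
    (rNETY : R_NETY) (rCEL1 : R_CEL1) (rCEL3 : R_CEL3) (rCEL2 : R_CEL2) (rCELL : R_CELL)
    (rDIA : R_DIA) (rUPP : R_UPP) (rPL : R_PL) (rAPX : R_APX) (rTRF : R_TRF) (rLB : R_LB)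
    (rUB : R_UB) (rFIN : R_FIN) : St_FIN :=
  have hEXT : St_EXT := rEXT
  have hBAR : St_BAR := rBAR
  have hSTR : St_STR := rSTR
  have hUNI : St_UNI := rUNI hSTR
  have hRAY : St_RAY := rRAY hSTR hUNI
  have hDEV : St_DEV := rDEV hEXT hUNI hRAY
  have hHIN : St_HIN := rHIN hSTR hRAY hDEV hBAR
  have hCLO : St_CLO := rCLO hUNI hRAY hHIN
  have hARE : St_ARE := rARE hRAY hDEV hHIN hCLO
  have hEXP : St_EXP := rEXP hRAY hHIN hCLO hARE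
  have hLOW : St_LOW := rLOW
  have hPRJ : St_PRJ := rPRJ
  have hMOD : St_MOD := rMOD
  have hSTAR : St_STAR := rSTAR
  have hMID : St_MID := rMID
  have hGEO : St_GEO := rGEO hMID
  have hCHA1 : St_CHA1 := rCHA1 hSTAR
  have hCHA2 : St_CHA2 := rCHA2
  have hVER : St_VER := rVER hSTAR
  have hMEA : St_MEA := rMEA hSTAR
  have hSURF : St_SURF := rSURF hSTAR hPRJ hGEO hCHA1 hCHA2 hVER hMEA hEXP
  have hGAM : St_GAM := rGAM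
  have hARC1 : St_ARC1 := rARC1 hGAM
  have hARC2 : St_ARC2 := rARC2 hGAM hARC1
  have hNC : St_NC := rNC hGAM
  have hNET : St_NET := rNET hGAM hARC1 hNC
  have hLEV : St_LEV := rLEV hGAM hARC2 hNET
  have hAVG : St_AVG := rAVG hGAM
  have hDED : St_DED := rDED hGAM
  have hRUN : St_RUN := rRUN
  have hPAIR : St_PAIR := rPAIR hGAM hARC2 hLEV hRUN
  have hCNT : St_CNT := rCNT hGAM
  have hCORE : St_CORE := rCORE hAVG hDED hPAIR hCNT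
  have hGLUE : St_GLUE := rGLUE
  have hGRA : St_GRA := rGRA hSTAR
  have hGFIN : St_GFIN := rGFIN
  have hMON : St_MON := rMON hPRJ hGFIN
  have hCTX : St_CTX := rCTX hGFIN hMON
  have hNETY : St_NETY := rNETY
  have hCEL1 : St_CEL1 := rCEL1 hPRJ
  have hCEL3 : St_CEL3 := rCEL3 hPRJ hCEL1
  have hCEL2 : St_CEL2 := rCEL2 hPRJ hSTAR hCEL1 hCEL3
  have hCELL : St_CELL := rCELL hPRJ hSTAR hMOD hSURF hGRA hGFIN hCTX hCORE hCEL2 hCEL3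
  have hDIA : St_DIA := rDIA hPRJ
  have hUPP : St_UPP := rUPP hPRJ hMOD hSURF hDIA hNETY hCEL1 hCEL3 hCELL hGLUE
  have hPL : St_PL := rPL hMOD hSURF hDIA hLOW
  have hAPX : St_APX := rAPX
  have hTRF : St_TRF := rTRF hPRJ
  have hLB : St_LB := rLB hPRJ hAPX hTRF hPL
  have hUB : St_UB := rUB hPRJ hAPX hTRF hDIA hUPP
  rFIN hTRF hDIA hLB hUB

end Pool.Agent.Lib.ED
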