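import Pool.Agent.Lib.MP_523900_gt.Discs

/-! Project ed43: the objects. -/

open Set Metric MeasureTheory
open scoped ENNReal NNReal Classical RealInnerProductSpace

noncomputable section

namespace Pool.Agent.Lib.ED

open Pool.Agent.Lib.MP_523900_gt

section metric

variable {X : Type} [MetricSpace X]

/-- A path from `a` to `b`, of length at most `l`, whose trace contains `T`. -/
def Pth (a b : X) (l : ℝ) (T : Set X) : Prop :=
  0 ≤ l ∧ ∃ γ : ℝ → X, Continuous γ ∧ γ 0 = a ∧ γ 1 = b ∧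
    eVariationOn γ (Icc 0 1) ≤ ENNReal.ofReal l ∧ T ⊆ γ '' Icc 0 1

/-- At most `N` closed paths, of total length at most `L`, come within `ρ` of every point of `Ω`. -/
def Loops (N L ρ : ℝ) (Ω : Set X) : Prop :=
  ∃ m : List (X × ℝ × Set X), (∀ q ∈ m, Pth q.1 q.1 q.2.1 q.2.2) ∧ (m.length : ℝ) ≤ N ∧
    (m.map fun q => q.2.1).sum ≤ L ∧ ∀ x ∈ Ω, ∃ q ∈ m, ∃ w ∈ q.2.2, dist x w ≤ ρ

/-- A shortest path of length `l`, with constant speed on `[0,1]`. -/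
def Seg (g : ℝ → X) (l : ℝ) : Prop :=
  ∀ s ∈ Icc (0 : ℝ) 1, ∀ t ∈ Icc (0 : ℝ) 1, dist (g s) (g t) = |s - t| * l

variable (X) in
/-- Any two points are joined by a shortest path. -/
def Geo : Prop := ∀ x y : X, ∃ g : ℝ → X, g 0 = x ∧ g 1 = y ∧ Seg g (dist x y)

/-- `φ` is an isometry of the disc of centre `a` and radius `δ` onto the ball of centre `φ a`. -/
structure Chart (φ : ℂ → X) (a : ℂ) (δ : ℝ) : Prop where
  pos : 0 < δ
  iso : ∀ b ∈ ball a δ, ∀ c ∈ ball a δ, dist (φ b) (φ c) = ‖b - c‖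
  onto : ∀ y ∈ ball (φ a) δ, ∃ b ∈ ball a δ, φ b = y

/-- A complete geodesic space, flat off `V`; no shortest path passes through `V`. -/
structure Flat (V : Set X) : Prop where
  complete : CompleteSpace X
  geo : Geo X
  chart : ∀ x, x ∉ V → ∃ (φ : ℂ → X) (δ : ℝ), φ 0 = x ∧ Chart φ 0 δ
  vert : ∀ v ∈ V, ∀ a b, a ≠ v → b ≠ v → dist a b < dist a v + dist v b

/-- `g` is a shortest path with initial vector `a` in the chart `φ`. -/
def Ray (φ : ℂ → X) (δ : ℝ) (a : ℂ) (g : ℝ → X) : Prop :=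
  Seg g ‖a‖ ∧ ∀ s ∈ Icc (0 : ℝ) 1, s * ‖a‖ < δ → g s = φ (s • a)

/-- The initial vectors of shortest paths. -/
def dom (φ : ℂ → X) (δ : ℝ) : Set ℂ := {a | ∃ g, Ray φ δ a g}

/-- The end point of the shortest path with initial vector `a`. -/
def ex (φ : ℂ → X) (δ : ℝ) (a : ℂ) : X := if h : ∃ g, Ray φ δ a g then h.choose 1 else φ 0

/-- First properties of `dom` and `ex`. -/
structure RayF (V : Set X) (φ : ℂ → X) (δ : ℝ) : Prop where
  star : ∀ a ∈ dom φ δ, ∀ t ∈ Icc (0 : ℝ) 1, t • a ∈ dom φ δ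
  eq : ∀ a g, Ray φ δ a g → ∀ s ∈ Icc (0 : ℝ) 1, ex φ δ (s • a) = g s
  ray : ∀ a ∈ dom φ δ, Ray φ δ a fun s => ex φ δ (s • a)
  onto : ∀ x, ∃ a ∈ dom φ δ, ex φ δ a = x
  norm : ∀ a ∈ dom φ δ, dist (φ 0) (ex φ δ a) = ‖a‖
  small : ∀ a : ℂ, ‖a‖ < δ → a ∈ dom φ δ ∧ ex φ δ a = φ a
  off : ∀ a ∈ dom φ δ, a ≠ 0 → ∀ t ∈ Ioo (0 : ℝ) 1, ex φ δ (t • a) ∉ V

/-- An exponential map at `p`. -/
structure Exp [MeasurableSpace X] [BorelSpace X] (p : X) (D : Set ℂ) (E : ℂ → X) : Prop where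
  closed : IsClosed D
  onto : ∀ x, ∃ a ∈ D, E a = x
  star : ∀ a ∈ D, ∀ t ∈ Icc (0 : ℝ) 1, t • a ∈ D
  norm : ∀ a ∈ D, dist p (E a) = ‖a‖
  lip : ∀ a ∈ D, ∀ b ∈ D, dist (E a) (E b) ≤ ‖a - b‖
  inj : ∀ a ∈ D, ∀ b ∈ D, ∀ t ∈ Ico (0 : ℝ) 1, E b = E (t • a) → b = t • a
  area : ∀ U : Set X, MeasurableSet U → volume (D ∩ E ⁻¹' U) ≤ μHE[2] U

/-- Polar coordinates. -/
def pol (r θ : ℝ) : ℂ := (r : ℂ) * Complex.exp ((θ : ℂ) * Complex.I)

variable (X) in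
/-- The data of a graph: base point, exponential map, projection, lift, size of the window. -/
structure Cx where
  p : X
  D : Set ℂ
  E : ℂ → X
  pr : X → ℂ
  lf : ℂ → X
  R : ℝ

namespace Cx

variable (C : Cx X)

/-- The hypotheses on the data. -/
structure Ok [MeasurableSpace X] [BorelSpace X] : Prop extends Exp C.p C.D C.E where
  Rpos : 0 < C.R
  pr_lf : ∀ z, C.pr (C.lf z) = z
  lf_pr : ∀ x, C.lf (C.pr x) = x
  lo : ∀ a b, ‖C.pr a - C.pr b‖ ≤ dist a b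
  up : ∀ a b, dist a b ≤ 2 * ‖C.pr a - C.pr b‖
  mono : ∀ (z : ℂ) (s : ℝ), 0 ≤ s → |z.re| ≤ 20 * C.R → |z.re + s| ≤ 20 * C.R →
    |z.im| ≤ 20 * C.R → dist C.p (C.lf z) + s / 2 ≤ dist C.p (C.lf (z + s))
  far : 100 * C.R ≤ dist C.p (C.lf 0)
  near : dist C.p (C.lf 0) ≤ 2500 * C.R

/-- The admissible levels. -/
def Lv (r : ℝ) : Prop := |r - dist C.p (C.lf 0)| ≤ 3 * C.R

/-- The point of the window at distance `r` from the base point and at height `y`. -/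
def gam (r y : ℝ) : X :=
  C.lf ⟨Classical.epsilon fun x : ℝ => |x| ≤ 14 * C.R ∧ dist C.p (C.lf ⟨x, y⟩) = r, y⟩

/-- The directions that are alive at distance `r` and lie over `U` there. -/
def th (r : ℝ) (U : Set ℂ) : Set ℝ :=
  {θ | θ ∈ Ioc (-Real.pi) Real.pi ∧ pol r θ ∈ C.D ∧ C.pr (C.E (pol r θ)) ∈ U}

/-- A horizontal strip of the window. -/
def strip (y₁ y₂ : ℝ) : Set ℂ := {z | |z.re| ≤ 14 * C.R ∧ y₁ ≤ z.im ∧ z.im < y₂}

/-- The height of the ray of direction `θ` at distance `r`. -/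
def ht (θ r : ℝ) : ℝ := (C.pr (C.E (pol r θ))).im

/-- The length, in the tangent plane, of the part of the circle of radius `r` over `U`. -/
def arc (r : ℝ) (U : Set ℂ) : ℝ := r * (volume (C.th r U)).toReal

/-- The length of the directions that die between the levels `t - ε` and `t + ε`. -/
def dead (t ε : ℝ) : ℝ := t * (volume (C.th (t - ε) univ \ C.th (t + ε) univ)).toReal

/-- The boxes of the pair of levels `t`, `t + 2 ε` that are close to `Ω`. -/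
def act (Ω : Set X) (t ε : ℝ) : Finset ℤ :=
  (Finset.Icc (-⌈C.R / ε⌉ - 12) (⌈C.R / ε⌉ + 12)).filter fun i => ∃ x ∈ Ω,
    dist C.p x ∈ Icc (t - ε) (t + 3 * ε) ∧ (C.pr x).im ∈ Icc ((i - 10) * ε) ((i + 11) * ε)

/-- First properties of the levels. -/
structure GamF : Prop where
  lev : ∀ r y, C.Lv r → |y| ≤ 2 * C.R → dist C.p (C.gam r y) = r
  im : ∀ r y, (C.pr (C.gam r y)).im = y
  re : ∀ r y, C.Lv r → |y| ≤ 2 * C.R → |(C.pr (C.gam r y)).re| ≤ 14 * C.R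
  uniq : ∀ x, |(C.pr x).re| ≤ 20 * C.R → |(C.pr x).im| ≤ 2 * C.R → C.Lv (dist C.p x) →
    C.gam (dist C.p x) (C.pr x).im = x
  lip : ∀ r y r' y', C.Lv r → |y| ≤ 2 * C.R → C.Lv r' → |y'| ≤ 2 * C.R →
    ‖C.pr (C.gam r y) - C.pr (C.gam r' y')‖ ≤ 2 * |r - r'| + 5 * |y - y'|
  meas : ∀ r U, MeasurableSet U → MeasurableSet (C.th r U)
  anti : ∀ r r' θ, 0 ≤ r → r ≤ r' → pol r' θ ∈ C.D → pol r θ ∈ C.D
  polar : ∀ x, ∃ θ ∈ Ioc (-Real.pi) Real.pi, pol (dist C.p x) θ ∈ C.D ∧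
    C.E (pol (dist C.p x) θ) = x
  radial : ∀ r r' θ, 0 ≤ r → 0 ≤ r' → pol r θ ∈ C.D → pol r' θ ∈ C.D →
    dist (C.E (pol r θ)) (C.E (pol r' θ)) = |r - r'|
  ang : ∀ r θ θ', 0 ≤ r → pol r θ ∈ C.D → pol r θ' ∈ C.D →
    dist (C.E (pol r θ)) (C.E (pol r θ')) ≤ r * |θ - θ'|
  levE : ∀ r θ, 0 ≤ r → pol r θ ∈ C.D → dist C.p (C.E (pol r θ)) = r
  injE : ∀ r r' θ θ', 0 < r → r < r' → θ ∈ Ioc (-Real.pi) Real.pi →
    θ' ∈ Ioc (-Real.pi) Real.pi → pol r θ ∈ C.D → pol r' θ' ∈ C.D →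
    C.E (pol r θ) = C.E (pol r θ') → θ = θ'

end Cx

/-- The first elements of the maximal runs of consecutive integers of `A`. -/
def starts (A : Finset ℤ) : Finset ℤ := A.filter fun i => i - 1 ∉ A

/-- `ι` identifies `X` with `S` and its intrinsic metric. -/
structure Model (S : Set E3) (ι : X → E3) : Prop where
  inj : Function.Injective ι
  range : range ι = S
  dist : ∀ a b, ENNReal.ofReal (dist a b) = intrinsicDist S (ι a) (ι b)

end metric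

/-- The nearest point of a closed convex set. -/
def prj (K : Set E3) (x : E3) : E3 :=
  Classical.epsilon fun v => v ∈ K ∧ ∀ w ∈ K, ⟪x - v, w - v⟫ ≤ 0

/-- A finite intersection of half-spaces. -/
def poly {κ : Type} (J : Finset κ) (n : κ → E3) (c : κ → ℝ) : Set E3 :=
  {x | ∀ j ∈ J, ⟪n j, x⟫ ≤ c j}

/-- The normals are unit vectors and the polyhedron has an interior point. -/
structure PolyOk {κ : Type} (J : Finset κ) (n : κ → E3) (c : κ → ℝ) : Prop where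
  unit : ∀ j ∈ J, ‖n j‖ = 1
  int : (interior (poly J n c)).Nonempty

/-- The vertices: the normals of the faces through the point span the space. -/
def vtx {κ : Type} (J : Finset κ) (n : κ → E3) (c : κ → ℝ) : Set E3 :=
  {x | ∀ e : E3, (∀ j ∈ J, ⟪n j, x⟫ = c j → ⟪n j, e⟫ = 0) → e = 0}

/-- Two half-planes along a line. -/
def wedge (x e w₁ w₂ : E3) (z : ℂ) : E3 :=
  x + z.re • e + max z.im 0 • w₁ + max (-z.im) 0 • w₂

/-- Horizontal coordinates. -/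
def gpr (o e₁ e₂ x : E3) : ℂ := ⟨⟪x - o, e₁⟫, ⟪x - o, e₂⟫⟩

/-- The point of the graph of `f` over `z`. -/
def glf (o e₁ e₂ e : E3) (f : ℂ → ℝ) (z : ℂ) : E3 := o + z.re • e₁ + z.im • e₂ + f z • e

/-- `Q` is the region below the graph of `f`. -/
structure Gr (Q : Set E3) (o e₁ e₂ e : E3) (f : ℂ → ℝ) : Prop where
  closed : IsClosed Q
  convex : Convex ℝ Q
  orth : Orthonormal ℝ ![e₁, e₂, e]
  lip : ∀ z w, |f z - f w| ≤ ‖z - w‖ / 50
  out : ∀ x, x ∉ interior Q ↔ f (gpr o e₁ e₂ x) ≤ ⟪x - o, e⟫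
  fro : frontier Q = range (glf o e₁ e₂ e f)
  sec : ∀ z, gpr o e₁ e₂ (glf o e₁ e₂ e f z) = z
  lo : ∀ x y, ‖gpr o e₁ e₂ x - gpr o e₁ e₂ y‖ ≤ ‖x - y‖
  up : ∀ z w, ‖glf o e₁ e₂ e f z - glf o e₁ e₂ e f w‖ ≤ 51 / 50 * ‖z - w‖

/-- A convex body. -/
structure Body (K : Set E3) : Prop where
  convex : Convex ℝ K
  compact : IsCompact K
  int : (interior K).Nonempty

/-- The points of the sphere of centre `o` and radius `2 D` on a plane of the grid. -/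
def grid (o : E3) (D : ℝ) : Set E3 :=
  {y | ‖y - o‖ = 2 * D ∧ ∃ (a : Fin 3) (k : ℤ), y a - o a = D / 1000 * k}

/-- An open cube of the grid. -/
def cube (o : E3) (D : ℝ) (q : Fin 3 → ℤ) : Set E3 :=
  {y | ∀ a, D / 1000 * q a < y a - o a ∧ y a - o a < D / 1000 * (q a + 1)}

/-- The points of the boundary all of whose normal rays end in the cube `q`. -/
def cell (K : Set E3) (o : E3) (D : ℝ) (q : Fin 3 → ℤ) : Set E3 :=
  {x | x ∈ frontier K ∧ ∀ y, ‖y - o‖ = 2 * D → prj K y = x → y ∈ cube o D q}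

/-- The faces with a normal ray that ends in the cube `q`. -/
def faces {κ : Type} (J : Finset κ) (n : κ → E3) (c : κ → ℝ) (o : E3) (D : ℝ) (q : Fin 3 → ℤ) :
    Finset κ :=
  J.filter fun j => ∃ x ∈ poly J n c, ⟪n j, x⟫ = c j ∧ ∃ s : ℝ, 0 ≤ s ∧
    ‖x + s • n j - o‖ = 2 * D ∧ x + s • n j ∈ cube o D q

/-- The cubes that can meet the sphere. -/
def cubes : Finset (Fin 3 → ℤ) := Fintype.piFinset fun _ => Finset.Icc (-2001) 2001

end Pool.Agent.Lib.ED
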