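import Pool.Agent.Lib.ED.Blue

/-! Project ed43: a dense path is nearly as long as the diameter. -/

open Set Metric MeasureTheory
open scoped ENNReal NNReal

namespace Pool.Agent.Lib.ED

open Pool.Agent.Lib.MP_523900_gt

theorem far_mem_frontier {K : Set E3} (hc : IsCompact K) {x y : E3} (hx : x ∈ K) (hy : y ∈ K)
    (hd : dist x y = diam K) (hne : x ≠ y) : x ∈ frontier K := by
  rw [hc.isClosed.frontier_eq]
  refine ⟨hx, fun hi => ?_⟩
  obtain ⟨r, hr, hb⟩ := Metric.isOpen_iff.1 isOpen_interior x hi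
  have hp : 0 < ‖x - y‖ := norm_pos_iff.2 (sub_ne_zero.2 hne)
  have ht : 0 < r / 2 / ‖x - y‖ := by positivity
  have hm : x + (r / 2 / ‖x - y‖) • (x - y) ∈ K := by
    refine interior_subset (hb ?_)
    rw [mem_ball, dist_eq_norm, add_sub_cancel_left, norm_smul, Real.norm_of_nonneg ht.le,
      div_mul_cancel₀ _ hp.ne']
    linarith
  have h1 := dist_le_diam_of_mem hc.isBounded hm hy
  rw [← hd, dist_eq_norm, dist_eq_norm,
    show x + (r / 2 / ‖x - y‖) • (x - y) - y = (1 + r / 2 / ‖x - y‖) • (x - y) by module,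
    norm_smul, Real.norm_of_nonneg (by linarith)] at h1
  nlinarith [mul_pos ht hp]

theorem diam_le_shortest {K : Set E3} (hc : IsCompact K) (hi : K.Nonempty) {ε : ℝ} (hε : 0 < ε)
    (hf : shortestDense (frontier K) ε < ⊤) :
    diam K - 2 * ε ≤ (shortestDense (frontier K) ε).toReal := by
  obtain ⟨⟨x, y⟩, ⟨hx, hy⟩, hmax⟩ := (hc.prod hc).exists_isMaxOn (hi.prod hi)
    (f := fun p : E3 × E3 => dist p.1 p.2) (by fun_prop)
  have hd : dist x y = diam K := by
    refine le_antisymm (dist_le_diam_of_mem hc.isBounded hx hy) ?_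
    exact diam_le_of_forall_dist_le dist_nonneg fun a ha b hb =>
      isMaxOn_iff.1 hmax (a, b) (mk_mem_prod ha hb)
  by_cases hne : x = y
  · rw [← hd, hne, dist_self]
    linarith [ENNReal.toReal_nonneg (a := shortestDense (frontier K) ε)]
  have hxf := far_mem_frontier hc hx hy hd hne
  have hyf := far_mem_frontier hc hy hx (by rw [dist_comm, hd]) (Ne.symm hne)
  rw [← ENNReal.ofReal_le_iff_le_toReal hf.ne]
  refine le_iInf₂ fun γ hγ => ?_
  obtain ⟨s, hs, h1⟩ := hγ.2.2 x hxf
  obtain ⟨t, ht, h2⟩ := hγ.2.2 y hyf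
  have e1 := (edist_le_intrinsicDist _ _ _).trans h1
  have e2 := (edist_le_intrinsicDist _ _ _).trans h2
  rw [edist_dist, ENNReal.ofReal_le_ofReal_iff hε.le] at e1 e2
  refine le_trans ?_ (eVariationOn.edist_le γ hs ht)
  rw [edist_dist]
  refine ENNReal.ofReal_le_ofReal ?_
  have := dist_triangle4 x (γ s) (γ t) y
  rw [dist_comm (γ t) y] at this
  linarith

end Pool.Agent.Lib.ED
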