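import Pool.Agent.Lib.ED.Defs

/-! Project ed43: tools for paths and loops. -/

open Set Metric MeasureTheory
open scoped ENNReal NNReal

namespace Pool.Agent.Lib.ED

open Pool.Agent.Lib.MP_523900_gt

variable {X Y : Type} [MetricSpace X] [MetricSpace Y]

theorem Pth.nonneg {a b : X} {l : ℝ} {T : Set X} (h : Pth a b l T) : 0 ≤ l := h.1

theorem Pth.mono {a b : X} {l l' : ℝ} {T T' : Set X} (h : Pth a b l T) (hl : l ≤ l')
    (hT : T' ⊆ T) : Pth a b l' T' := by
  obtain ⟨h0, γ, hc, hx, hy, hlen, hT0⟩ := h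
  exact ⟨h0.trans hl, γ, hc, hx, hy, hlen.trans (ENNReal.ofReal_le_ofReal hl), hT.trans hT0⟩

/-- A continuous map on an interval with bounded variation gives a path. -/
theorem pth_of_var {γ : ℝ → X} {s t l : ℝ} (hst : s ≤ t) (hc : ContinuousOn γ (Icc s t))
    (hl : 0 ≤ l) (hv : eVariationOn γ (Icc s t) ≤ ENNReal.ofReal l) :
    Pth (γ s) (γ t) l (γ '' Icc s t) := by
  let k : ℝ → ℝ := fun x => s + (t - s) * max 0 (min 1 x)
  have hk : ∀ x, k x ∈ Icc s t := fun x => by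
    have h1 : 0 ≤ max 0 (min 1 x) := le_max_left _ _
    have h2 : max 0 (min 1 x) ≤ 1 := max_le zero_le_one (min_le_left _ _)
    constructor
    · simp only [k]; nlinarith
    · simp only [k]; nlinarith
  have hkc : Continuous k := by fun_prop
  refine ⟨hl, γ ∘ k, hc.comp_continuous hkc hk, by simp [k], by simp [k], ?_, ?_⟩
  · refine le_trans (eVariationOn.comp_le_of_monotoneOn γ k ?_ fun x _ => hk x) hv
    intro x _ y _ hxy
    have : max 0 (min 1 x) ≤ max 0 (min 1 y) := max_le_max le_rfl (min_le_min le_rfl hxy)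
    simp only [k]; nlinarith
  · rintro _ ⟨u, hu, rfl⟩
    have := intermediate_value_Icc (zero_le_one (α := ℝ)) hkc.continuousOn
      (show u ∈ Icc (k 0) (k 1) by simpa [k] using hu)
    obtain ⟨x, hx, rfl⟩ := this
    exact ⟨x, hx, rfl⟩

theorem var_le_of_dom {γ : ℝ → X} {G : ℝ → ℝ} {s t : ℝ}
    (h : ∀ u v, s ≤ u → u ≤ v → v ≤ t → dist (γ u) (γ v) ≤ G v - G u) :
    eVariationOn γ (Icc s t) ≤ ENNReal.ofReal (G t - G s) := by
  have hG : ∀ u v, s ≤ u → u ≤ v → v ≤ t → G u ≤ G v := fun u v h1 h2 h3 => by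
    linarith [h u v h1 h2 h3, dist_nonneg (x := γ u) (y := γ v)]
  refine iSup_le ?_
  rintro ⟨n, u, hu, hus⟩
  have key : ∀ m : ℕ, ∑ i ∈ Finset.range m, edist (γ (u (i + 1))) (γ (u i)) ≤
      ENNReal.ofReal (G (u m) - G (u 0)) := by
    intro m
    induction m with
    | zero => simp
    | succ m ih =>
      rw [Finset.sum_range_succ]
      have h1 := h (u m) (u (m + 1)) (hus m).1 (hu (Nat.le_succ m)) (hus _).2
      have h2 := hG (u 0) (u m) (hus 0).1 (hu (Nat.zero_le m)) (hus _).2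
      have h3 := hG (u m) (u (m + 1)) (hus m).1 (hu (Nat.le_succ m)) (hus _).2
      rw [edist_dist, dist_comm]
      calc _ ≤ ENNReal.ofReal (G (u m) - G (u 0)) +
            ENNReal.ofReal (G (u (m + 1)) - G (u m)) := add_le_add ih (ENNReal.ofReal_le_ofReal h1)
        _ = _ := by rw [← ENNReal.ofReal_add (by linarith) (by linarith)]; congr 1; ring
  refine (key n).trans (ENNReal.ofReal_le_ofReal ?_)
  linarith [hG s (u 0) le_rfl (hus 0).1 (hus 0).2, hG (u n) t (hus n).1 (hus n).2 le_rfl]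

/-- A continuous map whose increments are dominated by those of `G`. -/
theorem pth_of_dom {γ : ℝ → X} {G : ℝ → ℝ} {s t : ℝ} (hst : s ≤ t)
    (hc : ContinuousOn γ (Icc s t))
    (h : ∀ u v, s ≤ u → u ≤ v → v ≤ t → dist (γ u) (γ v) ≤ G v - G u) :
    Pth (γ s) (γ t) (G t - G s) (γ '' Icc s t) :=
  pth_of_var hst hc (dist_nonneg.trans (h s t le_rfl hst le_rfl)) (var_le_of_dom h)

/-- A Lipschitz map on an interval. -/
theorem pth_of_lip {γ : ℝ → X} {K s t : ℝ} (hst : s ≤ t)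
    (h : ∀ u v, s ≤ u → u ≤ v → v ≤ t → dist (γ u) (γ v) ≤ K * (v - u)) :
    Pth (γ s) (γ t) (K * (t - s)) (γ '' Icc s t) := by
  have hc : ContinuousOn γ (Icc s t) := by
    refine (LipschitzOnWith.of_dist_le' (K := K) fun u hu v hv => ?_).continuousOn
    rcases le_total u v with huv | huv
    · rw [Real.dist_eq, abs_sub_comm, abs_of_nonneg (by linarith)]
      exact h u v hu.1 huv hv.2
    · rw [Real.dist_eq, abs_of_nonneg (by linarith), dist_comm]
      exact h v u hv.1 huv hu.2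
  have := pth_of_dom (G := fun x => K * x) hst hc fun u v h1 h2 h3 => by
    have := h u v h1 h2 h3; linarith
  exact this.mono (le_of_eq (by ring)) le_rfl

theorem Seg.pth {g : ℝ → X} {l : ℝ} (h : Seg g l) : Pth (g 0) (g 1) l (g '' Icc 0 1) := by
  have := pth_of_lip (γ := g) (K := l) zero_le_one fun u v h1 h2 h3 => by
    rw [h u ⟨h1, h2.trans h3⟩ v ⟨h1.trans h2, h3⟩, abs_sub_comm, abs_of_nonneg (by linarith),
      mul_comm]
  simpa using this

theorem Geo.pth (h : Geo X) (a b : X) : Pth a b (dist a b) ∅ := by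
  obtain ⟨g, h0, h1, hg⟩ := h a b
  have := hg.pth
  rw [h0, h1] at this
  exact this.mono le_rfl (empty_subset _)

theorem Pth.refl (a : X) : Pth a a 0 {a} := by
  have := pth_of_lip (γ := fun _ : ℝ => a) (K := 0) zero_le_one fun u v _ _ _ => by simp
  refine this.mono (by simp) ?_
  rintro _ rfl
  exact ⟨0, ⟨le_rfl, zero_le_one⟩, rfl⟩

theorem Pth.symm {a b : X} {l : ℝ} {T : Set X} (h : Pth a b l T) : Pth b a l T := by
  obtain ⟨h0, γ, hc, hx, hy, hlen, hT⟩ := h
  refine ⟨h0, γ ∘ fun t => 1 - t, by fun_prop, by simpa using hy, by simpa using hx, ?_, ?_⟩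
  · refine le_trans (eVariationOn.comp_le_of_antitoneOn γ _ ?_ ?_) hlen
    · intro x _ y _ hxy; dsimp only; linarith
    · intro t ht; exact ⟨by linarith [ht.2], by linarith [ht.1]⟩
  · intro w hw
    obtain ⟨t, ht, rfl⟩ := hT hw
    exact ⟨1 - t, ⟨by linarith [ht.2], by linarith [ht.1]⟩, by simp⟩

theorem Pth.trans {x y z : X} {l l' : ℝ} {T T' : Set X} (h : Pth x y l T)
    (h' : Pth y z l' T') : Pth x z (l + l') (T ∪ T') := by
  obtain ⟨h0, γ, hc, hx, hy, hlen, hT⟩ := h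
  obtain ⟨h0', γ', hc', hx', hy', hlen', hT'⟩ := h'
  classical
  let g : ℝ → X := fun t => if t ≤ 1 / 2 then γ (2 * t) else γ' (2 * t - 1)
  have hg1 : ∀ t, t ≤ 1 / 2 → g t = γ (2 * t) := fun t ht => by simp only [g, if_pos ht]
  have hg2 : ∀ t, 1 / 2 ≤ t → g t = γ' (2 * t - 1) := fun t ht => by
    rcases ht.eq_or_lt with h | h
    · subst h
      rw [hg1 _ le_rfl]; norm_num [hy, hx']
    · simp only [g, if_neg (not_le.mpr h)]
  refine ⟨add_nonneg h0 h0', g, ?_, ?_, ?_, ?_, ?_⟩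
  · refine Continuous.if_le (by fun_prop) (by fun_prop) continuous_id continuous_const ?_
    intro t ht
    have ht' : t = 1 / 2 := ht
    subst ht'
    norm_num [hy, hx']
  · rw [hg1 0 (by norm_num)]; simpa using hx
  · rw [hg2 1 (by norm_num)]; norm_num [hy']
  · have e1 : eVariationOn g (Icc 0 (1 / 2)) ≤ eVariationOn γ (Icc 0 1) := by
      have : EqOn g (γ ∘ fun t => 2 * t) (Icc 0 (1 / 2)) := fun t ht => hg1 t ht.2
      rw [eVariationOn.eq_of_eqOn this]
      refine eVariationOn.comp_le_of_monotoneOn γ _ ?_ ?_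
      · intro a _ b _ hab; dsimp only; linarith
      · intro t ht; exact ⟨by linarith [ht.1], by linarith [ht.2]⟩
    have e2 : eVariationOn g (Icc (1 / 2) 1) ≤ eVariationOn γ' (Icc 0 1) := by
      have : EqOn g (γ' ∘ fun t => 2 * t - 1) (Icc (1 / 2) 1) := fun t ht => hg2 t ht.1
      rw [eVariationOn.eq_of_eqOn this]
      refine eVariationOn.comp_le_of_monotoneOn γ' _ ?_ ?_
      · intro a _ b _ hab; dsimp only; linarith
      · intro t ht; exact ⟨by linarith [ht.1], by linarith [ht.2]⟩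
    have e3 := eVariationOn.Icc_add_Icc g (s := univ) (a := (0 : ℝ)) (b := 1 / 2) (c := 1)
      (by norm_num) (by norm_num) (mem_univ _)
    simp only [univ_inter] at e3
    rw [← e3, ENNReal.ofReal_add h0 h0']
    exact add_le_add (e1.trans hlen) (e2.trans hlen')
  · rintro p (hp | hp)
    · obtain ⟨t, ht, rfl⟩ := hT hp
      refine ⟨t / 2, ⟨by linarith [ht.1], by linarith [ht.2]⟩, ?_⟩
      rw [hg1 _ (by linarith [ht.2])]; congr 1; ring
    · obtain ⟨t, ht, rfl⟩ := hT' hp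
      refine ⟨(t + 1) / 2, ⟨by linarith [ht.1], by linarith [ht.2]⟩, ?_⟩
      rw [hg2 _ (by linarith [ht.1])]; congr 1; ring

/-- The end points may be added to the trace. -/
theorem Pth.ends {a b : X} {l : ℝ} {T : Set X} (h : Pth a b l T) :
    Pth a b l (insert a (insert b T)) := by
  obtain ⟨h0, γ, hc, hx, hy, hlen, hT⟩ := h
  refine ⟨h0, γ, hc, hx, hy, hlen, ?_⟩
  rintro w (rfl | rfl | hw)
  · exact ⟨0, ⟨le_rfl, zero_le_one⟩, hx⟩
  · exact ⟨1, ⟨zero_le_one, le_rfl⟩, hy⟩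
  · exact hT hw

theorem Pth.dist_le {a b : X} {l : ℝ} {T : Set X} (h : Pth a b l T) : dist a b ≤ l := by
  obtain ⟨h0, γ, -, hx, hy, hlen, -⟩ := h
  have := (eVariationOn.edist_le γ (s := Icc 0 1) ⟨le_rfl, zero_le_one⟩
    ⟨zero_le_one, le_rfl⟩).trans hlen
  rw [hx, hy, edist_dist] at this
  exact (ENNReal.ofReal_le_ofReal_iff h0).1 this

/-- Cutting a path at a point of its trace. -/
theorem Pth.split {a b w : X} {l : ℝ} {T : Set X} (h : Pth a b l T) (hw : w ∈ T) :
    ∃ l₁ l₂ T₁ T₂, l₁ + l₂ = l ∧ T ⊆ T₁ ∪ T₂ ∧ Pth a w l₁ T₁ ∧ Pth w b l₂ T₂ := by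
  obtain ⟨h0, γ, hc, hx, hy, hlen, hT⟩ := h
  obtain ⟨t, ht, rfl⟩ := hT hw
  have e3 := eVariationOn.Icc_add_Icc γ (s := univ) (a := (0 : ℝ)) (b := t) (c := 1)
    ht.1 ht.2 (mem_univ _)
  simp only [univ_inter] at e3
  rw [← e3] at hlen
  have f1 : eVariationOn γ (Icc 0 t) ≠ ⊤ :=
    ne_top_of_le_ne_top ENNReal.ofReal_ne_top (le_self_add.trans hlen)
  set l₁ := (eVariationOn γ (Icc 0 t)).toReal with hl₁
  have g1 : eVariationOn γ (Icc 0 t) = ENNReal.ofReal l₁ := (ENNReal.ofReal_toReal f1).symm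
  have p1 : 0 ≤ l₁ := ENNReal.toReal_nonneg
  have p2 : l₁ ≤ l := by
    have := le_self_add.trans hlen
    rw [g1] at this
    exact (ENNReal.ofReal_le_ofReal_iff h0).1 this
  have g2 : eVariationOn γ (Icc t 1) ≤ ENNReal.ofReal (l - l₁) := by
    rw [ENNReal.ofReal_sub _ p1, ← g1]
    exact ENNReal.le_sub_of_add_le_left f1 hlen
  refine ⟨l₁, l - l₁, γ '' Icc 0 t, γ '' Icc t 1, by ring, ?_, ?_, ?_⟩
  · intro x hx
    obtain ⟨u, hu, rfl⟩ := hT hx
    rcases le_total u t with h | h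
    · exact Or.inl ⟨u, ⟨hu.1, h⟩, rfl⟩
    · exact Or.inr ⟨u, ⟨h, hu.2⟩, rfl⟩
  · rw [← hx]; exact pth_of_var ht.1 hc.continuousOn p1 g1.le
  · rw [← hy]; exact pth_of_var ht.2 hc.continuousOn (by linarith) g2

theorem Pth.dist_add_le {a b w : X} {l : ℝ} {T : Set X} (h : Pth a b l T) (hw : w ∈ T) :
    dist a w + dist w b ≤ l := by
  obtain ⟨l₁, l₂, T₁, T₂, hl, -, h1, h2⟩ := h.split hw
  linarith [h1.dist_le, h2.dist_le]

/-- A closed path may start at any point of its trace. -/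
theorem Pth.rebase {a w : X} {l : ℝ} {T : Set X} (h : Pth a a l T) (hw : w ∈ T) :
    Pth w w l T := by
  obtain ⟨l₁, l₂, T₁, T₂, hl, hT, h1, h2⟩ := h.split hw
  exact (h2.trans h1).mono (by linarith) (by rwa [union_comm])

/-- Inserting a closed path at a point of the trace. -/
theorem Pth.ins {a b w : X} {l l' : ℝ} {T T' : Set X} (h : Pth a b l T) (hw : w ∈ T)
    (h' : Pth w w l' T') : Pth a b (l + l') (T ∪ T') := by
  obtain ⟨l₁, l₂, T₁, T₂, hl, hT, h1, h2⟩ := h.split hw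
  refine ((h1.trans h').trans h2).mono (by linarith) ?_
  rintro x (hx | hx)
  · rcases hT hx with hx | hx
    · exact Or.inl (Or.inl hx)
    · exact Or.inr hx
  · exact Or.inl (Or.inr hx)

/-- Inserting finitely many closed paths. -/
theorem Pth.ins_finset {κ : Type} {a b : X} {l : ℝ} {T : Set X} (h : Pth a b l T) (F : Finset κ)
    (w : κ → X) (σ : κ → ℝ) (W : κ → Set X) (hw : ∀ k ∈ F, w k ∈ T)
    (h' : ∀ k ∈ F, Pth (w k) (w k) (σ k) (W k)) :
    Pth a b (l + ∑ k ∈ F, σ k) (T ∪ ⋃ k ∈ F, W k) := by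
  classical
  induction F using Finset.induction_on with
  | empty => simpa using h
  | insert k F hk ih =>
    have ih' := ih (fun i hi => hw i (Finset.mem_insert_of_mem hi))
      fun i hi => h' i (Finset.mem_insert_of_mem hi)
    refine (ih'.ins (Or.inl (hw k (Finset.mem_insert_self _ _)))
      (h' k (Finset.mem_insert_self _ _))).mono ?_ ?_
    · rw [Finset.sum_insert hk]; linarith
    · rw [Finset.set_biUnion_insert]
      rintro x (hx | hx | hx)
      · exact Or.inl (Or.inl hx)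
      · exact Or.inr hx
      · exact Or.inl (Or.inr hx)

/-- There and back. -/
theorem Pth.back {a b : X} {l : ℝ} {T : Set X} (h : Pth a b l T) : Pth a a (2 * l) T :=
  (h.trans h.symm).mono (by linarith) subset_union_left

theorem Pth.map {a b : X} {l : ℝ} {T : Set X} (h : Pth a b l T) {f : X → Y} {K : ℝ} (hK : 0 ≤ K)
    (hf : ∀ x y, dist (f x) (f y) ≤ K * dist x y) : Pth (f a) (f b) (K * l) (f '' T) := by
  obtain ⟨h0, γ, hc, hx, hy, hlen, hT⟩ := h
  have hL : LipschitzWith K.toNNReal f := LipschitzWith.of_dist_le' hf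
  refine ⟨mul_nonneg hK h0, f ∘ γ, hL.continuous.comp hc, by simp [hx], by simp [hy], ?_, ?_⟩
  · have := (hL.lipschitzOnWith (s := univ)).comp_eVariationOn_le (g := γ) (s := Icc (0 : ℝ) 1)
      (mapsTo_univ _ _)
    refine this.trans ?_
    rw [ENNReal.ofReal_mul hK]
    exact mul_le_mul_right hlen _
  · rintro _ ⟨w, hw, rfl⟩
    obtain ⟨t, ht, rfl⟩ := hT hw
    exact ⟨t, ht, rfl⟩

theorem Pth.map_one {a b : X} {l : ℝ} {T : Set X} (h : Pth a b l T) {f : X → Y}
    (hf : ∀ x y, dist (f x) (f y) ≤ dist x y) : Pth (f a) (f b) l (f '' T) := by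
  simpa using h.map (K := 1) zero_le_one (by simpa using hf)

/-! ### Loops -/

theorem Loops.mono {N N' L L' ρ ρ' : ℝ} {Ω Ω' : Set X} (h : Loops N L ρ Ω) (hN : N ≤ N')
    (hL : L ≤ L') (hρ : ρ ≤ ρ') (hΩ : Ω' ⊆ Ω) : Loops N' L' ρ' Ω' := by
  obtain ⟨m, h1, h2, h3, h4⟩ := h
  refine ⟨m, h1, h2.trans hN, h3.trans hL, fun x hx => ?_⟩
  obtain ⟨q, hq, w, hw, hd⟩ := h4 x (hΩ hx)
  exact ⟨q, hq, w, hw, hd.trans hρ⟩

theorem Loops.empty (ρ : ℝ) : Loops 0 0 ρ (∅ : Set X) :=
  ⟨[], by simp, by simp, by simp, by simp⟩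

theorem Loops.single {a : X} {l ρ : ℝ} {T Ω : Set X} (h : Pth a a l T)
    (hΩ : ∀ x ∈ Ω, ∃ w ∈ T, dist x w ≤ ρ) : Loops 1 l ρ Ω :=
  ⟨[(a, l, T)], by simpa using h, by simp, by simp, by simpa using hΩ⟩

theorem Loops.union {N N' L L' ρ : ℝ} {Ω Ω' : Set X} (h : Loops N L ρ Ω)
    (h' : Loops N' L' ρ Ω') : Loops (N + N') (L + L') ρ (Ω ∪ Ω') := by
  obtain ⟨m, h1, h2, h3, h4⟩ := h
  obtain ⟨m', h1', h2', h3', h4'⟩ := h'
  refine ⟨m ++ m', ?_, ?_, ?_, ?_⟩
  · intro q hq
    rcases List.mem_append.1 hq with hq | hq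
    · exact h1 q hq
    · exact h1' q hq
  · rw [List.length_append]; push_cast; linarith
  · rw [List.map_append, List.sum_append]; linarith
  · rintro x (hx | hx)
    · obtain ⟨q, hq, hw⟩ := h4 x hx
      exact ⟨q, List.mem_append_left _ hq, hw⟩
    · obtain ⟨q, hq, hw⟩ := h4' x hx
      exact ⟨q, List.mem_append_right _ hq, hw⟩

theorem Loops.biUnion {κ : Type} (F : Finset κ) {N L : κ → ℝ} {ρ : ℝ} {Ω : κ → Set X}
    (h : ∀ k ∈ F, Loops (N k) (L k) ρ (Ω k)) :
    Loops (∑ k ∈ F, N k) (∑ k ∈ F, L k) ρ (⋃ k ∈ F, Ω k) := by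
  classical
  induction F using Finset.induction_on with
  | empty => simpa using Loops.empty ρ
  | insert k F hk ih =>
    rw [Finset.sum_insert hk, Finset.sum_insert hk, Finset.set_biUnion_insert]
    exact (h k (Finset.mem_insert_self _ _)).union
      (ih fun i hi => h i (Finset.mem_insert_of_mem hi))

theorem Loops.map {N L ρ : ℝ} {Ω : Set X} (h : Loops N L ρ Ω) {f : X → Y}
    (hf : ∀ x y, dist (f x) (f y) ≤ dist x y) : Loops N L ρ (f '' Ω) := by
  obtain ⟨m, h1, h2, h3, h4⟩ := h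
  refine ⟨m.map fun q => (f q.1, q.2.1, f '' q.2.2), ?_, by simpa using h2, ?_, ?_⟩
  · intro q hq
    obtain ⟨q', hq', rfl⟩ := List.mem_map.1 hq
    exact (h1 q' hq').map_one hf
  · rw [List.map_map]; exact h3
  · rintro _ ⟨x, hx, rfl⟩
    obtain ⟨q, hq, w, hw, hd⟩ := h4 x hx
    exact ⟨_, List.mem_map.2 ⟨q, hq, rfl⟩, f w, ⟨w, hw, rfl⟩, (hf _ _).trans hd⟩

/-! ### Paths inside a subset of the space -/

theorem conn_symm {S : Set E3} {x y : E3} {l : ℝ} {T : Set E3} (h : Conn S x y l T) :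
    Conn S y x l T := by
  obtain ⟨h0, γ, hc, hm, hx, hy, hlen, hT⟩ := h
  refine ⟨h0, γ ∘ fun t => 1 - t, by fun_prop, ?_, by simpa using hy, by simpa using hx, ?_, ?_⟩
  · intro t ht; exact hm ⟨by linarith [ht.2], by linarith [ht.1]⟩
  · refine le_trans (eVariationOn.comp_le_of_antitoneOn γ _ ?_ ?_) hlen
    · intro x _ y _ hxy; dsimp only; linarith
    · intro t ht; exact ⟨by linarith [ht.2], by linarith [ht.1]⟩
  · intro w hw
    obtain ⟨t, ht, rfl⟩ := hT hw
    exact ⟨1 - t, ⟨by linarith [ht.2], by linarith [ht.1]⟩, by simp⟩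

/-- A continuous map on an interval, with values in `S` and bounded variation. -/
theorem conn_of_var {S : Set E3} {γ : ℝ → E3} {s t l : ℝ} (hst : s ≤ t)
    (hc : ContinuousOn γ (Icc s t)) (hm : MapsTo γ (Icc s t) S) (hl : 0 ≤ l)
    (hv : eVariationOn γ (Icc s t) ≤ ENNReal.ofReal l) :
    Conn S (γ s) (γ t) l (γ '' Icc s t) := by
  let k : ℝ → ℝ := fun x => s + (t - s) * max 0 (min 1 x)
  have hk : ∀ x, k x ∈ Icc s t := fun x => by
    have h1 : 0 ≤ max 0 (min 1 x) := le_max_left _ _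
    have h2 : max 0 (min 1 x) ≤ 1 := max_le zero_le_one (min_le_left _ _)
    constructor
    · simp only [k]; nlinarith
    · simp only [k]; nlinarith
  have hkc : Continuous k := by fun_prop
  refine ⟨hl, γ ∘ k, hc.comp_continuous hkc hk, fun x _ => hm (hk x), by simp [k], by simp [k],
    ?_, ?_⟩
  · refine le_trans (eVariationOn.comp_le_of_monotoneOn γ k ?_ fun x _ => hk x) hv
    intro x _ y _ hxy
    have : max 0 (min 1 x) ≤ max 0 (min 1 y) := max_le_max le_rfl (min_le_min le_rfl hxy)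
    simp only [k]; nlinarith
  · rintro _ ⟨u, hu, rfl⟩
    have := intermediate_value_Icc (zero_le_one (α := ℝ)) hkc.continuousOn
      (show u ∈ Icc (k 0) (k 1) by simpa [k] using hu)
    obtain ⟨x, hx, rfl⟩ := this
    exact ⟨x, hx, rfl⟩

/-- A straight segment inside `S`. -/
theorem conn_line {S : Set E3} {x y : E3} (h : ∀ t ∈ Icc (0 : ℝ) 1, x + t • (y - x) ∈ S) :
    Conn S x y ‖x - y‖ ∅ := by
  have := conn_segment (S := S) (F := id) continuous_id (p := x) (q := y) (l := ‖x - y‖)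
    (by
      intro u hu
      rw [segment_eq_image'] at hu
      obtain ⟨t, ht, rfl⟩ := hu
      exact h t ht) (norm_nonneg _)
    (by
      intro s _ t _
      simp only [id]
      rw [show x + s • (y - x) - (x + t • (y - x)) = (s - t) • (y - x) by module, norm_smul,
        Real.norm_eq_abs, norm_sub_rev, mul_comm])
  exact this.mono le_rfl (empty_subset _)

/-- An intrinsic distance below `l` is witnessed by a path. -/
theorem conn_of_lt {S : Set E3} {x y : E3} {l : ℝ}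
    (h : intrinsicDist S x y < ENNReal.ofReal l) : Conn S x y l ∅ := by
  simp only [intrinsicDist, iInf_lt_iff] at h
  obtain ⟨γ, ⟨⟨hc, hm⟩, hx, hy⟩, hl⟩ := h
  have h0 : 0 ≤ l := by
    by_contra hn
    rw [ENNReal.ofReal_of_nonpos (le_of_not_ge hn)] at hl
    exact not_lt_of_ge zero_le hl
  have := conn_of_var zero_le_one hc hm h0 hl.le
  rw [hx, hy] at this
  exact this.mono le_rfl (empty_subset _)

/-! ### Models -/

namespace Model

variable {S : Set E3} {ι : X → E3}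

theorem mem (h : Model S ι) (a : X) : ι a ∈ S := h.range ▸ mem_range_self a

theorem surj (h : Model S ι) {x : E3} (hx : x ∈ S) : ∃ a, ι a = x := by
  rw [← h.range] at hx; exact hx

theorem norm_le (h : Model S ι) (a b : X) : ‖ι a - ι b‖ ≤ Dist.dist a b := by
  have := edist_le_intrinsicDist S (ι a) (ι b)
  rw [← h.dist, edist_dist, dist_eq_norm] at this
  exact (ENNReal.ofReal_le_ofReal_iff dist_nonneg).1 this

theorem continuous (h : Model S ι) : Continuous ι :=
  (LipschitzWith.of_dist_le' (K := 1) fun a b => by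
    rw [one_mul, dist_eq_norm]; exact h.norm_le a b).continuous

theorem dist_le (h : Model S ι) {a b : X} {l : ℝ} {T : Set E3} (hc : Conn S (ι a) (ι b) l T) :
    Dist.dist a b ≤ l := by
  have := hc.intrinsicDist_le
  rw [← h.dist] at this
  exact (ENNReal.ofReal_le_ofReal_iff hc.1).1 this

theorem conn (h : Model S ι) {a b : X} {l : ℝ} (hl : Dist.dist a b < l) :
    Conn S (ι a) (ι b) l ∅ := by
  refine conn_of_lt ?_
  rw [← h.dist]
  exact (ENNReal.ofReal_lt_ofReal_iff (dist_nonneg.trans_lt hl)).2 hl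

theorem conn_of_pth (h : Model S ι) {a b : X} {l : ℝ} {T : Set X} (hp : Pth a b l T) :
    Conn S (ι a) (ι b) l (ι '' T) := by
  obtain ⟨h0, γ, hc, hx, hy, hlen, hT⟩ := hp
  have hL : LipschitzWith 1 ι := LipschitzWith.of_dist_le_mul fun a b => by
    rw [NNReal.coe_one, one_mul, dist_eq_norm]; exact h.norm_le a b
  refine ⟨h0, ι ∘ γ, hL.continuous.comp hc, fun t _ => h.mem _, by simp [hx], by simp [hy],
    ?_, ?_⟩
  · have := (hL.lipschitzOnWith (s := univ)).comp_eVariationOn_le (g := γ) (s := Icc (0 : ℝ) 1)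
      (mapsTo_univ _ _)
    refine this.trans ?_
    simpa using hlen
  · rintro _ ⟨w, hw, rfl⟩
    obtain ⟨t, ht, rfl⟩ := hT hw
    exact ⟨t, ht, rfl⟩

end Model

end Pool.Agent.Lib.ED
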